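import Pool.Agent.Helper77.R1.Pow
import Pool.Agent.Helper90.R1.MainR
import Pool.Agent.Helper90.FC.Iter

/-!
# Project R1: finite generation of cohomology along quotients of rank one
-/

set_option linter.unusedSectionVars false
set_option autoImplicit false

open CategoryTheory CategoryTheory.Abelian CategoryTheory.Limits DirectSum
open scoped ModuleCat TensorProduct
open Pool.Agent.Helper59.FG Pool.Agent.Helper90.FC Pool.Agent.Helper90.R1

namespace Pool.Agent.Helper77.R1

universe u

section

variable {k : Type u} [Field k] {B C : Type u} [Ring B] [Ring C] [HopfAlgebra k B]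
variable [HopfAlgebra k C]

theorem nontrivial_of_hopf (k : Type u) [Field k] (B : Type u) [Ring B] [HopfAlgebra k B] :
    Nontrivial B := by
  refine ⟨⟨0, 1, fun h => ?_⟩⟩
  have h1 := congrArg (Coalgebra.counit (R := k)) h
  rw [map_zero, Bialgebra.counit_one] at h1
  exact zero_ne_one h1

/-- Bijective homomorphisms. -/
theorem fgc_bij [Module.Finite k B] (π : B →ₐc[k] C) (hs : Function.Surjective π)
    (hi : Function.Injective π) (hC : FGC k C) : FGC k B := by
  have := nontrivial_of_hopf k B
  refine central (A := k) (Bialgebra.unitBialgHom k B) π ⟨?_, hs, ?_, ?_⟩ hC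
  · exact (algebraMap k B).injective
  · intro a b
    exact Algebra.commutes a b
  · intro b
    have h1 : (Bialgebra.unitBialgHom k B) '' {a : k | Coalgebra.counit (R := k) a = 0} = {0} := by
      ext x
      constructor
      · rintro ⟨a, ha, rfl⟩
        have ha' : a = 0 := ha
        rw [ha', map_zero]
        rfl
      · rintro rfl
        exact ⟨0, map_zero _, map_zero _⟩
    rw [h1, Ideal.span_singleton_zero, Ideal.mem_bot]
    exact map_eq_zero_iff π hi

theorem rdata_pos [Module.Finite k B] {N : ℕ} {π : B →ₐc[k] C} (R : RData N π) : N ≠ 0 := by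
  rintro rfl
  have h1 := R.dim
  rw [zero_mul] at h1
  have := nontrivial_of_hopf k B
  exact absurd h1 (Module.finrank_pos).ne'

/-- `N = 1`. -/
theorem fgc_one [Module.Finite k B] {π : B →ₐc[k] C} (R : RData 1 π) (hC : FGC k C) :
    FGC k B := by
  refine fgc_bij π R.surj ?_ hC
  rw [injective_iff_map_eq_zero]
  intro b hb
  obtain ⟨b', rfl⟩ := (R.ker b).1 hb
  have h := R.nilp
  rw [pow_one] at h
  rw [h, mul_zero]

/-- Characteristic `p`. -/
theorem fgc_p [Module.Finite k B] (p : ℕ) [Fact p.Prime] [CharP k p] {N : ℕ} {π : B →ₐc[k] C}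
    (R : RData N π) (hC : FGC k C) : FGC k B := by
  have hfC : Module.Finite k C := finite_of_surj' π R.surj
  obtain ⟨s, hN⟩ := rdata_pow p R
  rcases Nat.eq_zero_or_pos s with rfl | hs
  · rw [pow_zero] at hN
    subst hN
    exact fgc_one R hC
  · have hp : 2 ≤ p := (Fact.out : p.Prime).two_le
    have hN2 : 2 ≤ N := by
      rw [hN]
      calc 2 ≤ p := hp
        _ = p ^ 1 := (pow_one p).symm
        _ ≤ p ^ s := Nat.pow_le_pow_right (by omega) hs
    obtain ⟨ch⟩ := exists_chainR p s hs hN R
    exact fgc_of_fge (main_R R hN2 hp (fge_of_fgc hC) ch)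

/-- Characteristic zero. -/
theorem rdata_zero [Module.Finite k B] [Module.Finite k C] [CharZero k] {N : ℕ}
    {π : B →ₐc[k] C} (R : RData N π) : N = 1 := by
  by_contra h
  have h0 := rdata_pos R
  have hN : 2 ≤ N := by omega
  obtain ⟨K⟩ := exists_coef R
  have h1 := lf_comul K hN 1 (N - 1) (by omega) (by omega)
  rw [show 1 + (N - 1) = N by omega, R.nilp, map_zero, map_zero, map_zero, Nat.choose_one_right] at h1
  exact absurd h1.symm (Nat.cast_ne_zero.2 h0)

/-- Any field. -/
theorem fgc_rdata [Module.Finite k B] {N : ℕ} {π : B →ₐc[k] C} (R : RData N π)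
    (hC : FGC k C) : FGC k B := by
  have hfC : Module.Finite k C := finite_of_surj' π R.surj
  obtain ⟨p, hp⟩ := CharP.exists k
  rcases CharP.char_is_prime_or_zero k p with h | rfl
  · have : Fact p.Prime := ⟨h⟩
    exact fgc_p p R hC
  · have : CharZero k := CharP.charP_to_charZero k
    have h1 := rdata_zero R
    subst h1
    exact fgc_one R hC

end

end Pool.Agent.Helper77.R1
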