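import Pool.Agent.Helper77.R1.Key

/-!
# Project R1, part B4: `Psi (RR y ^ (p-1) y)` is a coboundary

`E` is any bialgebra here. For an even cocycle `κ ∈ T(E)` and odd cocycles `θ`, `θ₁` consider
`a_0 = 0`, `a_(n+1) = ∑_{i<n} κ^i θ κ^(n-1-i) + n θ₁ κ^n + κ a_n`. Since
`κ θ - θ κ = dd (RR θ κ)`, modulo coboundaries `a_(n+2) = c_(n+2) (κ^n θ + κ^(n+1) θ₁)` with
`c_n = n (n-1) / 2`, and `c_p = 0` in characteristic `p` odd.
-/

set_option linter.unusedSectionVars false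
set_option autoImplicit false

open scoped TensorProduct
open Pool.Agent.Helper90.FC

namespace Pool.Agent.Helper77.R1

universe u

section

variable {k : Type u} [Field k] {E : Type u} [Ring E] [Bialgebra k E]

theorem Tn_mul_mem {n m : ℕ} {f g : TA k E} (hf : f ∈ Tn k E n) (hg : g ∈ Tn k E m) :
    f * g ∈ Tn k E (n + m) := by
  rw [Tn, pow_add]
  exact Submodule.mul_mem_mul hf hg

private theorem R1B4a_sg {q : ℕ} (hq : Even q) {κ : TA k E} (hκ : κ ∈ Tn k E q) :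
    sg k E κ = κ := by
  rw [sg_Tn k E q κ hκ, hq.neg_one_pow, one_smul]

private theorem R1B4a_pow_mem {q : ℕ} {κ : TA k E} (hκ : κ ∈ Tn k E q) (i : ℕ) :
    κ ^ i ∈ Tn k E (q * i) := by
  rw [Tn, pow_mul]
  exact Submodule.pow_mem_pow _ hκ i

private theorem R1B4a_dd_pow {κ : TA k E} (hs : sg k E κ = κ) (hd : dd k E κ = 0) (i : ℕ) :
    dd k E (κ ^ i) = 0 := by
  induction i with
  | zero =>
    have h := dd_mul k E (1 : TA k E) 1
    rw [mul_one, map_one (sg k E), one_mul, mul_one] at h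
    rw [pow_zero]
    exact left_eq_add.mp h
  | succ i ih => rw [pow_succ, dd_mul, ih, hd, mul_zero, zero_mul, add_zero]

/-- Products of a coboundary and cocycles of even degree (on both sides). `q` even:
`κ^i (dd g) κ^j = dd (κ^i g κ^j)`. -/
theorem bd_mul {q d i j : ℕ} (hq : Even q) {κ g : TA k E} (hκ : κ ∈ Tn k E q)
    (hd : dd k E κ = 0) (hg : g ∈ Tn k E d) :
    ∃ g' ∈ Tn k E (q * (i + j) + d), κ ^ i * dd k E g * κ ^ j = dd k E g' := by
  have hs := R1B4a_sg hq hκ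
  refine ⟨κ ^ i * g * κ ^ j, ?_, ?_⟩
  · have h := Tn_mul_mem (Tn_mul_mem (R1B4a_pow_mem hκ i) hg) (R1B4a_pow_mem hκ j)
    have e : q * i + d + q * j = q * (i + j) + d := by ring
    rwa [e] at h
  · rw [dd_mul, dd_mul, R1B4a_dd_pow hs hd, R1B4a_dd_pow hs hd, map_pow, hs]
    simp

/-- `κ θ - θ κ = dd (RR θ κ)` by `homotopy` (`sg θ = - θ`, `sg κ = κ`), `RR θ κ` of degree
`q + r - 1`. -/
theorem kap_comm {q r : ℕ} (hq : Even q) (hr : Even r) {κ θ : TA k E} (hκ : κ ∈ Tn k E q)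
    (hd : dd k E κ = 0) (hθ : θ ∈ Tn k E (r + 1)) (hdθ : dd k E θ = 0) :
    ∃ g ∈ Tn k E (q + r), κ * θ - θ * κ = dd k E g := by
  have hsκ := R1B4a_sg hq hκ
  have hsθ : sg k E θ = -θ := by
    rw [sg_Tn k E (r + 1) θ hθ, hr.add_one.neg_one_pow, neg_one_smul]
  refine ⟨RR k E θ κ, RR_Tn k E r q θ κ hθ hκ, ?_⟩
  have h := homotopy k E θ hdθ hsθ κ
  rw [hd, map_zero, sub_zero, hsκ] at h
  rw [h]
  abel

/-- `κ^i θ κ^j - κ^(i+j) θ` is a coboundary (induction on `j`). -/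
theorem kap_move {q r : ℕ} (hq : Even q) (hr : Even r) {κ θ : TA k E} (hκ : κ ∈ Tn k E q)
    (hd : dd k E κ = 0) (hθ : θ ∈ Tn k E (r + 1)) (hdθ : dd k E θ = 0) (i j : ℕ) :
    ∃ g ∈ Tn k E (q * (i + j) + r), κ ^ i * θ * κ ^ j - κ ^ (i + j) * θ = dd k E g := by
  induction j with
  | zero =>
    refine ⟨0, zero_mem _, ?_⟩
    rw [pow_zero, mul_one, add_zero, sub_self, map_zero]
  | succ j ih =>
    obtain ⟨g, hg, hge⟩ := ih
    obtain ⟨g₁, hg₁, hge₁⟩ := kap_comm hq hr hκ hd hθ hdθ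
    obtain ⟨g₂, hg₂, hge₂⟩ := bd_mul (i := 0) (j := 1) hq hκ hd hg
    obtain ⟨g₃, hg₃, hge₃⟩ := bd_mul (i := i + j) (j := 0) hq hκ hd hg₁
    refine ⟨g₂ - g₃, sub_mem ?_ ?_, ?_⟩
    · have e : q * (0 + 1) + (q * (i + j) + r) = q * (i + (j + 1)) + r := by ring
      rwa [e] at hg₂
    · have e : q * (i + j + 0) + (q + r) = q * (i + (j + 1)) + r := by ring
      rwa [e] at hg₃
    · rw [map_sub, ← hge₂, ← hge₃, ← hge, ← hge₁, pow_zero, one_mul, pow_one, mul_one,
        ← add_assoc i j 1, pow_succ κ (i + j), pow_succ κ j]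
      simp only [sub_mul, mul_sub, mul_assoc]
      abel

/-- The sequence `a_n`. -/
noncomputable def aseq (κ θ θ₁ : TA k E) : ℕ → TA k E
  | 0 => 0
  | n + 1 => (∑ i ∈ Finset.range n, κ ^ i * θ * κ ^ (n - 1 - i)) + (n : k) • (θ₁ * κ ^ n) +
      κ * aseq κ θ θ₁ n

/-- Modulo coboundaries, `a_(n+2) = ((n+2)(n+1)/2) (κ^n θ + κ^(n+1) θ₁)`; degrees: `κ` of degree
`q = r + 2`... : `θ₁` of degree `r + 1`, `κ` of degree `r + 2`, `θ` of degree `2 r + 3`
(`q = r + 2`, `2 q - 1 = 2 r + 3`, `q - 1 = r + 1`), `r` even; `a_(n+2)` has degree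
`(n+2) q - 1`. Induction on `n` with `kap_move`, `bd_mul`; `a_2 = θ + θ₁ κ + κ a_1`, `a_1 = 0`. The
binomial coefficient: `choose (n+3) 2 = choose (n+2) 2 + (n+2)`. -/
theorem aseq_eq {r : ℕ} (hr : Even r) {κ θ θ₁ : TA k E} (hκ : κ ∈ Tn k E (r + 2))
    (hd : dd k E κ = 0) (hθ : θ ∈ Tn k E (2 * r + 3)) (hdθ : dd k E θ = 0)
    (hθ₁ : θ₁ ∈ Tn k E (r + 1)) (hdθ₁ : dd k E θ₁ = 0) (n : ℕ) :
    ∃ g ∈ Tn k E ((r + 2) * n + 2 * r + 2), aseq κ θ θ₁ (n + 2) =
      (((n + 2).choose 2 : ℕ) : k) • (κ ^ n * θ + κ ^ (n + 1) * θ₁) + dd k E g := by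
  have hq : Even (r + 2) := hr.add (by decide)
  have hr' : Even (2 * r + 2) := ⟨r + 1, by ring⟩
  induction n with
  | zero =>
    obtain ⟨g, hg, hge⟩ := kap_comm hq hr hκ hd hθ₁ hdθ₁
    refine ⟨-g, neg_mem ?_, ?_⟩
    · have e : (r + 2) * 0 + 2 * r + 2 = r + 2 + r := by ring
      rw [e]; exact hg
    · have e : aseq κ θ θ₁ (0 + 2) = θ + θ₁ * κ := by simp [aseq]
      rw [map_neg, ← hge, e, zero_add, Nat.choose_self, Nat.cast_one, one_smul, pow_zero,
        one_mul, zero_add, pow_one]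
      abel
  | succ n ih =>
    obtain ⟨g, hg, hge⟩ := ih
    obtain ⟨g₁, hg₁, hge₁⟩ := bd_mul (i := 1) (j := 0) hq hκ hd hg
    obtain ⟨g₂, hg₂, hge₂⟩ := kap_move hq hr hκ hd hθ₁ hdθ₁ 0 (n + 2)
    have hsum : ∀ i ∈ Finset.range (n + 2), ∃ h ∈ Tn k E ((r + 2) * (n + 1) + 2 * r + 2),
        κ ^ i * θ * κ ^ (n + 2 - 1 - i) - κ ^ (n + 1) * θ = dd k E h := by
      intro i hi
      rw [Finset.mem_range] at hi
      obtain ⟨h, hh, hhe⟩ := kap_move (r := 2 * r + 2) hq hr' hκ hd hθ hdθ i (n + 2 - 1 - i)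
      have e : i + (n + 2 - 1 - i) = n + 1 := by omega
      rw [e] at hh hhe
      exact ⟨h, hh, hhe⟩
    choose! H hH hHe using hsum
    refine ⟨g₁ + ∑ i ∈ Finset.range (n + 2), H i + ((n + 2 : ℕ) : k) • g₂, ?_, ?_⟩
    · refine add_mem (add_mem ?_ (sum_mem fun i hi => hH i hi)) (Submodule.smul_mem _ _ ?_)
      · have e : (r + 2) * (1 + 0) + ((r + 2) * n + 2 * r + 2) =
            (r + 2) * (n + 1) + 2 * r + 2 := by ring
        rw [← e]; exact hg₁
      · have e : (r + 2) * (0 + (n + 2)) + r = (r + 2) * (n + 1) + 2 * r + 2 := by ring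
        rw [← e]; exact hg₂
    · have e1 : aseq κ θ θ₁ (n + 1 + 2) =
          (∑ i ∈ Finset.range (n + 2), κ ^ i * θ * κ ^ (n + 2 - 1 - i)) +
            ((n + 2 : ℕ) : k) • (θ₁ * κ ^ (n + 2)) + κ * aseq κ θ θ₁ (n + 2) := rfl
      have e2 : (∑ i ∈ Finset.range (n + 2), κ ^ i * θ * κ ^ (n + 2 - 1 - i)) =
          ((n + 2 : ℕ) : k) • (κ ^ (n + 1) * θ) + dd k E (∑ i ∈ Finset.range (n + 2), H i) := by
        rw [map_sum, ← Finset.sum_congr rfl hHe, Finset.sum_sub_distrib, Finset.sum_const,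
          Finset.card_range, ← Nat.cast_smul_eq_nsmul k]
        abel
      have e3 : θ₁ * κ ^ (n + 2) = κ ^ (n + 2) * θ₁ + dd k E g₂ := by
        rw [← hge₂, pow_zero, one_mul, zero_add]
        abel
      have e4 : κ * aseq κ θ θ₁ (n + 2) =
          (((n + 2).choose 2 : ℕ) : k) • (κ ^ (n + 1) * θ + κ ^ (n + 2) * θ₁) + dd k E g₁ := by
        rw [hge, ← hge₁, mul_add, mul_smul_comm, mul_add, pow_one, pow_zero, mul_one,
          ← mul_assoc, ← mul_assoc, ← pow_succ', ← pow_succ']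
      have e5 : (((n + 1 + 2).choose 2 : ℕ) : k) =
          (((n + 2).choose 2 : ℕ) : k) + ((n + 2 : ℕ) : k) := by
        have : (n + 1 + 2).choose 2 = (n + 2).choose 1 + (n + 2).choose 2 := rfl
        rw [this, Nat.choose_one_right, Nat.cast_add, add_comm]
      rw [e1, e2, e3, e4, e5, map_add, map_add, map_smul, smul_add, add_smul, smul_add, smul_add]
      abel

/-- For an odd prime `p`: `a_p` is a coboundary. -/
theorem aseq_bd (p : ℕ) [Fact p.Prime] [CharP k p] (hp : p ≠ 2) {r : ℕ} (hr : Even r)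
    {κ θ θ₁ : TA k E} (hκ : κ ∈ Tn k E (r + 2))
    (hd : dd k E κ = 0) (hθ : θ ∈ Tn k E (2 * r + 3)) (hdθ : dd k E θ = 0)
    (hθ₁ : θ₁ ∈ Tn k E (r + 1)) (hdθ₁ : dd k E θ₁ = 0) :
    ∃ g, g ∈ Tn k E ((r + 2) * p - 2) ∧ aseq κ θ θ₁ p = dd k E g := by
  have hpp : p.Prime := Fact.out
  obtain ⟨n, rfl⟩ : ∃ n, p = n + 2 := ⟨p - 2, by have := hpp.two_le; omega⟩
  obtain ⟨g, hg, hge⟩ := aseq_eq hr hκ hd hθ hdθ hθ₁ hdθ₁ n
  refine ⟨g, ?_, ?_⟩
  · have e : (r + 2) * (n + 2) - 2 = (r + 2) * n + 2 * r + 2 := by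
      have : (r + 2) * (n + 2) = (r + 2) * n + 2 * r + 4 := by ring
      omega
    rw [e]; exact hg
  · have h0 : (((n + 2).choose 2 : ℕ) : k) = 0 := by
      rw [CharP.cast_eq_zero_iff k (n + 2)]
      exact hpp.dvd_choose_self (by norm_num) (by omega)
    rw [hge, h0, zero_smul, zero_add]

end

section

open WithConv

variable (k : Type u) [Field k] (H : Type u) [Ring H] [Bialgebra k H]

/-- Composition with a linear map on the convolution algebra (copied from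
`Helper90/FC/CobH.lean`, as are the following lemmas). -/
private noncomputable def R1B4c_post (f : TA k H →ₗ[k] TA k H) :
    WithConv (H →ₗ[k] TA k H) →ₗ[k] WithConv (H →ₗ[k] TA k H) where
  toFun g := toConv (f ∘ₗ g.ofConv)
  map_add' g h := by
    apply WithConv.ofConv_injective
    ext a
    simp
  map_smul' c g := by
    apply WithConv.ofConv_injective
    ext a
    simp

private theorem R1B4c_post_apply (f : TA k H →ₗ[k] TA k H) (g : WithConv (H →ₗ[k] TA k H))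
    (a : H) : (R1B4c_post k H f g) a = f (g a) := rfl

private theorem R1B4c_mul_apply {ι : Type*} {a : H} (R : Coalgebra.Repr k a ι)
    (f g : WithConv (H →ₗ[k] TA k H)) :
    (f * g) a = ∑ i ∈ R.index, f (R.left i) * g (R.right i) := by
  simp [LinearMap.convMul_def, ← R.eq]

private theorem R1B4c_ext {f g : WithConv (H →ₗ[k] TA k H)} (h : ∀ a : H, f a = g a) :
    f = g := by
  apply WithConv.ofConv_injective
  ext a
  exact h a

private theorem R1B4c_post_dd_mul (f g : WithConv (H →ₗ[k] TA k H)) :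
    R1B4c_post k H (dd k H) (f * g) =
      R1B4c_post k H (sg k H).toLinearMap f * R1B4c_post k H (dd k H) g +
      R1B4c_post k H (dd k H) f * g := by
  refine R1B4c_ext k H fun a => ?_
  have R := Coalgebra.Repr.arbitrary k a
  rw [R1B4c_post_apply, R1B4c_mul_apply k H R, map_sum]
  have h : (R1B4c_post k H (sg k H).toLinearMap f * R1B4c_post k H (dd k H) g +
      R1B4c_post k H (dd k H) f * g) a = (R1B4c_post k H (sg k H).toLinearMap f *
        R1B4c_post k H (dd k H) g) a + (R1B4c_post k H (dd k H) f * g) a := rfl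
  rw [h, R1B4c_mul_apply k H R, R1B4c_mul_apply k H R, ← Finset.sum_add_distrib]
  refine Finset.sum_congr rfl fun i _ => ?_
  rw [dd_mul]
  rfl

private theorem R1B4c_ph_io (a b : H) : (ph k H (io k b)) a = io k (a * b) :=
  actT_io k H a b

/-- The sign automorphism and the action commute. -/
private theorem R1B4c_post_sg_ph (w : TA k H) :
    R1B4c_post k H (sg k H).toLinearMap (ph k H w) = ph k H (sg k H w) := by
  have hmul : ∀ f g : WithConv (H →ₗ[k] TA k H), R1B4c_post k H (sg k H).toLinearMap (f * g) =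
      R1B4c_post k H (sg k H).toLinearMap f * R1B4c_post k H (sg k H).toLinearMap g := by
    intro f g
    refine R1B4c_ext k H fun a => ?_
    have R := Coalgebra.Repr.arbitrary k a
    rw [R1B4c_post_apply, R1B4c_mul_apply k H R, R1B4c_mul_apply k H R, map_sum]
    refine Finset.sum_congr rfl fun i _ => ?_
    exact map_mul (sg k H) _ _
  have hone : R1B4c_post k H (sg k H).toLinearMap (1 : WithConv (H →ₗ[k] TA k H)) = 1 := by
    refine R1B4c_ext k H fun a => ?_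
    exact (sg k H).commutes _
  let P : WithConv (H →ₗ[k] TA k H) →ₐ[k] WithConv (H →ₗ[k] TA k H) :=
    AlgHom.ofLinearMap (R1B4c_post k H (sg k H).toLinearMap) hone hmul
  have h : P.comp (ph k H) = (ph k H).comp (sg k H) := by
    refine TensorAlgebra.hom_ext (LinearMap.ext fun b => R1B4c_ext k H fun a => ?_)
    change sg k H ((ph k H (io k b)) a) = (ph k H (sg k H (io k b))) a
    rw [R1B4c_ph_io, sg_io, sg_io, map_neg]
    change _ = -((ph k H (io k b)) a)
    rw [R1B4c_ph_io]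
  exact DFunLike.congr_fun h w

/-- The element `θ`. -/
private noncomputable def R1B4c_Th : WithConv (H →ₗ[k] TA k H) :=
  toConv (LinearMap.toSpanSingleton k (TA k H) (io k 1) ∘ₗ Coalgebra.counit - TensorAlgebra.ι k)

private theorem R1B4c_Th_apply (a : H) :
    (R1B4c_Th k H) a = Coalgebra.counit (R := k) a • io k 1 - io k a := rfl

/-- the sum `∑ f(a₁) ε(a₂)`. -/
private theorem R1B4c_sum_counit {ι : Type*} {a : H} (R : Coalgebra.Repr k a ι) :
    ∑ i ∈ R.index, Coalgebra.counit (R := k) (R.right i) • R.left i = a := by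
  have h := Coalgebra.sum_tmul_counit_eq R
  have h2 := congrArg (TensorProduct.rid k H) h
  simpa only [map_sum, TensorProduct.rid_tmul, one_smul] using h2

private theorem R1B4c_sum_counit' {ι : Type*} {a : H} (R : Coalgebra.Repr k a ι) :
    ∑ i ∈ R.index, Coalgebra.counit (R := k) (R.left i) • R.right i = a := by
  have h := Coalgebra.sum_counit_tmul_eq R
  have h2 := congrArg (TensorProduct.lid k H) h
  simpa only [map_sum, TensorProduct.lid_tmul, one_smul] using h2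

private theorem R1B4c_mul_th {ι : Type*} {a : H} (R : Coalgebra.Repr k a ι)
    (f : WithConv (H →ₗ[k] TA k H)) :
    (f * R1B4c_Th k H) a =
      f a * io k 1 - ∑ i ∈ R.index, f (R.left i) * io k (R.right i) := by
  rw [R1B4c_mul_apply k H R]
  have h : f a = ∑ i ∈ R.index, Coalgebra.counit (R := k) (R.right i) • f (R.left i) := by
    conv_lhs => rw [← R1B4c_sum_counit k H R]
    rw [map_sum]
    refine Finset.sum_congr rfl fun i _ => ?_
    rw [map_smul]
  rw [h, Finset.sum_mul, ← Finset.sum_sub_distrib]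
  refine Finset.sum_congr rfl fun i _ => ?_
  rw [R1B4c_Th_apply, mul_sub, mul_smul_comm, smul_mul_assoc]

private theorem R1B4c_th_mul {ι : Type*} {a : H} (R : Coalgebra.Repr k a ι)
    (f : WithConv (H →ₗ[k] TA k H)) :
    (R1B4c_Th k H * f) a =
      io k 1 * f a - ∑ i ∈ R.index, io k (R.left i) * f (R.right i) := by
  rw [R1B4c_mul_apply k H R]
  have h : f a = ∑ i ∈ R.index, Coalgebra.counit (R := k) (R.left i) • f (R.right i) := by
    conv_lhs => rw [← R1B4c_sum_counit' k H R]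
    rw [map_sum]
    refine Finset.sum_congr rfl fun i _ => ?_
    rw [map_smul]
  rw [h, Finset.mul_sum, ← Finset.sum_sub_distrib]
  refine Finset.sum_congr rfl fun i _ => ?_
  rw [R1B4c_Th_apply, sub_mul, smul_mul_assoc, mul_smul_comm]

private theorem R1B4c_DelT {ι : Type*} {a : H} (R : Coalgebra.Repr k a ι) :
    DelT k H a = ∑ i ∈ R.index, io k (R.left i) * io k (R.right i) := by
  rw [DelT, LinearMap.comp_apply, LinearMap.comp_apply, ← R.eq, map_sum, map_sum]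
  refine Finset.sum_congr rfl fun i _ => ?_
  simp

/-- The differential and the action. -/
private theorem R1B4c_dd_act (w : TA k H) :
    R1B4c_post k H (dd k H) (ph k H w) =
      ph k H (dd k H w) + (R1B4c_Th k H * ph k H w - ph k H (sg k H w) * R1B4c_Th k H) := by
  have h := twDer_ext ((ph k H).comp (sg k H)) (ph k H)
    (R1B4c_post k H (dd k H) ∘ₗ (ph k H).toLinearMap)
    ((ph k H).toLinearMap ∘ₗ dd k H + (LinearMap.mulLeft k (R1B4c_Th k H) ∘ₗ
      (ph k H).toLinearMap -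
      LinearMap.mulRight k (R1B4c_Th k H) ∘ₗ (ph k H).toLinearMap ∘ₗ (sg k H).toLinearMap))
      ?_ ?_ ?_
  · exact DFunLike.congr_fun h w
  · intro w w'
    simp only [LinearMap.comp_apply, AlgHom.toLinearMap_apply, AlgHom.comp_apply]
    rw [map_mul, R1B4c_post_dd_mul, R1B4c_post_sg_ph]
  · intro w w'
    simp only [LinearMap.comp_apply, AlgHom.toLinearMap_apply, AlgHom.comp_apply,
      LinearMap.add_apply, LinearMap.sub_apply, LinearMap.mulLeft_apply, LinearMap.mulRight_apply]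
    rw [dd_mul, map_add, map_mul, map_mul, map_mul, map_mul, map_mul]
    simp only [mul_sub, mul_add, sub_mul, add_mul, mul_assoc]
    abel
  · intro b
    simp only [LinearMap.comp_apply, AlgHom.toLinearMap_apply,
      LinearMap.add_apply, LinearMap.sub_apply, LinearMap.mulLeft_apply, LinearMap.mulRight_apply]
    refine R1B4c_ext k H fun a => ?_
    have Ra := Coalgebra.Repr.arbitrary k a
    have Rb := Coalgebra.Repr.arbitrary k b
    have hadd : ∀ f g h : WithConv (H →ₗ[k] TA k H), (f + (g - h)) a = f a + (g a - h a) :=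
      fun _ _ _ => rfl
    rw [R1B4c_post_apply, hadd, R1B4c_th_mul k H Ra, R1B4c_mul_th k H Ra]
    change dd k H ((ph k H (io k b)) a) = (ph k H (dd k H (io k b))) a +
      (io k 1 * (ph k H (io k b)) a - ∑ i ∈ Ra.index, io k (Ra.left i) *
        (ph k H (io k b)) (Ra.right i) - ((ph k H (sg k H (io k b))) a * io k 1 -
          ∑ i ∈ Ra.index, (ph k H (sg k H (io k b))) (Ra.left i) * io k (Ra.right i)))
    have hneg : ∀ c : H, (ph k H (sg k H (io k b))) c = -io k (c * b) := by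
      intro c
      rw [sg_io, map_neg]
      change -((ph k H (io k b)) c) = _
      rw [R1B4c_ph_io]
    have h1 : (ph k H (dd k H (io k b))) a =
        ∑ i ∈ Ra.index, io k (Ra.left i) * io k (Ra.right i * b) +
        ∑ i ∈ Ra.index, io k (Ra.left i * b) * io k (Ra.right i) - DelT k H (a * b) := by
      rw [dd_io, map_sub, map_add, map_mul, map_mul]
      change (ph k H (io k 1) * ph k H (io k b)) a + (ph k H (io k b) * ph k H (io k 1)) a -
        (ph k H (DelT k H b)) a = _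
      rw [R1B4c_mul_apply k H Ra, R1B4c_mul_apply k H Ra, R1B4c_DelT k H Rb, map_sum]
      congr 1
      · congr 1
        · refine Finset.sum_congr rfl fun i _ => ?_
          rw [R1B4c_ph_io, R1B4c_ph_io, mul_one]
        · refine Finset.sum_congr rfl fun i _ => ?_
          rw [R1B4c_ph_io, R1B4c_ph_io, mul_one]
      · have hsum : ∀ (t : Finset (H × H)) (f : H × H → WithConv (H →ₗ[k] TA k H)),
            (∑ j ∈ t, f j) a = ∑ j ∈ t, (f j) a := by
          intro t f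
          classical
          induction t using Finset.induction_on with
          | empty => rfl
          | insert j t hj ih =>
            rw [Finset.sum_insert hj, Finset.sum_insert hj, ← ih]
            rfl
        rw [hsum]
        have h2 : DelT k H (a * b) = ∑ j ∈ Rb.index, ∑ i ∈ Ra.index,
            io k (Ra.left i * Rb.left j) * io k (Ra.right i * Rb.right j) := by
          rw [DelT, LinearMap.comp_apply, LinearMap.comp_apply, Bialgebra.comul_mul, ← Ra.eq,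
            ← Rb.eq, Finset.sum_mul_sum, map_sum, map_sum, Finset.sum_comm]
          refine Finset.sum_congr rfl fun j _ => ?_
          rw [map_sum, map_sum]
          refine Finset.sum_congr rfl fun i _ => ?_
          simp
        rw [h2]
        refine Finset.sum_congr rfl fun j _ => ?_
        rw [map_mul, R1B4c_mul_apply k H Ra]
        refine Finset.sum_congr rfl fun i _ => ?_
        rw [R1B4c_ph_io, R1B4c_ph_io]
    rw [h1, R1B4c_ph_io, dd_io]
    simp only [hneg, R1B4c_ph_io, neg_mul, Finset.sum_neg_distrib]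
    abel

/-- The differential of the action on a cocycle of even degree. -/
private theorem R1B4c_dd_actT (J : TA k H) (hJ : dd k H J = 0) (hs : sg k H J = J) (a : H) :
    dd k H (actT k H J a) = (io k 1 * actT k H J a -
      LinearMap.mul' k (TA k H) (TensorProduct.map (TensorAlgebra.ι k) (actT k H J)
        (Coalgebra.comul (R := k) a))) -
      (actT k H J a * io k 1 - LinearMap.mul' k (TA k H) (TensorProduct.map (actT k H J)
        (TensorAlgebra.ι k) (Coalgebra.comul (R := k) a))) := by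
  have R := Coalgebra.Repr.arbitrary k a
  have h2 : (R1B4c_post k H (dd k H) (ph k H J)) a = (ph k H (dd k H J)) a +
      ((R1B4c_Th k H * ph k H J) a - (ph k H (sg k H J) * R1B4c_Th k H) a) := by
    rw [R1B4c_dd_act]
    rfl
  rw [R1B4c_post_apply, R1B4c_th_mul k H R, R1B4c_mul_th k H R, hJ, map_zero, hs] at h2
  have h0 : (0 : WithConv (H →ₗ[k] TA k H)) a = 0 := rfl
  rw [h0, zero_add] at h2
  have hact : ∀ c : H, (ph k H J) c = actT k H J c := fun _ => rfl
  simp only [hact] at h2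
  have e1 : LinearMap.mul' k (TA k H) (TensorProduct.map (TensorAlgebra.ι k) (actT k H J)
      (Coalgebra.comul (R := k) a)) =
        ∑ i ∈ R.index, io k (R.left i) * actT k H J (R.right i) := by
    rw [← R.eq, map_sum, map_sum]
    refine Finset.sum_congr rfl fun i _ => ?_
    rw [TensorProduct.map_tmul, LinearMap.mul'_apply]
  have e2 : LinearMap.mul' k (TA k H) (TensorProduct.map (actT k H J) (TensorAlgebra.ι k)
      (Coalgebra.comul (R := k) a)) =
        ∑ i ∈ R.index, actT k H J (R.left i) * io k (R.right i) := by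
    rw [← R.eq, map_sum, map_sum]
    refine Finset.sum_congr rfl fun i _ => ?_
    rw [TensorProduct.map_tmul, LinearMap.mul'_apply]
  rw [e1, e2]
  exact h2

end

namespace LSD

section

variable {k : Type u} [Field k] {E D : Type u} [Ring E] [Bialgebra k E] [Ring D] [Bialgebra k D]
variable {N : ℕ} (T : LSD k E D N)

/-- Weights: the three values needed for `ss_dd`. -/
private theorem R1B4c_ss_mem {n : ℕ} {f : TA k D} (hf : f ∈ T.toLS.Wt n 1) :
    T.toLS.ss f ∈ T.toLS.Wt (n - 1) 0 := by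
  refine T.toLS.Wt_map T.toLS.ss (T.toLS.Wt (n - 1) 0) (fun w hn _ => ?_) hf
  have h := T.toLS.ss_wd_mem w
  rw [hn] at h
  exact h

/-- On elements of weight `≤ 1`, `ss` anticommutes with `dd` (`ss_d0`, `de_mem`, `ss_zero`). -/
theorem ss_dd {n : ℕ} {f : TA k D} (hf : f ∈ T.toLS.Wt n 1) :
    T.toLS.ss (dd k D f) = -dd k D (T.toLS.ss f) := by
  have h1 : dd k D f = T.toLS.d0 f + T.de f := by
    rw [T.de_apply]
    abel
  have h2 : dd k D (T.toLS.ss f) = T.toLS.d0 (T.toLS.ss f) + T.de (T.toLS.ss f) := by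
    rw [T.de_apply]
    abel
  have h3 : T.toLS.ss (T.de f) = 0 := by
    have hf' : f ∈ T.toLS.Wt n (0 + 1) := hf
    exact T.toLS.ss_zero (T.de_mem hf')
  have h4 : T.de (T.toLS.ss f) = 0 := T.de_zero (R1B4c_ss_mem T hf)
  rw [h1, h2, map_add, h3, h4, add_zero, add_zero]
  exact eq_neg_of_add_eq_zero_right (T.toLS.ss_d0 f)

/-- `ss (lam * JJ κ + JJ w) = JJ κ`. -/
theorem ss_y (κ w : TA k E) :
    T.toLS.ss (T.toLS.lam * T.toLS.JJ κ + T.toLS.JJ w) = T.toLS.JJ κ := by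
  rw [map_add, LS.ss_mul, LS.ss_JJ, LS.ss_JJ, LS.ss_lam, LS.bar_JJ, mul_zero, zero_add, one_mul,
    add_zero]

private theorem R1B4c_wt_left {q : ℕ} {J : TA k D} (hJ : J ∈ T.toLS.Wt q 0) {f g : D}
    (hf : f ∈ T.toLS.Fil 0) (hg : g ∈ T.toLS.Fil 0) :
    io k f * actT k D J g ∈ T.toLS.Wt (q + 1) 0 := by
  have h1 : actT k D J g ∈ T.toLS.Wt q (0 + 0) := T.act_mem hg hJ
  have h2 := T.toLS.Wt_mul (T.toLS.io_mem_Fil hf) h1
  have h3 : 1 + q = q + 1 := Nat.add_comm 1 q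
  have h4 : 0 + (0 + 0) = 0 := rfl
  rw [h3, h4] at h2
  exact h2

private theorem R1B4c_wt_right {q : ℕ} {J : TA k D} (hJ : J ∈ T.toLS.Wt q 0) {f g : D}
    (hf : f ∈ T.toLS.Fil 0) (hg : g ∈ T.toLS.Fil 0) :
    actT k D J f * io k g ∈ T.toLS.Wt (q + 1) 0 := by
  have h1 : actT k D J f ∈ T.toLS.Wt q (0 + 0) := T.act_mem hf hJ
  have h2 := T.toLS.Wt_mul h1 (T.toLS.io_mem_Fil hg)
  have h4 : 0 + 0 + 0 = 0 := rfl
  rw [h4] at h2
  exact h2

private theorem R1B4c_F2_left {q : ℕ} {J : TA k D} (hJ : J ∈ T.toLS.Wt q 0) {t : D ⊗[k] D}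
    (ht : t ∈ T.toLS.F2 0) :
    LinearMap.mul' k (TA k D) (TensorProduct.map (TensorAlgebra.ι k) (actT k D J) t) ∈
      T.toLS.Wt (q + 1) 0 := by
  have h1 : T.toLS.F2 0 ≤ (T.toLS.Wt (q + 1) 0).comap
      (LinearMap.mul' k (TA k D) ∘ₗ TensorProduct.map (TensorAlgebra.ι k) (actT k D J)) := by
    refine Submodule.span_le.2 ?_
    rintro _ ⟨a, b, f, g, hab, hf, hg, rfl⟩
    obtain rfl : a = 0 := by omega
    obtain rfl : b = 0 := by omega
    exact R1B4c_wt_left T hJ hf hg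
  exact h1 ht

private theorem R1B4c_F2_right {q : ℕ} {J : TA k D} (hJ : J ∈ T.toLS.Wt q 0) {t : D ⊗[k] D}
    (ht : t ∈ T.toLS.F2 0) :
    LinearMap.mul' k (TA k D) (TensorProduct.map (actT k D J) (TensorAlgebra.ι k) t) ∈
      T.toLS.Wt (q + 1) 0 := by
  have h1 : T.toLS.F2 0 ≤ (T.toLS.Wt (q + 1) 0).comap
      (LinearMap.mul' k (TA k D) ∘ₗ TensorProduct.map (actT k D J) (TensorAlgebra.ι k)) := by
    refine Submodule.span_le.2 ?_
    rintro _ ⟨a, b, f, g, hab, hf, hg, rfl⟩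
    obtain rfl : a = 0 := by omega
    obtain rfl : b = 0 := by omega
    exact R1B4c_wt_right T hJ hf hg
  exact h1 ht

/-- The formula for the differential of the action of `λ` on `J = JJ κ` (`κ` of even degree, a
cocycle): from the (private) formula `coh_dd_act` of `Helper90/FC/CobH.lean`,
`dd (a · w) = a · dd w + ∑ θ(a₁) (a₂ · w) - ∑ (a₁ · sg w) θ(a₂)`, `θ(a) = ε(a) ι 1 - ι a`, with
`comul_lam` and `ε(λ) = 0`: `dd (λ · J) = J lam - lam J` up to an element of weight `0`. (Copy the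
proof of `coh_dd_act` or prove the formula directly; here `ε` is the counit of `D`, and
`ε (l_1 1) = 0` follows from `comul_lam` and the counit axiom up to weight `0`: it suffices that
`ι` of a scalar has weight `0`.) -/
theorem dd_act_lam {q : ℕ} (hq : Even q) {κ : TA k E} (hκ : κ ∈ Tn k E q) (hd : dd k E κ = 0) :
    dd k D (actT k D (T.toLS.JJ κ) (T.l 1 1)) -
      (T.toLS.JJ κ * T.toLS.lam - T.toLS.lam * T.toLS.JJ κ) ∈ T.toLS.Wt (q + 1) 0 := by
  have hJ : T.toLS.JJ κ ∈ T.toLS.Wt q 0 := T.toLS.JJ_mem hκ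
  have hs : sg k D (T.toLS.JJ κ) = T.toLS.JJ κ := by
    rw [T.toLS.sg_Wt hJ, hq.neg_one_pow, one_smul]
  have hdJ : dd k D (T.toLS.JJ κ) = 0 := by
    rw [T.dd_JJ, hd, map_zero]
  have h1 := R1B4c_dd_actT k D (T.toLS.JJ κ) hdJ hs (T.l 1 1)
  obtain ⟨t, ht⟩ : ∃ t : D ⊗[k] D, t = Coalgebra.comul (R := k) (T.l 1 1) -
    (T.l 1 1 ⊗ₜ[k] 1 + 1 ⊗ₜ[k] T.l 1 1) := ⟨_, rfl⟩
  have ht0 : t ∈ T.toLS.F2 0 := by
    rw [ht]
    exact T.comul_lam
  have h2 : Coalgebra.comul (R := k) (T.l 1 1) =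
      (T.l 1 1 ⊗ₜ[k] 1 + 1 ⊗ₜ[k] T.l 1 1) + t := by
    rw [ht]
    abel
  have hlam : (TensorAlgebra.ι k (T.l 1 1) : TA k D) = T.toLS.lam := rfl
  have h3 : LinearMap.mul' k (TA k D) (TensorProduct.map (TensorAlgebra.ι k)
      (actT k D (T.toLS.JJ κ)) (Coalgebra.comul (R := k) (T.l 1 1))) =
      T.toLS.lam * T.toLS.JJ κ + io k 1 * actT k D (T.toLS.JJ κ) (T.l 1 1) +
        LinearMap.mul' k (TA k D) (TensorProduct.map (TensorAlgebra.ι k)
          (actT k D (T.toLS.JJ κ)) t) := by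
    rw [h2, map_add, map_add, map_add, map_add, TensorProduct.map_tmul, TensorProduct.map_tmul,
      LinearMap.mul'_apply, LinearMap.mul'_apply, actT_one, hlam]
  have h4 : LinearMap.mul' k (TA k D) (TensorProduct.map (actT k D (T.toLS.JJ κ))
      (TensorAlgebra.ι k) (Coalgebra.comul (R := k) (T.l 1 1))) =
      actT k D (T.toLS.JJ κ) (T.l 1 1) * io k 1 + T.toLS.JJ κ * T.toLS.lam +
        LinearMap.mul' k (TA k D) (TensorProduct.map (actT k D (T.toLS.JJ κ))
          (TensorAlgebra.ι k) t) := by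
    rw [h2, map_add, map_add, map_add, map_add, TensorProduct.map_tmul, TensorProduct.map_tmul,
      LinearMap.mul'_apply, LinearMap.mul'_apply, actT_one, hlam]
  have h5 : dd k D (actT k D (T.toLS.JJ κ) (T.l 1 1)) -
      (T.toLS.JJ κ * T.toLS.lam - T.toLS.lam * T.toLS.JJ κ) =
      LinearMap.mul' k (TA k D) (TensorProduct.map (actT k D (T.toLS.JJ κ))
          (TensorAlgebra.ι k) t) - LinearMap.mul' k (TA k D) (TensorProduct.map
            (TensorAlgebra.ι k) (actT k D (T.toLS.JJ κ)) t) := by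
    rw [h1, h3, h4]
    abel
  rw [h5]
  exact Submodule.sub_mem _ (R1B4c_F2_right T hJ ht0) (R1B4c_F2_left T hJ ht0)

private theorem th_ss_lam : T.toLS.ss T.toLS.lam = 1 := by
  have h := T.toLS.ss_L 1 1
  rw [if_pos rfl, Bialgebra.counit_one, map_one] at h
  exact h

private theorem th_bars_JJ {q : ℕ} (hq : Even q) {κ : TA k E} (hκ : κ ∈ Tn k E q) :
    T.toLS.bars (T.toLS.JJ κ) = T.toLS.JJ κ := by
  rw [LS.bars_apply, LS.sg_JJ, sg_Tn k E q κ hκ, hq.neg_one_pow, one_smul, LS.bar_JJ]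

/-- `θ₁ = ss (λ · J)` is a cocycle in `T(E)` of degree `q - 1`. -/
theorem th1 {r : ℕ} (hr : Even r) {κ : TA k E} (hκ : κ ∈ Tn k E (r + 2)) (hd : dd k E κ = 0) :
    ∃ θ₁ ∈ Tn k E (r + 1), dd k E θ₁ = 0 ∧
      T.toLS.ss (actT k D (T.toLS.JJ κ) (T.l 1 1)) = T.toLS.JJ θ₁ := by
  have hq : Even (r + 2) := hr.add (by decide)
  have hJm : T.toLS.JJ κ ∈ T.toLS.Wt (r + 2) 0 := T.toLS.JJ_mem hκ
  have hl : T.l 1 1 ∈ T.toLS.Fil 1 := T.toLS.l_mem_Fil le_rfl 1
  have hF0 := T.act_mem hl hJm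
  have hF : actT k D (T.toLS.JJ κ) (T.l 1 1) ∈ T.toLS.Wt (r + 1 + 1) 1 := by
    have e : r + 2 = r + 1 + 1 := rfl
    have e' : (1 : ℕ) + 0 = 1 := rfl
    rw [← e, ← e']
    exact hF0
  obtain ⟨θ₁, hθ₁, h⟩ := T.toLS.exists_JJ (T.toLS.ss_mem hF)
  refine ⟨θ₁, hθ₁, ?_, h.symm⟩
  apply T.toLS.JJ_inj
  rw [← T.dd_JJ, h, map_zero]
  have h1 := T.ss_dd hF
  have h2 : T.toLS.ss (dd k D (actT k D (T.toLS.JJ κ) (T.l 1 1))) = 0 := by
    have h4 := T.toLS.ss_zero (T.dd_act_lam hq hκ hd)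
    rw [map_sub, map_sub, LS.ss_mul, LS.ss_mul, T.toLS.ss_JJ, T.th_ss_lam, T.toLS.bar_JJ,
      T.th_bars_JJ hq hκ, mul_one, zero_mul, add_zero, mul_zero, zero_add, one_mul, sub_self,
      sub_zero] at h4
    exact h4
  rw [h2] at h1
  exact neg_eq_zero.1 h1.symm

/-- `θ = ss (RR y J)` is a cocycle in `T(E)` of degree `2 q - 1`: `dd (RR y J) = J y - y J`
(`homotopy`), `RR y J ∈ Wt (2q) 1`, `ss (J y) = J ss y = J J`, `ss (y J) = ss y J = J J`. -/
theorem th {r : ℕ} (hr : Even r) {κ w : TA k E} (hκ : κ ∈ Tn k E (r + 2)) (hd : dd k E κ = 0)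
    (hw : w ∈ Tn k E (r + 3))
    (hy : dd k D (T.toLS.lam * T.toLS.JJ κ + T.toLS.JJ w) = 0) :
    ∃ θ ∈ Tn k E (2 * r + 3), dd k E θ = 0 ∧
      T.toLS.ss (RR k D (T.toLS.lam * T.toLS.JJ κ + T.toLS.JJ w) (T.toLS.JJ κ)) =
        T.toLS.JJ θ := by
  have hq : Even (r + 2) := hr.add (by decide)
  have hJm : T.toLS.JJ κ ∈ T.toLS.Wt (r + 2) 0 := T.toLS.JJ_mem hκ
  have hym : T.toLS.lam * T.toLS.JJ κ + T.toLS.JJ w ∈ T.toLS.Wt (r + 2 + 1) 1 := by
    refine Submodule.add_mem _ ?_ (T.toLS.Wt_mono (Nat.zero_le 1) (T.toLS.JJ_mem hw))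
    have h := T.toLS.Wt_mul T.toLS.lam_mem hJm
    have e : 1 + (r + 2) = r + 2 + 1 := by omega
    rw [e] at h
    exact h
  have hsy : sg k D (T.toLS.lam * T.toLS.JJ κ + T.toLS.JJ w) =
      -(T.toLS.lam * T.toLS.JJ κ + T.toLS.JJ w) := by
    have ho : Odd (r + 2 + 1) := hq.add_one
    rw [T.toLS.sg_Wt hym, ho.neg_one_pow, neg_smul, one_smul]
  have hF : RR k D (T.toLS.lam * T.toLS.JJ κ + T.toLS.JJ w) (T.toLS.JJ κ) ∈
      T.toLS.Wt (2 * r + 3 + 1) 1 := by
    have h := T.RR_mem hym hJm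
    have e : r + 2 + (r + 2) = 2 * r + 3 + 1 := by omega
    rw [e] at h
    exact h
  obtain ⟨θ, hθ, h⟩ := T.toLS.exists_JJ (T.toLS.ss_mem hF)
  refine ⟨θ, hθ, ?_, h.symm⟩
  apply T.toLS.JJ_inj
  rw [← T.dd_JJ, h, map_zero]
  have h1 := T.ss_dd hF
  have h2 := homotopy k D _ hy hsy (T.toLS.JJ κ)
  rw [T.dd_JJ, hd, map_zero, map_zero, sub_zero, LS.sg_JJ, sg_Tn k E _ κ hκ, hq.neg_one_pow,
    one_smul] at h2
  have h3 : T.toLS.ss (dd k D (RR k D (T.toLS.lam * T.toLS.JJ κ + T.toLS.JJ w)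
      (T.toLS.JJ κ))) = 0 := by
    rw [h2, map_neg, map_sub, T.toLS.ss_mul _ (T.toLS.JJ κ), T.toLS.ss_mul (T.toLS.JJ κ) _,
      T.toLS.ss_JJ κ, mul_zero, zero_add, zero_mul, add_zero, T.ss_y, T.toLS.bar_JJ,
      T.th_bars_JJ hq hκ, sub_self, neg_zero]
  rw [h3] at h1
  exact neg_eq_zero.1 h1.symm

private theorem ss_AA_pow {r : ℕ} (hr : Even r) {κ w θ : TA k E} (hκ : κ ∈ Tn k E (r + 2))
    (hθ : T.toLS.ss (RR k D (T.toLS.lam * T.toLS.JJ κ + T.toLS.JJ w) (T.toLS.JJ κ)) =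
      T.toLS.JJ θ) (n : ℕ) :
    T.toLS.ss (RR k D (T.toLS.lam * T.toLS.JJ κ + T.toLS.JJ w) (T.toLS.JJ κ ^ n)) =
      T.toLS.JJ (∑ i ∈ Finset.range n, κ ^ i * θ * κ ^ (n - 1 - i)) := by
  have hq : Even (r + 2) := hr.add (by decide)
  induction n with
  | zero => rw [pow_zero, RR_one, map_zero, Finset.sum_range_zero, map_zero]
  | succ n ih =>
    have e1 : T.toLS.ss (T.toLS.JJ κ ^ n) = 0 := by rw [← map_pow, T.toLS.ss_JJ]
    have e2 : T.toLS.bars (T.toLS.JJ κ ^ n) = T.toLS.JJ κ ^ n := by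
      rw [map_pow, T.th_bars_JJ hq hκ]
    have e3 : (∑ i ∈ Finset.range (n + 1), κ ^ i * θ * κ ^ (n + 1 - 1 - i)) =
        κ ^ n * θ + (∑ i ∈ Finset.range n, κ ^ i * θ * κ ^ (n - 1 - i)) * κ := by
      rw [Finset.sum_range_succ, add_comm, Finset.sum_mul]
      congr 1
      · rw [Nat.add_sub_cancel, Nat.sub_self, pow_zero, mul_one]
      · refine Finset.sum_congr rfl fun i hi => ?_
        rw [Finset.mem_range] at hi
        have e : n + 1 - 1 - i = n - 1 - i + 1 := by omega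
        rw [e, pow_succ, mul_assoc, mul_assoc, mul_assoc]
    rw [pow_succ, RR_mul, map_add, T.toLS.ss_mul, T.toLS.ss_mul, e1, e2, hθ, ih, zero_mul,
      add_zero, T.toLS.ss_JJ κ, mul_zero, zero_add, T.toLS.bar_JJ, e3, map_add, map_mul, map_mul,
      map_pow]

/-- `ss (AA y J n) = JJ (aseq κ θ θ₁ n)`, induction on `n`: `RR y (J^n) = ∑_{i<n} J^i (RR y J) J^(n-1-i)`,
`ss (f g) = bars f ss g + ss f bar g`, `ss J = 0`, `bar J = bars J = J`. -/
theorem ss_AA {r : ℕ} (hr : Even r) {κ w θ θ₁ : TA k E} (hκ : κ ∈ Tn k E (r + 2))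
    (hθ : T.toLS.ss (RR k D (T.toLS.lam * T.toLS.JJ κ + T.toLS.JJ w) (T.toLS.JJ κ)) =
      T.toLS.JJ θ)
    (hθ₁ : T.toLS.ss (actT k D (T.toLS.JJ κ) (T.l 1 1)) = T.toLS.JJ θ₁) (n : ℕ) :
    T.toLS.ss (T.AA (T.toLS.lam * T.toLS.JJ κ + T.toLS.JJ w) (T.toLS.JJ κ) n) =
      T.toLS.JJ (aseq κ θ θ₁ n) := by
  have hq : Even (r + 2) := hr.add (by decide)
  induction n with
  | zero =>
    rw [AA, aseq, map_zero, map_zero]
  | succ n ih =>
    have e1 : T.toLS.ss (T.toLS.JJ κ ^ n) = 0 := by rw [← map_pow, T.toLS.ss_JJ]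
    have e4 : T.toLS.bar (T.toLS.JJ κ ^ n) = T.toLS.JJ κ ^ n := by
      rw [map_pow, T.toLS.bar_JJ]
    rw [AA, aseq, map_add, map_add, map_smul, T.ss_AA_pow hr hκ hθ, T.toLS.ss_mul,
      T.toLS.ss_mul, e1, e4, hθ₁, mul_zero, zero_add, T.th_bars_JJ hq hκ, T.toLS.ss_JJ,
      zero_mul, add_zero, ih, map_add, map_add, map_smul, map_mul, map_mul, map_pow]

/-- THE CLAIM: for `N = p` odd, `Psi (RR y ^ (p-1) y)` is a coboundary of `T(E)`. -/
theorem claim (p : ℕ) [Fact p.Prime] [CharP k p] (hp : p ≠ 2) (hN : N = p) {r : ℕ}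
    (hr : Even r) {κ w : TA k E} (hκ : κ ∈ Tn k E (r + 2)) (hd : dd k E κ = 0)
    (hw : w ∈ Tn k E (r + 3))
    (hy : dd k D (T.toLS.lam * T.toLS.JJ κ + T.toLS.JJ w) = 0) :
    ∃ g ∈ Tn k E ((r + 2) * p - 2),
      T.toLS.Psi (((RR k D (T.toLS.lam * T.toLS.JJ κ + T.toLS.JJ w)) ^ (p - 1))
        (T.toLS.lam * T.toLS.JJ κ + T.toLS.JJ w)) = T.toLS.JJ (dd k E g) := by
  subst hN
  have hp1 : N - 1 + 1 = N := Nat.sub_add_cancel (by have := T.two_le; omega)
  obtain ⟨θ₁, hθ₁, hdθ₁, h1⟩ := T.th1 hr hκ hd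
  obtain ⟨θ, hθ, hdθ, h2⟩ := T.th hr hκ hd hw hy
  obtain ⟨c, hc⟩ := T.Psi_RR (q := r + 2) hκ hw (N - 1) hp1.symm
  obtain ⟨g, hg, hga⟩ := aseq_bd N hp hr hκ hd hθ hdθ hθ₁ hdθ₁
  refine ⟨c • g, Submodule.smul_mem _ c hg, ?_⟩
  rw [hc, hp1, T.ss_AA hr hκ h2 h1, hga, map_smul, map_smul]

end

end LSD

end Pool.Agent.Helper77.R1
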