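import Pool.Agent.Helper90.FC.CobK
import Pool.Agent.Helper90.FC.CobF

/-!
# Project R1, part A0: letters, operators on the tensor algebra, the convolution ring

`E` and `D` are bialgebras over `k` (later `E = C*`, `D = B*`), `D` is the direct sum of the copies
`l_j(E)`, `j < p`, as a vector space. `T = T(D)`. The LETTERS are `L_j(g) = ι (l_j g)`, the WEIGHT of
`L_j(g)` is `j`. All operators below are given by product rules and by their values on letters.

The CONVOLUTION RING is `Rc = WithConv (E →ₗ T)`: a linear map `φ : E → T` is regarded as an element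
of a ring with `(φ * ψ)(g) = ∑ φ(g₁) ψ(g₂)`; a constant `c ∈ T` is the element `kc c = (g ↦ ε(g) c)`,
so `(kc c * φ)(g) = c φ(g)`, `(φ * kc c)(g) = φ(g) c`. Identities between operators are checked on
letters as identities in this ring.
-/

set_option linter.unusedSectionVars false
set_option autoImplicit false

open scoped TensorProduct
open Pool.Agent.Helper90.FC

namespace Pool.Agent.Helper77.R1

universe u

section Tw

variable {k : Type u} [Field k] {V : Type u} [AddCommGroup V] [Module k V]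
variable {S : Type u} [Ring S] [Algebra k S]

/-- The matrix of generators for `exists_tw2`. -/
private noncomputable def A0a_gen (σ μ τ : TensorAlgebra k V →ₐ[k] S)
    (a b : TensorAlgebra k V →ₗ[k] S) : V →ₗ[k] Matrix (Fin 3) (Fin 3) S where
  toFun v := !![σ (TensorAlgebra.ι k v), a (TensorAlgebra.ι k v), 0;
    0, μ (TensorAlgebra.ι k v), b (TensorAlgebra.ι k v); 0, 0, τ (TensorAlgebra.ι k v)]
  map_add' v w := by
    ext i j
    fin_cases i <;> fin_cases j <;> simp
  map_smul' c v := by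
    ext i j
    fin_cases i <;> fin_cases j <;> simp

/-- Second order twisted derivations. (As `exists_twDer` of `Helper90/FC/Cobar.lean`, with the
homomorphism `T → M_3(S)` given on generators by `(σ v, a v, 0; 0, μ v, b v; 0, 0, τ v)`; by induction
on `w` its value at `w` is `(σ w, a w, c w; 0, μ w, b w; 0, 0, τ w)` where `c w` is by definition the
entry in the corner; note `a 1 = 0`, `b 1 = 0`.) -/
theorem exists_tw2 (σ μ τ : TensorAlgebra k V →ₐ[k] S) (a b : TensorAlgebra k V →ₗ[k] S)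
    (ha : ∀ f g, a (f * g) = σ f * a g + a f * μ g)
    (hb : ∀ f g, b (f * g) = μ f * b g + b f * τ g) :
    ∃ c : TensorAlgebra k V →ₗ[k] S, (∀ v, c (TensorAlgebra.ι k v) = 0) ∧
      ∀ f g, c (f * g) = σ f * c g + a f * b g + c f * τ g := by
  classical
  set φ : TensorAlgebra k V →ₐ[k] Matrix (Fin 3) (Fin 3) S :=
    TensorAlgebra.lift k (A0a_gen σ μ τ a b) with hφ
  have ha1 : a 1 = 0 := by
    have h := ha 1 1
    rw [mul_one, map_one σ, map_one μ, one_mul, mul_one] at h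
    exact left_eq_add.mp h
  have hb1 : b 1 = 0 := by
    have h := hb 1 1
    rw [mul_one, map_one μ, map_one τ, one_mul, mul_one] at h
    exact left_eq_add.mp h
  have key : ∀ w, (φ w 1 0 = 0 ∧ φ w 2 0 = 0 ∧ φ w 2 1 = 0) ∧ (φ w 0 0 = σ w ∧ φ w 1 1 = μ w ∧
      φ w 2 2 = τ w) ∧ φ w 0 1 = a w ∧ φ w 1 2 = b w := by
    intro w
    induction w using TensorAlgebra.induction with
    | algebraMap r =>
      have h1 : a (algebraMap k _ r) = 0 := by
        rw [Algebra.algebraMap_eq_smul_one, map_smul, ha1, smul_zero]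
      have h2 : b (algebraMap k _ r) = 0 := by
        rw [Algebra.algebraMap_eq_smul_one, map_smul, hb1, smul_zero]
      rw [AlgHom.commutes, AlgHom.commutes, AlgHom.commutes, AlgHom.commutes, h1, h2]
      simp only [Matrix.algebraMap_matrix_apply]
      exact ⟨⟨if_neg (by decide), if_neg (by decide), if_neg (by decide)⟩,
        ⟨if_pos trivial, if_pos trivial, if_pos trivial⟩, if_neg (by decide), if_neg (by decide)⟩
    | ι v =>
      rw [hφ, TensorAlgebra.lift_ι_apply]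
      exact ⟨⟨by simp [A0a_gen], by simp [A0a_gen], by simp [A0a_gen]⟩,
        ⟨by simp [A0a_gen], by simp [A0a_gen], by simp [A0a_gen]⟩, by simp [A0a_gen],
        by simp [A0a_gen]⟩
    | mul x y hx hy =>
      obtain ⟨⟨x1, x2, x3⟩, ⟨x4, x5, x6⟩, x7, x8⟩ := hx
      obtain ⟨⟨y1, y2, y3⟩, ⟨y4, y5, y6⟩, y7, y8⟩ := hy
      rw [map_mul, map_mul, map_mul, map_mul, ha, hb]
      simp only [Matrix.mul_apply, Fin.sum_univ_three, x1, x2, x3, x4, x5, x6, x7, x8, y1, y2, y3,
        y4, y5, y6, y7, y8, zero_mul, mul_zero, add_zero, zero_add, and_self]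
    | add x y hx hy =>
      obtain ⟨⟨x1, x2, x3⟩, ⟨x4, x5, x6⟩, x7, x8⟩ := hx
      obtain ⟨⟨y1, y2, y3⟩, ⟨y4, y5, y6⟩, y7, y8⟩ := hy
      simp only [map_add, Matrix.add_apply, x1, x2, x3, x4, x5, x6, x7, x8, y1, y2, y3,
        y4, y5, y6, y7, y8, add_zero, and_self]
  refine ⟨⟨⟨fun w => φ w 0 2, fun w w' => by rw [map_add, Matrix.add_apply]⟩,
    fun c w => by simp only [map_smul, Matrix.smul_apply, RingHom.id_apply]⟩, ?_, ?_⟩
  · intro v
    change φ (TensorAlgebra.ι k v) 0 2 = 0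
    rw [hφ, TensorAlgebra.lift_ι_apply]
    simp [A0a_gen]
  · intro f g
    change φ (f * g) 0 2 = σ f * φ g 0 2 + a f * b g + φ f 0 2 * τ g
    rw [map_mul, Matrix.mul_apply, Fin.sum_univ_three, (key f).2.1.1, (key f).2.2.1,
      (key g).2.2.2, (key g).2.1.2.2]

/-- the matrix -/
private def tw3_mat {W : Type u} (σ₀ σ₁ σ₂ σ₃ a₀₁ a₁₂ a₂₃ a₀₂ a₁₃ : W → S) (x : S) (w : W) :
    Matrix (Fin 4) (Fin 4) S :=
  !![σ₀ w, a₀₁ w, a₀₂ w, x; 0, σ₁ w, a₁₂ w, a₁₃ w; 0, 0, σ₂ w, a₂₃ w; 0, 0, 0, σ₃ w]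

/-- the map on the generators -/
private def tw3_gen (σ₀ σ₁ σ₂ σ₃ a₀₁ a₁₂ a₂₃ a₀₂ a₁₃ : V →ₗ[k] S) :
    V →ₗ[k] Matrix (Fin 4) (Fin 4) S where
  toFun v := tw3_mat σ₀ σ₁ σ₂ σ₃ a₀₁ a₁₂ a₂₃ a₀₂ a₁₃ 0 v
  map_add' v w := by
    ext i j
    fin_cases i <;> fin_cases j <;> simp [tw3_mat]
  map_smul' c v := by
    ext i j
    fin_cases i <;> fin_cases j <;> simp [tw3_mat]

/-- Third order twisted derivations. (The same with `M_4(S)`: on generators
`(σ₀ v, a₀₁ v, a₀₂ v, 0; 0, σ₁ v, a₁₂ v, a₁₃ v; 0, 0, σ₂ v, a₂₃ v; 0, 0, 0, σ₃ v)`.) -/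
theorem exists_tw3 (σ₀ σ₁ σ₂ σ₃ : TensorAlgebra k V →ₐ[k] S)
    (a₀₁ a₁₂ a₂₃ a₀₂ a₁₃ : TensorAlgebra k V →ₗ[k] S)
    (h₀₁ : ∀ f g, a₀₁ (f * g) = σ₀ f * a₀₁ g + a₀₁ f * σ₁ g)
    (h₁₂ : ∀ f g, a₁₂ (f * g) = σ₁ f * a₁₂ g + a₁₂ f * σ₂ g)
    (h₂₃ : ∀ f g, a₂₃ (f * g) = σ₂ f * a₂₃ g + a₂₃ f * σ₃ g)
    (h₀₂ : ∀ f g, a₀₂ (f * g) = σ₀ f * a₀₂ g + a₀₁ f * a₁₂ g + a₀₂ f * σ₂ g)
    (h₁₃ : ∀ f g, a₁₃ (f * g) = σ₁ f * a₁₃ g + a₁₂ f * a₂₃ g + a₁₃ f * σ₃ g) :
    ∃ c : TensorAlgebra k V →ₗ[k] S, (∀ v, c (TensorAlgebra.ι k v) = 0) ∧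
      ∀ f g, c (f * g) = σ₀ f * c g + a₀₁ f * a₁₃ g + a₀₂ f * a₂₃ g + c f * σ₃ g := by
  classical
  have one1 : ∀ (σ τ : TensorAlgebra k V →ₐ[k] S) (a : TensorAlgebra k V →ₗ[k] S),
      (∀ f g, a (f * g) = σ f * a g + a f * τ g) → a 1 = 0 := by
    intro σ τ a ha
    have h := ha 1 1
    rw [mul_one, map_one σ, map_one τ, one_mul, mul_one] at h
    exact left_eq_add.mp h
  have e₀₁ := one1 _ _ _ h₀₁
  have e₁₂ := one1 _ _ _ h₁₂
  have e₂₃ := one1 _ _ _ h₂₃
  have e₀₂ : a₀₂ 1 = 0 := by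
    have h := h₀₂ 1 1
    rw [mul_one, map_one σ₀, map_one σ₂, one_mul, mul_one, e₀₁, zero_mul, add_zero] at h
    exact left_eq_add.mp h
  have e₁₃ : a₁₃ 1 = 0 := by
    have h := h₁₃ 1 1
    rw [mul_one, map_one σ₁, map_one σ₃, one_mul, mul_one, e₁₂, zero_mul, add_zero] at h
    exact left_eq_add.mp h
  have hal : ∀ (a : TensorAlgebra k V →ₗ[k] S), a 1 = 0 →
      ∀ r : k, a (algebraMap k (TensorAlgebra k V) r) = 0 := by
    intro a ha r
    rw [Algebra.algebraMap_eq_smul_one, map_smul, ha, smul_zero]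
  let I : V →ₗ[k] TensorAlgebra k V := TensorAlgebra.ι k
  set φ : TensorAlgebra k V →ₐ[k] Matrix (Fin 4) (Fin 4) S :=
    TensorAlgebra.lift k (tw3_gen (σ₀.toLinearMap ∘ₗ I) (σ₁.toLinearMap ∘ₗ I)
      (σ₂.toLinearMap ∘ₗ I) (σ₃.toLinearMap ∘ₗ I) (a₀₁ ∘ₗ I) (a₁₂ ∘ₗ I) (a₂₃ ∘ₗ I) (a₀₂ ∘ₗ I)
      (a₁₃ ∘ₗ I)) with hφ
  have hι : ∀ v, φ (TensorAlgebra.ι k v) =
      tw3_mat σ₀ σ₁ σ₂ σ₃ a₀₁ a₁₂ a₂₃ a₀₂ a₁₃ 0 (TensorAlgebra.ι k v) := by
    intro v
    rw [hφ, TensorAlgebra.lift_ι_apply]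
    rfl
  have key : ∀ w, φ w = tw3_mat σ₀ σ₁ σ₂ σ₃ a₀₁ a₁₂ a₂₃ a₀₂ a₁₃ (φ w 0 3) w := by
    intro w
    induction w using TensorAlgebra.induction with
    | algebraMap r =>
      ext i j
      rw [AlgHom.commutes, Matrix.algebraMap_matrix_apply]
      fin_cases i <;> fin_cases j <;>
        simp [tw3_mat, hal _ e₀₁, hal _ e₁₂, hal _ e₂₃, hal _ e₀₂, hal _ e₁₃,
          Matrix.algebraMap_matrix_apply]
    | ι a =>
      rw [hι]
      rfl
    | mul a b ha hb =>
      ext i j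
      rw [map_mul, Matrix.mul_apply, Fin.sum_univ_four]
      rw [ha, hb]
      fin_cases i <;> fin_cases j <;>
        simp [tw3_mat, h₀₁, h₁₂, h₂₃, h₀₂, h₁₃, Matrix.mul_apply, Fin.sum_univ_four]
    | add a b ha hb =>
      ext i j
      rw [map_add, Matrix.add_apply]
      rw [ha, hb]
      fin_cases i <;> fin_cases j <;> simp [tw3_mat]
  refine ⟨⟨⟨fun w => φ w 0 3, fun w w' => by rw [map_add, Matrix.add_apply]⟩,
    fun c w => by simp only [map_smul, Matrix.smul_apply, RingHom.id_apply]⟩, ?_, ?_⟩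
  · intro v
    change φ (TensorAlgebra.ι k v) 0 3 = 0
    rw [hι]
    rfl
  · intro f g
    change φ (f * g) 0 3 = σ₀ f * φ g 0 3 + a₀₁ f * a₁₃ g + a₀₂ f * a₂₃ g + φ f 0 3 * σ₃ g
    rw [map_mul, Matrix.mul_apply, Fin.sum_univ_four]
    conv_lhs => rw [key f, key g]
    simp [tw3_mat]

/-- Values at `1`. -/
theorem tw_one (σ τ : TensorAlgebra k V →ₐ[k] S) (a : TensorAlgebra k V →ₗ[k] S)
    (ha : ∀ f g, a (f * g) = σ f * a g + a f * τ g) : a 1 = 0 := by
  have h := ha 1 1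
  rw [mul_one, map_one σ, map_one τ, one_mul, mul_one] at h
  exact left_eq_add.mp h

end Tw

section ConvRing

variable (k : Type u) [Field k] (E D : Type u) [Ring E] [Bialgebra k E] [Ring D] [Bialgebra k D]

/-- The convolution ring. -/
abbrev Rc : Type u := WithConv (E →ₗ[k] TA k D)

variable {k E D}

/-- Composition with an operator on `T`. -/
noncomputable def post (O : TA k D →ₗ[k] TA k D) : Rc k E D →ₗ[k] Rc k E D where
  toFun φ := WithConv.toConv (O ∘ₗ φ.ofConv)
  map_add' φ ψ := by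
    apply WithConv.ofConv_injective
    ext a
    simp
  map_smul' c φ := by
    apply WithConv.ofConv_injective
    ext a
    simp

theorem post_apply (O : TA k D →ₗ[k] TA k D) (φ : Rc k E D) (g : E) :
    (post O φ).ofConv g = O (φ.ofConv g) := rfl

theorem post_add (O O' : TA k D →ₗ[k] TA k D) (φ : Rc k E D) :
    post (O + O') φ = post O φ + post O' φ := by
  apply WithConv.ofConv_injective
  ext a
  simp [post]

theorem post_comp (O O' : TA k D →ₗ[k] TA k D) (φ : Rc k E D) :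
    post (O ∘ₗ O') φ = post O (post O' φ) := rfl

/-- Constants. -/
noncomputable def kc (c : TA k D) : Rc k E D :=
  WithConv.toConv (LinearMap.toSpanSingleton k (TA k D) c ∘ₗ Coalgebra.counit)

theorem kc_apply (c : TA k D) (g : E) :
    (kc (k := k) (E := E) c).ofConv g = Coalgebra.counit (R := k) g • c := rfl

theorem kc_add (c c' : TA k D) : kc (k := k) (E := E) (c + c') = kc c + kc c' := by
  apply WithConv.ofConv_injective
  ext a
  simp [kc]

theorem kc_neg (c : TA k D) : kc (k := k) (E := E) (-c) = -kc c := by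
  apply WithConv.ofConv_injective
  ext a
  simp [kc]

theorem kc_zero : kc (k := k) (E := E) (0 : TA k D) = 0 := by
  apply WithConv.ofConv_injective
  ext a
  simp [kc]

private theorem A0c_mul_apply {ι : Type*} {a : E} (R : Coalgebra.Repr k a ι) (φ ψ : Rc k E D) :
    (φ * ψ).ofConv a = ∑ i ∈ R.index, φ.ofConv (R.left i) * ψ.ofConv (R.right i) := by
  simp [LinearMap.convMul_def, ← R.eq]

private theorem A0c_ext {φ ψ : Rc k E D} (h : ∀ g, φ.ofConv g = ψ.ofConv g) : φ = ψ := by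
  apply WithConv.ofConv_injective
  ext g
  exact h g

private theorem A0c_sum_counit {ι : Type*} {a : E} (R : Coalgebra.Repr k a ι) :
    ∑ i ∈ R.index, Coalgebra.counit (R := k) (R.right i) • R.left i = a := by
  have h := Coalgebra.sum_tmul_counit_eq R
  have h2 := congrArg (TensorProduct.rid k E) h
  simpa only [map_sum, TensorProduct.rid_tmul, one_smul] using h2

private theorem A0c_sum_counit' {ι : Type*} {a : E} (R : Coalgebra.Repr k a ι) :
    ∑ i ∈ R.index, Coalgebra.counit (R := k) (R.left i) • R.right i = a := by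
  have h := Coalgebra.sum_counit_tmul_eq R
  have h2 := congrArg (TensorProduct.lid k E) h
  simpa only [map_sum, TensorProduct.lid_tmul, one_smul] using h2

private theorem A0c_mul_gen (O : TA k D →ₗ[k] TA k D) (m : ℕ)
    (P Q : Fin m → (TA k D →ₗ[k] TA k D))
    (h : ∀ f g, O (f * g) = ∑ j, P j f * Q j g) (φ ψ : Rc k E D) :
    post O (φ * ψ) = ∑ j, post (P j) φ * post (Q j) ψ := by
  refine A0c_ext fun a => ?_
  have R := Coalgebra.Repr.arbitrary k a
  let ev : Rc k E D →+ TA k D :=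
    { toFun := fun φ => φ.ofConv a
      map_zero' := rfl
      map_add' := fun _ _ => rfl }
  have hs : (∑ j, post (P j) φ * post (Q j) ψ : Rc k E D).ofConv a =
      ∑ j, (post (P j) φ * post (Q j) ψ : Rc k E D).ofConv a :=
    map_sum ev _ _
  rw [post_apply, A0c_mul_apply R, map_sum, hs]
  simp only [A0c_mul_apply R, h]
  rw [Finset.sum_comm]
  rfl

theorem kc_one : kc (k := k) (E := E) (1 : TA k D) = 1 := by
  refine A0c_ext fun a => ?_
  rw [kc_apply]
  change _ = algebraMap k (TA k D) (Coalgebra.counit a)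
  rw [Algebra.algebraMap_eq_smul_one]

theorem kc_mul (c c' : TA k D) : kc (k := k) (E := E) (c * c') = kc c * kc c' := by
  refine A0c_ext fun a => ?_
  have R := Coalgebra.Repr.arbitrary k a
  rw [A0c_mul_apply R, kc_apply]
  conv_lhs => rw [← A0c_sum_counit R]
  rw [map_sum, Finset.sum_smul]
  refine Finset.sum_congr rfl fun i _ => ?_
  rw [map_smul, kc_apply, kc_apply, smul_eq_mul, smul_mul_smul_comm, mul_comm]

/-- `(kc c * φ)(g) = c φ(g)` -/
theorem kc_mul_eq (c : TA k D) (φ : Rc k E D) :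
    kc c * φ = post (LinearMap.mulLeft k c) φ := by
  refine A0c_ext fun a => ?_
  have R := Coalgebra.Repr.arbitrary k a
  rw [A0c_mul_apply R, post_apply, LinearMap.mulLeft_apply]
  conv_rhs => rw [← A0c_sum_counit' R]
  rw [map_sum, Finset.mul_sum]
  refine Finset.sum_congr rfl fun i _ => ?_
  rw [map_smul, kc_apply, smul_mul_assoc, mul_smul_comm]

/-- `(φ * kc c)(g) = φ(g) c` -/
theorem mul_kc_eq (c : TA k D) (φ : Rc k E D) :
    φ * kc c = post (LinearMap.mulRight k c) φ := by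
  refine A0c_ext fun a => ?_
  have R := Coalgebra.Repr.arbitrary k a
  rw [A0c_mul_apply R, post_apply, LinearMap.mulRight_apply]
  conv_rhs => rw [← A0c_sum_counit R]
  rw [map_sum, Finset.sum_mul]
  refine Finset.sum_congr rfl fun i _ => ?_
  rw [map_smul, kc_apply, smul_mul_assoc, mul_smul_comm]

theorem post_kc (O : TA k D →ₗ[k] TA k D) (c : TA k D) :
    post O (kc (k := k) (E := E) c) = kc (O c) := by
  apply WithConv.ofConv_injective
  ext a
  simp [post, kc]

/-- Homomorphisms. -/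
theorem post_mul_hom (A : TA k D →ₐ[k] TA k D) (φ ψ : Rc k E D) :
    post A.toLinearMap (φ * ψ) = post A.toLinearMap φ * post A.toLinearMap ψ := by
  have h := A0c_mul_gen A.toLinearMap 1 (fun _ => A.toLinearMap) (fun _ => A.toLinearMap)
    (fun f g => by simp) φ ψ
  simpa using h

/-- The product rule in the convolution ring. -/
theorem post_mul (O A B : TA k D →ₗ[k] TA k D)
    (h : ∀ f g, O (f * g) = A f * O g + O f * B g) (φ ψ : Rc k E D) :
    post O (φ * ψ) = post A φ * post O ψ + post O φ * post B ψ := by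
  have h := A0c_mul_gen O 2 ![A, O] ![O, B] (fun f g => by simp [h, Fin.sum_univ_two]) φ ψ
  simpa [Fin.sum_univ_two] using h

/-- The second order product rule in the convolution ring. -/
theorem post_mul2 (O A B P Q : TA k D →ₗ[k] TA k D)
    (h : ∀ f g, O (f * g) = A f * O g + P f * Q g + O f * B g) (φ ψ : Rc k E D) :
    post O (φ * ψ) = post A φ * post O ψ + post P φ * post Q ψ + post O φ * post B ψ := by
  have h := A0c_mul_gen O 3 ![A, P, O] ![O, Q, B]
    (fun f g => by simp [h, Fin.sum_univ_three]) φ ψ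
  simpa [Fin.sum_univ_three] using h

/-- The third order product rule in the convolution ring. -/
theorem post_mul3 (O A B P Q P' Q' : TA k D →ₗ[k] TA k D)
    (h : ∀ f g, O (f * g) = A f * O g + P f * Q g + P' f * Q' g + O f * B g) (φ ψ : Rc k E D) :
    post O (φ * ψ) = post A φ * post O ψ + post P φ * post Q ψ + post P' φ * post Q' ψ +
      post O φ * post B ψ := by
  have h := A0c_mul_gen O 4 ![A, P, P', O] ![O, Q, Q', B]
    (fun f g => by simp [h, Fin.sum_univ_four]) φ ψ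
  simpa [Fin.sum_univ_four] using h

theorem Rc_ext {φ ψ : Rc k E D} (h : ∀ g, φ.ofConv g = ψ.ofConv g) : φ = ψ := by
  apply WithConv.ofConv_injective
  ext g
  exact h g

end ConvRing

end Pool.Agent.Helper77.R1
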