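import Pool.Agent.Helper77.R1.Low

/-!
# Project R1, part B2: descent of cocycles of weight at most `N`

`V`: the elements `lam * JJ κ + JJ w` with `κ`, `w` in `T(E)`.
-/

set_option linter.unusedSectionVars false
set_option autoImplicit false

open scoped TensorProduct
open Pool.Agent.Helper90.FC

namespace Pool.Agent.Helper77.R1

universe u

namespace LSD

section

variable {k : Type u} [Field k] {E D : Type u} [Ring E] [Bialgebra k E] [Ring D] [Bialgebra k D]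
variable {N : ℕ} (T : LSD k E D N)

/-- The elements `lam * JJ κ + JJ w`, `κ` of degree `n`, `w` of degree `n + 1`. -/
noncomputable def VV (n : ℕ) : Submodule k (TA k D) where
  carrier := {f | ∃ κ ∈ Tn k E n, ∃ w ∈ Tn k E (n + 1),
    f = T.toLS.lam * T.toLS.JJ κ + T.toLS.JJ w}
  zero_mem' := ⟨0, zero_mem _, 0, zero_mem _, by simp⟩
  add_mem' := by
    rintro _ _ ⟨κ, hκ, w, hw, rfl⟩ ⟨κ', hκ', w', hw', rfl⟩
    refine ⟨κ + κ', add_mem hκ hκ', w + w', add_mem hw hw', ?_⟩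
    rw [map_add, map_add, mul_add]
    abel
  smul_mem' := by
    rintro c _ ⟨κ, hκ, w, hw, rfl⟩
    refine ⟨c • κ, Submodule.smul_mem _ c hκ, c • w, Submodule.smul_mem _ c hw, ?_⟩
    rw [map_smul, map_smul, mul_smul_comm, smul_add]

theorem VV_le (n : ℕ) : T.VV n ≤ T.toLS.Wt (n + 1) 1 := by
  rintro f ⟨κ, hκ, w, hw, rfl⟩
  refine Submodule.add_mem _ ?_ (T.toLS.Wt_mono (Nat.zero_le 1) (T.toLS.JJ_mem hw))
  have h1 := T.toLS.Wt_mul T.toLS.lam_mem (T.toLS.JJ_mem hκ)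
  rwa [Nat.add_comm 1 n, Nat.add_zero] at h1

/-- `f ∈ Wt (n+1) j` with `j ≤ N`, `dd f = 0`: by `star` (with `d0 = dd - de` and `d0 f = - de f`)
`f - dd (HH f) = bar f + lam * ss f + xi * Psi f - HH (de f) - de (HH f)`. -/
theorem desc_eq {n : ℕ} {f : TA k D} (hf : f ∈ T.toLS.Wt n N) (hd : dd k D f = 0) :
    f - dd k D (T.toLS.HH f) = T.toLS.bar f + T.toLS.lam * T.toLS.ss f +
      T.toLS.xi * T.toLS.Psi f - T.toLS.HH (T.de f) - T.de (T.toLS.HH f) := by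
  have h1 := T.toLS.star hf
  have h2 : T.toLS.d0 f = -T.de f := by rw [de_apply, hd]; abel
  have h3 : T.toLS.d0 (T.toLS.HH f) = dd k D (T.toLS.HH f) - T.de (T.toLS.HH f) := by
    rw [de_apply]; abel
  rw [h2, h3, map_neg] at h1
  rw [sub_eq_iff_eq_add]
  refine h1.trans ?_
  abel

/-- One step: for `f ∈ Wt (n+1) (j+1)` a cocycle with `xi * Psi f = 0`, `f - dd (HH f)` is in
`VV n ⊔ Wt (n+1) j`; here `bar f ∈ Wt (n+1) 0`, `ss f ∈ Wt n 0` (`exists_JJ`),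
`HH (de f) ∈ Wt (n+1) j`, `de (HH f) ∈ Wt (n+1) j` (`HH f ∈ Wt n (j+1)`). -/
theorem desc_step {n j : ℕ} (hj : j + 1 ≤ N) {f : TA k D} (hf : f ∈ T.toLS.Wt (n + 1) (j + 1))
    (hd : dd k D f = 0) (hP : T.toLS.Psi f = 0) :
    f - dd k D (T.toLS.HH f) ∈ T.VV n ⊔ T.toLS.Wt (n + 1) j := by
  rw [T.desc_eq (T.toLS.Wt_mono hj hf) hd, hP, mul_zero, add_zero]
  refine Submodule.sub_mem _ (Submodule.sub_mem _ ?_ ?_) ?_
  · obtain ⟨w, hw, hw'⟩ := T.toLS.exists_JJ (T.toLS.bar_mem hf)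
    obtain ⟨κ, hκ, hκ'⟩ := T.toLS.exists_JJ (T.toLS.ss_mem hf)
    refine Submodule.mem_sup_left ⟨κ, hκ, w, hw, ?_⟩
    rw [hw', hκ', add_comm]
  · exact Submodule.mem_sup_right (T.toLS.HH_mem (T.de_mem hf))
  · exact Submodule.mem_sup_right (T.de_mem (T.toLS.HH_mem hf))

theorem desc_low_zero {n : ℕ} : T.toLS.Wt (n + 1) 0 ≤ T.VV n := by
  intro f hf
  obtain ⟨w, hw, rfl⟩ := T.toLS.exists_JJ hf
  exact ⟨0, zero_mem _, w, hw, by rw [map_zero, mul_zero, zero_add]⟩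

theorem desc_low_dd {f g : TA k D} (hd : dd k D f = 0) : dd k D (f - dd k D g) = 0 := by
  rw [map_sub, hd, dd_dd, sub_zero]

/-- DESCENT BELOW `N`: induction on `j`. `j = 0`: `f ∈ Wt (n+1) 0` is `JJ w`. `j + 1`: by `desc_step`
(`Psi_low`) the cocycle `f' = f - dd (HH f)` is in `VV n ⊔ Wt (n+1) j`; for `j = 0` this is contained
in `VV n`; for `j ≥ 1` it is contained in `Wt (n+1) j` (`VV_le`) and the induction hypothesis applies
to `f'`; `HH f ∈ Wt n (j+1)`. -/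
theorem desc_low {n j : ℕ} (hj : j < N) {f : TA k D} (hf : f ∈ T.toLS.Wt (n + 1) j)
    (hd : dd k D f = 0) : ∃ v ∈ T.VV n, ∃ u ∈ T.toLS.Wt n j, f = v + dd k D u := by
  induction j generalizing f with
  | zero => exact ⟨f, T.desc_low_zero hf, 0, zero_mem _, by rw [map_zero, add_zero]⟩
  | succ j ih =>
    have hP : T.toLS.Psi f = 0 := T.toLS.Psi_low hj hf
    have h1 := T.desc_step hj.le hf hd hP
    have h2 : T.toLS.HH f ∈ T.toLS.Wt n (j + 1) := T.toLS.HH_mem hf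
    have h3 : dd k D (f - dd k D (T.toLS.HH f)) = 0 := desc_low_dd hd
    obtain ⟨v, hv, u, hu, h4⟩ : ∃ v ∈ T.VV n, ∃ u ∈ T.toLS.Wt n j,
        f - dd k D (T.toLS.HH f) = v + dd k D u := by
      rcases Nat.eq_zero_or_pos j with h0 | h0
      · subst h0
        have h5 : T.VV n ⊔ T.toLS.Wt (n + 1) 0 ≤ T.VV n := sup_le le_rfl T.desc_low_zero
        exact ⟨_, h5 h1, 0, zero_mem _, by rw [map_zero, add_zero]⟩
      · have h5 : T.VV n ⊔ T.toLS.Wt (n + 1) j ≤ T.toLS.Wt (n + 1) j :=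
          sup_le ((T.VV_le n).trans (T.toLS.Wt_mono h0)) le_rfl
        exact ih (by omega) (h5 h1) h3
    refine ⟨v, hv, u + T.toLS.HH f, add_mem (T.toLS.Wt_mono (Nat.le_succ j) hu) h2, ?_⟩
    rw [map_add, ← add_assoc, ← h4, sub_add_cancel]

theorem desc_top_de {n : ℕ} {f : TA k D} (hf : f ∈ T.toLS.Wt n N) :
    T.de f ∈ T.toLS.Wt (n + 1) (N - 1) := by
  have h1 := T.toLS.two_le
  exact T.de_mem (T.toLS.Wt_mono (by omega) hf)

theorem desc_top_xi : dd k D T.toLS.xi ∈ T.toLS.Wt 3 (N - 1) := by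
  have h1 := T.desc_top_de T.toLS.xi_mem
  rw [de_apply, LS.d0_xi, sub_zero] at h1
  exact h1

theorem desc_top_dd (g : TA k E) : dd k D (T.toLS.xi * T.toLS.JJ g) =
    T.toLS.xi * T.toLS.JJ (dd k E g) + dd k D T.toLS.xi * T.toLS.JJ g := by
  rw [dd_mul, LS.sg_xi, dd_JJ]

theorem desc_top_mem {n : ℕ} {f : TA k D} (hf : f ∈ T.toLS.Wt (n + 3) N) (hd : dd k D f = 0)
    {g : TA k E} (hg : g ∈ Tn k E n) (hP : T.toLS.Psi f = T.toLS.JJ (dd k E g)) :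
    f - dd k D (T.toLS.HH f + T.toLS.xi * T.toLS.JJ g) ∈ T.toLS.Wt (n + 3) (N - 1) := by
  have hN := T.toLS.two_le
  have h0 : f - dd k D (T.toLS.HH f + T.toLS.xi * T.toLS.JJ g) =
      T.toLS.bar f + T.toLS.lam * T.toLS.ss f - T.toLS.HH (T.de f) - T.de (T.toLS.HH f) -
        dd k D T.toLS.xi * T.toLS.JJ g := by
    rw [map_add, desc_top_dd, ← sub_sub, T.desc_eq hf hd, hP]
    abel
  rw [h0]
  have h1 : T.toLS.bar f ∈ T.toLS.Wt (n + 3) (N - 1) :=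
    T.toLS.Wt_mono (Nat.zero_le _) (T.toLS.bar_mem hf)
  have h2 : T.toLS.lam * T.toLS.ss f ∈ T.toLS.Wt (n + 3) (N - 1) := by
    have h3 : T.toLS.ss f ∈ T.toLS.Wt (n + 2) 0 := T.toLS.ss_mem hf
    have h4 := T.toLS.Wt_mul T.toLS.lam_mem h3
    rw [show 1 + (n + 2) = n + 3 by omega] at h4
    exact T.toLS.Wt_mono (by omega) h4
  have h3 : T.toLS.HH (T.de f) ∈ T.toLS.Wt (n + 3) (N - 1) := T.toLS.HH_mem (T.desc_top_de hf)
  have h4 : T.de (T.toLS.HH f) ∈ T.toLS.Wt (n + 3) (N - 1) := by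
    have h5 : T.toLS.HH f ∈ T.toLS.Wt (n + 2) N := T.toLS.HH_mem hf
    exact T.desc_top_de h5
  have h5 : dd k D T.toLS.xi * T.toLS.JJ g ∈ T.toLS.Wt (n + 3) (N - 1) := by
    have h6 := T.toLS.Wt_mul T.desc_top_xi (T.toLS.JJ_mem hg)
    rw [show 3 + n = n + 3 by omega, Nat.add_zero] at h6
    exact h6
  exact sub_mem (sub_mem (sub_mem (add_mem h1 h2) h3) h4) h5

/-- DESCENT IN WEIGHT `N`: if `Psi f = JJ (dd g)` with `g` of degree `n`, `f` of degree `n + 3`, then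
`xi * JJ (dd g) = dd (xi * JJ g) - dd xi * JJ g` (`sg xi = xi`, `dd_JJ`), `dd xi = de xi` is in
`Wt 3 (N-1)` (`d0_xi`, `de_mem`). So `f' = f - dd (HH f) - dd (xi * JJ g)` is a cocycle in
`VV (n+2) ⊔ Wt (n+3) (N-1) ≤ Wt (n+3) (N-1)` (`N ≥ 2`): apply `desc_low`. -/
theorem desc_top {n : ℕ} {f : TA k D} (hf : f ∈ T.toLS.Wt (n + 3) N) (hd : dd k D f = 0)
    {g : TA k E} (hg : g ∈ Tn k E n) (hP : T.toLS.Psi f = T.toLS.JJ (dd k E g)) :
    ∃ v ∈ T.VV (n + 2), ∃ u ∈ T.toLS.Wt (n + 2) N, f = v + dd k D u := by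
  have hN := T.toLS.two_le
  have h1 := T.desc_top_mem hf hd hg hP
  obtain ⟨v, hv, u, hu, h2⟩ := T.desc_low (n := n + 2) (by omega : N - 1 < N) h1
    (desc_low_dd hd)
  have h3 : T.toLS.HH f ∈ T.toLS.Wt (n + 2) N := T.toLS.HH_mem hf
  have h4 : T.toLS.xi * T.toLS.JJ g ∈ T.toLS.Wt (n + 2) N := by
    have h5 := T.toLS.Wt_mul T.toLS.xi_mem (T.toLS.JJ_mem hg)
    rw [show 2 + n = n + 2 by omega, Nat.add_zero] at h5
    exact h5
  refine ⟨v, hv, u + (T.toLS.HH f + T.toLS.xi * T.toLS.JJ g),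
    add_mem (T.toLS.Wt_mono (by omega) hu) (add_mem h3 h4), ?_⟩
  rw [map_add, ← add_assoc, ← h2, sub_add_cancel]

/-- START: `dd xi = de xi ∈ Wt 3 (N-1)` is a cocycle, `desc_low`. -/
theorem start : ∃ x ∈ T.toLS.Wt 2 N, ∃ u ∈ T.toLS.Wt 2 (N - 1), x = T.toLS.xi - u ∧
    dd k D x ∈ T.VV 2 := by
  have h2 := T.toLS.two_le
  have hx : T.toLS.xi ∈ T.toLS.Wt 2 ((N - 1) + 1) := by
    have h := T.toLS.xi_mem
    rwa [show N - 1 + 1 = N by omega]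
  have hde : dd k D T.toLS.xi ∈ T.toLS.Wt 3 (N - 1) := by
    have h := T.de_mem hx
    rw [T.de_apply, T.toLS.d0_xi, sub_zero] at h
    exact h
  obtain ⟨v, hv, u, hu, h⟩ := T.desc_low (n := 2) (by omega) hde (dd_dd k D _)
  refine ⟨T.toLS.xi - u, Submodule.sub_mem _ T.toLS.xi_mem (T.toLS.Wt_mono (by omega) hu), u, hu,
    rfl, ?_⟩
  rw [map_sub, h, add_sub_cancel_right]
  exact hv

/-- START for `N = 2`: `xi = lam * lam`, `dd xi = JJ om * lam - lam * JJ om ∈ Wt 3 1`, and by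
`desc_eq` `dd xi - dd (HH (dd xi)) = bar (dd xi) + lam * ss (dd xi) - de (HH (dd xi))` with
`ss (dd xi) = JJ om - JJ om = 0` (`HH (de (dd xi)) = 0` since `de (dd xi) ∈ Wt 4 0`), the rest is in
`Wt 3 0`, so it is `JJ w`. -/
theorem start2 (hN : N = 2) : ∃ x ∈ T.toLS.Wt 2 N, ∃ u ∈ T.toLS.Wt 2 (N - 1),
    x = T.toLS.xi - u ∧ ∃ w ∈ Tn k E 3, dd k D x = T.toLS.JJ w := by
  subst hN
  have hx : T.toLS.xi ∈ T.toLS.Wt 2 (1 + 1) := T.toLS.xi_mem
  have hde : dd k D T.toLS.xi ∈ T.toLS.Wt 3 1 := by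
    have h := T.de_mem hx
    rw [T.de_apply, T.toLS.d0_xi, sub_zero] at h
    exact h
  have hxi : T.toLS.xi = T.toLS.lam * T.toLS.lam := by
    unfold LS.xi LS.lam
    rw [show Finset.Ico 1 2 = {1} from rfl, Finset.sum_singleton]
  have hsg : sg k D T.toLS.lam = -T.toLS.lam := sg_io k D _
  have hbar : T.toLS.bar T.toLS.lam = 0 := by
    unfold LS.lam
    rw [T.toLS.bar_L, if_neg one_ne_zero]
  have hbars : T.toLS.bars T.toLS.lam = 0 := by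
    rw [T.toLS.bars_apply, hsg, map_neg, hbar, neg_zero]
  have hss : T.toLS.ss T.toLS.lam = 1 := by
    unfold LS.lam
    rw [T.toLS.ss_L, if_pos rfl, Bialgebra.counit_one, map_one]
  obtain ⟨om, hom, hlam⟩ := T.dd_lam
  have hom2 : T.toLS.bars (T.toLS.JJ om) = T.toLS.JJ om := by
    rw [T.toLS.bars_apply, T.toLS.sg_JJ, T.toLS.bar_JJ, sg_Tn k E 2 om hom]
    norm_num
  have hs0 : T.toLS.ss (dd k D T.toLS.xi) = 0 := by
    rw [hxi, dd_mul, hsg, hlam, map_add, T.toLS.ss_mul, T.toLS.ss_mul, T.toLS.ss_JJ, map_neg, map_neg,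
      hss, hbar, hbars, hom2, T.toLS.bar_JJ]
    simp
  have hP : T.toLS.Psi (dd k D T.toLS.xi) = 0 := T.toLS.Psi_low (by omega) hde
  have hH1 : T.toLS.HH (T.de (dd k D T.toLS.xi)) = 0 := T.toLS.HH_zero (T.de_mem hde)
  have hH2 : T.toLS.HH (dd k D T.toLS.xi) ∈ T.toLS.Wt 2 1 := T.toLS.HH_mem hde
  have hE := T.desc_eq (n := 3) (T.toLS.Wt_mono (by omega) hde) (dd_dd k D _)
  rw [hs0, hP, hH1, mul_zero, mul_zero, add_zero, add_zero, sub_zero] at hE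
  have hm : dd k D T.toLS.xi - dd k D (T.toLS.HH (dd k D T.toLS.xi)) ∈ T.toLS.Wt 3 0 := by
    rw [hE]
    exact Submodule.sub_mem _ (T.toLS.bar_mem hde) (T.de_mem hH2)
  obtain ⟨w, hw, hwe⟩ := T.toLS.exists_JJ hm
  refine ⟨T.toLS.xi - T.toLS.HH (dd k D T.toLS.xi), Submodule.sub_mem _ T.toLS.xi_mem
    (T.toLS.Wt_mono (by omega) hH2), T.toLS.HH (dd k D T.toLS.xi), hH2, rfl, w, hw, ?_⟩
  rw [map_sub, hwe]

end

end LSD

end Pool.Agent.Helper77.R1
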