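import Pool.Agent.Helper77.R1.IterR
import Pool.Agent.Helper90.R1.ChainD

/-!
# Project R1, part F: the letter structure of a quotient of rank one

`R : RData N π` (`Pool/Agent/Helper90/R1/Defs.lean`): `π : B → C` is surjective, `ker π = B X`,
`X ^ N = 0`, `dim B = N dim C`, `X b - b X ∈ B X²`. `Ip R j = B X^j`.
-/

set_option linter.unusedSectionVars false
set_option autoImplicit false

open scoped TensorProduct
open Pool.Agent.Helper90.FC Pool.Agent.Helper90.R1

namespace Pool.Agent.Helper77.R1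

universe u

section

variable {k : Type u} [Field k] {B C : Type u} [Ring B] [Ring C] [HopfAlgebra k B]
variable [HopfAlgebra k C] {N : ℕ} {π : B →ₐc[k] C} (R : RData N π)

/-- The left ideal `B X^j`. -/
noncomputable def Ip (j : ℕ) : Submodule k B := LinearMap.range (LinearMap.mulRight k (R.X ^ j))

theorem mem_Ip {j : ℕ} {b : B} : b ∈ Ip R j ↔ ∃ b', b' * R.X ^ j = b := Iff.rfl

theorem Ip_mono {i j : ℕ} (h : i ≤ j) : Ip R j ≤ Ip R i := by
  rintro b ⟨b', rfl⟩
  refine ⟨b' * R.X ^ (j - i), ?_⟩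
  show b' * R.X ^ (j - i) * R.X ^ i = b' * R.X ^ j
  rw [mul_assoc, ← pow_add, Nat.sub_add_cancel h]

theorem mul_mem_Ip {j : ℕ} (a : B) {b : B} (hb : b ∈ Ip R j) : a * b ∈ Ip R j := by
  obtain ⟨b', rfl⟩ := hb
  exact ⟨a * b', mul_assoc a b' (R.X ^ j)⟩

/-- (Induction on `i`, from `R.cen`.) -/
theorem pow_comm (i : ℕ) (b : B) : R.X ^ i * b - b * R.X ^ i ∈ Ip R (i + 1) := by
  induction i generalizing b with
  | zero =>
    rw [pow_zero, one_mul, mul_one, sub_self]
    exact Submodule.zero_mem _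
  | succ i ih =>
    obtain ⟨b1, h1⟩ := R.cen b
    obtain ⟨c1, h2⟩ := (mem_Ip R).1 (ih b1)
    obtain ⟨c2, h3⟩ := (mem_Ip R).1 (ih b)
    have e1 : R.X * b = b * R.X + b1 * R.X ^ 2 := by rw [← h1]; abel
    have e2 : R.X ^ i * b1 = b1 * R.X ^ i + c1 * R.X ^ (i + 1) := by rw [h2]; abel
    have e3 : R.X ^ i * b = b * R.X ^ i + c2 * R.X ^ (i + 1) := by rw [h3]; abel
    refine (mem_Ip R).2 ⟨c2 + b1 + c1 * R.X, ?_⟩
    have e4 : R.X ^ (i + 1) * b = b * R.X ^ (i + 1) + c2 * R.X ^ (i + 2) + b1 * R.X ^ (i + 2) +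
        c1 * R.X ^ (i + 3) := by
      calc R.X ^ (i + 1) * b = R.X ^ i * (R.X * b) := by rw [pow_succ, mul_assoc]
        _ = R.X ^ i * b * R.X + R.X ^ i * b1 * R.X ^ 2 := by
          rw [e1, mul_add, ← mul_assoc, ← mul_assoc]
        _ = _ := by
          rw [e2, e3, add_mul, add_mul, mul_assoc b, ← pow_succ, mul_assoc c2, ← pow_succ,
            mul_assoc b1, ← pow_add, mul_assoc c1, ← pow_add]
          simp only [add_assoc, Nat.reduceAdd]
    rw [e4, add_mul, add_mul, mul_assoc c1, ← pow_succ']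
    abel

theorem Ip_mul {i j : ℕ} {a b : B} (ha : a ∈ Ip R i) (hb : b ∈ Ip R j) : a * b ∈ Ip R (i + j) := by
  obtain ⟨a1, rfl⟩ := (mem_Ip R).1 ha
  obtain ⟨b1, rfl⟩ := (mem_Ip R).1 hb
  obtain ⟨c1, h2⟩ := (mem_Ip R).1 (pow_comm R i b1)
  have e2 : R.X ^ i * b1 = b1 * R.X ^ i + c1 * R.X ^ (i + 1) := by rw [h2]; abel
  have e3 : a1 * R.X ^ i * (b1 * R.X ^ j) =
      a1 * b1 * R.X ^ (i + j) + a1 * c1 * R.X ^ (i + 1 + j) := by
    calc a1 * R.X ^ i * (b1 * R.X ^ j) = a1 * (R.X ^ i * b1) * R.X ^ j := by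
          simp only [mul_assoc]
      _ = _ := by
        rw [e2, mul_add, add_mul]
        simp only [mul_assoc, pow_add]
  rw [e3]
  exact Submodule.add_mem _ ((mem_Ip R).2 ⟨_, rfl⟩)
    (Ip_mono R (by omega : i + j ≤ i + 1 + j) ((mem_Ip R).2 ⟨_, rfl⟩))

theorem Ip_ge {j : ℕ} (h : N ≤ j) {b : B} (hb : b ∈ Ip R j) : b = 0 := by
  obtain ⟨b1, rfl⟩ := (mem_Ip R).1 hb
  rw [← Nat.sub_add_cancel h, pow_add, R.nilp, mul_zero, mul_zero]

theorem π_X : π R.X = 0 := by
  exact (R.ker R.X).2 ⟨1, (one_mul _).symm⟩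

theorem ker_eq (b : B) : π b = 0 ↔ b ∈ Ip R 1 := by
  rw [R.ker, mem_Ip]
  constructor
  · rintro ⟨b', h⟩
    exact ⟨b', by rw [pow_one]; exact h.symm⟩
  · rintro ⟨b', h⟩
    exact ⟨b', by rw [pow_one] at h; exact h.symm⟩

/-- The coefficients of the expansion `b = ∑_{j<N} s (c_j b) X^j`. -/
structure Coef where
  s : C →ₗ[k] B
  c : ℕ → B →ₗ[k] C
  π_s : ∀ x, π (s x) = x
  s_one : s 1 = 1
  c_ge : ∀ j, N ≤ j → c j = 0
  expand : ∀ b, ∑ j ∈ Finset.range N, s (c j b) * R.X ^ j = b
  c_s : ∀ i j, i < N → ∀ x, c j (s x * R.X ^ i) = if j = i then x else 0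

private theorem F2_sec (R' : RData N π) :
    ∃ s : C →ₗ[k] B, (∀ x, π (s x) = x) ∧ s 1 = 1 := by
  obtain ⟨s₀, h₀⟩ := LinearMap.exists_rightInverse_of_surjective
    (π : B →ₗ[k] C) (LinearMap.range_eq_top.2 R'.surj)
  have h1 : ∀ x, π (s₀ x) = x := fun x => LinearMap.congr_fun h₀ x
  refine ⟨s₀ + (Coalgebra.counit (R := k) (A := C)).smulRight (1 - s₀ 1), fun x => ?_, ?_⟩
  · rw [LinearMap.add_apply, LinearMap.smulRight_apply, map_add, map_smul, map_sub, h1, h1,
      map_one, sub_self, smul_zero, add_zero]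
  · rw [LinearMap.add_apply, LinearMap.smulRight_apply, Bialgebra.counit_one, one_smul,
      add_sub_cancel]

/-- The expansion map. -/
private noncomputable def F2_map (s : C →ₗ[k] B) : (Fin N → C) →ₗ[k] B :=
  ∑ j : Fin N, (LinearMap.mulRight k (R.X ^ (j : ℕ)) ∘ₗ s) ∘ₗ LinearMap.proj j

private theorem F2_map_apply (s : C →ₗ[k] B) (x : Fin N → C) :
    F2_map R s x = ∑ j : Fin N, s (x j) * R.X ^ (j : ℕ) := by
  simp [F2_map, LinearMap.sum_apply]

private theorem F2_map_single (s : C →ₗ[k] B) (i : Fin N) (x : C) :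
    F2_map R s (Pi.single i x) = s x * R.X ^ (i : ℕ) := by
  rw [F2_map_apply, Finset.sum_eq_single i]
  · rw [Pi.single_eq_same]
  · intro j _ hj
    rw [Pi.single_eq_of_ne hj, map_zero, zero_mul]
  · intro h
    exact absurd (Finset.mem_univ i) h

private theorem F2_range (s : C →ₗ[k] B) (hs : ∀ x, π (s x) = x) (m : ℕ) :
    m ≤ N → ∀ b, b * R.X ^ (N - m) ∈ LinearMap.range (F2_map R s) := by
  induction m with
  | zero =>
    intro _ b
    rw [Nat.sub_zero, R.nilp, mul_zero]
    exact Submodule.zero_mem _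
  | succ m ih =>
    intro hm b
    obtain ⟨b', hb'⟩ := (R.ker (b - s (π b))).1 (by rw [map_sub, hs, sub_self])
    have hj : N - (m + 1) < N := by omega
    have h1 : b = s (π b) + b' * R.X := by rw [← hb', add_sub_cancel]
    have h2 : b * R.X ^ (N - (m + 1)) =
        s (π b) * R.X ^ (N - (m + 1)) + b' * R.X ^ (N - m) := by
      conv_lhs => rw [h1]
      rw [add_mul, mul_assoc, ← pow_succ']
      congr 3
      omega
    rw [h2]
    refine Submodule.add_mem _ ?_ (ih (by omega) b')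
    exact ⟨Pi.single ⟨N - (m + 1), hj⟩ (π b), F2_map_single R s ⟨N - (m + 1), hj⟩ (π b)⟩

private theorem F2_surj (s : C →ₗ[k] B) (hs : ∀ x, π (s x) = x) :
    Function.Surjective (F2_map R s) := by
  intro b
  have h := F2_range R s hs N le_rfl b
  rw [Nat.sub_self, pow_zero, mul_one] at h
  exact h

/-- Existence: choose a linear section `s` of `π` with `s 1 = 1` (if `C` is nontrivial; a section of a
surjective linear map, corrected by `x ↦ ε(x) (1 - s 1)`). The map `(Fin N → C) → B`,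
`(x_j) ↦ ∑ s(x_j) X^j`, is surjective (`b - s (π b) ∈ B X`, iterate, `X^N = 0`), hence bijective by
`R.dim`. -/
theorem exists_coef [Module.Finite k B] [Module.Finite k C] : Nonempty (Coef R) := by
  obtain ⟨s, hs, hs1⟩ := F2_sec R
  have hsurj := F2_surj R s hs
  have hdim : Module.finrank k (Fin N → C) = Module.finrank k B := by
    rw [Module.finrank_pi_fintype, Finset.sum_const, Finset.card_univ, Fintype.card_fin,
      smul_eq_mul, R.dim]
  have hinj : Function.Injective (F2_map R s) :=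
    (LinearMap.injective_iff_surjective_of_finrank_eq_finrank hdim).2 hsurj
  let e : (Fin N → C) ≃ₗ[k] B := LinearEquiv.ofBijective (F2_map R s) ⟨hinj, hsurj⟩
  have he : ∀ x, e x = F2_map R s x := fun x => rfl
  refine ⟨{
    s := s
    c := fun j => if h : j < N then LinearMap.proj ⟨j, h⟩ ∘ₗ e.symm.toLinearMap else 0
    π_s := hs
    s_one := hs1
    c_ge := fun j hj => dif_neg (by omega)
    expand := fun b => ?_
    c_s := fun i j hi x => ?_ }⟩
  · have h1 := e.apply_symm_apply b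
    rw [he, F2_map_apply] at h1
    conv_rhs => rw [← h1]
    rw [Finset.sum_range]
    refine Finset.sum_congr rfl fun j _ => ?_
    rw [dif_pos j.2]
    rfl
  · have h1 : e.symm (s x * R.X ^ i) = Pi.single ⟨i, hi⟩ x := by
      rw [LinearEquiv.symm_apply_eq, he, F2_map_single]
    by_cases hj : j < N
    · rw [dif_pos hj]
      have h2 : (LinearMap.proj ⟨j, hj⟩ ∘ₗ e.symm.toLinearMap) (s x * R.X ^ i) =
          e.symm (s x * R.X ^ i) ⟨j, hj⟩ := rfl
      rw [h2, h1]
      by_cases hij : j = i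
      · subst hij
        rw [if_pos rfl, Pi.single_eq_same]
      · rw [if_neg hij, Pi.single_eq_of_ne]
        intro h
        exact hij (congrArg Fin.val h)
    · rw [dif_neg hj, if_neg (by omega)]
      rfl

variable {R} (K : Coef R)

private theorem mem_Ip_iff_X {i : ℕ} (h : N ≤ i) : R.X ^ i = 0 := by
  rw [← Nat.sub_add_cancel h, pow_add, R.nilp, mul_zero]

include K in
private theorem mem_Ip_iff_aux {j i : ℕ} (hi : i < j) (x : C) (n : ℕ) :
    K.c i (K.s x * R.X ^ n * R.X ^ j) = 0 := by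
  rw [mul_assoc, ← pow_add]
  rcases lt_or_ge (n + j) N with h | h
  · rw [K.c_s (n + j) i h, if_neg (by omega)]
  · rw [mem_Ip_iff_X (R := R) h, mul_zero, map_zero]

/-- `b ∈ B X^j` if and only if the first `j` coefficients vanish. -/
theorem mem_Ip_iff (j : ℕ) (b : B) : b ∈ Ip R j ↔ ∀ i, i < j → K.c i b = 0 := by
  constructor
  · intro hb i hi
    obtain ⟨b', rfl⟩ := (mem_Ip R).1 hb
    rw [← K.expand b', Finset.sum_mul, map_sum]
    exact Finset.sum_eq_zero fun n _ => mem_Ip_iff_aux K hi _ n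
  · intro h
    rw [← K.expand b]
    refine Submodule.sum_mem _ fun i _ => ?_
    rcases lt_or_ge i j with hi | hi
    · rw [h i hi, map_zero, zero_mul]
      exact Submodule.zero_mem _
    · rw [mem_Ip]
      refine ⟨K.s (K.c i b) * R.X ^ (i - j), ?_⟩
      rw [mul_assoc, ← pow_add, Nat.sub_add_cancel hi]

/-- (`0 < N`: otherwise `B = 0`; here `2 ≤ N`.) -/
theorem c_zero (hN : 2 ≤ N) (b : B) : K.c 0 b = π b := by
  have h1 : π b = ∑ j ∈ Finset.range N, π (K.s (K.c j b) * R.X ^ j) := by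
    conv_lhs => rw [← K.expand b]
    rw [map_sum]
  rw [h1, Finset.sum_eq_single 0]
  · rw [pow_zero, mul_one, K.π_s]
  · intro j _ hj
    rw [map_mul, map_pow, π_X R, zero_pow hj, mul_zero]
  · intro h
    exact absurd (Finset.mem_range.2 (by omega)) h

/-- For `x = s(a) X^i`, `y = s(b) X^j`: the product is `s(a b) X^(i+j)` modulo `B X^(i+j+1)`. -/
theorem c_mul (hN : 2 ≤ N) (a b : C) (i j m : ℕ) (hm : m ≤ i + j) (hmN : m < N) :
    K.c m ((K.s a * R.X ^ i) * (K.s b * R.X ^ j)) = if m = i + j then a * b else 0 := by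
  have h1 : (R.X ^ i * K.s b - K.s b * R.X ^ i) * R.X ^ j ∈ Ip R (i + j + 1) := by
    obtain ⟨u, hu⟩ := (mem_Ip R).1 (pow_comm R i (K.s b))
    refine (mem_Ip R).2 ⟨u, ?_⟩
    rw [← hu, mul_assoc, ← pow_add]
    congr 2
    omega
  have h2 : (K.s a * K.s b - K.s (a * b)) * R.X ^ (i + j) ∈ Ip R (i + j + 1) := by
    have h3 : K.s a * K.s b - K.s (a * b) ∈ Ip R 1 := by
      rw [← ker_eq R, map_sub, map_mul, K.π_s, K.π_s, K.π_s, sub_self]
    obtain ⟨u, hu⟩ := (mem_Ip R).1 h3
    refine (mem_Ip R).2 ⟨u, ?_⟩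
    rw [← hu, mul_assoc, ← pow_add]
    congr 2
    omega
  have h4 : (K.s a * R.X ^ i) * (K.s b * R.X ^ j) = K.s (a * b) * R.X ^ (i + j) +
      (K.s a * ((R.X ^ i * K.s b - K.s b * R.X ^ i) * R.X ^ j) +
        (K.s a * K.s b - K.s (a * b)) * R.X ^ (i + j)) := by
    rw [pow_add]
    noncomm_ring
  have h5 := (mem_Ip_iff K (i + j + 1) _).1 (Submodule.add_mem _ (mul_mem_Ip R (K.s a) h1) h2)
    m (by omega)
  rw [h4, map_add, h5, add_zero]
  rcases lt_or_ge (i + j) N with h | h
  · rw [K.c_s (i + j) m h]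
  · rw [mem_Ip_iff_X (R := R) h, mul_zero, map_zero, if_neg (by omega)]

end

section

variable {k : Type u} [Field k] {B C : Type u} [Ring B] [Ring C] [HopfAlgebra k B]
variable [HopfAlgebra k C] [Module.Finite k B] [Module.Finite k C] {N : ℕ} {π : B →ₐc[k] C}
variable {R : RData N π} (K : Coef R)

/-- The letters. -/
noncomputable def fl (j : ℕ) : HD k C →ₗ[k] HD k B where
  toFun g := WithConv.toConv (g.ofConv ∘ₗ K.c j)
  map_add' g g' := by
    apply WithConv.ofConv_injective
    ext a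
    simp
  map_smul' c g := by
    apply WithConv.ofConv_injective
    ext a
    simp

/-- The components. -/
noncomputable def fpr (j : ℕ) : HD k B →ₗ[k] HD k C where
  toFun f := WithConv.toConv (f.ofConv ∘ₗ LinearMap.mulRight k (R.X ^ j) ∘ₗ K.s)
  map_add' g g' := by
    apply WithConv.ofConv_injective
    ext a
    simp
  map_smul' c g := by
    apply WithConv.ofConv_injective
    ext a
    simp

theorem fl_apply (j : ℕ) (g : HD k C) (b : B) : (fl K j g).ofConv b = g.ofConv (K.c j b) := rfl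

theorem fpr_apply (j : ℕ) (f : HD k B) (x : C) :
    (fpr K j f).ofConv x = f.ofConv (K.s x * R.X ^ j) := rfl

/-- The letter structure. -/
noncomputable def lsR (hN : 2 ≤ N) : LS k (HD k C) (HD k B) N where
  two_le := hN
  l := fl K
  pr := fpr K
  pr_l j hj g := by
    apply DualB_ev_ext
    intro x
    rw [fpr_apply, fl_apply, K.c_s j j hj, if_pos rfl]
  pr_l_ne i j hij g := by
    apply DualB_ev_ext
    intro x
    rw [fpr_apply, fl_apply]
    rcases lt_or_ge i N with hi | hi
    · rw [K.c_s i j hi, if_neg (fun h => hij h.symm), map_zero]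
      rfl
    · have h0 : R.X ^ i = 0 := by
        rw [← Nat.sub_add_cancel hi, pow_add, R.nilp, mul_zero]
      rw [h0, mul_zero, map_zero, map_zero]
      rfl
  l_ge j hj := by
    refine LinearMap.ext fun g => ?_
    apply DualB_ev_ext
    intro b
    rw [fl_apply, K.c_ge j hj, LinearMap.zero_apply, map_zero]
    rfl
  span f := by
    apply DualB_ev_ext
    intro b
    have h1 : ∀ (s : Finset ℕ) (F : ℕ → HD k B),
        (∑ j ∈ s, F j).ofConv b = ∑ j ∈ s, (F j).ofConv b := by
      intro s F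
      exact map_sum (evA k b) F s
    rw [h1]
    conv_rhs => rw [← K.expand b, map_sum]
    rfl

/-- `Fil j` is the annihilator of `B X^(j+1)`. -/
theorem mem_Fil_iff (hN : 2 ≤ N) (j : ℕ) (f : HD k B) :
    f ∈ (lsR K hN).Fil j ↔ ∀ b ∈ Ip R (j + 1), f.ofConv b = 0 := by
  constructor
  · intro hf b hb
    unfold LS.Fil at hf
    induction hf using Submodule.span_induction with
    | mem x hx =>
      obtain ⟨i, g, hi, rfl⟩ := hx
      change (fl K i g).ofConv b = 0
      rw [fl_apply, (mem_Ip_iff K (j + 1) b).mp hb i (Nat.lt_succ_of_le hi), map_zero]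
    | zero => rfl
    | add x y _ _ hx hy =>
      change x.ofConv b + y.ofConv b = 0
      rw [hx, hy, add_zero]
    | smul c x _ hx =>
      change c • x.ofConv b = 0
      rw [hx, smul_zero]
  · intro h
    rw [← (lsR K hN).span f]
    refine Submodule.sum_mem _ fun i _ => ?_
    rcases Nat.lt_or_ge j i with hi | hi
    · have h0 : (lsR K hN).pr i f = 0 := by
        apply DualB_ev_ext
        intro x
        change (fpr K i f).ofConv x = 0
        rw [fpr_apply]
        exact h _ (Ip_mono R hi ⟨K.s x, rfl⟩)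
      rw [h0, map_zero]
      exact Submodule.zero_mem _
    · exact (lsR K hN).l_mem_Fil hi _

private theorem F4_ev (i j : ℕ) (a b : C) (t : HD k B ⊗[k] HD k B) :
    evAA k a b (TensorProduct.map (fpr K i) (fpr K j) t) =
      evAA k (K.s a * R.X ^ i) (K.s b * R.X ^ j) t := by
  induction t using TensorProduct.induction_on with
  | zero => rw [map_zero, map_zero, map_zero]
  | tmul f g => rw [TensorProduct.map_tmul, evAA_tmul, evAA_tmul, fpr_apply, fpr_apply]
  | add x y hx hy => rw [map_add, map_add, map_add, hx, hy]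

private theorem F4_expand (hN : 2 ≤ N) (t : HD k B ⊗[k] HD k B) :
    t = ∑ i ∈ Finset.range N, ∑ j ∈ Finset.range N,
      TensorProduct.map ((lsR K hN).l i) ((lsR K hN).l j)
        (TensorProduct.map ((lsR K hN).pr i) ((lsR K hN).pr j) t) := by
  induction t using TensorProduct.induction_on with
  | zero => simp
  | tmul f g =>
    conv_lhs => rw [← (lsR K hN).span f, ← (lsR K hN).span g]
    rw [TensorProduct.sum_tmul]
    refine Finset.sum_congr rfl fun i _ => ?_
    rw [TensorProduct.tmul_sum]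
    refine Finset.sum_congr rfl fun j _ => ?_
    rw [TensorProduct.map_tmul, TensorProduct.map_tmul]
  | add x y hx hy =>
    conv_lhs => rw [hx, hy]
    rw [← Finset.sum_add_distrib]
    refine Finset.sum_congr rfl fun i _ => ?_
    rw [← Finset.sum_add_distrib]
    refine Finset.sum_congr rfl fun j _ => ?_
    rw [map_add, map_add]

/-- A tensor is in `F2 m` if it vanishes at all pairs `s(a) X^i`, `s(b) X^j`, `m < i + j`. (Expand
`t = ∑_{i,j<N} (l_i pr_i ⊗ l_j pr_j) t`; `evAA (s a X^i) (s b X^j) t` is the value of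
`(pr_i ⊗ pr_j) t` at `a`, `b`; `evAA_ext`.) -/
theorem F2_of_ev (hN : 2 ≤ N) (m : ℕ) (t : HD k B ⊗[k] HD k B)
    (h : ∀ i j a b, m < i + j → i < N → j < N →
      evAA k (K.s a * R.X ^ i) (K.s b * R.X ^ j) t = 0) : t ∈ (lsR K hN).F2 m := by
  rw [F4_expand K hN t]
  refine Submodule.sum_mem _ fun i hi => Submodule.sum_mem _ fun j hj => ?_
  rcases Nat.lt_or_ge m (i + j) with hij | hij
  · have h0 : TensorProduct.map ((lsR K hN).pr i) ((lsR K hN).pr j) t = 0 := by
      apply evAA_ext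
      intro a b
      rw [map_zero]
      change evAA k a b (TensorProduct.map (fpr K i) (fpr K j) t) = 0
      rw [F4_ev]
      exact h i j a b hij (Finset.mem_range.mp hi) (Finset.mem_range.mp hj)
    rw [h0, map_zero]
    exact Submodule.zero_mem _
  · generalize TensorProduct.map ((lsR K hN).pr i) ((lsR K hN).pr j) t = r
    induction r using TensorProduct.induction_on with
    | zero =>
      rw [map_zero]
      exact Submodule.zero_mem _
    | tmul f g =>
      rw [TensorProduct.map_tmul]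
      exact (lsR K hN).tmul_mem_F2 hij ((lsR K hN).l_mem_Fil le_rfl _)
        ((lsR K hN).l_mem_Fil le_rfl _)
    | add x y hx hy =>
      rw [map_add]
      exact Submodule.add_mem _ hx hy

/-- The value of the graded comultiplication. -/
theorem evAA_com0 (hN : 2 ≤ N) (j : ℕ) (g : HD k C) (x y : B) :
    evAA k x y ((lsR K hN).com0 j g) =
      ∑ a ∈ Finset.range (j + 1), g.ofConv (K.c a x * K.c (j - a) y) := by
  have h1 : ∀ (a b : ℕ) (t : HD k C ⊗[k] HD k C),
      evAA k x y (TensorProduct.map (fl K a) (fl K b) t) = evAA k (K.c a x) (K.c b y) t := by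
    intro a b t
    induction t with
    | zero => simp
    | tmul f f' =>
      rw [TensorProduct.map_tmul, evAA_tmul, evAA_tmul, fl_apply, fl_apply]
    | add u v hu hv => rw [map_add, map_add, hu, hv, map_add]
  unfold LS.com0
  rw [map_sum]
  refine Finset.sum_congr rfl fun a _ => ?_
  exact (h1 a (j - a) _).trans (comulD_spec k g _ _)

/-- `comulD_spec`, `evAA_com0`, `c_mul`, `F2_of_ev`. -/
theorem comul_lowR (hN : 2 ≤ N) (j : ℕ) (hj : j + 1 < N) (g : HD k C) :
    Coalgebra.comul (R := k) (fl K (j + 1) g) - (lsR K hN).com0 (j + 1) g ∈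
      (lsR K hN).F2 j := by
  refine F2_of_ev K hN j _ fun i i' a b hij hi hi' => ?_
  rw [map_sub, comulD_spec, fl_apply, c_mul K hN a b i i' (j + 1) (by omega) hj, evAA_com0,
    sub_eq_zero]
  simp only [K.c_s i _ hi, K.c_s i' _ hi']
  split_ifs with h
  · rw [Finset.sum_eq_single i]
    · rw [if_pos rfl, if_pos (by omega)]
    · intro c _ hc
      rw [if_neg hc, zero_mul, map_zero]
    · intro h1
      exact absurd (Finset.mem_range.2 (by omega)) h1
  · rw [map_zero]
    refine (Finset.sum_eq_zero fun c hc => ?_).symm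
    by_cases h1 : c = i
    · rw [Finset.mem_range] at hc
      rw [if_neg (show ¬ j + 1 - c = i' by omega), mul_zero, map_zero]
    · rw [if_neg h1, zero_mul, map_zero]

/-- The filtration of `B ⊗ B`: the span of `u ⊗ v`, `u ∈ B X^i`, `v ∈ B X^j`, `i + j ≥ m`. -/
noncomputable def J2 (R : RData N π) (m : ℕ) : Submodule k (B ⊗[k] B) :=
  Submodule.span k {t | ∃ (i j : ℕ) (u v : B), m ≤ i + j ∧ u ∈ Ip R i ∧ v ∈ Ip R j ∧
    u ⊗ₜ[k] v = t}

/-- `(π ⊗ π) t = 0` implies `t ∈ J2 1`: `t = ((1 - sπ) ⊗ 1) t + (sπ ⊗ (1 - sπ)) t`. -/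
theorem J2_one (K : Coef R) (t : B ⊗[k] B)
    (h : TensorProduct.map (π : B →ₗ[k] C) (π : B →ₗ[k] C) t = 0) : t ∈ J2 R 1 := by
  set P : B →ₗ[k] B := K.s ∘ₗ (π : B →ₗ[k] C) with hP
  have hker : ∀ b, b - P b ∈ Ip R 1 := by
    intro b
    rw [← ker_eq R, map_sub]
    change π b - π (K.s (π b)) = 0
    rw [K.π_s, sub_self]
  have htop : ∀ b, b ∈ Ip R 0 := fun b => (mem_Ip R).2 ⟨b, by rw [pow_zero, mul_one]⟩
  have h1 : ∀ t : B ⊗[k] B, t - TensorProduct.map P P t ∈ J2 R 1 := by
    intro t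
    induction t with
    | zero =>
      rw [map_zero, sub_zero]
      exact Submodule.zero_mem _
    | tmul u v =>
      have h2 : u ⊗ₜ[k] v - TensorProduct.map P P (u ⊗ₜ[k] v) =
          (u - P u) ⊗ₜ[k] v + P u ⊗ₜ[k] (v - P v) := by
        rw [TensorProduct.map_tmul, TensorProduct.sub_tmul, TensorProduct.tmul_sub]
        abel
      rw [h2]
      exact Submodule.add_mem _
        (Submodule.subset_span ⟨1, 0, _, _, le_refl _, hker u, htop v, rfl⟩)
        (Submodule.subset_span ⟨0, 1, _, _, le_refl _, htop _, hker v, rfl⟩)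
    | add x y hx hy =>
      have h2 : x + y - TensorProduct.map P P (x + y) =
          (x - TensorProduct.map P P x) + (y - TensorProduct.map P P y) := by
        rw [map_add]
        abel
      rw [h2]
      exact Submodule.add_mem _ hx hy
  have h2 : TensorProduct.map P P t = 0 := by
    have h3 : TensorProduct.map P P = TensorProduct.map K.s K.s ∘ₗ
        TensorProduct.map (π : B →ₗ[k] C) (π : B →ₗ[k] C) := by
      rw [hP, TensorProduct.map_comp]
    rw [h3, LinearMap.comp_apply, h, map_zero]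
  have h3 := h1 t
  rwa [h2, sub_zero] at h3

theorem J2_mul {m n : ℕ} {s t : B ⊗[k] B} (hs : s ∈ J2 R m) (ht : t ∈ J2 R n) :
    s * t ∈ J2 R (m + n) := by
  refine Submodule.span_induction (p := fun s _ => s * t ∈ J2 R (m + n)) ?_ ?_ ?_ ?_ hs
  · rintro _ ⟨i, j, u, v, hij, hu, hv, rfl⟩
    refine Submodule.span_induction (p := fun t _ => (u ⊗ₜ[k] v) * t ∈ J2 R (m + n))
      ?_ ?_ ?_ ?_ ht
    · rintro _ ⟨i', j', u', v', hij', hu', hv', rfl⟩
      rw [Algebra.TensorProduct.tmul_mul_tmul]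
      exact Submodule.subset_span ⟨i + i', j + j', _, _, by omega, Ip_mul R hu hu',
        Ip_mul R hv hv', rfl⟩
    · rw [mul_zero]
      exact Submodule.zero_mem _
    · intro x y _ _ hx hy
      rw [mul_add]
      exact Submodule.add_mem _ hx hy
    · intro c x _ hx
      rw [mul_smul_comm]
      exact Submodule.smul_mem _ c hx
  · rw [zero_mul]
    exact Submodule.zero_mem _
  · intro x y _ _ hx hy
    rw [add_mul]
    exact Submodule.add_mem _ hx hy
  · intro c x _ hx
    rw [smul_mul_assoc]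
    exact Submodule.smul_mem _ c hx

/-- `Δ (B X^m) ⊆ J2 m`: `Δ X ∈ J2 1`, `J2 0 = ⊤`. -/
theorem comul_Ip (K : Coef R) (m : ℕ) {b : B} (hb : b ∈ Ip R m) :
    Coalgebra.comul (R := k) b ∈ J2 R m := by
  obtain ⟨b', rfl⟩ := (mem_Ip R).1 hb
  have htop : ∀ b, b ∈ Ip R 0 := fun b => (mem_Ip R).2 ⟨b, by rw [pow_zero, mul_one]⟩
  have h0 : ∀ t : B ⊗[k] B, t ∈ J2 R 0 := by
    intro t
    induction t with
    | zero => exact Submodule.zero_mem _
    | tmul u v =>
      exact Submodule.subset_span ⟨0, 0, u, v, le_refl _, htop u, htop v, rfl⟩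
    | add x y hx hy => exact Submodule.add_mem _ hx hy
  have h1 : Coalgebra.comul (R := k) R.X ∈ J2 R 1 := by
    apply J2_one K
    have h2 := CoalgHomClass.map_comp_comul_apply (R := k) π R.X
    refine Eq.trans h2 ?_
    rw [π_X R, map_zero]
  have h2 : ∀ m : ℕ, (Coalgebra.comul (R := k) R.X) ^ m ∈ J2 R m := by
    intro m
    induction m with
    | zero => exact h0 _
    | succ m ih =>
      rw [pow_succ]
      exact J2_mul ih h1
  have h3 : Coalgebra.comul (R := k) (b' * R.X ^ m) =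
      Coalgebra.comul (R := k) b' * (Coalgebra.comul (R := k) R.X) ^ m := by
    rw [Bialgebra.comul_mul, Bialgebra.comul_pow]
  rw [h3]
  have h4 := J2_mul (h0 (Coalgebra.comul (R := k) b')) (h2 m)
  rwa [zero_add] at h4

/-- The product in `HD k B` is the convolution product (`DualB_mul`); `mem_Fil_iff`, `comul_Ip`. -/
theorem mul_lowR (hN : 2 ≤ N) (a b : ℕ) (f g : HD k B) (hf : f ∈ (lsR K hN).Fil a)
    (hg : g ∈ (lsR K hN).Fil b) : f * g ∈ (lsR K hN).Fil (a + b) := by
  rw [mem_Fil_iff] at hf hg ⊢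
  intro x hx
  rw [DualB_mul]
  have h1 := comul_Ip K (a + b + 1) hx
  refine Submodule.span_induction (p := fun t _ => LinearMap.mul' k k
    (TensorProduct.map f.ofConv g.ofConv t) = 0) ?_ ?_ ?_ ?_ h1
  · rintro _ ⟨i, j, u, v, hij, hu, hv, rfl⟩
    rw [TensorProduct.map_tmul, LinearMap.mul'_apply]
    rcases Nat.lt_or_ge a i with h2 | h2
    · rw [hf u (Ip_mono R h2 hu), zero_mul]
    · rw [hg v (Ip_mono R (show b + 1 ≤ j by omega) hv), mul_zero]
  · rw [map_zero, map_zero]
  · intro x y _ _ hx hy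
    rw [map_add, map_add, hx, hy, add_zero]
  · intro c x _ hx
    rw [map_smul, map_smul, hx, smul_zero]

/-- The letter structure with its compatibilities. -/
noncomputable def lsdR (hN : 2 ≤ N) : LSD k (HD k C) (HD k B) N where
  toLS := lsR K hN
  φ := HDmap π
  l_zero g := by
    apply DualB_ev_ext
    intro b
    rw [HDmap_apply]
    exact congrArg g.ofConv (c_zero K hN b)
  comul_low := comul_lowR K hN
  mul_low := mul_lowR K hN

/-- The two evaluations agree (`K.s_one`, `counitD_spec`; both are homomorphisms given on the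
generators). -/
theorem EV_eq (hN : 2 ≤ N) (w : TA k (HD k B)) :
    EV k (R.X ^ (N - 1)) R.X w = (lsR K hN).EVs w := by
  have h1 : ∀ (j : ℕ) (f : HD k B), Coalgebra.counit (R := k) ((lsR K hN).pr j f) =
      f.ofConv (R.X ^ j) := by
    intro j f
    rw [counitD_spec]
    change (fpr K j f).ofConv 1 = _
    rw [fpr_apply, K.s_one, one_mul]
  have h : evMat k (R.X ^ (N - 1)) R.X = (lsR K hN).evs := by
    refine LinearMap.ext fun f => ?_
    change !![0, f.ofConv (R.X ^ (N - 1)); f.ofConv R.X, 0] =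
      !![0, Coalgebra.counit (R := k) ((lsR K hN).pr (N - 1) f);
        Coalgebra.counit (R := k) ((lsR K hN).pr 1 f), 0]
    rw [h1, h1, pow_one]
  unfold EV LS.EVs
  rw [h]

theorem JJ_PT (hN : 2 ≤ N) (w : TA k (HD k C)) : (lsdR K hN).toLS.JJ w = PT π w :=
  (lsdR K hN).JJ_eq w

end

/-- THE GOAL of parts A, B, F. -/
theorem exists_chainR {k : Type u} [Field k] {B C : Type u} [Ring B] [Ring C] [HopfAlgebra k B]
    [HopfAlgebra k C] [Module.Finite k B] [Module.Finite k C] (p s : ℕ) [Fact p.Prime] [CharP k p]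
    (hs : 1 ≤ s) {N : ℕ} (hN : N = p ^ s) {π : B →ₐc[k] C} (R : RData N π) :
    Nonempty (ChainR p R) := by
  obtain ⟨K⟩ := exists_coef R
  have h2 : 2 ≤ N := by
    rw [hN]
    calc 2 ≤ p := (Fact.out : p.Prime).two_le
      _ = p ^ 1 := (pow_one p).symm
      _ ≤ p ^ s := Nat.pow_le_pow_right (Fact.out : p.Prime).pos hs
  set T := lsdR K h2 with hT
  obtain ⟨om, hom, hom'⟩ := T.dd_lam
  let P : ∀ j, T.Stage (p ^ j) := fun j => Classical.choice (T.exists_stage p s hs hN j)
  have hlam : T.toLS.lam = io k (T.l 1 1) := rfl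
  have hz : ∀ j, dd k (HD k B) (T.toLS.lam * T.toLS.JJ (P j).κ + T.toLS.JJ (P j).w) = 0 := by
    intro j
    rw [← (P j).dd_x, dd_dd]
  exact ⟨{
    lam := T.l 1 1
    om := om
    om_mem := hom
    lam_dd := by rw [← JJ_PT K h2, ← hT, ← hom', hlam]
    x := fun j => (P j).x
    κ := fun j => (P j).κ
    w := fun j => (P j).w
    x_mem := fun j => T.toLS.Wt_le_Tn _ _ (P j).x_mem
    κ_mem := fun j => (P j).κ_mem
    w_mem := fun j => (P j).w_mem
    κ_dd := fun j => (T.V_dd hom' (hz j)).1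
    w_dd := fun j => (T.V_dd hom' (hz j)).2
    x_dd := fun j => by
      rw [(P j).dd_x, ← JJ_PT K h2, ← JJ_PT K h2, ← hT, hlam]
    x_ev := fun j => by
      rw [EV_eq K h2]
      exact (P j).ev }⟩

end Pool.Agent.Helper77.R1
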