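import Pool.Agent.Helper77.R1.Loc

/-!
# Project R1, part G3: principal nilpotent Hopf ideals (any finite-dimensional Hopf algebra)

`π : B → C` is surjective, `ker π = B X`, `X` is nilpotent; `B` need not be local. Then all quotients
`B X^j / B X^(j+1)` with `X^j ≠ 0` are free of rank one over `C` (they are Hopf modules over `C`
generated by one element).

Notation of `Loc.lean`: `Ix k X j = B X^j`, `CI k C X j = C ⊗ B X^j`, `rho π = (π ⊗ id) Δ`.
-/

set_option linter.unusedSectionVars false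
set_option autoImplicit false

open scoped TensorProduct
open Pool.Agent.Helper90.FC Pool.Agent.Helper90.R1

namespace Pool.Agent.Helper77.R1

universe u

section

variable {k : Type u} [Field k] {B C : Type u} [Ring B] [Ring C] [HopfAlgebra k B]
variable [HopfAlgebra k C]

/-- `id ⊗ ε : C ⊗ B → C`. -/
noncomputable def ide (k : Type u) [Field k] (C B : Type u) [Ring B] [Ring C] [HopfAlgebra k B]
    [HopfAlgebra k C] : C ⊗[k] B →ₐ[k] C :=
  (Algebra.TensorProduct.rid k k C).toAlgHom.comp
    (Algebra.TensorProduct.map (AlgHom.id k C) (Bialgebra.counitAlgHom k B))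

theorem ide_tmul (c : C) (b : B) : ide k C B (c ⊗ₜ[k] b) = Coalgebra.counit (R := k) b • c := by
  simp [ide]

/-- `(id ⊗ ε) rho = π`. -/
theorem ide_rho (π : B →ₐc[k] C) (b : B) : ide k C B (rho π b) = π b := by
  have h : (ide k C B).toLinearMap = (TensorProduct.rid k C).toLinearMap ∘ₗ
      LinearMap.lTensor C (Coalgebra.counit (R := k) (A := B)) := by
    refine TensorProduct.ext' fun c b => ?_
    rw [AlgHom.toLinearMap_apply, ide_tmul, LinearMap.comp_apply, LinearMap.lTensor_tmul,
      LinearEquiv.coe_coe, TensorProduct.rid_tmul]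
  have h1 := LinearMap.congr_fun h (rho π b)
  rw [AlgHom.toLinearMap_apply] at h1
  rw [h1]
  exact rid_rho π b

/-- `Δ(S c₁) (c₂ ⊗ 1) = 1 ⊗ S c`. In the convolution ring `Hom(C, C ⊗ C)` (`WithConv`, Mathlib
`HopfAlgebra/Convolution`): let `f = Δ ∘ S`, `i(c) = c ⊗ 1`, `i'(c) = 1 ⊗ c`. Then `Δ = i * i'`,
`f * Δ = 1` and `i' * (i' ∘ S) = 1` (algebra homomorphisms composed with `S * id = 1`,
`id * S = 1`), so `f * i = f * i * i' * (i' ∘ S) = i' ∘ S`. -/
theorem comul_antipode (c : C) : LinearMap.mul' k (C ⊗[k] C)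
    (TensorProduct.map ((Coalgebra.comul (R := k)) ∘ₗ (HopfAlgebra.antipode k (A := C)))
      (Algebra.TensorProduct.includeLeft : C →ₐ[k] C ⊗[k] C).toLinearMap
      (Coalgebra.comul (R := k) c)) = 1 ⊗ₜ[k] (HopfAlgebra.antipode k c) := by
  set S : C →ₗ[k] C := HopfAlgebra.antipode k (A := C) with hS
  set D : C →ₐ[k] C ⊗[k] C := Bialgebra.comulAlgHom k C with hD
  set iL : C →ₐ[k] C ⊗[k] C := Algebra.TensorProduct.includeLeft with hiL
  set iR : C →ₐ[k] C ⊗[k] C := Algebra.TensorProduct.includeRight with hiR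
  have h1 : WithConv.toConv D.toLinearMap =
      WithConv.toConv iL.toLinearMap * WithConv.toConv iR.toLinearMap := by
    apply WithConv.ext
    refine LinearMap.ext fun x => ?_
    have h2 := (Coalgebra.Repr.arbitrary k x).convMul_apply (WithConv.toConv iL.toLinearMap)
      (WithConv.toConv iR.toLinearMap)
    refine Eq.trans ?_ h2.symm
    refine (Coalgebra.Repr.arbitrary k x).eq.symm.trans (Finset.sum_congr rfl fun i _ => ?_)
    change _ = ((Coalgebra.Repr.arbitrary k x).left i ⊗ₜ[k] (1 : C)) *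
      ((1 : C) ⊗ₜ[k] (Coalgebra.Repr.arbitrary k x).right i)
    rw [Algebra.TensorProduct.tmul_mul_tmul, mul_one, one_mul]
  have hone : ∀ h : C →ₐ[k] C ⊗[k] C,
      h.toLinearMap.comp (1 : WithConv (C →ₗ[k] C)).ofConv =
        (1 : WithConv (C →ₗ[k] C ⊗[k] C)).ofConv := by
    intro h
    refine LinearMap.ext fun x => ?_
    exact h.commutes _
  have h3 : WithConv.toConv (D.toLinearMap ∘ₗ S) * WithConv.toConv D.toLinearMap = 1 := by
    have h4 := LinearMap.algHom_comp_convMul_distrib D (WithConv.toConv S)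
      (WithConv.toConv (LinearMap.id : C →ₗ[k] C))
    rw [hS, LinearMap.antipode_mul_id, hone] at h4
    exact (WithConv.ext h4).symm
  have h5 : WithConv.toConv iR.toLinearMap * WithConv.toConv (iR.toLinearMap ∘ₗ S) = 1 := by
    have h4 := LinearMap.algHom_comp_convMul_distrib iR
      (WithConv.toConv (LinearMap.id : C →ₗ[k] C)) (WithConv.toConv S)
    rw [hS, LinearMap.id_mul_antipode, hone] at h4
    exact (WithConv.ext h4).symm
  have h6 : WithConv.toConv (D.toLinearMap ∘ₗ S) * WithConv.toConv iL.toLinearMap =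
      WithConv.toConv (iR.toLinearMap ∘ₗ S) := by
    calc WithConv.toConv (D.toLinearMap ∘ₗ S) * WithConv.toConv iL.toLinearMap
        = WithConv.toConv (D.toLinearMap ∘ₗ S) * WithConv.toConv iL.toLinearMap *
          (WithConv.toConv iR.toLinearMap * WithConv.toConv (iR.toLinearMap ∘ₗ S)) := by
          rw [h5, mul_one]
      _ = WithConv.toConv (D.toLinearMap ∘ₗ S) *
          (WithConv.toConv iL.toLinearMap * WithConv.toConv iR.toLinearMap) *
          WithConv.toConv (iR.toLinearMap ∘ₗ S) := by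
          simp only [mul_assoc]
      _ = WithConv.toConv (iR.toLinearMap ∘ₗ S) := by
          rw [← h1, h3, one_mul]
  have h7 := LinearMap.congr_fun (congrArg WithConv.ofConv h6) c
  exact h7

/-- `c ⊗ b ↦ s(S c) b`, for a linear section `s` of `π`. -/
noncomputable def Psis (s : C →ₗ[k] B) : C ⊗[k] B →ₗ[k] B :=
  LinearMap.mul' k B ∘ₗ TensorProduct.map (s ∘ₗ HopfAlgebra.antipode k) LinearMap.id

theorem Psis_tmul (s : C →ₗ[k] B) (c : C) (b : B) :
    Psis s (c ⊗ₜ[k] b) = s (HopfAlgebra.antipode k c) * b := by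
  simp [Psis]

theorem Psis_mem (s : C →ₗ[k] B) {X : B} {j : ℕ} {t : C ⊗[k] B} (ht : t ∈ CI k C X j) :
    Psis s t ∈ Ix k X j := by
  refine CI_induction X (P := fun t => Psis s t ∈ Ix k X j) ?_ ?_ ?_ ht
  · rw [map_zero]
    exact zero_mem _
  · rintro c _ ⟨b', rfl⟩
    rw [Psis_tmul]
    refine ⟨s (HopfAlgebra.antipode k c) * b', ?_⟩
    rw [LinearMap.mulRight_apply, LinearMap.mulRight_apply, mul_assoc]
  · intro x y hx hy
    rw [map_add]
    exact add_mem hx hy

variable (π : B →ₐc[k] C) (hs : Function.Surjective π) (X : B)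
  (hk : ∀ b : B, π b = 0 ↔ ∃ b' : B, b = b' * X)

include hk in
/-- Elements of `ker π` move `B X^j` into `B X^(j+1)`. -/
theorem ker_mul_mem {a b : B} (ha : π a = 0) {j : ℕ} (hb : b ∈ Ix k X j) :
    a * b ∈ Ix k X (j + 1) := by
  obtain ⟨a', rfl⟩ := (hk a).1 ha
  obtain ⟨b', rfl⟩ := hb
  have hX : π X = 0 := (hk X).2 ⟨1, (one_mul X).symm⟩
  obtain ⟨b'', hb''⟩ := (hk (X * b')).1 (by rw [map_mul, hX, zero_mul])
  refine ⟨a' * b'', ?_⟩
  rw [LinearMap.mulRight_apply, LinearMap.mulRight_apply, pow_succ', mul_assoc a' b'',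
    ← mul_assoc b'' X, ← hb'']
  simp only [mul_assoc]

include hk in

include hk in
/-- The same in `C ⊗ B`. -/
theorem ker_mul_mem2 {j : ℕ} {t t' : C ⊗[k] B}
    (h : Algebra.TensorProduct.map (AlgHom.id k C) (π : B →ₐ[k] C) t = 0)
    (hs : Function.Surjective π) (ht : t' ∈ CI k C X j) : t * t' ∈ CI k C X (j + 1) := by
  have h1 : t ∈ CI k C X 1 := (CI_one π X hs hk t).2 h
  have h2 := CI_mul π X hk h1 ht
  rwa [add_comm] at h2

include hk in
/-- `Psis (rho b * t) = ε(b) Psis t` modulo `B X^(j+1)`, for `t ∈ C ⊗ B X^j`. (For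
`t = c ⊗ b'`: `s(S(π(b₁) c)) b₂ b' - s(S c) s(S (π b₁)) b₂ b' ∈ B X^(j+1)` and
`s(S (π b₁)) b₂ - ε(b) 1 ∈ ker π`; `ker_mul_mem`.) -/
theorem Psis_rho_mul (s : C →ₗ[k] B) (hπs : ∀ c, π (s c) = c) (b : B) {j : ℕ} {t : C ⊗[k] B}
    (ht : t ∈ CI k C X j) :
    Psis s (rho π b * t) - Coalgebra.counit (R := k) b • Psis s t ∈ Ix k X (j + 1) := by
  have hleft : ∀ {i : ℕ} (a : B) {d : B}, d ∈ Ix k X i → a * d ∈ Ix k X i := by
    intro i a d hd
    obtain ⟨e, rfl⟩ := hd
    exact ⟨a * e, by rw [LinearMap.mulRight_apply, LinearMap.mulRight_apply, mul_assoc]⟩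
  refine CI_induction X (P := fun t => Psis s (rho π b * t) -
    Coalgebra.counit (R := k) b • Psis s t ∈ Ix k X (j + 1)) ?_ ?_ ?_ ht
  · simp only [mul_zero, map_zero, smul_zero, sub_zero]
    exact Submodule.zero_mem _
  · intro c d hd
    have h1 : ∀ u : C ⊗[k] B, Psis s (u * (c ⊗ₜ[k] d)) -
        s (HopfAlgebra.antipode k c) * (Psis s u * d) ∈ Ix k X (j + 1) := by
      intro u
      induction u using TensorProduct.induction_on with
      | zero =>
        simp only [zero_mul, map_zero, mul_zero, sub_zero]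
        exact Submodule.zero_mem _
      | tmul x y =>
        have h2 : Psis s ((x ⊗ₜ[k] y) * (c ⊗ₜ[k] d)) -
            s (HopfAlgebra.antipode k c) * (Psis s (x ⊗ₜ[k] y) * d) =
            (s (HopfAlgebra.antipode k (x * c)) -
              s (HopfAlgebra.antipode k c) * s (HopfAlgebra.antipode k x)) * (y * d) := by
          rw [Algebra.TensorProduct.tmul_mul_tmul, Psis_tmul, Psis_tmul, sub_mul]
          simp only [mul_assoc]
        rw [h2]
        refine ker_mul_mem π X hk ?_ (hleft y hd)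
        rw [map_sub, hπs, HopfAlgebra.antipode_mul_antidistrib,
          map_mul π (s (HopfAlgebra.antipode k c)) (s (HopfAlgebra.antipode k x)), hπs, hπs, sub_self]
      | add x y hx hy =>
        have h := Submodule.add_mem _ hx hy
        rw [add_mul, map_add, map_add, add_mul, mul_add]
        rwa [add_sub_add_comm]
    have h2 : ∀ u : B ⊗[k] B, π (Psis s
        (Algebra.TensorProduct.map (π : B →ₐ[k] C) (AlgHom.id k B) u)) =
        LinearMap.mul' k C (LinearMap.rTensor C (HopfAlgebra.antipode k)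
          (TensorProduct.map ((π : B →ₐ[k] C).toLinearMap) ((π : B →ₐ[k] C).toLinearMap) u)) := by
      intro u
      induction u using TensorProduct.induction_on with
      | zero => simp only [map_zero]
      | tmul x y =>
        rw [Algebra.TensorProduct.map_tmul, Psis_tmul, map_mul, hπs, TensorProduct.map_tmul,
          LinearMap.rTensor_tmul, LinearMap.mul'_apply]
        rfl
      | add x y hx hy => simp only [map_add, hx, hy]
    have h3 : π (Psis s (rho π b) - algebraMap k B (Coalgebra.counit (R := k) b)) = 0 := by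
      have h4 : π (Psis s (rho π b)) = algebraMap k C (Coalgebra.counit (R := k) b) := by
        have h5 : TensorProduct.map ((π : B →ₐ[k] C).toLinearMap) ((π : B →ₐ[k] C).toLinearMap)
            (Coalgebra.comul (R := k) b) = Coalgebra.comul (R := k) (π b) :=
          CoalgHomClass.map_comp_comul_apply π b
        have h6 : Coalgebra.counit (R := k) (π b) = Coalgebra.counit (R := k) b :=
          CoalgHomClass.counit_comp_apply π _
        refine (h2 (Coalgebra.comul (R := k) b)).trans ?_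
        rw [h5, HopfAlgebra.mul_antipode_rTensor_comul_apply, h6]
      rw [map_sub, h4, sub_eq_zero]
      exact (AlgHomClass.commutes π _).symm
    have h4 := Submodule.add_mem _ (h1 (rho π b))
      (hleft (s (HopfAlgebra.antipode k c)) (ker_mul_mem π X hk h3 hd))
    have h5 : Psis s (rho π b * (c ⊗ₜ[k] d)) - Coalgebra.counit (R := k) b • Psis s (c ⊗ₜ[k] d) =
        Psis s (rho π b * (c ⊗ₜ[k] d)) - s (HopfAlgebra.antipode k c) * (Psis s (rho π b) * d) +
        s (HopfAlgebra.antipode k c) * ((Psis s (rho π b) -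
          algebraMap k B (Coalgebra.counit (R := k) b)) * d) := by
      rw [Psis_tmul, sub_mul, mul_sub, ← Algebra.smul_def, mul_smul_comm]
      abel
    rw [h5]
    exact h4
  · intro x y hx hy
    have h := Submodule.add_mem _ hx hy
    rw [mul_add, map_add, map_add, smul_add]
    rwa [add_sub_add_comm]

private theorem R1G18_coassoc (π : B →ₐc[k] C) (b : B) :
    TensorProduct.assoc k C C B (LinearMap.rTensor B (Coalgebra.comul (R := k) (A := C))
      (rho π b)) = LinearMap.lTensor C (rho π).toLinearMap (rho π b) := by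
  have h := congrArg (TensorProduct.map ((π : B →ₐ[k] C).toLinearMap)
    (TensorProduct.map ((π : B →ₐ[k] C).toLinearMap) (LinearMap.id (R := k) (M := B))))
    (Coalgebra.coassoc_apply (R := k) b)
  have h1 : ∀ t : B ⊗[k] B, TensorProduct.assoc k C C B
      (LinearMap.rTensor B (Coalgebra.comul (R := k) (A := C))
        (Algebra.TensorProduct.map (π : B →ₐ[k] C) (AlgHom.id k B) t)) =
      TensorProduct.map ((π : B →ₐ[k] C).toLinearMap)
        (TensorProduct.map ((π : B →ₐ[k] C).toLinearMap) (LinearMap.id (R := k) (M := B)))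
        (TensorProduct.assoc k B B B (LinearMap.rTensor B (Coalgebra.comul (R := k)) t)) := by
    intro t
    induction t using TensorProduct.induction_on with
    | zero => simp only [map_zero]
    | tmul a d =>
      have h2 : Coalgebra.comul (R := k) (π a) =
          TensorProduct.map ((π : B →ₐ[k] C).toLinearMap) ((π : B →ₐ[k] C).toLinearMap)
            (Coalgebra.comul (R := k) a) := (CoalgHomClass.map_comp_comul_apply π a).symm
      rw [Algebra.TensorProduct.map_tmul, LinearMap.rTensor_tmul, LinearMap.rTensor_tmul]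
      change TensorProduct.assoc k C C B (Coalgebra.comul (R := k) (π a) ⊗ₜ[k] d) = _
      rw [h2]
      generalize Coalgebra.comul (R := k) a = u
      induction u using TensorProduct.induction_on with
      | zero => simp only [map_zero, TensorProduct.zero_tmul]
      | tmul x y => rfl
      | add x y hx hy => rw [map_add, TensorProduct.add_tmul, map_add, hx, hy,
          TensorProduct.add_tmul, map_add, map_add]
    | add x y hx hy => simp only [map_add, hx, hy]
  have h3 : ∀ t : B ⊗[k] B, LinearMap.lTensor C (rho π).toLinearMap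
        (Algebra.TensorProduct.map (π : B →ₐ[k] C) (AlgHom.id k B) t) =
      TensorProduct.map ((π : B →ₐ[k] C).toLinearMap)
        (TensorProduct.map ((π : B →ₐ[k] C).toLinearMap) (LinearMap.id (R := k) (M := B)))
        (LinearMap.lTensor B (Coalgebra.comul (R := k)) t) := by
    intro t
    induction t using TensorProduct.induction_on with
    | zero => simp only [map_zero]
    | tmul a d => rfl
    | add x y hx hy => simp only [map_add, hx, hy]
  change TensorProduct.assoc k C C B (LinearMap.rTensor B (Coalgebra.comul (R := k) (A := C))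
      (Algebra.TensorProduct.map (π : B →ₐ[k] C) (AlgHom.id k B) (Coalgebra.comul (R := k) b))) =
    LinearMap.lTensor C (rho π).toLinearMap
      (Algebra.TensorProduct.map (π : B →ₐ[k] C) (AlgHom.id k B) (Coalgebra.comul (R := k) b))
  rw [h1, h3, h]

/-- `c ⊗ c' ⊗ b ↦ s(c) s(S c') b`. -/
private noncomputable def R1G18_G (s : C →ₗ[k] B) : C ⊗[k] (C ⊗[k] B) →ₗ[k] B :=
  LinearMap.mul' k B ∘ₗ TensorProduct.map s (Psis s)

private theorem R1G18_G_tmul (s : C →ₗ[k] B) (c : C) (t : C ⊗[k] B) :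
    R1G18_G s (c ⊗ₜ[k] t) = s c * Psis s t := by
  simp [R1G18_G]

private theorem R1G18_left {π : B →ₐc[k] C} {X : B}
    (hk : ∀ b : B, π b = 0 ↔ ∃ b' : B, b = b' * X) (s : C →ₗ[k] B) (hπs : ∀ c, π (s c) = c)
    {j : ℕ} {t : C ⊗[k] B} (ht : t ∈ CI k C X j) :
    R1G18_G s (TensorProduct.assoc k C C B
      (LinearMap.rTensor B (Coalgebra.comul (R := k) (A := C)) t)) -
      TensorProduct.lid k B (LinearMap.rTensor B (Coalgebra.counit (R := k) (A := C)) t) ∈
      Ix k X (j + 1) := by
  refine CI_induction X (P := fun t => R1G18_G s (TensorProduct.assoc k C C B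
      (LinearMap.rTensor B (Coalgebra.comul (R := k) (A := C)) t)) -
      TensorProduct.lid k B (LinearMap.rTensor B (Coalgebra.counit (R := k) (A := C)) t) ∈
      Ix k X (j + 1)) ?_ ?_ ?_ ht
  · simp only [map_zero, sub_zero]
    exact Submodule.zero_mem _
  · intro c b hb
    have h1 : ∀ u : C ⊗[k] C, R1G18_G s (TensorProduct.assoc k C C B (u ⊗ₜ[k] b)) =
        LinearMap.mul' k B (TensorProduct.map s (s ∘ₗ HopfAlgebra.antipode k) u) * b := by
      intro u
      induction u using TensorProduct.induction_on with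
      | zero => simp only [map_zero, TensorProduct.zero_tmul, zero_mul]
      | tmul x y =>
        rw [TensorProduct.assoc_tmul, R1G18_G_tmul, Psis_tmul, TensorProduct.map_tmul,
          LinearMap.mul'_apply, LinearMap.comp_apply, mul_assoc]
      | add x y hx hy => rw [TensorProduct.add_tmul, map_add, map_add, hx, hy, map_add, map_add,
          add_mul]
    have h2 : ∀ u : C ⊗[k] C,
        π (LinearMap.mul' k B (TensorProduct.map s (s ∘ₗ HopfAlgebra.antipode k) u)) =
        LinearMap.mul' k C (LinearMap.lTensor C (HopfAlgebra.antipode k) u) := by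
      intro u
      induction u using TensorProduct.induction_on with
      | zero => simp only [map_zero]
      | tmul x y =>
        rw [TensorProduct.map_tmul, LinearMap.mul'_apply, map_mul, hπs, LinearMap.comp_apply,
          hπs, LinearMap.lTensor_tmul, LinearMap.mul'_apply]
      | add x y hx hy => rw [map_add, map_add, map_add, hx, hy, map_add, map_add]
    have h3 : π (LinearMap.mul' k B (TensorProduct.map s (s ∘ₗ HopfAlgebra.antipode k)
        (Coalgebra.comul (R := k) c)) - algebraMap k B (Coalgebra.counit (R := k) c)) = 0 := by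
      rw [map_sub, h2, HopfAlgebra.mul_antipode_lTensor_comul_apply]
      rw [sub_eq_zero]
      exact (AlgHomClass.commutes π _).symm
    have h4 := ker_mul_mem π X hk h3 hb
    rw [LinearMap.rTensor_tmul, LinearMap.rTensor_tmul, h1, TensorProduct.lid_tmul]
    rwa [sub_mul, ← Algebra.smul_def] at h4
  · intro x y hx hy
    have h := Submodule.add_mem _ hx hy
    simp only [map_add]
    rwa [add_sub_add_comm]

private theorem R1G18_right {π : B →ₐc[k] C} {X : B}
    (hk : ∀ b : B, π b = 0 ↔ ∃ b' : B, b = b' * X) (s : C →ₗ[k] B) (hπs : ∀ c, π (s c) = c)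
    {j : ℕ} (hX : rho π (X ^ j) ∈ CI k C X j) (w : C ⊗[k] B) :
    R1G18_G s (LinearMap.lTensor C (rho π).toLinearMap (w * ((1 : C) ⊗ₜ[k] (X ^ j)))) -
      s (ide k C B w) * Psis s (rho π (X ^ j)) ∈ Ix k X (j + 1) := by
  induction w using TensorProduct.induction_on with
  | zero =>
    simp only [map_zero, zero_mul, sub_zero]
    exact Submodule.zero_mem _
  | tmul c b =>
    rw [Algebra.TensorProduct.tmul_mul_tmul, mul_one, LinearMap.lTensor_tmul, R1G18_G_tmul,
      ide_tmul, map_smul, smul_mul_assoc, ← mul_smul_comm, ← mul_sub, AlgHom.toLinearMap_apply,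
      map_mul]
    obtain ⟨a, ha⟩ := Psis_rho_mul π X hk s hπs b hX
    exact ⟨s c * a, by rw [← ha, LinearMap.mulRight_apply, LinearMap.mulRight_apply, mul_assoc]⟩
  | add x y hx hy =>
    have h := Submodule.add_mem _ hx hy
    rw [add_mul, map_add, map_add, map_add, map_add, add_mul]
    rwa [add_sub_add_comm]

include hs hk in
/-- RECONSTRUCTION: `X^j = s(v) Y` modulo `B X^(j+1)`, where `rho (X^j) = w (1 ⊗ X^j)`,
`v = (id ⊗ ε) w`, `Y = Psis (rho (X^j))`. Apply `c ⊗ c' ⊗ b ↦ s(c) s(S c') b` to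
`(Δ ⊗ id) (rho (X^j)) = (id ⊗ rho) (rho (X^j))`. The left side gives `(ε ⊗ id) (rho (X^j)) = X^j`
modulo `B X^(j+1)` (`s(c₁) s(S c₂) - ε(c) 1 ∈ ker π`; `lid_rho`), the right side, with
`w = ∑ c_i ⊗ b_i`, gives `∑ s(c_i) Psis (rho (b_i) rho (X^j)) = ∑ s(c_i) ε(b_i) Y` (`Psis_rho_mul`). -/
theorem recon (s : C →ₗ[k] B) (hπs : ∀ c, π (s c) = c) {j : ℕ} {w : C ⊗[k] B}
    (hw : rho π (X ^ j) = w * ((1 : C) ⊗ₜ[k] (X ^ j))) :
    X ^ j - s (ide k C B w) * Psis s (rho π (X ^ j)) ∈ Ix k X (j + 1) := by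
  have h0 : X ^ j ∈ Ix k X j := ⟨1, by rw [LinearMap.mulRight_apply, one_mul]⟩
  have hX : rho π (X ^ j) ∈ CI k C X j := rho_mem π X hs hk h0
  have h1 := R1G18_left hk s hπs hX
  have h2 := R1G18_right hk s hπs hX w
  rw [R1G18_coassoc, lid_rho] at h1
  rw [← hw] at h2
  have h3 := Submodule.sub_mem _ h2 h1
  rwa [sub_sub_sub_cancel_left] at h3

/-- `(π ⊗ id) Δ` in terms of linear maps -/
private theorem R1G19_rho {k : Type u} [Field k] {B C : Type u} [Ring B] [Ring C]
    [HopfAlgebra k B] [HopfAlgebra k C] (π : B →ₐc[k] C) (b : B) :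
    rho π b = TensorProduct.map (π : B →ₐ[k] C).toLinearMap LinearMap.id
      (Coalgebra.comul (R := k) b) := rfl

/-- coassociativity of `rho` -/
private theorem R1G19_coassoc {k : Type u} [Field k] {B C : Type u} [Ring B] [Ring C]
    [HopfAlgebra k B] [HopfAlgebra k C] (π : B →ₐc[k] C) (b : B) :
    TensorProduct.assoc k C C B (TensorProduct.map (Coalgebra.comul (R := k)) LinearMap.id
      (rho π b)) = TensorProduct.map LinearMap.id (rho π).toLinearMap (rho π b) := by
  have h1 : ∀ t : B ⊗[k] B, TensorProduct.assoc k C C B (TensorProduct.map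
      (Coalgebra.comul (R := k)) LinearMap.id
      (TensorProduct.map (π : B →ₐ[k] C).toLinearMap LinearMap.id t)) =
      TensorProduct.map (π : B →ₐ[k] C).toLinearMap
        (TensorProduct.map (π : B →ₐ[k] C).toLinearMap LinearMap.id)
        (TensorProduct.assoc k B B B (LinearMap.rTensor B (Coalgebra.comul (R := k)) t)) := by
    intro t
    induction t using TensorProduct.induction_on with
    | zero => simp only [map_zero]
    | tmul x y =>
      rw [TensorProduct.map_tmul, TensorProduct.map_tmul, LinearMap.rTensor_tmul,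
        LinearMap.id_apply]
      have h2 : Coalgebra.comul (R := k) ((π : B →ₐ[k] C).toLinearMap x) =
          TensorProduct.map (π : B →ₐ[k] C).toLinearMap (π : B →ₐ[k] C).toLinearMap
            (Coalgebra.comul (R := k) x) := (CoalgHomClass.map_comp_comul_apply π x).symm
      rw [h2]
      generalize Coalgebra.comul (R := k) x = u
      induction u using TensorProduct.induction_on with
      | zero => simp only [map_zero, TensorProduct.zero_tmul]
      | tmul a b =>
        rw [TensorProduct.map_tmul, TensorProduct.assoc_tmul, TensorProduct.assoc_tmul,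
          TensorProduct.map_tmul, TensorProduct.map_tmul]
      | add u v hu hv => rw [map_add, TensorProduct.add_tmul, TensorProduct.add_tmul, map_add,
          map_add, map_add, hu, hv]
    | add s t hs ht => simp only [map_add, hs, ht]
  have h3 : ∀ t : B ⊗[k] B, TensorProduct.map (π : B →ₐ[k] C).toLinearMap
        (TensorProduct.map (π : B →ₐ[k] C).toLinearMap LinearMap.id)
        (LinearMap.lTensor B (Coalgebra.comul (R := k)) t) =
      TensorProduct.map LinearMap.id (rho π).toLinearMap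
        (TensorProduct.map (π : B →ₐ[k] C).toLinearMap LinearMap.id t) := by
    intro t
    induction t using TensorProduct.induction_on with
    | zero => simp only [map_zero]
    | tmul x y =>
      rw [TensorProduct.map_tmul, LinearMap.lTensor_tmul, TensorProduct.map_tmul,
        TensorProduct.map_tmul]
      rfl
    | add s t hs ht => simp only [map_add, hs, ht]
  rw [R1G19_rho, h1, Coalgebra.coassoc_apply, h3]

/-- `F : c ⊗ t ↦ rho (s (S c)) t` -/
private noncomputable def R1G19_F {k : Type u} [Field k] {B C : Type u} [Ring B] [Ring C]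
    [HopfAlgebra k B] [HopfAlgebra k C] (π : B →ₐc[k] C) (s : C →ₗ[k] B) :
    C ⊗[k] (C ⊗[k] B) →ₗ[k] C ⊗[k] B :=
  LinearMap.mul' k (C ⊗[k] B) ∘ₗ TensorProduct.map
    ((rho π).toLinearMap ∘ₗ s ∘ₗ HopfAlgebra.antipode k) LinearMap.id

private theorem R1G19_F_tmul {k : Type u} [Field k] {B C : Type u} [Ring B] [Ring C]
    [HopfAlgebra k B] [HopfAlgebra k C] (π : B →ₐc[k] C) (s : C →ₗ[k] B) (c : C)
    (t : C ⊗[k] B) :
    R1G19_F π s (c ⊗ₜ[k] t) = rho π (s (HopfAlgebra.antipode k c)) * t := rfl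

/-- the right side -/
private theorem R1G19_right {k : Type u} [Field k] {B C : Type u} [Ring B] [Ring C]
    [HopfAlgebra k B] [HopfAlgebra k C] (π : B →ₐc[k] C) (s : C →ₗ[k] B) (t : C ⊗[k] B) :
    R1G19_F π s (TensorProduct.map LinearMap.id (rho π).toLinearMap t) = rho π (Psis s t) := by
  induction t using TensorProduct.induction_on with
  | zero => simp only [map_zero]
  | tmul c b =>
    rw [TensorProduct.map_tmul, LinearMap.id_apply, R1G19_F_tmul, Psis_tmul, map_mul]
    rfl
  | add x y hx hy => simp only [map_add, hx, hy]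

/-- `(id ⊗ s) (u) (c ⊗ b) = (id ⊗ s) (u (c ⊗ 1)) (1 ⊗ b)` -/
private theorem R1G19_ids {k : Type u} [Field k] {B C : Type u} [Ring B] [Ring C]
    [HopfAlgebra k B] [HopfAlgebra k C] (s : C →ₗ[k] B) (u : C ⊗[k] C) (c : C) (b : B) :
    LinearMap.lTensor C s u * (c ⊗ₜ[k] b) =
      LinearMap.lTensor C s (u * (c ⊗ₜ[k] (1 : C))) * ((1 : C) ⊗ₜ[k] b) := by
  induction u using TensorProduct.induction_on with
  | zero => simp only [map_zero, zero_mul]
  | tmul x y =>
    rw [LinearMap.lTensor_tmul, Algebra.TensorProduct.tmul_mul_tmul,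
      Algebra.TensorProduct.tmul_mul_tmul, LinearMap.lTensor_tmul,
      Algebra.TensorProduct.tmul_mul_tmul, mul_one, mul_one]
  | add x y hx hy => simp only [map_add, add_mul, hx, hy]

/-- `∑ (id ⊗ s) (Δ (S c₁)) (c₂ ⊗ b) = 1 ⊗ s (S c) b` -/
private theorem R1G19_anti {k : Type u} [Field k] {B C : Type u} [Ring B] [Ring C]
    [HopfAlgebra k B] [HopfAlgebra k C] (s : C →ₗ[k] B) (c : C) (b : B) :
    LinearMap.mul' k (C ⊗[k] B) (TensorProduct.map
      (LinearMap.lTensor C s ∘ₗ (Coalgebra.comul (R := k)) ∘ₗ HopfAlgebra.antipode k (A := C))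
      LinearMap.id (TensorProduct.assoc k C C B (Coalgebra.comul (R := k) c ⊗ₜ[k] b))) =
      (1 : C) ⊗ₜ[k] (s (HopfAlgebra.antipode k c) * b) := by
  have h1 : ∀ v : C ⊗[k] C, LinearMap.mul' k (C ⊗[k] B) (TensorProduct.map
      (LinearMap.lTensor C s ∘ₗ (Coalgebra.comul (R := k)) ∘ₗ HopfAlgebra.antipode k (A := C))
      LinearMap.id (TensorProduct.assoc k C C B (v ⊗ₜ[k] b))) =
      LinearMap.lTensor C s (LinearMap.mul' k (C ⊗[k] C)
        (TensorProduct.map ((Coalgebra.comul (R := k)) ∘ₗ (HopfAlgebra.antipode k (A := C)))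
        (Algebra.TensorProduct.includeLeft : C →ₐ[k] C ⊗[k] C).toLinearMap v)) *
        ((1 : C) ⊗ₜ[k] b) := by
    intro v
    induction v using TensorProduct.induction_on with
    | zero => simp only [map_zero, TensorProduct.zero_tmul, zero_mul]
    | tmul x y =>
      rw [TensorProduct.assoc_tmul, TensorProduct.map_tmul, TensorProduct.map_tmul,
        LinearMap.mul'_apply, LinearMap.mul'_apply, LinearMap.id_apply]
      exact R1G19_ids s (Coalgebra.comul (R := k) (HopfAlgebra.antipode k x)) y b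
    | add x y hx hy =>
      rw [TensorProduct.add_tmul]
      simp only [map_add, add_mul, hx, hy]
  rw [h1, comul_antipode, LinearMap.lTensor_tmul, Algebra.TensorProduct.tmul_mul_tmul, mul_one]

/-- `(id ⊗ π) (rho (s x)) = Δ x` -/
private theorem R1G19_pi {k : Type u} [Field k] {B C : Type u} [Ring B] [Ring C]
    [HopfAlgebra k B] [HopfAlgebra k C] (π : B →ₐc[k] C) (s : C →ₗ[k] B)
    (hπs : ∀ c, π (s c) = c) (x : C) :
    Algebra.TensorProduct.map (AlgHom.id k C) (π : B →ₐ[k] C)
      (rho π (s x) - LinearMap.lTensor C s (Coalgebra.comul (R := k) x)) = 0 := by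
  have h1 : ∀ t : B ⊗[k] B, Algebra.TensorProduct.map (AlgHom.id k C) (π : B →ₐ[k] C)
      (TensorProduct.map (π : B →ₐ[k] C).toLinearMap LinearMap.id t) =
      TensorProduct.map (π : B →ₐ[k] C).toLinearMap (π : B →ₐ[k] C).toLinearMap t := by
    intro t
    induction t using TensorProduct.induction_on with
    | zero => simp only [map_zero]
    | tmul x y =>
      rw [TensorProduct.map_tmul, TensorProduct.map_tmul, Algebra.TensorProduct.map_tmul]
      rfl
    | add x y hx hy => simp only [map_add, hx, hy]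
  have h2 : ∀ t : C ⊗[k] C, Algebra.TensorProduct.map (AlgHom.id k C) (π : B →ₐ[k] C)
      (LinearMap.lTensor C s t) = t := by
    intro t
    induction t using TensorProduct.induction_on with
    | zero => simp only [map_zero]
    | tmul x y =>
      rw [LinearMap.lTensor_tmul, Algebra.TensorProduct.map_tmul]
      exact congrArg (fun z => x ⊗ₜ[k] z) (hπs y)
    | add x y hx hy => simp only [map_add, hx, hy]
  have h3 : TensorProduct.map (π : B →ₐ[k] C).toLinearMap (π : B →ₐ[k] C).toLinearMap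
      (Coalgebra.comul (R := k) (s x)) = Coalgebra.comul (R := k) (π (s x)) :=
    CoalgHomClass.map_comp_comul_apply π (s x)
  rw [map_sub, R1G19_rho, h1, h2, h3, hπs, sub_self]

include hs hk in
/-- COINVARIANCE: `rho Y = 1 ⊗ Y` modulo `C ⊗ B X^(j+1)` for `Y = Psis (rho (X^j))`. Apply
`F : c ⊗ c' ⊗ b ↦ rho (s(S c)) (c' ⊗ b)` to `(Δ ⊗ id) (rho (X^j)) = (id ⊗ rho) (rho (X^j))`: the right
side gives `rho Y`; the left side is, modulo `CI (j+1)`, the image of `rho (X^j)` under
`c ⊗ b ↦ ∑ (id ⊗ s)(Δ(S c₁)) (c₂ ⊗ b)` (since `(id ⊗ π) rho (s x) = Δ x`, `ker_mul_mem2`), that is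
under `c ⊗ b ↦ (1 ⊗ s(S c)) (1 ⊗ b)` (`comul_antipode`), which gives `1 ⊗ Y`. -/
theorem coinv (s : C →ₗ[k] B) (hπs : ∀ c, π (s c) = c) {j : ℕ} :
    rho π (Psis s (rho π (X ^ j))) - (1 : C) ⊗ₜ[k] (Psis s (rho π (X ^ j))) ∈
      CI k C X (j + 1) := by
  -- the left side
  have h1 : ∀ c b, b ∈ Ix k X j → R1G19_F π s (TensorProduct.assoc k C C B
      (TensorProduct.map (Coalgebra.comul (R := k)) LinearMap.id (c ⊗ₜ[k] b))) -
      (1 : C) ⊗ₜ[k] (Psis s (c ⊗ₜ[k] b)) ∈ CI k C X (j + 1) := by
    intro c b hb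
    rw [Psis_tmul, ← R1G19_anti s c b, TensorProduct.map_tmul, LinearMap.id_apply]
    generalize Coalgebra.comul (R := k) c = v
    induction v using TensorProduct.induction_on with
    | zero =>
      simp only [map_zero, TensorProduct.zero_tmul, sub_zero]
      exact zero_mem _
    | tmul x y =>
      rw [TensorProduct.assoc_tmul, R1G19_F_tmul, TensorProduct.map_tmul, LinearMap.mul'_apply,
        LinearMap.id_apply, ← sub_mul]
      exact ker_mul_mem2 π X hk (R1G19_pi π s hπs (HopfAlgebra.antipode k x)) hs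
        (tmul_mem_CI X y hb)
    | add x y hx hy =>
      rw [TensorProduct.add_tmul]
      simp only [map_add]
      rw [add_sub_add_comm]
      exact add_mem hx hy
  have h2 : ∀ t, t ∈ CI k C X j → R1G19_F π s (TensorProduct.assoc k C C B
      (TensorProduct.map (Coalgebra.comul (R := k)) LinearMap.id t)) -
      (1 : C) ⊗ₜ[k] (Psis s t) ∈ CI k C X (j + 1) := by
    intro t ht
    refine CI_induction X (P := fun t => R1G19_F π s (TensorProduct.assoc k C C B
      (TensorProduct.map (Coalgebra.comul (R := k)) LinearMap.id t)) -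
      (1 : C) ⊗ₜ[k] (Psis s t) ∈ CI k C X (j + 1)) ?_ h1 ?_ ht
    · simp only [map_zero, TensorProduct.tmul_zero, sub_zero]
      exact zero_mem _
    · intro x y hx hy
      simp only [map_add]
      rw [TensorProduct.tmul_add, add_sub_add_comm]
      exact add_mem hx hy
  have hX : X ^ j ∈ Ix k X j := ⟨1, by rw [LinearMap.mulRight_apply, one_mul]⟩
  have h3 := h2 _ (rho_mem π X hs hk hX)
  rw [R1G19_coassoc, R1G19_right] at h3
  exact h3

private theorem R1G20_left {k : Type u} [Field k] {B C : Type u} [Ring B] [Ring C]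
    [HopfAlgebra k B] [HopfAlgebra k C] {X : B} {j : ℕ} (u : C ⊗[k] B) {t : C ⊗[k] B}
    (ht : t ∈ CI k C X j) : u * t ∈ CI k C X j := by
  obtain ⟨v, rfl⟩ := ht
  exact ⟨u * v, by rw [LinearMap.mulRight_apply, LinearMap.mulRight_apply, mul_assoc]⟩

/-- if `t (1 ⊗ Y) ∈ C ⊗ B X^i` and `ε` vanishes on the `b` with `b Y ∈ B X^i`, then
`(id ⊗ ε) t = 0` -/
private theorem R1G20_ide {k : Type u} [Field k] {B C : Type u} [Ring B] [Ring C]
    [HopfAlgebra k B] [HopfAlgebra k C] {X Y : B} {i : ℕ}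
    (hε : ∀ b : B, b * Y ∈ Ix k X i → Coalgebra.counit (R := k) b = 0) {t : C ⊗[k] B}
    (ht : t * ((1 : C) ⊗ₜ[k] Y) ∈ CI k C X i) : ide k C B t = 0 := by
  let q : B →ₗ[k] B ⧸ Ix k X i := (Ix k X i).mkQ
  let θ : B →ₗ[k] B ⧸ Ix k X i := q ∘ₗ LinearMap.mulRight k Y
  have hθ : ∀ b, θ b = 0 ↔ b * Y ∈ Ix k X i := fun b => Submodule.Quotient.mk_eq_zero _
  -- `ε` factors through `θ`
  have h1 : (Coalgebra.counit (R := k) (A := B)) ∈ LinearMap.range θ.dualMap := by
    rw [LinearMap.range_dualMap_eq_dualAnnihilator_ker, Submodule.mem_dualAnnihilator]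
    intro b hb
    exact hε b ((hθ b).1 (LinearMap.mem_ker.1 hb))
  obtain ⟨g, hg⟩ := h1
  have hg' : ∀ b, g (θ b) = Coalgebra.counit (R := k) b := fun b => LinearMap.congr_fun hg b
  -- `id ⊗ q` kills `C ⊗ B X^i`
  have h2 : LinearMap.lTensor C q (t * ((1 : C) ⊗ₜ[k] Y)) = 0 := by
    refine CI_induction X (P := fun s => LinearMap.lTensor C q s = 0) (map_zero _) ?_ ?_ ht
    · intro c b hb
      rw [LinearMap.lTensor_tmul, show q b = 0 from (Submodule.Quotient.mk_eq_zero _).2 hb,
        TensorProduct.tmul_zero]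
    · intro s t hs ht
      rw [map_add, hs, ht, add_zero]
  have h3 : ∀ t : C ⊗[k] B, LinearMap.lTensor C θ t =
      LinearMap.lTensor C q (t * ((1 : C) ⊗ₜ[k] Y)) := by
    intro t
    induction t using TensorProduct.induction_on with
    | zero => rw [map_zero, zero_mul, map_zero]
    | tmul c b =>
      rw [Algebra.TensorProduct.tmul_mul_tmul, mul_one, LinearMap.lTensor_tmul,
        LinearMap.lTensor_tmul]
      rfl
    | add s t hs ht => rw [map_add, add_mul, map_add, hs, ht]
  have h4 : ∀ t : C ⊗[k] B, ide k C B t =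
      TensorProduct.rid k C (LinearMap.lTensor C g (LinearMap.lTensor C θ t)) := by
    intro t
    induction t using TensorProduct.induction_on with
    | zero => simp only [map_zero]
    | tmul c b =>
      rw [ide_tmul, LinearMap.lTensor_tmul, LinearMap.lTensor_tmul, TensorProduct.rid_tmul, hg']
    | add s t hs ht => simp only [map_add, hs, ht]
  rw [h4, h3, h2, map_zero, map_zero]

include hs hk in
/-- FREENESS for a coinvariant `Y ∈ B X^j`, `Y ∉ B X^(j+1)`. Let `A = {a : a Y ∈ B X^(j+1)}`, a left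
ideal of `B` (containing `B X`, `ker_mul_mem`). For `a ∈ A`: `rho a * rho Y = rho (a Y) ∈ CI (j+1)`
and `rho a * (rho Y - 1 ⊗ Y) ∈ CI (j+1)` (`CI (j+1)` is a left ideal), so
`rho a * (1 ⊗ Y) ∈ CI (j+1)`, that is `rho a ∈ C ⊗ A` (kernel of `id ⊗ (B → B / B X^(j+1))`). Then
`S(π a₁) π a₂ = ε(a)` gives `ε(a) Y ∈ B X^(j+1)` (apply `c ⊗ b ↦ s(S c) b Y`, for a section `s`), so
`ε(a) = 0`. So `A ⊆ ker ε` and `π a = (id ⊗ ε) (rho a) = 0`. -/
theorem free_Y {j : ℕ} {Y : B} (hY : Y ∈ Ix k X j) (hY' : Y ∉ Ix k X (j + 1))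
    (hco : rho π Y - (1 : C) ⊗ₜ[k] Y ∈ CI k C X (j + 1)) {a : B} (ha : a * Y ∈ Ix k X (j + 1)) :
    π a = 0 := by
  obtain ⟨s, hs'⟩ := LinearMap.exists_rightInverse_of_surjective
    ((π : B →ₐ[k] C).toLinearMap) (LinearMap.range_eq_top.2 hs)
  have hπs : ∀ c, π (s c) = c := fun c => LinearMap.congr_fun hs' c
  -- `rho a (1 ⊗ Y) ∈ C ⊗ B X^(j+1)`
  have h1 : ∀ a : B, a * Y ∈ Ix k X (j + 1) →
      rho π a * ((1 : C) ⊗ₜ[k] Y) ∈ CI k C X (j + 1) := by
    intro a ha
    have h2 : rho π a * ((1 : C) ⊗ₜ[k] Y) =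
        rho π (a * Y) - rho π a * (rho π Y - (1 : C) ⊗ₜ[k] Y) := by
      rw [map_mul, mul_sub, sub_sub_cancel]
    rw [h2]
    exact Submodule.sub_mem _ (rho_mem π X hs hk ha) (R1G20_left _ hco)
  -- `ε` vanishes
  have h3 : ∀ a : B, a * Y ∈ Ix k X (j + 1) → Coalgebra.counit (R := k) a = 0 := by
    intro a ha
    have h4 := Psis_rho_mul π X hk s hπs a (tmul_mem_CI X (1 : C) hY)
    have h5 := Psis_mem s (h1 a ha)
    have h6 : Coalgebra.counit (R := k) a • Psis s ((1 : C) ⊗ₜ[k] Y) ∈ Ix k X (j + 1) := by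
      have h7 := Submodule.sub_mem _ h5 h4
      rwa [sub_sub_cancel] at h7
    have h8 : Psis s ((1 : C) ⊗ₜ[k] Y) - Y ∈ Ix k X (j + 1) := by
      rw [Psis_tmul, HopfAlgebra.antipode_one]
      have h9 : s 1 * Y - Y = (s 1 - 1) * Y := by rw [sub_mul, one_mul]
      rw [h9]
      exact ker_mul_mem π X hk (by rw [map_sub, hπs, map_one, sub_self]) hY
    have h10 : Coalgebra.counit (R := k) a • Y ∈ Ix k X (j + 1) := by
      have h11 := Submodule.sub_mem _ h6 (Submodule.smul_mem _ (Coalgebra.counit (R := k) a) h8)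
      rwa [smul_sub, sub_sub_cancel] at h11
    by_contra h12
    exact hY' ((Submodule.smul_mem_iff _ h12).1 h10)
  rw [← ide_rho π a]
  exact R1G20_ide h3 (h1 a ha)

/-- (Induction: `X^j = a X^(j+m)`.) -/
theorem pow_zero_of_nilp (hX : IsNilpotent X) {j : ℕ} (h : X ^ j ∈ Ix k X (j + 1)) :
    X ^ j = 0 := by
  obtain ⟨a, ha⟩ := h
  rw [LinearMap.mulRight_apply] at ha
  have key : ∀ m : ℕ, ∃ b : B, X ^ j = b * X ^ (j + m) := by
    intro m
    induction m with
    | zero => exact ⟨1, by rw [one_mul, add_zero]⟩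
    | succ m ih =>
      obtain ⟨b, hb⟩ := ih
      refine ⟨b * a, ?_⟩
      have h1 : X ^ (j + (m + 1)) = X ^ (j + 1) * X ^ m := by
        rw [← pow_add]
        congr 1
        omega
      rw [h1, ← mul_assoc, mul_assoc b a, ha, mul_assoc, ← pow_add]
      exact hb
  obtain ⟨m, hm⟩ := hX
  obtain ⟨b, hb⟩ := key m
  rw [hb, pow_add, hm, mul_zero, mul_zero]

private theorem G21_left {j : ℕ} (a : B) {b : B} (hb : b ∈ Ix k X j) : a * b ∈ Ix k X j := by
  obtain ⟨c, rfl⟩ := hb
  exact ⟨a * c, mul_assoc a c (X ^ j)⟩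

private theorem G21_pow (j : ℕ) : X ^ j ∈ Ix k X j := ⟨1, one_mul (X ^ j)⟩

include hs hk in
/-- the element `Y` -/
private theorem G21_Y (s : C →ₗ[k] B) (hπs : ∀ c, π (s c) = c) (hX : IsNilpotent X) {j : ℕ}
    (h : X ^ j ≠ 0) {w : C ⊗[k] B} (hw : rho π (X ^ j) = w * ((1 : C) ⊗ₜ[k] (X ^ j))) :
    Psis s (rho π (X ^ j)) ∈ Ix k X j ∧ Psis s (rho π (X ^ j)) ∉ Ix k X (j + 1) := by
  refine ⟨Psis_mem s (rho_mem π X hs hk (G21_pow X j)), fun hY => h ?_⟩
  have h1 := recon π hs X hk s hπs hw
  have h2 := G21_left X (s (ide k C B w)) hY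
  have h3 := Submodule.add_mem _ h1 h2
  rw [sub_add_cancel] at h3
  exact pow_zero_of_nilp X hX h3

include hs in
private theorem G21_sec : ∃ s : C →ₗ[k] B, ∀ c, π (s c) = c := by
  obtain ⟨s, h⟩ := ((π : B →ₐ[k] C) : B →ₗ[k] C).exists_rightInverse_of_surjective
    (LinearMap.range_eq_top.2 hs)
  exact ⟨s, fun c => LinearMap.congr_fun h c⟩

private theorem G21_unit [Module.Finite k C] {a v : C} (h : a * v = 1) : IsUnit v := by
  have h1 : Function.Injective (LinearMap.mulLeft k v) := by
    intro x y hxy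
    have h2 : v * x = v * y := hxy
    rw [← one_mul x, ← one_mul y, ← h, mul_assoc, mul_assoc, h2]
  obtain ⟨y, hy⟩ := (LinearMap.injective_iff_surjective.1 h1) 1
  have h3 : v * y = 1 := hy
  have h4 : a = y := by rw [← mul_one a, ← h3, ← mul_assoc, h, one_mul]
  exact ⟨⟨v, a, by rw [h4, h3], h⟩, rfl⟩

include hs hk in
/-- `v = (id ⊗ ε) w` is a unit of `C`. Take a section `s`, `Y = Psis s (rho (X^j)) = u X^j`
(`Psis_mem`, `rho_mem`). `Y ∉ B X^(j+1)` by `recon`, `pow_zero_of_nilp`. By `recon`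
`(1 - u s(v)) Y ∈ B X^(j+1)`, so `π(u) v = 1` (`free_Y`, `coinv`), and `C` is finite-dimensional
(a left inverse is an inverse: `mul_eq_one_comm`/`IsDedekindFiniteMonoid` or injectivity of
`x ↦ x v`). -/
theorem unit_v [Module.Finite k B] [Module.Finite k C] (hX : IsNilpotent X) {j : ℕ}
    (h : X ^ j ≠ 0) {w : C ⊗[k] B} (hw : rho π (X ^ j) = w * ((1 : C) ⊗ₜ[k] (X ^ j))) :
    IsUnit (ide k C B w) := by
  obtain ⟨s, hπs⟩ := G21_sec π hs
  obtain ⟨hY, hY'⟩ := G21_Y π hs X hk s hπs hX h hw
  obtain ⟨u, hu⟩ := hY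
  have hu' : u * X ^ j = Psis s (rho π (X ^ j)) := hu
  have h1 := G21_left X u (recon π hs X hk s hπs hw)
  have h2 : u * (X ^ j - s (ide k C B w) * Psis s (rho π (X ^ j))) =
      (1 - u * s (ide k C B w)) * Psis s (rho π (X ^ j)) := by
    rw [mul_sub, hu', sub_mul, one_mul, mul_assoc]
  rw [h2] at h1
  have h3 := free_Y π hs X hk ⟨u, hu⟩ hY' (coinv π hs X hk s hπs) h1
  rw [map_sub, map_one, map_mul, hπs, sub_eq_zero] at h3
  exact G21_unit (k := k) h3.symm

include hs hk in
/-- FREENESS. With `Y`, `v` as before: `b s(v) Y ∈ B X^(j+1)`, so `π(b) v = 0`. -/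
theorem free_gen [Module.Finite k B] [Module.Finite k C] (hX : IsNilpotent X) {j : ℕ}
    (h : X ^ j ≠ 0) {b : B} (hb : b * X ^ j ∈ Ix k X (j + 1)) : π b = 0 := by
  obtain ⟨s, hπs⟩ := G21_sec π hs
  obtain ⟨w, hw0⟩ := rho_mem π X hs hk (G21_pow X j)
  have hw : rho π (X ^ j) = w * ((1 : C) ⊗ₜ[k] (X ^ j)) := hw0.symm
  obtain ⟨hY, hY'⟩ := G21_Y π hs X hk s hπs hX h hw
  have h1 := G21_left X b (recon π hs X hk s hπs hw)
  have h2 := Submodule.sub_mem _ hb h1
  have h3 : b * X ^ j - b * (X ^ j - s (ide k C B w) * Psis s (rho π (X ^ j))) =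
      (b * s (ide k C B w)) * Psis s (rho π (X ^ j)) := by
    rw [mul_sub, sub_sub_cancel, mul_assoc]
  rw [h3] at h2
  have h4 := free_Y π hs X hk hY hY' (coinv π hs X hk s hπs) h2
  rw [map_mul, hπs] at h4
  exact (unit_v π hs X hk hX h hw).mul_left_eq_zero.1 h4

end

end Pool.Agent.Helper77.R1
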