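import Pool.Agent.Helper77.R1.Gen

/-!
# Project R1, part G4: principal nilpotent Hopf ideals, continued

The analogues of the last theorems of `Loc.lean`, without the assumption that `B` is local: `X` is
nilpotent, and for the last theorem the counit is the only character of `B`.
-/

set_option linter.unusedSectionVars false
set_option autoImplicit false

open scoped TensorProduct
open Pool.Agent.Helper90.FC Pool.Agent.Helper90.R1

namespace Pool.Agent.Helper77.R1

universe u

section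

variable {k : Type u} [Field k] {B C : Type u} [Ring B] [Ring C] [HopfAlgebra k B]
variable [HopfAlgebra k C] [Module.Finite k B] [Module.Finite k C]
variable (π : B →ₐc[k] C) (hs : Function.Surjective π) (X : B)
  (hk : ∀ b : B, π b = 0 ↔ ∃ b' : B, b = b' * X) (hX : IsNilpotent X)

omit [Module.Finite k B] [Module.Finite k C] in
/-- A linear map which kills `{b : b X^j ∈ B X^(j+1)}`: `id ⊗ f` kills the `t` with
`t (1 ⊗ X^j) ∈ CI (j+1)`. -/
private theorem R1G7_fac {M : Type u} [AddCommGroup M] [Module k M] (f : B →ₗ[k] M) (j : ℕ)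
    (hf : ∀ b : B, b * X ^ j ∈ Ix k X (j + 1) → f b = 0) {t : C ⊗[k] B}
    (ht : t * ((1 : C) ⊗ₜ[k] (X ^ j)) ∈ CI k C X (j + 1)) : LinearMap.lTensor C f t = 0 := by
  have hg : ∃ h : (B ⧸ Ix k X (j + 1)) →ₗ[k] M,
      f = h ∘ₗ ((Ix k X (j + 1)).mkQ ∘ₗ LinearMap.mulRight k (X ^ j)) := by
    obtain ⟨g, hg⟩ : ∃ g : B →ₗ[k] B ⧸ Ix k X (j + 1),
        g = (Ix k X (j + 1)).mkQ ∘ₗ LinearMap.mulRight k (X ^ j) := ⟨_, rfl⟩
    have h1 : LinearMap.ker g ≤ LinearMap.ker f := by
      intro b hb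
      rw [LinearMap.mem_ker] at hb ⊢
      apply hf
      rw [hg, LinearMap.comp_apply, LinearMap.mulRight_apply, Submodule.mkQ_apply,
        Submodule.Quotient.mk_eq_zero] at hb
      exact hb
    obtain ⟨r, hr⟩ := ((LinearMap.ker g).liftQ g le_rfl).exists_leftInverse_of_injective
      (Submodule.ker_liftQ_eq_bot _ _ _ le_rfl)
    refine ⟨((LinearMap.ker g).liftQ f h1) ∘ₗ r, ?_⟩
    rw [← hg]
    ext b
    have h2 : r (g b) = (LinearMap.ker g).mkQ b := by
      have h3 := LinearMap.congr_fun hr ((LinearMap.ker g).mkQ b)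
      rw [LinearMap.comp_apply, Submodule.mkQ_apply, Submodule.liftQ_apply,
        LinearMap.id_apply] at h3
      rw [h3, Submodule.mkQ_apply]
    rw [LinearMap.comp_apply, LinearMap.comp_apply, h2, Submodule.mkQ_apply,
      Submodule.liftQ_apply]
  obtain ⟨h, hh⟩ := hg
  have h3 : ∀ s : C ⊗[k] B, LinearMap.lTensor C (LinearMap.mulRight k (X ^ j)) s =
      s * ((1 : C) ⊗ₜ[k] (X ^ j)) := by
    intro s
    induction s using TensorProduct.induction_on with
    | zero => rw [map_zero, zero_mul]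
    | tmul c b =>
      rw [LinearMap.lTensor_tmul, LinearMap.mulRight_apply, Algebra.TensorProduct.tmul_mul_tmul,
        mul_one]
    | add s t h1 h2 => rw [map_add, add_mul, h1, h2]
  have h4 : ∀ s ∈ CI k C X (j + 1), LinearMap.lTensor C ((Ix k X (j + 1)).mkQ) s = 0 := by
    intro s hs
    refine CI_induction (C := C) X
      (P := fun s => LinearMap.lTensor C ((Ix k X (j + 1)).mkQ) s = 0) (map_zero _) ?_
      (fun x y hx hy => by rw [map_add, hx, hy, add_zero]) hs
    intro c b hb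
    rw [LinearMap.lTensor_tmul, Submodule.mkQ_apply, (Submodule.Quotient.mk_eq_zero _).2 hb,
      TensorProduct.tmul_zero]
  rw [hh, LinearMap.lTensor_comp, LinearMap.lTensor_comp, LinearMap.comp_apply,
    LinearMap.comp_apply, h3, h4 _ ht, map_zero]

include hX hs hk in
/-- The same with coefficients in `C`: for `t ∈ C ⊗ B`, `t (1 ⊗ X^j) ∈ CI (j+1)` implies
`(id ⊗ π) t = 0`. -/
theorem free_gen_tmul {j : ℕ} (h : X ^ j ≠ 0) {t : C ⊗[k] B}
    (ht : t * ((1 : C) ⊗ₜ[k] (X ^ j)) ∈ CI k C X (j + 1)) :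
    Algebra.TensorProduct.map (AlgHom.id k C) (π : B →ₐ[k] C) t = 0 := by
  have h1 : LinearMap.lTensor C ((π : B →ₐ[k] C).toLinearMap) t = 0 :=
    R1G7_fac X ((π : B →ₐ[k] C).toLinearMap) j
      (fun b hb => free_gen π hs X hk hX h hb) ht
  rw [← h1]
  generalize t = s
  induction s using TensorProduct.induction_on with
  | zero => rw [map_zero, map_zero]
  | tmul c b =>
    rw [Algebra.TensorProduct.map_tmul, LinearMap.lTensor_tmul]
    rfl
  | add s t h1 h2 => rw [map_add, map_add, h1, h2]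

include hX hs hk in
theorem dim_gen_inj {N : ℕ} (h1 : ∀ j, j < N → X ^ j ≠ 0) (s : C →ₗ[k] B)
    (hsec : ∀ c, π (s c) = c) (x : Fin N → C)
    (hx : ∑ j : Fin N, s (x j) * X ^ (j : ℕ) = 0) (n : ℕ) : ∀ hn : n < N, x ⟨n, hn⟩ = 0 := by
  induction n using Nat.strong_induction_on with
  | _ n ih =>
    intro hn
    have h2 : s (x ⟨n, hn⟩) * X ^ n ∈ Ix k X (n + 1) := by
      have h3 : s (x ⟨n, hn⟩) * X ^ n =
          -∑ j ∈ Finset.univ.erase ⟨n, hn⟩, s (x j) * X ^ (j : ℕ) := by
        rw [eq_neg_iff_add_eq_zero]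
        have h4 := Finset.add_sum_erase Finset.univ (fun j : Fin N => s (x j) * X ^ (j : ℕ))
          (Finset.mem_univ ⟨n, hn⟩)
        rw [hx] at h4
        exact h4
      rw [h3]
      refine neg_mem (sum_mem (fun j hj => ?_))
      rcases lt_trichotomy (j : ℕ) n with h | h | h
      · have h5 : x j = 0 := ih j h j.2
        rw [h5, map_zero, zero_mul]
        exact zero_mem _
      · exact absurd (Fin.ext h) (Finset.ne_of_mem_erase hj)
      · exact Ix_anti X (Nat.succ_le_of_lt h) ⟨s (x j), rfl⟩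
    have h4 := free_gen π hs X hk hX (h1 n hn) h2
    rwa [hsec] at h4

include hX hs hk in
/-- The dimension, for the nilpotency index `N`: with a section `s` of `π` the map
`(x_j)_{j<N} ↦ ∑ s(x_j) X^j` is bijective. -/
theorem dim_gen {N : ℕ} (h0 : X ^ N = 0) (h1 : ∀ j, j < N → X ^ j ≠ 0) :
    Module.finrank k B = N * Module.finrank k C := by
  obtain ⟨s, hsec⟩ := dim_eq_sec π hs
  have hinj : Function.Injective (dim_eq_map s X N) := by
    rw [injective_iff_map_eq_zero]
    intro x hx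
    rw [dim_eq_map_apply] at hx
    funext j
    exact dim_gen_inj π hs X hk hX h1 s hsec x hx j j.2
  have hsurj : Function.Surjective (dim_eq_map s X N) := by
    intro b
    have h2 := dim_eq_surj π X hk h0 s hsec N le_rfl b
    rw [Nat.sub_self, pow_zero, mul_one] at h2
    exact h2
  rw [← (LinearEquiv.ofBijective (dim_eq_map s X N) ⟨hinj, hsurj⟩).finrank_eq,
    Module.finrank_pi_fintype, Finset.sum_const, Finset.card_univ, Fintype.card_fin,
    smul_eq_mul]

/-- `id ⊗ ε` on `A ⊗ B`. -/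
private noncomputable def exists_X0_Phi (k : Type u) [Field k] (A B : Type u) [Ring A] [Algebra k A]
    [Ring B] [HopfAlgebra k B] : A ⊗[k] B →ₐ[k] A :=
  (Algebra.TensorProduct.rid k k A).toAlgHom.comp
    (Algebra.TensorProduct.map (AlgHom.id k A) (Bialgebra.counitAlgHom k B))

private theorem exists_X0_Phi_tmul {A : Type u} [Ring A] [Algebra k A] (a : A) (b : B) :
    exists_X0_Phi k A B (a ⊗ₜ[k] b) = Coalgebra.counit (R := k) b • a := by
  simp [exists_X0_Phi]

private theorem exists_X0_Phi_eq (π : B →ₐc[k] C) (b : B) : exists_X0_Phi k C B (rho π b) = π b := by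
  rw [← rid_rho π b]
  generalize rho π b = t
  induction t using TensorProduct.induction_on with
  | zero => simp
  | tmul c b => simp [exists_X0_Phi_tmul]
  | add s t hs ht => rw [map_add, hs, ht, map_add, map_add]

include hX hs hk in
/-- Freeness for `j = 1` with coefficients in an algebra `A`. -/
private theorem exists_X0_free (h : X ≠ 0) {A : Type u} [Ring A] [Algebra k A] {t : A ⊗[k] B}
    (ht : t * ((1 : A) ⊗ₜ[k] X) = 0) : exists_X0_Phi k A B t = 0 := by
  have h1 : ∀ t : A ⊗[k] B, t * ((1 : A) ⊗ₜ[k] X) =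
      (LinearMap.mulRight k X).lTensor A t := by
    intro t
    induction t using TensorProduct.induction_on with
    | zero => simp
    | tmul c b => simp
    | add s t hs ht => rw [add_mul, hs, ht, map_add]
  have h3 : Function.Exact (LinearMap.ker (LinearMap.mulRight k X)).subtype
      (LinearMap.mulRight k X) := LinearMap.exact_subtype_ker_map _
  have key : ∀ t' : A ⊗[k] LinearMap.ker (LinearMap.mulRight k X),
      exists_X0_Phi k A B ((LinearMap.ker (LinearMap.mulRight k X)).subtype.lTensor A t') = 0 := by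
    intro t'
    induction t' using TensorProduct.induction_on with
    | zero => simp
    | tmul a b =>
      rw [LinearMap.lTensor_tmul, exists_X0_Phi_tmul]
      have h4 : (b : B) * X ^ 1 ∈ Ix k X (1 + 1) := by
        have h5 : (b : B) * X = 0 := b.2
        rw [pow_one, h5]
        exact zero_mem _
      have h6 := free_gen π hs X hk hX (j := 1) (by rwa [pow_one]) h4
      have h7 : Coalgebra.counit (R := k) (b : B) = 0 := by
        rw [← CoalgHomClass.counit_comp_apply π (b : B), h6, map_zero]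
      rw [Submodule.subtype_apply, h7, zero_smul]
    | add s t hs' ht' => rw [map_add, map_add, hs', ht', add_zero]
  obtain ⟨t', rfl⟩ := (Module.Flat.lTensor_exact A h3 t).1 (by rw [← h1, ht])
  exact key t'

/-- `Δ ⊗ id` on `C ⊗ B`. -/
private noncomputable def exists_X0_al (k : Type u) [Field k] (C B : Type u) [Ring C] [HopfAlgebra k C]
    [Ring B] [HopfAlgebra k B] : C ⊗[k] B →ₐ[k] (C ⊗[k] C) ⊗[k] B :=
  Algebra.TensorProduct.map (Bialgebra.comulAlgHom k C) (AlgHom.id k B)

/-- `t ↦ 1 ⊗ t`. -/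
private noncomputable def exists_X0_ga (k : Type u) [Field k] (C B : Type u) [Ring C] [HopfAlgebra k C]
    [Ring B] [HopfAlgebra k B] : C ⊗[k] B →ₐ[k] (C ⊗[k] C) ⊗[k] B :=
  (Algebra.TensorProduct.assoc k k k C C B).symm.toAlgHom.comp
    (Algebra.TensorProduct.includeRight (R := k) (A := C) (B := C ⊗[k] B))

/-- `id ⊗ rho`. -/
private noncomputable def exists_X0_be (π : B →ₐc[k] C) : C ⊗[k] B →ₐ[k] (C ⊗[k] C) ⊗[k] B :=
  (Algebra.TensorProduct.assoc k k k C C B).symm.toAlgHom.comp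
    (Algebra.TensorProduct.map (AlgHom.id k C) (rho π))

private theorem exists_X0_coassoc (π : B →ₐc[k] C) (b : B) :
    exists_X0_al k C B (rho π b) = exists_X0_be π (rho π b) := by
  have h1 : ∀ t : B ⊗[k] B, exists_X0_al k C B
      (Algebra.TensorProduct.map (π : B →ₐ[k] C) (AlgHom.id k B) t) =
      Algebra.TensorProduct.map (Algebra.TensorProduct.map (π : B →ₐ[k] C) (π : B →ₐ[k] C))
        (AlgHom.id k B) ((Coalgebra.comul (R := k) (A := B)).rTensor B t) := by
    intro t
    induction t using TensorProduct.induction_on with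
    | zero => simp
    | tmul x y =>
      have h2 := CoalgHomClass.map_comp_comul_apply π x
      simp only [exists_X0_al, Algebra.TensorProduct.map_tmul, LinearMap.rTensor_tmul]
      congr 1
      exact h2.symm
    | add s t hs ht => simp only [map_add, hs, ht]
  have h3 : ∀ (x : B) (t : B ⊗[k] B), (Algebra.TensorProduct.assoc k k k C C B).symm
      (π x ⊗ₜ[k] (Algebra.TensorProduct.map (π : B →ₐ[k] C) (AlgHom.id k B) t)) =
      Algebra.TensorProduct.map (Algebra.TensorProduct.map (π : B →ₐ[k] C) (π : B →ₐ[k] C))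
        (AlgHom.id k B) ((TensorProduct.assoc k B B B).symm (x ⊗ₜ[k] t)) := by
    intro x t
    induction t using TensorProduct.induction_on with
    | zero => simp
    | tmul y z => simp
    | add s t hs ht => simp only [map_add, hs, ht, TensorProduct.tmul_add]
  have h4 : ∀ t : B ⊗[k] B, exists_X0_be π
      (Algebra.TensorProduct.map (π : B →ₐ[k] C) (AlgHom.id k B) t) =
      Algebra.TensorProduct.map (Algebra.TensorProduct.map (π : B →ₐ[k] C) (π : B →ₐ[k] C))
        (AlgHom.id k B) ((TensorProduct.assoc k B B B).symm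
          ((Coalgebra.comul (R := k) (A := B)).lTensor B t)) := by
    intro t
    induction t using TensorProduct.induction_on with
    | zero => simp
    | tmul x y =>
      rw [LinearMap.lTensor_tmul, ← h3]
      simp [exists_X0_be, rho]
    | add s t hs ht => simp only [map_add, hs, ht]
  have h5 : rho π b = Algebra.TensorProduct.map (π : B →ₐ[k] C) (AlgHom.id k B)
      (Coalgebra.comul (R := k) b) := rfl
  rw [h5, h1, h4, Coalgebra.coassoc_symm_apply]

private theorem exists_X0_Phi_al (w : C ⊗[k] B) : exists_X0_Phi k (C ⊗[k] C) B (exists_X0_al k C B w) =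
    Coalgebra.comul (R := k) (exists_X0_Phi k C B w) := by
  induction w using TensorProduct.induction_on with
  | zero => simp
  | tmul c b => simp [exists_X0_Phi_tmul, exists_X0_al]
  | add s t hs ht => simp only [map_add, hs, ht]

private theorem exists_X0_Phi_ga (w : C ⊗[k] B) : exists_X0_Phi k (C ⊗[k] C) B (exists_X0_ga k C B w) =
    (1 : C) ⊗ₜ[k] (exists_X0_Phi k C B w) := by
  induction w using TensorProduct.induction_on with
  | zero => simp
  | tmul c b => simp [exists_X0_Phi_tmul, exists_X0_ga]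
  | add s t hs ht => simp only [map_add, hs, ht, TensorProduct.tmul_add]

private theorem exists_X0_Phi_be (π : B →ₐc[k] C) (w : C ⊗[k] B) :
    exists_X0_Phi k (C ⊗[k] C) B (exists_X0_be π w) =
    Algebra.TensorProduct.map (AlgHom.id k C) (π : B →ₐ[k] C) w := by
  have h : ∀ (c : C) (t : C ⊗[k] B), exists_X0_Phi k (C ⊗[k] C) B
      ((Algebra.TensorProduct.assoc k k k C C B).symm (c ⊗ₜ[k] t)) =
      c ⊗ₜ[k] (exists_X0_Phi k C B t) := by
    intro c t
    induction t using TensorProduct.induction_on with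
    | zero => simp
    | tmul c b => simp [exists_X0_Phi_tmul]
    | add s t hs ht => simp only [map_add, hs, ht, TensorProduct.tmul_add]
  induction w using TensorProduct.induction_on with
  | zero => simp
  | tmul c b =>
    have h1 : exists_X0_be π (c ⊗ₜ[k] b) =
        (Algebra.TensorProduct.assoc k k k C C B).symm (c ⊗ₜ[k] (rho π b)) := by
      simp [exists_X0_be]
    rw [h1, h, exists_X0_Phi_eq]
    simp
  | add s t hs ht => simp only [map_add, hs, ht]

include hX hs hk in
private theorem exists_X0_key (h : X ≠ 0) (w : C ⊗[k] B) (hw : rho π X = w * ((1 : C) ⊗ₜ[k] X)) :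
    Coalgebra.comul (R := k) (exists_X0_Phi k C B w) =
      Algebra.TensorProduct.map (AlgHom.id k C) (π : B →ₐ[k] C) w *
        ((1 : C) ⊗ₜ[k] (exists_X0_Phi k C B w)) := by
  have ha1 : exists_X0_al k C B ((1 : C) ⊗ₜ[k] X) = (1 : C ⊗[k] C) ⊗ₜ[k] X := by
    simp [exists_X0_al]
  have hg1 : exists_X0_ga k C B ((1 : C) ⊗ₜ[k] X) = (1 : C ⊗[k] C) ⊗ₜ[k] X := by
    simp [exists_X0_ga, Algebra.TensorProduct.one_def]
  have hb1 : exists_X0_be π ((1 : C) ⊗ₜ[k] X) = exists_X0_ga k C B (rho π X) := by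
    simp [exists_X0_be, exists_X0_ga]
  have hc := exists_X0_coassoc π X
  have h0 : (exists_X0_al k C B w - exists_X0_be π w * exists_X0_ga k C B w) * ((1 : C ⊗[k] C) ⊗ₜ[k] X) = 0 := by
    rw [sub_mul, mul_assoc, sub_eq_zero]
    calc exists_X0_al k C B w * ((1 : C ⊗[k] C) ⊗ₜ[k] X) = exists_X0_al k C B (rho π X) := by
          rw [hw, map_mul, ha1]
      _ = exists_X0_be π (rho π X) := hc
      _ = exists_X0_be π w * exists_X0_ga k C B (rho π X) := by
          conv_lhs => rw [hw]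
          rw [map_mul, hb1]
      _ = exists_X0_be π w * (exists_X0_ga k C B w * ((1 : C ⊗[k] C) ⊗ₜ[k] X)) := by
          rw [hw, map_mul, hg1]
  have h1 := exists_X0_free π hs X hk hX h h0
  rwa [map_sub, map_mul, exists_X0_Phi_al, exists_X0_Phi_be, exists_X0_Phi_ga, sub_eq_zero] at h1

private theorem exists_X0_counit (w : C ⊗[k] B) :
    Coalgebra.counit (R := k) (exists_X0_Phi k C B w) = aug2 k C B w := by
  induction w using TensorProduct.induction_on with
  | zero => simp
  | tmul c b => simp [exists_X0_Phi_tmul, aug2, mul_comm]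
  | add s t hs ht => simp only [map_add, hs, ht]

private theorem exists_X0_pi_rho (π : B →ₐc[k] C) (n : B) :
    Algebra.TensorProduct.map (AlgHom.id k C) (π : B →ₐ[k] C) (rho π n) =
      Coalgebra.comul (R := k) (π n) := by
  have h5 : ∀ t : B ⊗[k] B, Algebra.TensorProduct.map (AlgHom.id k C) (π : B →ₐ[k] C)
      (Algebra.TensorProduct.map (π : B →ₐ[k] C) (AlgHom.id k B) t) =
      TensorProduct.map (π : B →ₗ[k] C) (π : B →ₗ[k] C) t := by
    intro t
    induction t using TensorProduct.induction_on with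
    | zero => simp
    | tmul x y => simp
    | add s t hs ht => simp only [map_add, hs, ht]
  have h6 : rho π n = Algebra.TensorProduct.map (π : B →ₐ[k] C) (AlgHom.id k B)
    (Coalgebra.comul (R := k) n) := rfl
  rw [h6, h5]
  exact CoalgHomClass.map_comp_comul_apply π n

private theorem exists_X0_inv (ν ν' : C) (h1 : ν * ν' = 1) (h2 : ν' * ν = 1) (wb : C ⊗[k] C)
    (h : Coalgebra.comul (R := k) ν = wb * ((1 : C) ⊗ₜ[k] ν)) :
    Coalgebra.comul (R := k) ν' * wb = (1 : C) ⊗ₜ[k] ν' := by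
  have h6 : Coalgebra.comul (R := k) ν' * Coalgebra.comul (R := k) ν = 1 := by
    rw [← Bialgebra.comul_mul, h2, Bialgebra.comul_one]
  rw [h, ← mul_assoc] at h6
  have h7 : ((1 : C) ⊗ₜ[k] ν) * ((1 : C) ⊗ₜ[k] ν') = 1 := by
    rw [Algebra.TensorProduct.tmul_mul_tmul, h1, one_mul, Algebra.TensorProduct.one_def]
  calc Coalgebra.comul (R := k) ν' * wb
      = Coalgebra.comul (R := k) ν' * wb * (((1 : C) ⊗ₜ[k] ν) * ((1 : C) ⊗ₜ[k] ν')) := by
        rw [h7, mul_one]
    _ = (1 : C) ⊗ₜ[k] ν' := by rw [← mul_assoc, h6, one_mul]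

include hk in
omit [Module.Finite k B] [Module.Finite k C] in
theorem pow_ker_mem {a : B} (ha : π a = 0) (n : ℕ) : a ^ n ∈ Ix k X n := by
  induction n with
  | zero => exact ⟨1, by rw [LinearMap.mulRight_apply, pow_zero, pow_zero, mul_one]⟩
  | succ n ih =>
    rw [pow_succ']
    exact ker_mul_mem π X hk ha ih

include hX hs hk in
omit [Module.Finite k B] [Module.Finite k C] in
/-- The kernel of `π` is nilpotent, so units lift. -/
theorem unit_of_pi {n : B} (hn : IsUnit (π n)) : IsUnit n := by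
  obtain ⟨u, hu⟩ := hn
  obtain ⟨m, hm⟩ := hs (↑u⁻¹ : C)
  obtain ⟨N, hN⟩ := hX
  have key : ∀ a : B, π a = 1 → IsUnit a := by
    intro a ha
    have h1 : π (1 - a) = 0 := by rw [map_sub, map_one, ha, sub_self]
    obtain ⟨c, hc⟩ := pow_ker_mem π X hk h1 N
    have h2 : IsNilpotent (1 - a) := ⟨N, by rw [← hc, LinearMap.mulRight_apply, hN, mul_zero]⟩
    have h3 := h2.isUnit_one_sub
    rwa [sub_sub_cancel] at h3
  obtain ⟨v, hv⟩ := key (n * m) (by rw [map_mul, hm, ← hu, Units.mul_inv])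
  obtain ⟨v', hv'⟩ := key (m * n) (by rw [map_mul, hm, ← hu, Units.inv_mul])
  have h1 : n * (m * (↑v⁻¹ : B)) = 1 := by rw [← mul_assoc, ← hv, Units.mul_inv]
  have h2 : ((↑v'⁻¹ : B) * m) * n = 1 := by rw [mul_assoc, ← hv', Units.inv_mul]
  have h3 : (↑v'⁻¹ : B) * m = m * (↑v⁻¹ : B) := left_inv_eq_right_inv h2 h1
  exact ⟨⟨n, m * (↑v⁻¹ : B), h1, by rw [← h3, h2]⟩, rfl⟩

include hX hs hk in
/-- THE UNIT `ν`. -/
theorem exists_X0_gen (h : X ≠ 0) : ∃ n : B, IsUnit n ∧
    rho π (n * X) - (1 : C) ⊗ₜ[k] (n * X) ∈ CI k C X 2 := by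
  have hX1 : X ∈ Ix k X 1 := ⟨1, by rw [LinearMap.mulRight_apply, one_mul, pow_one]⟩
  obtain ⟨w, hw0⟩ := rho_mem π X hs hk hX1
  have hw : rho π X = w * ((1 : C) ⊗ₜ[k] X) := by
    rw [← hw0, LinearMap.mulRight_apply, pow_one]
  have h1 := exists_X0_key π hs X hk hX h w hw
  obtain ⟨u, hu⟩ : IsUnit (exists_X0_Phi k C B w) :=
    unit_v π hs X hk hX (j := 1) (by rwa [pow_one]) (w := w) (by rw [pow_one]; exact hw)
  have hu1 : exists_X0_Phi k C B w * (↑u⁻¹ : C) = 1 := by rw [← hu, Units.mul_inv]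
  have hu2 : (↑u⁻¹ : C) * exists_X0_Phi k C B w = 1 := by rw [← hu, Units.inv_mul]
  obtain ⟨n, hn⟩ := hs (↑u⁻¹ : C)
  refine ⟨n, unit_of_pi π hs X hk hX (by rw [hn]; exact u⁻¹.isUnit), ?_⟩
  have h3 : rho π (n * X) - (1 : C) ⊗ₜ[k] (n * X) =
      (rho π n * w - (1 : C) ⊗ₜ[k] n) * ((1 : C) ⊗ₜ[k] X) := by
    rw [map_mul, hw, sub_mul, mul_assoc, Algebra.TensorProduct.tmul_mul_tmul, one_mul]
  have h5 : rho π n * w - (1 : C) ⊗ₜ[k] n ∈ CI k C X 1 := by
    rw [CI_one π X hs hk, map_sub, map_mul, exists_X0_pi_rho, hn,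
      exists_X0_inv _ _ hu1 hu2 _ h1, sub_eq_zero, ← hn]
    simp
  have h6 : ((1 : C) ⊗ₜ[k] X) ∈ CI k C X 1 :=
    ⟨1, by rw [LinearMap.mulRight_apply, one_mul, pow_one]⟩
  have h7 := CI_mul π X hk h5 h6
  rw [one_add_one_eq_two] at h7
  rw [h3]
  exact h7

private theorem R1G10_zero {k : Type u} [Field k] {B C : Type u} [Ring B] [Ring C]
    [HopfAlgebra k B] [HopfAlgebra k C] (X : B) (t : C ⊗[k] B) : t ∈ CI k C X 0 := by
  refine ⟨t, ?_⟩
  rw [LinearMap.mulRight_apply, pow_zero, ← Algebra.TensorProduct.one_def, mul_one]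

private theorem R1G10_lift {k : Type u} [Field k] {B C : Type u} [Ring B] [Ring C]
    [HopfAlgebra k B] [HopfAlgebra k C] (π : B →ₐc[k] C) (X : B) (φ : B → B)
    (hφ : ∀ b, X * b = φ b * X) (f : B →ₗ[k] C) (hf : ∀ b, f b = π (φ b)) (t : C ⊗[k] B) :
    ∃ t' : C ⊗[k] B, ((1 : C) ⊗ₜ[k] X) * t = t' * ((1 : C) ⊗ₜ[k] X) ∧
      Algebra.TensorProduct.map (AlgHom.id k C) (π : B →ₐ[k] C) t' =
        LinearMap.lTensor C f t := by
  induction t using TensorProduct.induction_on with
  | zero => exact ⟨0, by rw [mul_zero, zero_mul], by rw [map_zero, map_zero]⟩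
  | tmul c b =>
    refine ⟨c ⊗ₜ[k] φ b, ?_, ?_⟩
    · rw [Algebra.TensorProduct.tmul_mul_tmul, Algebra.TensorProduct.tmul_mul_tmul, one_mul,
        mul_one, hφ b]
    · rw [Algebra.TensorProduct.map_tmul, LinearMap.lTensor_tmul, hf b]
      rfl
  | add s t hs ht =>
    obtain ⟨s', h1, h2⟩ := hs
    obtain ⟨t', h3, h4⟩ := ht
    exact ⟨s' + t', by rw [mul_add, add_mul, h1, h3], by rw [map_add, map_add, h2, h4]⟩

private theorem R1G10_rho {k : Type u} [Field k] {B C : Type u} [Ring B] [Ring C]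
    [HopfAlgebra k B] [HopfAlgebra k C] (π : B →ₐc[k] C) (b : B) :
    Algebra.TensorProduct.map (AlgHom.id k C) (π : B →ₐ[k] C) (rho π b) =
      Coalgebra.comul (R := k) (π b) := by
  have h1 := CoalgHomClass.map_comp_comul_apply π b
  rw [← h1]
  unfold rho
  rw [AlgHom.comp_apply]
  change Algebra.TensorProduct.map (AlgHom.id k C) (π : B →ₐ[k] C)
    (Algebra.TensorProduct.map (π : B →ₐ[k] C) (AlgHom.id k B) (Coalgebra.comul (R := k) b)) = _
  generalize Coalgebra.comul (R := k) b = t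
  induction t using TensorProduct.induction_on with
  | zero => simp only [map_zero]
  | tmul c d => rfl
  | add s t hs ht => rw [map_add, map_add, map_add, hs, ht]

include hX hs hk in
/-- THE CHARACTER. Let `rho X - 1 ⊗ X ∈ CI 2`. For `b : B` choose `φ b` with `X b - φ(b) X ∈ B X²`,
`φ b ∈ B` unique modulo `B X` (freeness); `f = π ∘ φ : B → C` is an algebra homomorphism. Apply `rho`
to `X b = φ(b) X` modulo `CI 2`: `(1 ⊗ X) rho b = rho (φ b) (1 ⊗ X)`, and `(1 ⊗ X) (c ⊗ b') =
(c ⊗ φ b') (1 ⊗ X)` modulo `CI 2`, so by freeness `(id ⊗ f) (rho b) = Δ (f b)`. Applying `id ⊗ ε`: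
`f b = (id ⊗ χ) (rho b)` with the character `χ = ε ∘ f : B → k`; `χ = ε` because `χ` kills the
nilpotent `B⁺`. So `f b = π b` by `rid_rho`, which is the claim. -/
theorem cen_gen (hχ : ∀ (χ : B →ₐ[k] k) (b : B), χ b = Coalgebra.counit (R := k) b)
    (h : X ≠ 0) (hX2 : rho π X - (1 : C) ⊗ₜ[k] X ∈ CI k C X 2) (b : B) :
    ∃ b' : B, X * b - b * X = b' * X ^ 2 := by
  have hX0 : π X = 0 := (hk X).2 ⟨1, (one_mul X).symm⟩
  have hex : ∀ b : B, ∃ a : B, X * b = a * X := fun b =>
    (hk (X * b)).1 (by rw [map_mul, hX0, zero_mul])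
  choose φ hφ using hex
  have hp1 : X ^ 1 ≠ 0 := by rwa [pow_one]
  -- uniqueness modulo `B X`
  have huniq : ∀ a a' : B, a * X = a' * X → π a = π a' := by
    intro a a' haa
    have h1 : (a - a') * X ^ 1 ∈ Ix k X (1 + 1) := by
      rw [pow_one, sub_mul, haa, sub_self]
      exact Submodule.zero_mem _
    have h2 := free_gen π hs X hk hX hp1 h1
    rwa [map_sub, sub_eq_zero] at h2
  -- the homomorphism `f`
  let f₀ : B →ₗ[k] C :=
    { toFun := fun b => π (φ b)
      map_add' := fun b b' => by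
        rw [← map_add]
        exact huniq _ _ (by rw [← hφ, add_mul, ← hφ, ← hφ, mul_add])
      map_smul' := fun c b => by
        rw [RingHom.id_apply, ← map_smul]
        exact huniq _ _ (by rw [← hφ, smul_mul_assoc, ← hφ, mul_smul_comm]) }
  have hf₀ : ∀ b, f₀ b = π (φ b) := fun _ => rfl
  let f : B →ₐ[k] C := AlgHom.ofLinearMap f₀
    (by
      rw [hf₀, ← map_one π]
      exact huniq _ _ (by rw [← hφ, mul_one, one_mul]))
    (fun b b' => by
      rw [hf₀, hf₀, hf₀, ← map_mul]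
      exact huniq _ _ (by rw [← hφ, mul_assoc, ← hφ, ← mul_assoc, ← mul_assoc, ← hφ]))
  -- `(id ⊗ f) (rho b) = Δ (f b)`
  have key : LinearMap.lTensor C f₀ (rho π b) = Coalgebra.comul (R := k) (f₀ b) := by
    obtain ⟨t', h1, h2⟩ := R1G10_lift π X φ hφ f₀ hf₀ (rho π b)
    have h3 : (t' - rho π (φ b)) * ((1 : C) ⊗ₜ[k] (X ^ 1)) ∈ CI k C X (1 + 1) := by
      have h4 : (t' - rho π (φ b)) * ((1 : C) ⊗ₜ[k] (X ^ 1)) =
          rho π (φ b) * (rho π X - (1 : C) ⊗ₜ[k] X) -
            (rho π X - (1 : C) ⊗ₜ[k] X) * rho π b := by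
        have h5 : rho π X * rho π b = rho π (φ b) * rho π X := by
          rw [← map_mul, hφ b, map_mul]
        rw [pow_one, sub_mul, ← h1, mul_sub, sub_mul, h5]
        abel
      rw [h4]
      refine Submodule.sub_mem _ ?_ ?_
      · have h6 := CI_mul π X hk (R1G10_zero X (rho π (φ b))) hX2
        rwa [Nat.zero_add] at h6
      · have h6 := CI_mul π X hk hX2 (R1G10_zero X (rho π b))
        exact h6
    have h7 := free_gen_tmul π hs X hk hX hp1 h3
    rw [map_sub, sub_eq_zero, h2, R1G10_rho] at h7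
    exact h7
  -- the character
  have hχ : (Coalgebra.counit (R := k) (A := C)) ∘ₗ f₀ = Coalgebra.counit (R := k) (A := B) := by
    ext x
    exact hχ ((Bialgebra.counitAlgHom k C).comp f) x
  have h8 : f₀ b = π b := by
    have h9 := congrArg (fun t => TensorProduct.rid k C
      (LinearMap.lTensor C (Coalgebra.counit (R := k) (A := C)) t)) key
    change TensorProduct.rid k C (LinearMap.lTensor C (Coalgebra.counit (R := k) (A := C))
      (LinearMap.lTensor C f₀ (rho π b))) = TensorProduct.rid k C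
      (LinearMap.lTensor C (Coalgebra.counit (R := k) (A := C)) (Coalgebra.comul (R := k) (f₀ b)))
      at h9
    rw [← LinearMap.comp_apply, ← LinearMap.lTensor_comp, hχ, rid_rho,
      Coalgebra.lTensor_counit_comul, TensorProduct.rid_tmul, one_smul] at h9
    exact h9.symm
  obtain ⟨c, hc⟩ := (hk (φ b - b)).1 (by rw [map_sub, ← hf₀, h8, sub_self])
  refine ⟨c, ?_⟩
  rw [hφ b, ← sub_mul, hc, pow_two, mul_assoc]

end

private theorem R1G11_CI {k : Type u} [Field k] {B C : Type u} [Ring B] [Ring C]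
    [HopfAlgebra k B] [HopfAlgebra k C] (X Y : B) (c : B) (h : X ^ 2 = c * Y ^ 2) :
    CI k C X 2 ≤ CI k C Y 2 := by
  rintro _ ⟨t, rfl⟩
  refine ⟨t * ((1 : C) ⊗ₜ[k] c), ?_⟩
  rw [LinearMap.mulRight_apply, LinearMap.mulRight_apply, mul_assoc,
    Algebra.TensorProduct.tmul_mul_tmul, mul_one, h]

private theorem R1G11_zero {k : Type u} [Field k] {B C : Type u} [Ring B] [Ring C]
    [HopfAlgebra k B] [HopfAlgebra k C] (π : B →ₐc[k] C) (hs : Function.Surjective π)
    (hk : ∀ b : B, π b = 0 ↔ ∃ b' : B, b = b' * 0) :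
    Module.finrank k B = 1 * Module.finrank k C := by
  have hi : Function.Injective (π : B →ₐ[k] C).toLinearMap := by
    rw [injective_iff_map_eq_zero]
    intro b hb
    obtain ⟨b', hb'⟩ := (hk b).1 hb
    rw [hb', mul_zero]
  rw [one_mul]
  exact (LinearEquiv.ofBijective (π : B →ₐ[k] C).toLinearMap ⟨hi, hs⟩).finrank_eq

/-- Principal nilpotent Hopf ideals with a generator which is central modulo `B X²`. -/
theorem exists_rdata_cen {k : Type u} [Field k] {B C : Type u} [Ring B] [Ring C]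
    [HopfAlgebra k B] [HopfAlgebra k C] [Module.Finite k B] [Module.Finite k C]
    (π : B →ₐc[k] C) (hs : Function.Surjective π) (X : B)
    (hk : ∀ b : B, π b = 0 ↔ ∃ b' : B, b = b' * X) (hX : IsNilpotent X)
    (hc : ∀ b : B, ∃ b' : B, X * b - b * X = b' * X ^ 2) : ∃ N, Nonempty (RData N π) := by
  classical
  obtain ⟨N, hN0, hN1⟩ : ∃ N, X ^ N = 0 ∧ ∀ j, j < N → X ^ j ≠ 0 :=
    ⟨Nat.find hX, Nat.find_spec hX, fun j hj => Nat.find_min hX hj⟩
  exact ⟨N, ⟨⟨X, hs, hk, hN0, dim_gen π hs X hk hX hN0 hN1, hc⟩⟩⟩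

/-- Principal nilpotent Hopf ideals of Hopf algebras whose only character is the counit. (Replace `X`
by `n X` of `exists_X0_gen`.) -/
theorem exists_rdata_gen {k : Type u} [Field k] {B C : Type u} [Ring B] [Ring C]
    [HopfAlgebra k B] [HopfAlgebra k C] [Module.Finite k B] [Module.Finite k C]
    (hχ : ∀ (χ : B →ₐ[k] k) (b : B), χ b = Coalgebra.counit (R := k) b)
    (π : B →ₐc[k] C) (hs : Function.Surjective π) (X : B)
    (hk : ∀ b : B, π b = 0 ↔ ∃ b' : B, b = b' * X) (hX : IsNilpotent X) :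
    ∃ N, Nonempty (RData N π) := by
  by_cases h : X = 0
  · subst h
    exact ⟨1, ⟨⟨0, hs, hk, pow_one 0, R1G11_zero π hs hk,
      fun b => ⟨0, by rw [zero_mul, mul_zero, zero_mul, sub_self]⟩⟩⟩⟩
  obtain ⟨n, hn, h2⟩ := exists_X0_gen π hs X hk hX h
  obtain ⟨m, hm1⟩ : ∃ m : B, m * n = 1 := hn.exists_left_inv
  obtain ⟨Y, hY⟩ : ∃ Y : B, Y = n * X := ⟨_, rfl⟩
  rw [← hY] at h2
  have hXY : X = m * Y := by rw [hY, ← mul_assoc, hm1, one_mul]
  have hkY : ∀ b : B, π b = 0 ↔ ∃ b' : B, b = b' * Y := by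
    intro b
    rw [hk b]
    constructor
    · rintro ⟨b', rfl⟩
      exact ⟨b' * m, by rw [mul_assoc, ← hXY]⟩
    · rintro ⟨b', rfl⟩
      exact ⟨b' * n, by rw [mul_assoc, ← hY]⟩
  have hY0 : Y ≠ 0 := by
    intro h3
    apply h
    rw [hXY, h3, mul_zero]
  have hπY : π Y = 0 := (hkY Y).2 ⟨1, (one_mul Y).symm⟩
  obtain ⟨c, hc⟩ := (hkY (Y * m)).1 (by rw [map_mul, hπY, zero_mul])
  have h3 : X ^ 2 = (m * c) * Y ^ 2 := by
    rw [pow_two, pow_two, hXY, mul_assoc, ← mul_assoc Y m Y, hc, mul_assoc, mul_assoc]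
  have h4 := R1G11_CI (C := C) X Y (m * c) h3 h2
  have hYn : IsNilpotent Y := by
    obtain ⟨N, hN⟩ := hX
    obtain ⟨d, hd⟩ := pow_ker_mem π X hk hπY N
    exact ⟨N, by rw [← hd, LinearMap.mulRight_apply, hN, mul_zero]⟩
  exact exists_rdata_cen π hs Y hkY hYn fun b => cen_gen π hs Y hkY hYn hχ hY0 h4 b

end Pool.Agent.Helper77.R1
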