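import Pool.Agent.Helper77.R1.Signs

/-!
# Project R1, part A3: the first identities with the graded differential
-/

set_option linter.unusedSectionVars false
set_option autoImplicit false

open scoped TensorProduct
open Pool.Agent.Helper90.FC

namespace Pool.Agent.Helper77.R1

universe u

namespace LS

section

variable {k : Type u} [Field k] {E D : Type u} [Ring E] [Bialgebra k E] [Ring D] [Bialgebra k D]
variable {p : ℕ} (S : LS k E D p)

private theorem A3a_conv_one (φ ψ : Rc k E D) :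
    (φ * ψ).ofConv 1 = φ.ofConv 1 * ψ.ofConv 1 := by
  rw [LinearMap.convMul_def]
  simp [Bialgebra.comul_one, Algebra.TensorProduct.one_def]

private theorem A3a_sum {ι : Type*} (s : Finset ι) (f : ι → Rc k E D) :
    (∑ i ∈ s, f i).ofConv 1 = ∑ i ∈ s, (f i).ofConv 1 := by
  let ev : Rc k E D →+ TA k D :=
    { toFun := fun φ => φ.ofConv 1
      map_zero' := rfl
      map_add' := fun _ _ => rfl }
  exact map_sum ev _ _

private theorem A3a_kc (c : TA k D) : (kc (k := k) (E := E) c).ofConv 1 = c := by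
  rw [kc_apply, Bialgebra.counit_one, one_smul]

private theorem A3a_d0 (j : ℕ) (hj : j < p) : S.d0 (S.L j 1) =
    S.e * S.L j 1 + S.L j 1 * S.e - ∑ a ∈ Finset.range (j + 1), S.L a 1 * S.L (j - a) 1 := by
  have h := congrArg (fun φ : Rc k E D => φ.ofConv 1) (S.d0_Lc j hj)
  have h1 : (post S.d0 (S.Lc j)).ofConv 1 = S.d0 (S.L j 1) := rfl
  have h2 : (S.d0c j).ofConv 1 = (kc S.e * S.Lc j : Rc k E D).ofConv 1 +
      (S.Lc j * kc S.e : Rc k E D).ofConv 1 -
      (∑ a ∈ Finset.range (j + 1), S.Lc a * S.Lc (j - a) : Rc k E D).ofConv 1 := rfl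
  rw [← h1]
  refine h.trans (h2.trans ?_)
  rw [A3a_sum, A3a_conv_one, A3a_conv_one, A3a_kc]
  simp only [A3a_conv_one, Lc_apply]

private theorem A3a_d0' (j : ℕ) (h0 : 0 < j) (hj : j < p) : S.d0 (S.L j 1) =
    -∑ a ∈ Finset.Ico 1 j, S.L a 1 * S.L (j - a) 1 := by
  rw [S.A3a_d0 j hj, Finset.range_eq_Ico, Finset.sum_Ico_succ_top (by omega),
    Finset.sum_eq_sum_Ico_succ_bot h0, Nat.sub_zero, Nat.sub_self]
  have he : S.e = S.L 0 1 := rfl
  rw [he]
  abel

/-- (`d0 L_0(1)`: `Δ 1 = 1 ⊗ 1`.) -/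
theorem d0_e : S.d0 S.e = S.e * S.e := by
  have h := S.A3a_d0 0 (by have := S.two_le; omega)
  have he : S.e = S.L 0 1 := rfl
  rw [he, h, he]
  simp

/-- (The terms `a = 0` and `a = 1` of the sum are `e λ` and `λ e`.) -/
theorem d0_lam : S.d0 S.lam = 0 := by
  have h := S.A3a_d0' 1 one_pos (by have := S.two_le; omega)
  have he : S.lam = S.L 1 1 := rfl
  rw [he, h]
  simp

/-- `d0 (L_j 1) = - ∑_{0<i<j} L_i(1) L_(j-i)(1)` for `0 < j < p`, then
`d0 ξ = ∑_{a+i+b=p} L_a L_i L_b - ∑_{i+a+b=p} L_i L_a L_b = 0`. -/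
theorem d0_xi : S.d0 S.xi = 0 := by
  have hsg : ∀ a, sg k D (S.L a 1) = -S.L a 1 := fun a => sg_io (k := k) (H := D) (S.l a 1)
  unfold xi
  rw [map_sum]
  have h1 : ∀ a ∈ Finset.Ico 1 p, S.d0 (S.L a 1 * S.L (p - a) 1) =
      ∑ i ∈ Finset.Ico 1 (p - a), S.L a 1 * (S.L i 1 * S.L (p - a - i) 1) -
      ∑ i ∈ Finset.Ico 1 a, S.L i 1 * S.L (a - i) 1 * S.L (p - a) 1 := by
    intro a ha
    rw [Finset.mem_Ico] at ha
    rw [S.d0_mul, hsg, S.A3a_d0' a (by omega) ha.2, S.A3a_d0' (p - a) (by omega) (by omega),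
      neg_mul_neg, Finset.mul_sum, neg_mul, Finset.sum_mul]
    abel
  rw [Finset.sum_congr rfl h1, Finset.sum_sub_distrib, sub_eq_zero, Finset.sum_sigma',
    Finset.sum_sigma']
  refine Finset.sum_bij' (fun x _ => ⟨x.1 + x.2, x.1⟩) (fun x _ => ⟨x.2, x.1 - x.2⟩) ?_ ?_ ?_ ?_ ?_
  · rintro ⟨a, i⟩ h
    simp only [Finset.mem_sigma, Finset.mem_Ico] at h ⊢
    omega
  · rintro ⟨a, i⟩ h
    simp only [Finset.mem_sigma, Finset.mem_Ico] at h ⊢
    omega
  · rintro ⟨a, i⟩ h
    simp only [Finset.mem_sigma, Finset.mem_Ico] at h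
    simp
  · rintro ⟨a, i⟩ h
    simp only [Finset.mem_sigma, Finset.mem_Ico] at h
    ext
    · simp
      omega
    · simp
  · rintro ⟨a, i⟩ h
    simp only [Finset.mem_sigma, Finset.mem_Ico] at h
    simp only
    rw [mul_assoc, Nat.add_sub_cancel_left, Nat.sub_sub]

private theorem A3b_sum (j : ℕ) (u v : Rc k E D) (c : ℕ → Rc k E D) :
    ∑ a ∈ Finset.range (j + 1), ((if a = 0 then u else 0) * c (j - a) +
      c a * (if j - a = 0 then v else 0)) = u * c j + c j * v := by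
  rw [Finset.sum_add_distrib]
  congr 1
  · rw [Finset.sum_eq_single_of_mem 0 (Finset.mem_range.2 (by omega))]
    · rw [if_pos rfl, Nat.sub_zero]
    · intro b _ hb
      rw [if_neg hb, zero_mul]
  · rw [Finset.sum_eq_single_of_mem j (Finset.mem_range.2 (by omega))]
    · rw [if_pos (Nat.sub_self j)]
    · intro b hb hbj
      rw [Finset.mem_range] at hb
      rw [if_neg (by omega), mul_zero]

private theorem A3b_one (O : TA k D →ₗ[k] TA k D) (h : O 1 = 0) (m j : ℕ) :
    post O (if j = m then (1 : Rc k E D) else 0) = 0 := by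
  split_ifs
  · rw [← kc_one, post_kc, h, kc_zero]
  · rw [map_zero]

/-- Both sides are `(bar ∘ σ, bar)`-derivations; on letters: `bar (d0 L_j) = 0` for `j > 0`. -/
theorem bar_d0 (f : TA k D) : S.bar (S.d0 f) = S.d0 (S.bar f) := by
  have h := twDer_ext (k := k) (V := D) S.bars S.bar
    (S.bar.toLinearMap ∘ₗ S.d0) (S.d0 ∘ₗ S.bar.toLinearMap)
    (fun w w' => by
      simp only [LinearMap.comp_apply, AlgHom.toLinearMap_apply, S.d0_mul, map_add, map_mul,
        S.bars_apply])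
    (fun w w' => by
      simp only [LinearMap.comp_apply, AlgHom.toLinearMap_apply, S.d0_mul, map_mul,
        S.sg_bar, S.bars_apply])
    (S.io_ext _ _ (by
      intro j hj
      rw [post_comp, post_comp, S.d0_Lc j hj, S.bar_Lc]
      unfold d0c
      rw [map_sub, map_add, post_mul_hom, post_mul_hom, map_sum]
      have h1 : post S.bar.toLinearMap (kc (k := k) (E := E) S.e) = kc S.e := by
        rw [post_kc, AlgHom.toLinearMap_apply, S.bar_e]
      rw [h1, S.bar_Lc]
      split_ifs with h0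
      · subst h0
        rw [S.d0_Lc 0 hj]
        unfold d0c
        simp [post_mul_hom, S.bar_Lc]
      · rw [map_zero, mul_zero, zero_mul, add_zero, zero_sub, neg_eq_zero]
        refine Finset.sum_eq_zero fun a ha => ?_
        rw [Finset.mem_range] at ha
        rw [post_mul_hom, S.bar_Lc, S.bar_Lc]
        by_cases h2 : a = 0
        · rw [if_neg (show ¬ j - a = 0 by omega), mul_zero]
        · rw [if_neg h2, zero_mul]))
  exact DFunLike.congr_fun h f

private theorem A3b_bars_d0 (f : TA k D) : S.bars (S.d0 f) = -S.d0 (S.bars f) := by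
  rw [bars_apply, sg_d0, map_neg, bar_d0, bars_apply]

/-- Induction on `f` (`TensorAlgebra.induction`). Product:
`d0 (ss (f g)) = d0 (bars f ss g + ss f bar g)
  = bar f d0(ss g) + d0(bars f) ss g - ss(σ f) d0(bar g) + d0(ss f) bar g` and
`ss (d0 (f g)) = ss (σ f d0 g + d0 f g)
  = bar f ss(d0 g) + ss(σ f) bar(d0 g) + bars(d0 f) ss g + ss(d0 f) bar g`,
with `bars (d0 f) = -d0 (bars f)`. Generators: `io_ext`; in the convolution ring
`d0 (ss L_j) = 0` and
`ss (d0c j) = -e [j=1] + [j=1] e - (-L_0 [j=1] + [j=1] L_0) = 0`. -/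
theorem ss_d0 (f : TA k D) : S.d0 (S.ss f) + S.ss (S.d0 f) = 0 := by
  have h := twDer_ext (k := k) (V := D) S.bar S.bar
    (S.d0 ∘ₗ S.ss + S.ss ∘ₗ S.d0) 0
    (fun w w' => by
      simp only [LinearMap.add_apply, LinearMap.comp_apply, S.d0_mul, S.ss_mul, map_add,
        S.sg_bars, S.sg_ss, S.bars_sg, S.bar_d0, S.A3b_bars_d0]
      noncomm_ring)
    (fun w w' => by simp)
    (S.io_ext _ _ (by
      intro j hj
      rw [post_add, post_comp, post_comp, S.d0_Lc j hj, S.ss_Lc, A3b_one S.d0 S.d0_one, zero_add]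
      unfold d0c
      have h1 : ∀ φ ψ : Rc k E D, post S.ss (φ * ψ) =
          post S.bars.toLinearMap φ * post S.ss ψ + post S.ss φ * post S.bar.toLinearMap ψ :=
        post_mul S.ss S.bars.toLinearMap S.bar.toLinearMap S.ss_mul
      have h2 : post S.bar.toLinearMap (kc (k := k) (E := E) S.e) = kc S.e := by
        rw [post_kc, AlgHom.toLinearMap_apply, S.bar_e]
      have h3 : post S.bars.toLinearMap (kc (k := k) (E := E) S.e) = -kc S.e := by
        rw [post_kc, AlgHom.toLinearMap_apply, S.bars_e, kc_neg]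
      have h4 : post S.ss (kc (k := k) (E := E) S.e) = 0 := by
        rw [post_kc, S.ss_e, kc_zero]
      rw [map_sub, map_add, map_sum]
      simp only [h1, h2, h3, h4, S.ss_Lc, S.bar_Lc, S.bars_Lc]
      rw [A3b_sum j (-S.Lc 0) (S.Lc 0) (fun a => if a = 1 then 1 else 0)]
      have h5 : post (0 : TA k D →ₗ[k] TA k D) (S.Lc j) = 0 := rfl
      rw [h5]
      by_cases h6 : j = 1
      · simp [h6]
      · simp [h6]))
  exact DFunLike.congr_fun h f

/-- The same as `ss_d0`; letters: `tt (d0c j) = e [j=p-1] - [j=p-1] e - (L_0 [j=p-1] - [j=p-1] L_0)`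
`= 0` (for `kc e * L_j`: `tt (e f) = e tt f + 0`, `tt (f e) = bar f * 0 + tt f (-e)`). -/
theorem tt_d0 (f : TA k D) : S.d0 (S.tt f) = S.tt (S.d0 f) := by
  have h := twDer_ext (k := k) (V := D) S.bars S.bars
    (S.d0 ∘ₗ S.tt - S.tt ∘ₗ S.d0) 0
    (fun w w' => by
      have e1 : sg k D (S.bar w) = S.bars w := by rw [S.sg_bar, S.bars_apply]
      have e2 : S.bar (sg k D w) = S.bars w := (S.bars_apply w).symm
      simp only [LinearMap.sub_apply, LinearMap.comp_apply, S.d0_mul, S.tt_mul, map_add,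
        e1, e2, S.sg_tt, S.bar_d0, S.A3b_bars_d0]
      noncomm_ring)
    (fun w w' => by simp)
    (S.io_ext _ _ (by
      intro j hj
      have h0 : post (S.d0 ∘ₗ S.tt - S.tt ∘ₗ S.d0) (S.Lc j) =
          post S.d0 (post S.tt (S.Lc j)) - post S.tt (post S.d0 (S.Lc j)) := rfl
      rw [h0, S.d0_Lc j hj, S.tt_Lc, A3b_one S.d0 S.d0_one, zero_sub]
      unfold d0c
      have h1 : ∀ φ ψ : Rc k E D, post S.tt (φ * ψ) =
          post S.bar.toLinearMap φ * post S.tt ψ + post S.tt φ * post S.bars.toLinearMap ψ :=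
        post_mul S.tt S.bar.toLinearMap S.bars.toLinearMap S.tt_mul
      have h2 : post S.bar.toLinearMap (kc (k := k) (E := E) S.e) = kc S.e := by
        rw [post_kc, AlgHom.toLinearMap_apply, S.bar_e]
      have h3 : post S.bars.toLinearMap (kc (k := k) (E := E) S.e) = -kc S.e := by
        rw [post_kc, AlgHom.toLinearMap_apply, S.bars_e, kc_neg]
      have h4 : post S.tt (kc (k := k) (E := E) S.e) = 0 := by
        rw [post_kc, S.tt_e, kc_zero]
      rw [map_sub, map_add, map_sum]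
      simp only [h1, h2, h3, h4, S.tt_Lc, S.bar_Lc, S.bars_Lc]
      rw [A3b_sum j (S.Lc 0) (-S.Lc 0) (fun a => if a = p - 1 then 1 else 0)]
      have h5 : post (0 : TA k D →ₗ[k] TA k D) (S.Lc j) = 0 := rfl
      rw [h5]
      by_cases h6 : j = p - 1
      · simp [h6]
      · simp [h6]))
  have h7 := DFunLike.congr_fun h f
  exact sub_eq_zero.1 h7

theorem Psi_d0_Lc (j : ℕ) : post S.Psi (S.Lc j) = 0 := by
  apply Rc_ext
  intro g
  rw [post_apply, Lc_apply, L_eq, S.Psi_io]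
  rfl

theorem Psi_d0_mulc (φ ψ : Rc k E D) :
    post S.Psi (φ * ψ) = post S.bar.toLinearMap φ * post S.Psi ψ + post S.tt φ * post S.ss ψ +
      post S.Psi φ * post S.bar.toLinearMap ψ :=
  post_mul2 S.Psi S.bar.toLinearMap S.bar.toLinearMap S.tt S.ss (fun f g => S.Psi_mul f g) φ ψ

theorem Psi_d0_e : S.Psi S.e = 0 := S.Psi_io _

theorem Psi_d0_letter (j : ℕ) (hj : j < p) : post S.Psi (S.d0c j) = 0 := by
  unfold d0c
  rw [map_sub, map_add, map_sum, S.Psi_d0_mulc, S.Psi_d0_mulc, post_kc, post_kc, post_kc, post_kc,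
    S.Psi_d0_Lc, S.Psi_d0_e, S.tt_e, S.ss_e, kc_zero]
  have h : ∑ a ∈ Finset.range (j + 1), post S.Psi (S.Lc a * S.Lc (j - a)) = 0 := by
    apply Finset.sum_eq_zero
    intro a ha
    have ha' : a ≤ j := Nat.lt_succ_iff.1 (Finset.mem_range.1 ha)
    rw [S.Psi_d0_mulc, S.Psi_d0_Lc, S.Psi_d0_Lc, S.tt_Lc, S.ss_Lc, mul_zero, zero_mul, zero_add,
      add_zero]
    have h2 := S.two_le
    by_cases h1 : a = p - 1
    · rw [if_neg (show ¬ (j - a = 1) by omega), mul_zero]
    · rw [if_neg h1, zero_mul]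
  rw [h]
  simp

/-- Induction. Product: as `ss_d0`, using `ss_d0`, `tt_d0`, `sg_tt` for the middle term:
`d0 (tt f ss g) = σ(tt f) d0(ss g) + d0(tt f) ss g = tt(σ f) ss(d0 g) + tt(d0 f) ss g`. Letters: both
sides are `0`: `Psi (L_a * L_b) = tt L_a * ss L_b = [a = p-1] [b = 1]`, which does not occur for
`a + b = j < p`; the terms with `e` vanish since `ss e = tt e = 0`. -/
theorem Psi_d0 (f : TA k D) : S.d0 (S.Psi f) = S.Psi (S.d0 f) := by
  induction f using TensorAlgebra.induction with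
  | algebraMap r =>
    rw [Algebra.algebraMap_eq_smul_one, map_smul, map_smul, map_smul, map_smul, S.Psi_one,
      S.d0_one, map_zero, map_zero]
  | ι v =>
    refine S.io_ext (S.d0 ∘ₗ S.Psi) (S.Psi ∘ₗ S.d0) (fun j hj => ?_) v
    rw [post_comp, post_comp, S.Psi_d0_Lc, S.d0_Lc j hj, S.Psi_d0_letter j hj, map_zero]
  | mul f g hf hg =>
    have h1 : S.d0 (S.ss g) = -S.ss (S.d0 g) := eq_neg_of_add_eq_zero_left (S.ss_d0 g)
    rw [S.Psi_mul, map_add, map_add, S.d0_mul, S.d0_mul, S.d0_mul, S.d0_mul, map_add, S.Psi_mul,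
      S.Psi_mul, hf, hg, S.bar_d0, S.bar_d0, S.sg_bar, S.sg_tt, S.sg_Psi, h1, S.tt_d0]
    rw [neg_mul_neg]
    abel
  | add f g hf hg =>
    rw [map_add, map_add, map_add, map_add, hf, hg]

end

end LS

end Pool.Agent.Helper77.R1
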