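import Pool.Agent.Helper77.R1.IdA

/-!
# Project R1, part A4: the identity for `Q`
-/

set_option linter.unusedSectionVars false
set_option autoImplicit false

open scoped TensorProduct
open Pool.Agent.Helper90.FC

namespace Pool.Agent.Helper77.R1

universe u

namespace LS

section

variable {k : Type u} [Field k] {E D : Type u} [Ring E] [Bialgebra k E] [Ring D] [Bialgebra k D]
variable {p : ℕ} (S : LS k E D p)

/-- The values of `QQ` on a product, in the convolution ring. -/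
private theorem QQ_d0_mulc (φ ψ : Rc k E D) :
    post S.QQ (φ * ψ) = φ * post S.QQ ψ + post S.QQ φ * post S.bar.toLinearMap ψ :=
  post_mul S.QQ LinearMap.id S.bar.toLinearMap S.QQ_mul φ ψ

/-- `QQ (∑_{a+b=j} L_a L_b) = ∑_{a+b=j+1} L_a L_b`. -/
private theorem QQ_d0_sum (j : ℕ) :
    post S.QQ (∑ a ∈ Finset.range (j + 1), S.Lc a * S.Lc (j - a)) =
      ∑ a ∈ Finset.range (j + 1 + 1), S.Lc a * S.Lc (j + 1 - a) := by
  rw [map_sum, Finset.sum_range_succ (fun a => S.Lc a * S.Lc (j + 1 - a)) (j + 1)]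
  simp only [QQ_d0_mulc, S.QQ_Lc, S.bar_Lc]
  rw [Finset.sum_add_distrib]
  congr 1
  · refine Finset.sum_congr rfl fun a ha => ?_
    rw [Finset.mem_range] at ha
    rw [show j - a + 1 = j + 1 - a by omega]
  · rw [Finset.sum_eq_single_of_mem j (Finset.mem_range.2 (by omega))]
    · rw [if_pos (Nat.sub_self j), Nat.sub_self]
    · intro b hb hbj
      rw [Finset.mem_range] at hb
      rw [if_neg (by omega), mul_zero]

/-- The value of `QQ` on `d0 L_j`. -/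
private theorem QQ_d0_c (j : ℕ) :
    post S.QQ (S.d0c j) = (kc S.e * S.Lc (j + 1) + kc S.lam * (if j = 0 then S.Lc 0 else 0)) +
      (S.Lc j * kc S.lam + S.Lc (j + 1) * kc S.e) -
        ∑ a ∈ Finset.range (j + 1 + 1), S.Lc a * S.Lc (j + 1 - a) := by
  unfold d0c
  have h1 : post S.QQ (kc (k := k) (E := E) S.e) = kc S.lam := by
    rw [post_kc, S.QQ_e]
  have h2 : post S.bar.toLinearMap (kc (k := k) (E := E) S.e) = kc S.e := by
    rw [post_kc, AlgHom.toLinearMap_apply, S.bar_e]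
  rw [map_sub, map_add, S.QQ_d0_sum, S.QQ_d0_mulc, S.QQ_d0_mulc, h1, h2, S.QQ_Lc, S.bar_Lc]

/-- `∑_{a+b=p} L_a L_b = ∑_{0<a<p} L_a L_(p-a)`, since `L_p = 0`. -/
private theorem QQ_d0_full :
    ∑ a ∈ Finset.range (p + 1), S.Lc a * S.Lc (p - a) = S.xc := by
  have h2 := S.two_le
  unfold xc
  rw [Finset.sum_range_succ, S.Lc_ge p le_rfl, zero_mul, add_zero, Finset.range_eq_Ico,
    Finset.sum_eq_sum_Ico_succ_bot (by omega : 0 < p), Nat.sub_zero, S.Lc_ge p le_rfl, mul_zero,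
    zero_add]

/-- Letters, in the convolution ring, for `j < p` (where `xc` is the sum `∑_{0<a<p} L_a L_(p-a)`):
`d0 L_(j+1) = e L_(j+1) + L_(j+1) e - ∑_{a+b=j+1} L_a L_b` if `j + 1 < p`, and `0 = L_p` if
`j + 1 = p`; `QQ (d0c j) = e L_(j+1) + λ [j=0] L_0 ... `: precisely
`QQ (e L_j) = e L_(j+1) + λ bar L_j`, `QQ (L_j e) = L_j λ + L_(j+1) e`,
`QQ (L_a L_b) = L_a L_(b+1) + L_(a+1) bar L_b`, so
`QQ (∑_{a+b=j} L_a L_b) = ∑_{a+b=j} L_a L_(b+1) + L_(j+1) L_0 = ∑_{a+b=j+1} L_a L_b`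
(with `L_p = 0`). Hence `d0 (QQ L_j) - QQ (d0 L_j) = - λ bar L_j - L_j λ` (`+ xc` if `j = p-1`,
where `e L_p + L_p e = 0` and `∑_{a+b=p} L_a L_b = xc`). -/
theorem QQ_d0_Lc (j : ℕ) (hj : j < p) :
    post S.d0 (S.Lc (j + 1)) - post S.QQ (S.d0c j) =
      -(S.Lc j * kc S.lam) - kc S.lam * (if j = 0 then S.Lc 0 else 0) +
        (if j = p - 1 then S.xc else 0) := by
  rw [S.QQ_d0_c j]
  have h2 := S.two_le
  rcases Nat.lt_or_ge (j + 1) p with h | h
  · rw [S.d0_Lc (j + 1) h, if_neg (show ¬ j = p - 1 by omega)]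
    unfold d0c
    abel
  · have h3 : j + 1 = p := by omega
    have h4 : j = p - 1 := by omega
    rw [if_pos h4, h3, S.Lc_ge p le_rfl, map_zero, S.QQ_d0_full, mul_zero, zero_mul]
    abel

/-- The right hand side of `QQ_d0`. -/
private noncomputable def QQ_d0_R : TA k D →ₗ[k] TA k D :=
  LinearMap.mulRight k S.lam ∘ₗ (sg k D).toLinearMap -
    LinearMap.mulLeft k S.lam ∘ₗ S.bar.toLinearMap + S.Ms

private theorem QQ_d0_R_mul (f g : TA k D) :
    S.QQ_d0_R (f * g) = sg k D f * S.QQ_d0_R g + S.QQ_d0_R f * S.bar g := by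
  have h : ∀ w, S.QQ_d0_R w = sg k D w * S.lam - S.lam * S.bar w + S.Ms w := fun _ => rfl
  rw [h, h, h, map_mul, map_mul, S.Ms_mul]
  noncomm_ring

private theorem QQ_d0_R_Lc (j : ℕ) :
    post S.QQ_d0_R (S.Lc j) = -(S.Lc j * kc S.lam) - kc S.lam * (if j = 0 then S.Lc 0 else 0) +
      (if j = p - 1 then S.xc else 0) := by
  have h : post S.QQ_d0_R (S.Lc j) =
      post (LinearMap.mulRight k S.lam) (post (sg k D).toLinearMap (S.Lc j)) -
        post (LinearMap.mulLeft k S.lam) (post S.bar.toLinearMap (S.Lc j)) +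
          post S.Ms (S.Lc j) := rfl
  rw [h, ← mul_kc_eq, ← kc_mul_eq, S.sg_Lc, S.bar_Lc, S.Ms_Lc, neg_mul (S.Lc j)]

/-- Induction. Product: `d0 (QQ (f g)) = σ f d0(QQ g) + d0 f QQ g + QQ(σ f) d0(bar g) + d0(QQ f) bar g`
(`sg_QQ`), `QQ (d0 (f g)) = σ f QQ(d0 g) + QQ(σ f) bar(d0 g) + d0 f QQ g + QQ(d0 f) bar g`; the
difference is `σ f [d0, QQ] g + [d0, QQ] f bar g`
`= σ f (σ g λ - λ bar g + Ms g) + (σ f λ - λ bar f + Ms f) bar g = σ(f g) λ - λ bar(f g) + Ms(f g)`.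
-/
theorem QQ_d0 (f : TA k D) :
    S.d0 (S.QQ f) - S.QQ (S.d0 f) = sg k D f * S.lam - S.lam * S.bar f + S.Ms f := by
  have h := twDer_ext (k := k) (V := D) (sg k D) S.bar
    (S.d0 ∘ₗ S.QQ - S.QQ ∘ₗ S.d0) S.QQ_d0_R
    (fun w w' => by
      simp only [LinearMap.sub_apply, LinearMap.comp_apply, S.d0_mul, S.QQ_mul, map_add,
        S.sg_QQ, S.bar_d0]
      noncomm_ring)
    S.QQ_d0_R_mul
    (S.io_ext _ _ (by
      intro j hj
      have h0 : post (S.d0 ∘ₗ S.QQ - S.QQ ∘ₗ S.d0) (S.Lc j) =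
          post S.d0 (post S.QQ (S.Lc j)) - post S.QQ (post S.d0 (S.Lc j)) := rfl
      rw [h0, S.QQ_Lc, S.d0_Lc j hj, S.QQ_d0_Lc j hj, S.QQ_d0_R_Lc j]))
  exact DFunLike.congr_fun h f

end

end LS

end Pool.Agent.Helper77.R1
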