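import Pool.Agent.Helper77.R1.IdA

/-!
# Project R1, part A5: the identities for `Ξ` and `Ω`
-/

set_option linter.unusedSectionVars false
set_option autoImplicit false

open scoped TensorProduct
open Pool.Agent.Helper90.FC

namespace Pool.Agent.Helper77.R1

universe u

namespace LS

section

variable {k : Type u} [Field k] {E D : Type u} [Ring E] [Bialgebra k E] [Ring D] [Bialgebra k D]
variable {p : ℕ} (S : LS k E D p)

private theorem A5a_triple {M : Type*} [AddCommMonoid M] (F : ℕ → ℕ → ℕ → M) (p : ℕ) :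
    ∑ a ∈ Finset.Ico 1 p, ∑ i ∈ Finset.Ico 1 (p - a), F a i (p - a - i) =
      ∑ a ∈ Finset.Ico 1 p, ∑ i ∈ Finset.Ico 1 a, F i (a - i) (p - a) := by
  rw [Finset.sum_sigma', Finset.sum_sigma']
  refine Finset.sum_nbij' (fun x => ⟨x.1 + x.2, x.1⟩) (fun x => ⟨x.2, x.1 - x.2⟩) ?_ ?_ ?_ ?_ ?_
  · intro x hx
    simp only [Finset.mem_sigma, Finset.mem_Ico] at hx ⊢
    omega
  · intro x hx
    simp only [Finset.mem_sigma, Finset.mem_Ico] at hx ⊢
    omega
  · intro x hx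
    simp only [Finset.mem_sigma, Finset.mem_Ico] at hx
    ext
    · rfl
    · simp
  · intro x hx
    simp only [Finset.mem_sigma, Finset.mem_Ico] at hx
    ext
    · simp only
      omega
    · rfl
  · intro x hx
    simp only [Finset.mem_sigma, Finset.mem_Ico] at hx
    simp only
    rw [Nat.add_sub_cancel_left, Nat.sub_sub]

private theorem A5a_split {M : Type*} [AddCommGroup M] (G : ℕ → ℕ → M) (j : ℕ) (hj : 1 ≤ j) :
    ∑ a ∈ Finset.range (j + 1), G a (j - a) =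
      G 0 j + ∑ i ∈ Finset.Ico 1 j, G i (j - i) + G j 0 := by
  rw [Finset.sum_range_succ, Nat.sub_self, Finset.range_eq_Ico,
    Finset.sum_eq_sum_Ico_succ_bot (by omega), Nat.sub_zero]

private theorem A5a_d0c (j : ℕ) (hj : 1 ≤ j) : S.d0c j =
    kc S.e * S.Lc j + S.Lc j * kc S.e - (S.Lc 0 * S.Lc j +
      ∑ i ∈ Finset.Ico 1 j, S.Lc i * S.Lc (j - i) + S.Lc j * S.Lc 0) := by
  unfold d0c
  rw [A5a_split (fun a b => S.Lc a * S.Lc b) j hj]

private theorem A5a_alg1 {R : Type*} [Ring R] (e L0 La Lb s t : R) :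
    -La * (e * Lb + Lb * e - (L0 * Lb + s + Lb * L0)) +
      (e * La + La * e - (L0 * La + t + La * L0)) * Lb =
    (e * (La * Lb) - (La * Lb) * e - L0 * (La * Lb) + (La * Lb) * L0) + (La * s - t * Lb) := by
  noncomm_ring

private theorem A5a_alg2 {R : Type*} [Ring R] (e L0 x c : R) :
    e * c - c * e - L0 * c + c * L0 + (-e * c + x * L0 + (-L0 * x + c * e) -
      (-L0 * c + c * L0)) = x * L0 - L0 * x := by
  noncomm_ring

private theorem A5a_postid (φ : Rc k E D) : post (LinearMap.id) φ = φ := rfl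

private theorem A5a_d0mul (φ ψ : Rc k E D) : post S.d0 (φ * ψ) =
    post (sg k D).toLinearMap φ * post S.d0 ψ + post S.d0 φ * ψ :=
  post_mul S.d0 (sg k D).toLinearMap LinearMap.id (fun f g => S.d0_mul f g) φ ψ

private theorem A5a_Ximul (φ ψ : Rc k E D) : post S.Xi (φ * ψ) =
    post S.bars.toLinearMap φ * post S.Xi ψ + post S.Xi φ * post S.bar.toLinearMap ψ :=
  post_mul S.Xi S.bars.toLinearMap S.bar.toLinearMap (fun f g => S.Xi_mul f g) φ ψ

/-- In the convolution ring (associativity):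
`d0 xc = ∑_{0<a<p} (-L_a d0(L_(p-a)) + d0(L_a) L_(p-a))` (the sign: `σ L_a = -L_a`)
`= e xc - xc e + L_0 xc' ...`: expand `d0 L_j = e L_j + L_j e - L_0 L_j - L_j L_0 - ∑_{0<i<j} L_i L_(j-i)`
for `0 < j < p`; the triple sums cancel, `L_a e L_(p-a)` cancels, `L_a L_0 L_(p-a)` cancels, and
`d0 xc = e xc - xc e - L_0 xc + xc L_0`. -/
theorem d0_xc : post S.d0 S.xc =
    kc S.e * S.xc - S.xc * kc S.e - S.Lc 0 * S.xc + S.xc * S.Lc 0 := by
  have hterm : ∀ a ∈ Finset.Ico 1 p, post S.d0 (S.Lc a * S.Lc (p - a)) =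
      (kc S.e * (S.Lc a * S.Lc (p - a)) - (S.Lc a * S.Lc (p - a)) * kc S.e
        - S.Lc 0 * (S.Lc a * S.Lc (p - a)) + (S.Lc a * S.Lc (p - a)) * S.Lc 0)
      + (∑ i ∈ Finset.Ico 1 (p - a), S.Lc a * S.Lc i * S.Lc (p - a - i)
        - ∑ i ∈ Finset.Ico 1 a, S.Lc i * S.Lc (a - i) * S.Lc (p - a)) := by
    intro a ha
    rw [Finset.mem_Ico] at ha
    have h1 : ∑ i ∈ Finset.Ico 1 (p - a), S.Lc a * S.Lc i * S.Lc (p - a - i) =
        S.Lc a * ∑ i ∈ Finset.Ico 1 (p - a), S.Lc i * S.Lc (p - a - i) := by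
      rw [Finset.mul_sum]
      exact Finset.sum_congr rfl fun i _ => mul_assoc _ _ _
    have h2 : ∑ i ∈ Finset.Ico 1 a, S.Lc i * S.Lc (a - i) * S.Lc (p - a) =
        (∑ i ∈ Finset.Ico 1 a, S.Lc i * S.Lc (a - i)) * S.Lc (p - a) := by
      rw [Finset.sum_mul]
    rw [A5a_d0mul, S.sg_Lc, S.d0_Lc _ (by omega), S.d0_Lc _ (by omega),
      A5a_d0c S _ (by omega), A5a_d0c S _ (by omega), h1, h2]
    exact A5a_alg1 _ _ _ _ _ _
  have h0 : post S.d0 S.xc = ∑ a ∈ Finset.Ico 1 p, post S.d0 (S.Lc a * S.Lc (p - a)) := by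
    unfold xc
    rw [map_sum]
  rw [h0, Finset.sum_congr rfl hterm, Finset.sum_add_distrib, Finset.sum_sub_distrib,
    A5a_triple (fun a b c => S.Lc a * S.Lc b * S.Lc c) p, sub_self, add_zero,
    Finset.sum_add_distrib, Finset.sum_sub_distrib, Finset.sum_sub_distrib,
    ← Finset.mul_sum, ← Finset.sum_mul, ← Finset.mul_sum, ← Finset.sum_mul]
  rfl

/-- Letters: for `j = 0`: `Xi (d0c 0) = Xi (e L_0 + L_0 e - L_0 L_0)`
`= (-e) xc + ξ L_0 + (-L_0) ξ + xc e - ((-L_0) xc + xc L_0)`; with `d0_xc` the sum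
`d0 (Xi L_0) + Xi (d0 L_0)` is `ξ L_0 - L_0 ξ`. For `j > 0` (`j < p`): `Xi (d0c j)`:
`Xi (e L_j) = (-e) 0 + ξ bar L_j = 0`, `Xi (L_j e) = bars L_j ξ + 0 = 0`,
`Xi (L_a L_b) = bars L_a Xi L_b + Xi L_a bar L_b = 0` as `a + b = j > 0`. -/
theorem Xi_d0_Lc (j : ℕ) (hj : j < p) :
    post S.d0 (post S.Xi (S.Lc j)) + post S.Xi (S.d0c j) =
      kc S.xi * (if j = 0 then S.Lc 0 else 0) - (if j = 0 then S.Lc 0 else 0) * kc S.xi := by
  have he1 : post S.bars.toLinearMap (kc (k := k) (E := E) S.e) = -kc S.e := by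
    rw [post_kc, ← kc_neg, ← S.bars_e]
    rfl
  have he2 : post S.bar.toLinearMap (kc (k := k) (E := E) S.e) = kc S.e := by
    rw [post_kc]
    exact congrArg kc S.bar_e
  have he3 : post S.Xi (kc (k := k) (E := E) S.e) = kc S.xi := by
    rw [post_kc, S.Xi_e]
  have hsum : ∀ a ∈ Finset.range (j + 1), post S.Xi (S.Lc a * S.Lc (j - a)) =
      if j = 0 then -S.Lc 0 * S.xc + S.xc * S.Lc 0 else 0 := by
    intro a ha
    rw [Finset.mem_range] at ha
    rw [A5a_Ximul, S.bars_Lc, S.Xi_Lc, S.Xi_Lc, S.bar_Lc]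
    by_cases h : j = 0
    · have h1 : a = 0 := by omega
      have h2 : j - a = 0 := by omega
      rw [if_pos h1, if_pos h2, if_pos h1, if_pos h2, if_pos h]
    · rw [if_neg h]
      by_cases h1 : a = 0
      · have h2 : ¬ (j - a = 0) := by omega
        rw [if_neg h2, if_neg h2, mul_zero, mul_zero, add_zero]
      · rw [if_neg h1, if_neg h1, zero_mul, zero_mul, add_zero]
  unfold d0c
  rw [map_sub, map_add, map_sum, Finset.sum_congr rfl hsum, A5a_Ximul, A5a_Ximul, he1, he2, he3,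
    S.bars_Lc, S.Xi_Lc, S.bar_Lc]
  by_cases h : j = 0
  · subst h
    simp only [if_true]
    rw [S.d0_xc, zero_add, Finset.sum_range_one]
    exact A5a_alg2 _ _ _ _
  · simp only [if_neg h, map_zero, mul_zero, zero_mul, Finset.sum_const_zero, add_zero, sub_zero]

/-- Induction. Product: `d0 (Xi (f g)) + Xi (d0 (f g)) = bar f (d0 Xi g + Xi d0 g)`
`+ (d0 Xi f + Xi d0 f) bar g` (as `ss_d0`), and
`bar f (ξ bar g - bar g ξ) + (ξ bar f - bar f ξ) bar g = ξ bar(f g) - bar(f g) ξ`. -/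
theorem Xi_d0 (f : TA k D) :
    S.d0 (S.Xi f) + S.Xi (S.d0 f) = S.xi * S.bar f - S.bar f * S.xi := by
  induction f using TensorAlgebra.induction with
  | algebraMap r =>
    have h1 : algebraMap k (TA k D) r = r • (1 : TA k D) := Algebra.algebraMap_eq_smul_one r
    rw [h1, map_smul S.Xi, map_smul S.d0, map_smul S.d0, S.Xi_one, S.d0_one, smul_zero, map_zero,
      smul_zero, map_zero, map_smul S.bar, map_one S.bar, mul_smul_comm, smul_mul_assoc, mul_one,
      one_mul, sub_self, add_zero]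
  | ι a =>
    have h := S.io_ext (S.d0 ∘ₗ S.Xi + S.Xi ∘ₗ S.d0)
      (LinearMap.mulLeft k S.xi ∘ₗ S.bar.toLinearMap -
        LinearMap.mulRight k S.xi ∘ₗ S.bar.toLinearMap) (fun j hj => by
        have h1 : post (S.d0 ∘ₗ S.Xi + S.Xi ∘ₗ S.d0) (S.Lc j) =
            post S.d0 (post S.Xi (S.Lc j)) + post S.Xi (S.d0c j) := by
          rw [post_add, post_comp, post_comp, S.d0_Lc j hj]
        have h2 : post (LinearMap.mulLeft k S.xi ∘ₗ S.bar.toLinearMap -
            LinearMap.mulRight k S.xi ∘ₗ S.bar.toLinearMap) (S.Lc j) =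
            kc S.xi * post S.bar.toLinearMap (S.Lc j) -
              post S.bar.toLinearMap (S.Lc j) * kc S.xi := by
          rw [kc_mul_eq, mul_kc_eq]
          rfl
        rw [h1, h2, S.Xi_d0_Lc j hj, S.bar_Lc]) a
    exact h
  | mul f g hf hg =>
    have hb : S.d0 (S.bars f) = -S.bars (S.d0 f) := by
      rw [S.bars_apply, ← S.bar_d0, S.bars_apply, S.sg_d0, map_neg, neg_neg]
    have hs : sg k D (S.Xi f) = -S.Xi (sg k D f) := S.sg_Xi f
    have hbg : S.bar (S.d0 g) = S.d0 (S.bar g) := S.bar_d0 g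
    have hf' : S.d0 (S.Xi f) = S.xi * S.bar f - S.bar f * S.xi - S.Xi (S.d0 f) :=
      eq_sub_of_add_eq hf
    have hg' : S.d0 (S.Xi g) = S.xi * S.bar g - S.bar g * S.xi - S.Xi (S.d0 g) :=
      eq_sub_of_add_eq hg
    rw [S.Xi_mul, map_add, S.d0_mul (S.bars f), S.d0_mul (S.Xi f), S.sg_bars, hb, hs, S.d0_mul f g,
      map_add, S.Xi_mul (sg k D f), S.Xi_mul (S.d0 f), S.bars_sg, hbg, map_mul, hf', hg']
    noncomm_ring
  | add f g hf hg =>
    rw [map_add, map_add, map_add, map_add, map_add]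
    have : S.d0 (S.Xi f) + S.d0 (S.Xi g) + (S.Xi (S.d0 f) + S.Xi (S.d0 g)) =
        (S.d0 (S.Xi f) + S.Xi (S.d0 f)) + (S.d0 (S.Xi g) + S.Xi (S.d0 g)) := by abel
    rw [this, hf, hg]
    noncomm_ring

private theorem A5b_post_sub (O O' : TA k D →ₗ[k] TA k D) (φ : Rc k E D) :
    post (O - O') φ = post O φ - post O' φ := by
  apply Rc_ext
  intro g
  simp [post_apply]

private theorem A5b_Om_Lc (j : ℕ) : post S.Om (S.Lc j) = 0 := by
  apply Rc_ext
  intro g
  rw [post_apply, Lc_apply, S.L_eq, S.Om_io]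
  rfl

private theorem A5b_Om_e : S.Om S.e = 0 := S.Om_io _

private theorem A5b_post_Om_mul (φ ψ : Rc k E D) :
    post S.Om (φ * ψ) = post S.bars.toLinearMap φ * post S.Om ψ + post S.Xi φ * post S.tt ψ +
      post S.Om φ * post S.bars.toLinearMap ψ :=
  post_mul2 S.Om S.bars.toLinearMap S.bars.toLinearMap S.Xi S.tt S.Om_mul φ ψ

private theorem A5b_bars_d0 (f : TA k D) : S.d0 (S.bars f) + S.bars (S.d0 f) = 0 := by
  rw [S.bars_apply, S.bars_apply, S.sg_d0, map_neg, S.bar_d0, add_neg_cancel]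

/-- Letters: `Om (e L_j) = Xi e tt L_j = ξ [j=p-1]`, `Om (L_j e) = Xi L_j tt e = 0`,
`Om (L_a L_b) = Xi L_a tt L_b = xc [a=0] [b=p-1]`; so `Om (d0c j) = [j=p-1] (ξ - xc)`. -/
theorem Om_d0_Lc (j : ℕ) (hj : j < p) :
    post S.Om (S.d0c j) = (if j = p - 1 then kc S.xi - S.xc else 0) := by
  have h1 : post S.Om (kc S.e * S.Lc j) = (if j = p - 1 then kc S.xi else 0) := by
    rw [A5b_post_Om_mul, A5b_Om_Lc, post_kc S.Om, post_kc S.Xi, A5b_Om_e, S.Xi_e, S.tt_Lc, kc_zero]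
    split_ifs <;> simp
  have h2 : post S.Om (S.Lc j * kc S.e) = 0 := by
    rw [A5b_post_Om_mul, A5b_Om_Lc, post_kc S.Om, post_kc S.tt, A5b_Om_e, S.tt_e, kc_zero]
    simp
  have h3 : ∀ a, post S.Om (S.Lc a * S.Lc (j - a)) =
      (if a = 0 then S.xc else 0) * (if j - a = p - 1 then 1 else 0) := by
    intro a
    rw [A5b_post_Om_mul, A5b_Om_Lc, A5b_Om_Lc, S.Xi_Lc, S.tt_Lc]
    simp
  unfold d0c
  rw [map_sub, map_add, map_sum, h1, h2, add_zero, Finset.sum_congr rfl fun a _ => h3 a,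
    Finset.sum_eq_single 0]
  · rw [if_pos rfl, Nat.sub_zero]
    split_ifs <;> simp
  · intro a _ ha
    rw [if_neg ha, zero_mul]
  · intro h
    exact absurd (Finset.mem_range.2 (Nat.succ_pos j)) h

/-- Induction; `d0 (Om f) = 0` on generators. Product:
`d0 (Om (f g)) = bar f d0(Om g) + d0(bars f) Om g - Xi(σ f) d0(tt g) + d0(Xi f) tt g`
`+ Om(σ f) d0(bars g) + d0(Om f) bars g`,
`Om (d0 (f g)) = bar f Om(d0 g) + Xi(σ f) tt(d0 g) + Om(σ f) bars(d0 g) + bars(d0 f) Om g`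
`+ Xi(d0 f) tt g + Om(d0 f) bars g`; the sum is
`bar f (ξ tt g - Mb g) + (ξ bar f - bar f ξ) tt g + (ξ tt f - Mb f) bars g`
`= ξ tt(f g) - Mb(f g)`. -/
theorem Om_d0 (f : TA k D) :
    S.d0 (S.Om f) + S.Om (S.d0 f) = S.xi * S.tt f - S.Mb f := by
  induction f using TensorAlgebra.induction with
  | algebraMap r =>
    rw [Algebra.algebraMap_eq_smul_one, map_smul, map_smul, map_smul, map_smul, map_smul,
      map_smul, S.Om_one, S.d0_one, S.tt_one, S.Mb_one]
    simp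
  | ι a =>
    have h := S.io_ext (S.d0 ∘ₗ S.Om + S.Om ∘ₗ S.d0) (LinearMap.mulLeft k S.xi ∘ₗ S.tt - S.Mb) (by
      intro j hj
      rw [post_add, post_comp, post_comp, A5b_post_sub, post_comp, A5b_Om_Lc, map_zero, zero_add,
        S.d0_Lc j hj, S.Om_d0_Lc j hj, ← kc_mul_eq, S.tt_Lc, S.Mb_Lc]
      split_ifs <;> simp) a
    exact h
  | mul f g hf hg =>
    have hb := S.A5b_bars_d0 f
    have hb' := S.A5b_bars_d0 g
    have ht := S.tt_d0 g
    have hX := S.Xi_d0 f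
    rw [S.Om_mul, S.d0_mul, map_add, map_add, map_add, S.d0_mul, S.d0_mul, S.d0_mul,
      S.Om_mul, S.Om_mul, S.tt_mul, S.Mb_mul, S.sg_bars, S.sg_Xi, S.sg_Om, S.bars_sg]
    linear_combination (norm := noncomm_ring) S.bar f * hg + hb * S.Om g -
      S.Xi (sg k D f) * ht + hX * S.tt g + S.Om (sg k D f) * hb' + hf * S.bars g
  | add f g hf hg =>
    rw [map_add, map_add, map_add, map_add, map_add, map_add, mul_add]
    linear_combination (norm := noncomm_ring) hf + hg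

end

end LS

end Pool.Agent.Helper77.R1
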