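import Pool.Agent.Helper77.R1.IdB
import Pool.Agent.Helper77.R1.IdC

/-!
# Project R1, part A6: the identities for `N` and `K`
-/

set_option linter.unusedSectionVars false
set_option autoImplicit false

open scoped TensorProduct
open Pool.Agent.Helper90.FC

namespace Pool.Agent.Helper77.R1

universe u

namespace LS

section

variable {k : Type u} [Field k] {E D : Type u} [Ring E] [Bialgebra k E] [Ring D] [Bialgebra k D]
variable {p : ℕ} (S : LS k E D p)

/-- Letters: `NN (e L_j) = Xi e Psi L_j + Om e ss L_j = 0`, `NN (L_j e) = Xi L_j Psi e + Om L_j ss e`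
`= 0`, `NN (L_a L_b) = Xi L_a Psi L_b + Om L_a ss L_b = 0`. -/
theorem NN_d0_Lc (j : ℕ) : post S.NN (S.d0c j) = 0 := by
  have hz : ∀ (O : TA k D →ₗ[k] TA k D), (∀ a : D, O (io k a) = 0) →
      (∀ i, post O (S.Lc i) = 0) ∧ post O (kc (k := k) (E := E) S.e) = 0 := by
    intro O hO
    refine ⟨fun i => ?_, ?_⟩
    · apply Rc_ext
      intro g
      exact hO _
    · rw [post_kc]
      have h1 : O S.e = 0 := hO _
      rw [h1, kc_zero]
  obtain ⟨hN, hNe⟩ := hz S.NN S.NN_io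
  obtain ⟨hP, hPe⟩ := hz S.Psi S.Psi_io
  obtain ⟨hO, hOe⟩ := hz S.Om S.Om_io
  have hm : ∀ φ ψ : Rc k E D, post S.NN (φ * ψ) = post S.bars.toLinearMap φ * post S.NN ψ +
      post S.Xi φ * post S.Psi ψ + post S.Om φ * post S.ss ψ +
      post S.NN φ * post S.bar.toLinearMap ψ := fun φ ψ =>
    post_mul3 S.NN S.bars.toLinearMap S.bar.toLinearMap S.Xi S.Psi S.Om S.ss S.NN_mul φ ψ
  unfold d0c
  rw [map_sub, map_add, map_sum, hm, hm]
  have h1 : ∀ a ∈ Finset.range (j + 1), post S.NN (S.Lc a * S.Lc (j - a)) = 0 := by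
    intro a _
    rw [hm, hN, hN, hP, hO, mul_zero, mul_zero, zero_mul, zero_mul]
    simp only [add_zero]
  rw [Finset.sum_eq_zero h1, hN, hNe, hP, hPe, hO, hOe]
  simp only [mul_zero, zero_mul, add_zero, sub_zero]

/-- Induction; on generators both sides are `0`. Product: the sum `d0 (NN (f g)) + NN (d0 (f g))` is
`bar f (ξ Psi g - Lb g) + (ξ bar f - bar f ξ) Psi g + (ξ tt f - Mb f) ss g + (ξ Psi f - Lb f) bar g`
`= ξ Psi(f g) - Lb(f g)` (the terms with `Om` and `d0 (ss g)`: `sg_Om`, `ss_d0`: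
`σ(Om f) d0(ss g) + Om(σ f) ss(d0 g) = 0`; with `Xi`: `σ(Xi f) d0(Psi g) + Xi(σ f) Psi(d0 g) = 0`). -/
theorem NN_d0 (f : TA k D) :
    S.d0 (S.NN f) + S.NN (S.d0 f) = S.xi * S.Psi f - S.Lb f := by
  induction f using TensorAlgebra.induction with
  | algebraMap r =>
    rw [Algebra.algebraMap_eq_smul_one]
    simp only [map_smul, S.NN_one, S.d0_one, S.Psi_one, S.Lb_one, smul_zero, map_zero, mul_zero,
      add_zero, sub_zero]
  | ι v =>
    have h1 : S.NN (S.d0 (io k v)) = 0 := by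
      have h2 := S.io_ext (S.NN ∘ₗ S.d0) 0 (by
        intro j hj
        rw [post_comp, S.d0_Lc j hj, S.NN_d0_Lc]
        rfl) v
      exact h2
    have h3 : S.NN (io k v) = 0 := S.NN_io v
    have h4 : S.Psi (io k v) = 0 := S.Psi_io v
    have h5 : S.Lb (io k v) = 0 := S.Lb_io v
    show S.d0 (S.NN (io k v)) + S.NN (S.d0 (io k v)) = S.xi * S.Psi (io k v) - S.Lb (io k v)
    rw [h1, h3, h4, h5]
    simp only [map_zero, mul_zero, add_zero, sub_zero]
  | mul f g hf hg =>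
    have e1 : S.NN (S.d0 g) = S.xi * S.Psi g - S.Lb g - S.d0 (S.NN g) := eq_sub_of_add_eq' hg
    have e2 : S.NN (S.d0 f) = S.xi * S.Psi f - S.Lb f - S.d0 (S.NN f) := eq_sub_of_add_eq' hf
    have e3 : S.Psi (S.d0 g) = S.d0 (S.Psi g) := (S.Psi_d0 g).symm
    have e4 : S.ss (S.d0 g) = -S.d0 (S.ss g) := eq_neg_of_add_eq_zero_right (S.ss_d0 g)
    have e5 : S.bar (S.d0 g) = S.d0 (S.bar g) := S.bar_d0 g
    have e6 : S.Xi (S.d0 f) = S.xi * S.bar f - S.bar f * S.xi - S.d0 (S.Xi f) :=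
      eq_sub_of_add_eq' (S.Xi_d0 f)
    have e7 : S.Om (S.d0 f) = S.xi * S.tt f - S.Mb f - S.d0 (S.Om f) :=
      eq_sub_of_add_eq' (S.Om_d0 f)
    have e8 : S.bars (S.d0 f) = -S.d0 (S.bars f) := by
      rw [S.bars_apply, S.sg_d0, map_neg, S.bar_d0, S.bars_apply]
    rw [S.d0_mul f g, S.NN_mul f g, map_add S.NN, S.NN_mul (sg k D f) (S.d0 g),
      S.NN_mul (S.d0 f) g, map_add S.d0, map_add S.d0, map_add S.d0, S.d0_mul, S.d0_mul, S.d0_mul,
      S.d0_mul, S.sg_bars, S.sg_Xi, S.sg_Om, S.sg_NN, S.bars_sg, e1, e2, e3, e4, e5, e6, e7, e8,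
      S.Psi_mul, S.Lb_mul]
    noncomm_ring
  | add f g hf hg =>
    have e1 : S.NN (S.d0 g) = S.xi * S.Psi g - S.Lb g - S.d0 (S.NN g) := eq_sub_of_add_eq' hg
    have e2 : S.NN (S.d0 f) = S.xi * S.Psi f - S.Lb f - S.d0 (S.NN f) := eq_sub_of_add_eq' hf
    simp only [map_add, mul_add, e1, e2]
    abel

private theorem KK_d0_neg_mul (x y : Rc k E D) : (-x) * y = -(x * y) := by
  have h : (-x) * y + x * y = 0 := by
    rw [← add_mul, neg_add_cancel, zero_mul]
  exact eq_neg_of_add_eq_zero_left h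

/-- Letters: `KK (e L_j) = QQ(σ e) ss L_j = -λ [j=1]`, `KK (L_j e) = Qs L_j ss e = 0`,
`KK (L_a L_b) = QQ(-L_a) ss L_b = -L_(a+1) [b=1]`, so
`KK (d0c j) = -λ [j=1] + L_j [j ≥ 1] = L_j - bar L_j - λ ss L_j`. -/
theorem KK_d0_Lc (j : ℕ) (hj : j < p) :
    post S.KK (S.d0c j) = S.Lc j - (if j = 0 then S.Lc 0 else 0) -
      kc S.lam * (if j = 1 then 1 else 0) := by
  have hK : ∀ i, post S.KK (S.Lc i) = 0 := by
    intro i
    apply Rc_ext
    intro g
    rw [post_apply, Lc_apply, L_eq, KK_io]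
    rfl
  have hKe : post S.KK (kc (k := k) (E := E) S.e) = 0 := by
    have h : S.KK S.e = 0 := S.KK_io _
    rw [post_kc, h, kc_zero]
  have hQ : ∀ i, post S.Qs (S.Lc i) = -S.Lc (i + 1) := by
    intro i
    have h : post S.Qs (S.Lc i) = post S.QQ (post (sg k D).toLinearMap (S.Lc i)) := rfl
    rw [h, sg_Lc, map_neg, QQ_Lc]
  have hQe : post S.Qs (kc (k := k) (E := E) S.e) = -kc S.lam := by
    rw [post_kc, Qs_apply, sg_e, map_neg, QQ_e, kc_neg]
  have hse : post S.ss (kc (k := k) (E := E) S.e) = 0 := by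
    rw [post_kc, ss_e, kc_zero]
  have hmul : ∀ φ ψ : Rc k E D, post S.KK (φ * ψ) = post (sg k D).toLinearMap φ * post S.KK ψ +
      post S.Qs φ * post S.ss ψ + post S.KK φ * post S.bar.toLinearMap ψ := fun φ ψ =>
    post_mul2 S.KK (sg k D).toLinearMap S.bar.toLinearMap S.Qs S.ss S.KK_mul φ ψ
  have hsum : ∑ a ∈ Finset.range (j + 1), post S.KK (S.Lc a * S.Lc (j - a)) =
      -(if j = 0 then 0 else S.Lc j) := by
    have h1 : ∀ a, post S.KK (S.Lc a * S.Lc (j - a)) =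
        -(S.Lc (a + 1) * (if j - a = 1 then 1 else 0)) := by
      intro a
      rw [hmul, hK, hK, hQ, ss_Lc, mul_zero, zero_mul, zero_add, add_zero]
      exact KK_d0_neg_mul _ _
    rw [Finset.sum_congr rfl fun a _ => h1 a]
    rcases Nat.eq_zero_or_pos j with h0 | h0
    · subst h0
      simp
    · rw [if_neg (by omega), Finset.sum_eq_single (j - 1)]
      · rw [if_pos (by omega), mul_one, Nat.sub_add_cancel h0]
      · intro b hb hne
        rw [Finset.mem_range] at hb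
        rw [if_neg (by omega), mul_zero, neg_zero]
      · intro hb
        exact absurd (Finset.mem_range.2 (by omega)) hb
  have hn : -kc S.lam * (if j = 1 then (1 : Rc k E D) else 0) =
      -(kc S.lam * (if j = 1 then (1 : Rc k E D) else 0)) := KK_d0_neg_mul _ _
  unfold d0c
  rw [map_sub, map_add, map_sum, hsum, hmul, hmul, hK, hKe, hQe, hse, ss_Lc, hn]
  by_cases h0 : j = 0
  · subst h0
    simp
  · rw [if_neg h0, if_neg h0, mul_zero, zero_mul, mul_zero, mul_zero, zero_mul]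
    abel

/-- Induction. Product: by `QQ_d0` for `σ f` (note `d0 (QQ (σ f)) - QQ (d0 (σ f))`
`= f λ - λ bars f + Mss f` and `d0 (σ f) = -σ (d0 f)`),
`d0 (KK (f g)) = f d0(KK g) + d0(σ f) KK g + σ(QQ σ f) d0(ss g) + d0(QQ σ f) ss g`
`- KK(σ f) d0(bar g) + d0(KK f) bar g` and
`KK (d0 (f g)) = f KK(d0 g) + Qs(σ f) ss(d0 g) + KK(σ f) bar(d0 g) + σ(d0 f) KK g + Qs(d0 f) ss g`
`+ KK(d0 f) bar g`. The sum is
`f (g - bar g - λ ss g + KM g) + (f λ - λ bars f + Mss f) ss g + (f - bar f - λ ss f + KM f) bar g`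
`= f g - bar f bar g - λ ss(f g) + KM(f g)`. -/
theorem KK_d0 (f : TA k D) :
    S.d0 (S.KK f) + S.KK (S.d0 f) = f - S.bar f - S.lam * S.ss f + S.KM f := by
  have hgen : ∀ a : D, S.KK (S.d0 (io k a)) = io k a - S.bar (io k a) - S.lam * S.ss (io k a) := by
    intro a
    have h := S.io_ext (S.KK ∘ₗ S.d0)
      (LinearMap.id - S.bar.toLinearMap - LinearMap.mulLeft k S.lam ∘ₗ S.ss) (by
        intro j hj
        have hp : ∀ (O O' : TA k D →ₗ[k] TA k D) (φ : Rc k E D),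
            post (O - O') φ = post O φ - post O' φ := by
          intro O O' φ
          apply WithConv.ofConv_injective
          ext a
          simp [post]
        rw [post_comp, S.d0_Lc j hj, S.KK_d0_Lc j hj, hp, hp, post_comp, bar_Lc, ss_Lc,
          ← kc_mul_eq]
        rfl) a
    exact h
  induction f using TensorAlgebra.induction with
  | algebraMap r =>
    rw [Algebra.algebraMap_eq_smul_one]
    simp only [map_smul, S.KK_one, S.d0_one, map_one, S.ss_one, S.KM_one, smul_zero, map_zero,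
      mul_zero, add_zero, sub_self]
  | ι a =>
    have h1 : S.KK (TensorAlgebra.ι k a) = 0 := S.KK_io a
    have h2 : S.KM (TensorAlgebra.ι k a) = 0 := S.KM_io a
    rw [h1, h2, map_zero, zero_add, add_zero]
    exact hgen a
  | mul f g hf hg =>
    have e1 : S.d0 (S.KK (f * g)) = f * S.d0 (S.KK g) - sg k D (S.d0 f) * S.KK g +
        (S.QQ f * S.d0 (S.ss g) + S.d0 (S.Qs f) * S.ss g) +
        (-(S.KK (sg k D f) * S.d0 (S.bar g)) + S.d0 (S.KK f) * S.bar g) := by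
      rw [KK_mul, map_add, map_add, d0_mul, d0_mul, d0_mul, sg_sg, sg_d0, sg_KK, Qs_apply, sg_QQ,
        sg_sg]
      noncomm_ring
    have e2 : S.KK (S.d0 (f * g)) = f * S.KK (S.d0 g) + S.QQ f * S.ss (S.d0 g) +
        S.KK (sg k D f) * S.d0 (S.bar g) + (sg k D (S.d0 f) * S.KK g +
        S.Qs (S.d0 f) * S.ss g + S.KK (S.d0 f) * S.bar g) := by
      rw [d0_mul, map_add, KK_mul, KK_mul, sg_sg, Qs_apply, sg_sg, bar_d0]
    have e3 : S.d0 (S.ss g) = -S.ss (S.d0 g) := eq_neg_of_add_eq_zero_left (S.ss_d0 g)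
    have e4 : S.d0 (S.Qs f) + S.Qs (S.d0 f) = f * S.lam - S.lam * S.bars f + S.Mss f := by
      rw [Qs_apply, Qs_apply, sg_d0, map_neg, ← sub_eq_add_neg, QQ_d0, sg_sg]
      rfl
    have e5 : S.d0 (S.Qs f) = f * S.lam - S.lam * S.bars f + S.Mss f - S.Qs (S.d0 f) :=
      eq_sub_of_add_eq e4
    have e6 : S.d0 (S.KK f) = f - S.bar f - S.lam * S.ss f + S.KM f - S.KK (S.d0 f) :=
      eq_sub_of_add_eq hf
    have e7 : S.d0 (S.KK g) = g - S.bar g - S.lam * S.ss g + S.KM g - S.KK (S.d0 g) :=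
      eq_sub_of_add_eq hg
    rw [e1, e2, e3, e5, e6, e7, map_mul, ss_mul, KM_mul]
    noncomm_ring
  | add f g hf hg =>
    simp only [map_add, mul_add]
    have : S.d0 (S.KK f) + S.d0 (S.KK g) + (S.KK (S.d0 f) + S.KK (S.d0 g)) =
        (S.d0 (S.KK f) + S.KK (S.d0 f)) + (S.d0 (S.KK g) + S.KK (S.d0 g)) := by abel
    rw [this, hf, hg]
    abel

end

end LS

end Pool.Agent.Helper77.R1
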