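import Pool.Agent.Helper77.R1.Claim

/-!
# Project R1, part B5: the iteration
-/

set_option linter.unusedSectionVars false
set_option autoImplicit false

open scoped TensorProduct
open Pool.Agent.Helper90.FC

namespace Pool.Agent.Helper77.R1

universe u

namespace LS

section

variable {k : Type u} [Field k] {E D : Type u} [Ring E] [Bialgebra k E] [Ring D] [Bialgebra k D]
variable {N : ℕ} (S : LS k E D N)

/-- The matrix of a letter: `ε (pr_(N-1) a)` and `ε (pr_1 a)` off the diagonal. -/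
noncomputable def evs : D →ₗ[k] Matrix (Fin 2) (Fin 2) k where
  toFun a := !![0, Coalgebra.counit (R := k) (S.pr (N - 1) a);
    Coalgebra.counit (R := k) (S.pr 1 a), 0]
  map_add' a b := by
    ext i j
    fin_cases i <;> fin_cases j <;> simp
  map_smul' c a := by
    ext i j
    fin_cases i <;> fin_cases j <;> simp

/-- The evaluation of words at `N - 1, 1, N - 1, 1, …`. -/
noncomputable def EVs : TA k D →ₐ[k] Matrix (Fin 2) (Fin 2) k := TensorAlgebra.lift k S.evs

theorem EVs_io (a : D) : S.EVs (io k a) = !![0, Coalgebra.counit (R := k) (S.pr (N - 1) a);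
    Coalgebra.counit (R := k) (S.pr 1 a), 0] := by
  rw [EVs, io, TensorAlgebra.lift_ι_apply]
  rfl

private theorem R1B5a_io_mul (a : D) (g : TA k D) :
    S.EVs (io k a * g) 0 0 = Coalgebra.counit (R := k) (S.pr (N - 1) a) * S.EVs g 1 0 ∧
    S.EVs (io k a * g) 0 1 = Coalgebra.counit (R := k) (S.pr (N - 1) a) * S.EVs g 1 1 ∧
    S.EVs (io k a * g) 1 0 = Coalgebra.counit (R := k) (S.pr 1 a) * S.EVs g 0 0 ∧
    S.EVs (io k a * g) 1 1 = Coalgebra.counit (R := k) (S.pr 1 a) * S.EVs g 0 1 := by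
  rw [map_mul, EVs_io]
  refine ⟨?_, ?_, ?_, ?_⟩ <;> rw [Matrix.mul_apply, Fin.sum_univ_two] <;> simp

private theorem R1B5a_par (m : ℕ) : ∀ f ∈ Tn k D m,
    (Even m → S.EVs f 0 1 = 0 ∧ S.EVs f 1 0 = 0) ∧
      (¬ Even m → S.EVs f 0 0 = 0 ∧ S.EVs f 1 1 = 0) := by
  induction m with
  | zero =>
    intro f hf
    have h1 : f ∈ (1 : Submodule k (TA k D)) := by
      have h2 : f ∈ LinearMap.range (TensorAlgebra.ι k (M := D)) ^ 0 := hf
      rwa [pow_zero] at h2
    obtain ⟨c, rfl⟩ := Submodule.mem_one.1 h1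
    refine ⟨fun _ => ?_, fun h => absurd Even.zero h⟩
    rw [AlgHom.commutes]
    constructor <;> rw [Matrix.algebraMap_matrix_apply] <;> simp
  | succ m ih =>
    intro f hf
    have h1 : f ∈ LinearMap.range (TensorAlgebra.ι k (M := D)) *
        LinearMap.range (TensorAlgebra.ι k (M := D)) ^ m := by
      have h2 : f ∈ LinearMap.range (TensorAlgebra.ι k (M := D)) ^ (m + 1) := hf
      rwa [pow_succ'] at h2
    refine Submodule.mul_induction_on h1 ?_ ?_
    · rintro _ ⟨a, rfl⟩ g hg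
      obtain ⟨i1, i2⟩ := ih g hg
      obtain ⟨e1, e2, e3, e4⟩ := S.R1B5a_io_mul a g
      constructor
      · intro he
        have h3 : ¬ Even m := fun h4 => (Nat.even_add_one.1 he) h4
        rw [e2, e3, (i2 h3).1, (i2 h3).2, mul_zero, mul_zero]
        exact ⟨rfl, rfl⟩
      · intro he
        have h3 : Even m := by
          by_contra h4
          exact he (Nat.even_add_one.2 h4)
        rw [e1, e4, (i1 h3).1, (i1 h3).2, mul_zero, mul_zero]
        exact ⟨rfl, rfl⟩
    · intro x y hx hy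
      rw [map_add]
      simp only [Matrix.add_apply]
      constructor
      · intro he
        rw [(hx.1 he).1, (hx.1 he).2, (hy.1 he).1, (hy.1 he).2, add_zero]
        exact ⟨rfl, rfl⟩
      · intro he
        rw [(hx.2 he).1, (hx.2 he).2, (hy.2 he).1, (hy.2 he).2, add_zero]
        exact ⟨rfl, rfl⟩

/-- Words of even length are sent to diagonal matrices, words of odd length to antidiagonal
matrices. -/
theorem EVs_diag {n : ℕ} {f : TA k D} (hf : f ∈ Tn k D (2 * n)) : S.EVs f 0 1 = 0 :=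
  ((S.R1B5a_par (2 * n) f hf).1 (even_two_mul n)).1

theorem EVs_mul {n : ℕ} {f g : TA k D} (hf : f ∈ Tn k D (2 * n)) :
    S.EVs (f * g) 0 0 = S.EVs f 0 0 * S.EVs g 0 0 := by
  rw [map_mul, Matrix.mul_apply, Fin.sum_univ_two, S.EVs_diag hf, zero_mul, add_zero]

theorem EVs_pow {n : ℕ} {f : TA k D} (hf : f ∈ Tn k D (2 * n)) (m : ℕ) :
    S.EVs (f ^ m) 0 0 = S.EVs f 0 0 ^ m := by
  induction m with
  | zero =>
    rw [pow_zero, pow_zero, map_one, Matrix.one_apply_eq]
  | succ m ih =>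
    rw [pow_succ', pow_succ', S.EVs_mul hf, ih]

/-- A word of length `2 n` of weight different from `n N` is killed: for a pair of letters the
entry `(0, 0)` is `ε (pr_(N-1) a) ε (pr_1 b)`. (Induction on `n`.) -/
theorem EVs_wd (n : ℕ) (w : List (ℕ × E)) (hw : w.length = 2 * n) (h : wt w ≠ n * N) :
    S.EVs (S.wd w) 0 0 = 0 := by
  induction n generalizing w with
  | zero =>
    have h1 : w = [] := List.length_eq_zero_iff.1 (by omega)
    rw [h1, wt_nil, zero_mul] at h
    exact absurd rfl h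
  | succ n ih =>
    match w, hw, h with
    | [], hw, _ => simp at hw
    | [_], hw, _ =>
      simp only [List.length_singleton] at hw
      omega
    | x :: y :: w, hw, h =>
      have h1 : w.length = 2 * n := by
        simp only [List.length_cons] at hw
        omega
      rw [wt_cons, wt_cons] at h
      rw [wd_cons, wd_cons, L_eq, L_eq, (S.R1B5a_io_mul _ _).1, (S.R1B5a_io_mul _ _).2.2.1]
      by_cases hx : x.1 = N - 1
      · by_cases hy : y.1 = 1
        · have h2 : wt w ≠ n * N := by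
            intro h3
            apply h
            rw [hx, hy, h3, add_mul, one_mul]
            have := S.two_le
            omega
          rw [ih w h1 h2, mul_zero, mul_zero]
        · rw [S.pr_l_ne 1 y.1 (Ne.symm hy), map_zero, zero_mul, mul_zero]
      · rw [S.pr_l_ne (N - 1) x.1 (Ne.symm hx), map_zero, zero_mul]

theorem EVs_low {n j : ℕ} (hj : j < n * N) {f : TA k D} (hf : f ∈ S.Wt (2 * n) j) :
    S.EVs f 0 0 = 0 := by
  let O : TA k D →ₗ[k] k :=
    { toFun := fun f => S.EVs f 0 0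
      map_add' := fun x y => by rw [map_add, Matrix.add_apply]
      map_smul' := fun c x => by rw [map_smul, Matrix.smul_apply, RingHom.id_apply] }
  have h1 := S.Wt_eq O 0 (fun w hw hj' => S.EVs_wd n w hw (by omega)) hf
  exact h1

/-- Only the summand `a = N - 1` of `xi` contributes (`ε 1 = 1`). -/
theorem EVs_xi : S.EVs S.xi 0 0 = 1 := by
  have h2 := S.two_le
  have hs : S.EVs S.xi 0 0 = ∑ a ∈ Finset.Ico 1 N, S.EVs (S.L a 1 * S.L (N - a) 1) 0 0 := by
    rw [xi, map_sum, Matrix.sum_apply]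
  rw [hs, Finset.sum_eq_single (N - 1)]
  · have h3 : N - (N - 1) = 1 := by omega
    rw [h3, L_eq, (S.R1B5a_io_mul _ _).1, S.pr_l (N - 1) (by omega), L_eq, EVs_io]
    simp [S.pr_l 1 (by omega)]
  · intro a ha hne
    rw [L_eq, (S.R1B5a_io_mul _ _).1, S.pr_l_ne (N - 1) a (Ne.symm hne), map_zero, zero_mul]
  · intro h
    exact absurd (Finset.mem_Ico.2 ⟨by omega, by omega⟩) h

end

end LS

namespace LSD

section

variable {k : Type u} [Field k] {E D : Type u} [Ring E] [Bialgebra k E] [Ring D] [Bialgebra k D]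
variable {N : ℕ} (T : LSD k E D N)

/-- The data at stage `m` (degree `2 m`). -/
structure Stage (m : ℕ) where
  x : TA k D
  κ : TA k E
  w : TA k E
  x_mem : x ∈ T.toLS.Wt (2 * m) (m * N)
  κ_mem : κ ∈ Tn k E (2 * m)
  w_mem : w ∈ Tn k E (2 * m + 1)
  dd_x : dd k D x = T.toLS.lam * T.toLS.JJ κ + T.toLS.JJ w
  ev : T.toLS.EVs x 0 0 = 1
  two : N = 2 → κ = 0

/-- From `start`, `start2`, `EVs_xi`, `EVs_low`. -/
theorem exists_stage_one : Nonempty (T.Stage 1) := by
  have h2 : 2 ≤ N := T.toLS.two_le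
  have hev : ∀ u ∈ T.toLS.Wt 2 (N - 1), T.toLS.EVs (T.toLS.xi - u) 0 0 = 1 := by
    intro u hu
    rw [map_sub, Matrix.sub_apply, T.toLS.EVs_xi,
      T.toLS.EVs_low (n := 1) (j := N - 1) (by omega) hu, sub_zero]
  by_cases hN : N = 2
  · obtain ⟨x, hx, u, hu, hxu, w, hw, hd⟩ := T.start2 hN
    refine ⟨⟨x, 0, w, ?_, zero_mem _, hw, ?_, ?_, fun _ => rfl⟩⟩
    · rw [one_mul]
      exact hx
    · rw [hd, map_zero, mul_zero, zero_add]
    · rw [hxu]
      exact hev u hu
  · obtain ⟨x, hx, u, hu, hxu, κ, hκ, w, hw, hd⟩ := T.start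
    refine ⟨⟨x, κ, w, ?_, hκ, hw, hd, ?_, fun h => absurd h hN⟩⟩
    · rw [one_mul]
      exact hx
    · rw [hxu]
      exact hev u hu

private theorem exists_stage_one_pow {m : ℕ} {x : TA k D} (hx : x ∈ T.toLS.Wt (2 * m) (m * N))
    (j : ℕ) : x ^ j ∈ T.toLS.Wt (2 * (m * j)) (m * j * N) := by
  induction j with
  | zero =>
    rw [pow_zero, mul_zero, mul_zero]
    exact T.toLS.one_mem_Wt _
  | succ j ih =>
    have h := T.toLS.Wt_mul ih hx
    rw [← pow_succ] at h
    convert h using 2 <;> ring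

/-- `S^j 1` for `S = RR y + x *`: it is in `Wt (2 m j) (j m N)`, and `S^j 1 - x^j` has weight at most
`(j-1) m N + 1` (for `j ≥ 1`; zero for `j = 0`); `y ∈ Wt (2m+1) 1`, `m ≥ 1`. -/
theorem SS_mem {m : ℕ} (hm : 1 ≤ m) {x y : TA k D} (hx : x ∈ T.toLS.Wt (2 * m) (m * N))
    (hy : y ∈ T.toLS.Wt (2 * m + 1) 1) (j : ℕ) :
    ((SS k D x y) ^ (j + 1)) 1 - x ^ (j + 1) ∈
      T.toLS.Wt (2 * (m * (j + 1))) (j * (m * N) + 1) := by
  have h2 : 2 ≤ N := T.toLS.two_le
  have hmN : 1 ≤ m * N := Nat.mul_pos hm (by omega)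
  induction j with
  | zero =>
    have h1 : ((SS k D x y) ^ (0 + 1)) 1 - x ^ (0 + 1) = 0 := by
      rw [zero_add, pow_one, pow_one, SS, LinearMap.add_apply, RR_one,
        LinearMap.mulLeft_apply, mul_one, zero_add, sub_self]
    rw [h1]
    exact zero_mem _
  | succ j ih =>
    obtain ⟨r, hr⟩ : ∃ r, r = ((SS k D x y) ^ (j + 1)) 1 - x ^ (j + 1) := ⟨_, rfl⟩
    rw [← hr] at ih
    have e1 : ((SS k D x y) ^ (j + 1)) 1 = x ^ (j + 1) + r := by
      rw [hr]
      abel
    have e2 : ((SS k D x y) ^ (j + 1 + 1)) 1 - x ^ (j + 1 + 1) =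
        RR k D y (x ^ (j + 1)) + RR k D y r + x * r := by
      rw [pow_succ', Module.End.mul_apply, e1, SS, LinearMap.add_apply, map_add,
        LinearMap.mulLeft_apply, mul_add, ← pow_succ']
      abel
    rw [e2]
    have hp := T.exists_stage_one_pow hx (j + 1)
    have h3 := T.RR_mem hy hp
    have h4 := T.RR_mem hy ih
    have h5 := T.toLS.Wt_mul hx ih
    have a1 : 2 * (m * (j + 1)) + 2 * m = 2 * (m * (j + 1 + 1)) := by ring
    have a2 : 2 * m + 2 * (m * (j + 1)) = 2 * (m * (j + 1 + 1)) := by ring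
    have a3 : 1 + m * (j + 1) * N = (j + 1) * (m * N) + 1 := by ring
    have a4 : 1 + (j * (m * N) + 1) ≤ (j + 1) * (m * N) + 1 := by
      rw [add_mul, one_mul]
      omega
    have a5 : m * N + (j * (m * N) + 1) = (j + 1) * (m * N) + 1 := by ring
    rw [a1, a3] at h3
    rw [a1] at h4
    rw [a2, a5] at h5
    exact add_mem (add_mem h3 (T.toLS.Wt_mono a4 h4)) h5

theorem pow_mem_Wt {m : ℕ} {x : TA k D} (hx : x ∈ T.toLS.Wt (2 * m) (m * N)) (j : ℕ) :
    x ^ j ∈ T.toLS.Wt (2 * (m * j)) (m * j * N) :=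
  T.exists_stage_one_pow hx j

/-- `RR y ^ j y ∈ Wt (2 m (j+1) + 1) (j + 1)`. -/
theorem RR_pow_mem {m : ℕ} {y : TA k D} (hy : y ∈ T.toLS.Wt (2 * m + 1) 1) (j : ℕ) :
    ((RR k D y) ^ j) y ∈ T.toLS.Wt (2 * (m * (j + 1)) + 1) (j + 1) := by
  induction j with
  | zero =>
    rw [pow_zero, Module.End.one_apply, zero_add, mul_one]
    exact hy
  | succ j ih =>
    rw [pow_succ', Module.End.mul_apply]
    have h := T.RR_mem hy ih
    convert h using 2 <;> ring

/-- THE STEP. `S = SS x y`, `y = dd x`. By `key_lemma` (`Helper90/FC/CobK.lean`)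
`dd (S^p 1) = z := RR y ^ (p-1) y`, a cocycle in `Wt (2 m p + 1) p` (`RR_pow_mem`).
Case `p < N`: `desc_low` (`n = 2 m p`). Case `N = p ≠ 2`: `claim` (with `r = 2 m - 2`) and `desc_top`
(with `n = 2 m p - 2`). So `z = v + dd u` with `v ∈ VV (2 m p)`, `u ∈ Wt (2 m p) p` and
`x' = S^p 1 - u`. Case `N = p = 2`: `κ = 0`, `y = JJ w`, `z = RR y y = JJ (RR w w)` (`RR_JJ`), `u = 0`.
In all cases `ev`: `EVs (S^p 1) = EVs (x^p) = 1` by `SS_mem`, `EVs_low`, `EVs_pow`, and `EVs u = 0`.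
(`sg x = x` by `sg_Wt`; `V_dd`, `dd_lam` give `dd κ = 0`.) -/
theorem step (p s : ℕ) [Fact p.Prime] [CharP k p] (hs : 1 ≤ s) (hN : N = p ^ s) {m : ℕ}
    (hm : 1 ≤ m) (P : T.Stage m) : Nonempty (T.Stage (m * p)) := by
  have hp : p.Prime := Fact.out
  have hp2 := hp.two_le
  have hpN : p ≤ N := by
    rw [hN]
    exact Nat.le_self_pow (by omega) p
  obtain ⟨x, κ, w, hx, hκ, hw, hdx, hev, htwo⟩ := P
  obtain ⟨y, hy⟩ : ∃ y, dd k D x = y := ⟨_, rfl⟩
  have hy' : y = T.toLS.lam * T.toLS.JJ κ + T.toLS.JJ w := by rw [← hy, hdx]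
  have hsx : sg k D x = x := by
    rw [T.toLS.sg_Wt hx, pow_mul, neg_one_sq, one_pow, one_smul]
  have hyW : y ∈ T.toLS.Wt (2 * m + 1) 1 := T.VV_le (2 * m) ⟨κ, hκ, w, hw, hy'⟩
  have hdy : dd k D y = 0 := by rw [← hy, dd_dd]
  have hz := key_lemma k D p x y hsx hy
  have e1 : p - 1 + 1 = p := by omega
  have hzW : ((RR k D y) ^ (p - 1)) y ∈ T.toLS.Wt (2 * (m * p) + 1) p := by
    have h := T.RR_pow_mem hyW (p - 1)
    rwa [e1] at h
  have hdz : dd k D (((RR k D y) ^ (p - 1)) y) = 0 := by rw [← hz, dd_dd]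
  have hmp : 1 ≤ m * p := Nat.mul_pos hm hp.pos
  obtain ⟨κ', hκ', w', hw', u, hu, he, h2⟩ : ∃ κ' ∈ Tn k E (2 * (m * p)),
      ∃ w' ∈ Tn k E (2 * (m * p) + 1), ∃ u ∈ T.toLS.Wt (2 * (m * p)) p,
      ((RR k D y) ^ (p - 1)) y = T.toLS.lam * T.toLS.JJ κ' + T.toLS.JJ w' + dd k D u ∧
        (N = 2 → κ' = 0) := by
    rcases lt_or_eq_of_le hpN with hlt | heq
    · obtain ⟨v, ⟨κ', hκ', w', hw', rfl⟩, u, hu, he⟩ := T.desc_low hlt hzW hdz
      exact ⟨κ', hκ', w', hw', u, hu, he, fun h => by omega⟩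
    · by_cases hp' : p = 2
      · have hκ0 : κ = 0 := htwo (by omega)
        have hyw : y = T.toLS.JJ w := by
          rw [hy', hκ0, map_zero, mul_zero, zero_add]
        refine ⟨0, zero_mem _, RR k E w w, ?_, 0, zero_mem _, ?_, fun _ => rfl⟩
        · have h := RR_Tn k E (2 * m) (2 * m + 1) w w hw hw
          have e : 2 * m + 1 + 2 * m = 2 * (m * p) + 1 := by
            rw [hp']
            ring
          rwa [e] at h
        · have e : p - 1 = 1 := by omega
          rw [e, pow_one, hyw, T.RR_JJ, map_zero, mul_zero, zero_add, map_zero, add_zero]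
      · obtain ⟨om, -, hom⟩ := T.dd_lam
        have hdκ : dd k E κ = 0 := (T.V_dd hom (by rw [← hy', hdy])).1
        have er : 2 * m - 2 + 2 = 2 * m := by omega
        have er' : 2 * m - 2 + 3 = 2 * m + 1 := by omega
        obtain ⟨g, hg, hP⟩ := T.claim p hp' heq.symm (r := 2 * m - 2) (by
          rw [← Nat.mul_sub_one]
          exact even_two_mul _) (κ := κ) (w := w) (by rw [er]; exact hκ) hdκ
          (by rw [er']; exact hw) (by rw [← hy', hdy])
        rw [← hy'] at hP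
        have en : (2 * m - 2 + 2) * p - 2 = 2 * (m * p) - 2 := by rw [er, mul_assoc]
        have en3 : 2 * (m * p) - 2 + 3 = 2 * (m * p) + 1 := by omega
        have en2 : 2 * (m * p) - 2 + 2 = 2 * (m * p) := by omega
        rw [en] at hg
        obtain ⟨v, hv, u, hu, he⟩ := T.desc_top (n := 2 * (m * p) - 2)
          (f := ((RR k D y) ^ (p - 1)) y)
          (by rw [en3]; exact T.toLS.Wt_mono heq.le hzW) hdz hg hP
        rw [en2] at hv hu
        replace hu := T.toLS.Wt_mono heq.ge hu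
        obtain ⟨κ', hκ', w', hw', rfl⟩ := hv
        exact ⟨κ', hκ', w', hw', u, hu, he, fun h => by omega⟩
  have hS := T.SS_mem hm hx hyW (p - 1)
  rw [e1] at hS
  have hxp := T.pow_mem_Wt hx p
  have hN2 : 2 ≤ N := le_trans hp2 hpN
  have hmN : 2 ≤ m * N := le_trans hN2 (Nat.le_mul_of_pos_left N hm)
  have e2 : m * p * N = (p - 1) * (m * N) + m * N := by
    obtain ⟨q, rfl⟩ : ∃ q, p = q + 1 := ⟨p - 1, by omega⟩
    rw [Nat.add_sub_cancel]
    ring
  have hlt1 : (p - 1) * (m * N) + 1 < m * p * N := by omega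
  have hlt2 : p < m * p * N := by
    calc p < p * 2 := by omega
      _ ≤ (m * p) * N := Nat.mul_le_mul (Nat.le_mul_of_pos_left p hm) hN2
  refine ⟨⟨((SS k D x y) ^ p) 1 - u, κ', w', ?_, hκ', hw', ?_, ?_, h2⟩⟩
  · have h1 : ((SS k D x y) ^ p) 1 - u =
        (((SS k D x y) ^ p) 1 - x ^ p) + x ^ p - u := by abel
    rw [h1]
    exact sub_mem (add_mem (T.toLS.Wt_mono hlt1.le hS) hxp) (T.toLS.Wt_mono hlt2.le hu)
  · rw [map_sub, hz, he]
    abel
  · have h1 : ((SS k D x y) ^ p) 1 - u =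
        (((SS k D x y) ^ p) 1 - x ^ p) + x ^ p - u := by abel
    rw [h1, map_sub, map_add, Matrix.sub_apply, Matrix.add_apply,
      T.toLS.EVs_low hlt1 hS, T.toLS.EVs_low hlt2 hu,
      T.toLS.EVs_pow (T.toLS.Wt_le_Tn _ _ hx), hev, one_pow, zero_add, sub_zero]

theorem exists_stage (p s : ℕ) [Fact p.Prime] [CharP k p] (hs : 1 ≤ s) (hN : N = p ^ s) (j : ℕ) :
    Nonempty (T.Stage (p ^ j)) := by
  induction j with
  | zero =>
    rw [pow_zero]
    exact T.exists_stage_one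
  | succ j ih =>
    obtain ⟨P⟩ := ih
    have h1 : 1 ≤ p ^ j := Nat.one_le_pow _ _ (Fact.out : p.Prime).pos
    obtain ⟨P'⟩ := T.step p s hs hN h1 P
    rw [pow_succ]
    exact ⟨P'⟩

end

end LSD

end Pool.Agent.Helper77.R1
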