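import Pool.Agent.Helper77.R1.DescR

/-!
# Project R1, part B3: the element `RR y ^ (N-1) y` and `Psi`

Let `y = lam * J + W`, `J = JJ κ`, `W = JJ w`, `κ` of degree `q = 2 m` with `dd κ = 0`. `NS d n` is the
span of `Wt (d+1) (n-1)` and of the products `ι a * f`, `a ∈ Fil i`, `f ∈ Wt d (n-i)`,
`1 ≤ i ≤ n - 2`. Modulo `NS`, `RR y ^ n y = ι (λ^(n+1)) J^(n+1) + ι (λ^n) A_(n+1)`.
-/

set_option linter.unusedSectionVars false
set_option autoImplicit false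

open scoped TensorProduct
open Pool.Agent.Helper90.FC

namespace Pool.Agent.Helper77.R1

universe u

namespace LSD

section

variable {k : Type u} [Field k] {E D : Type u} [Ring E] [Bialgebra k E] [Ring D] [Bialgebra k D]
variable {N : ℕ} (T : LSD k E D N)

/-- The negligible elements of degree `d + 1` for weight `n`. -/
noncomputable def NS (d n : ℕ) : Submodule k (TA k D) :=
  T.toLS.Wt (d + 1) (n - 1) ⊔ Submodule.span k {f | ∃ (i : ℕ) (a : D) (g : TA k D), 1 ≤ i ∧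
    i + 2 ≤ n ∧ a ∈ T.toLS.Fil i ∧ g ∈ T.toLS.Wt d (n - i) ∧ f = io k a * g}

theorem Wt_le_NS {d n j : ℕ} (h : j + 1 ≤ n) {f : TA k D} (hf : f ∈ T.toLS.Wt (d + 1) j) :
    f ∈ T.NS d n :=
  Submodule.mem_sup_left (T.toLS.Wt_mono (by omega) hf)

theorem io_mul_mem_NS {d n i j : ℕ} (h1 : 1 ≤ i) (h2 : i + 2 ≤ n) (h3 : i + j ≤ n) {a : D}
    (ha : a ∈ T.toLS.Fil i) {g : TA k D} (hg : g ∈ T.toLS.Wt d j) : io k a * g ∈ T.NS d n :=
  Submodule.mem_sup_right (Submodule.subset_span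
    ⟨i, a, g, h1, h2, ha, T.toLS.Wt_mono (by omega) hg, rfl⟩)

/-- `actT y a = ∑ ι (a₁ λ) * (a₂ · J) + a · W` for `y = lam * J + W` (`actT` of a product is the
convolution product). -/
theorem act_y (κ w : TA k E) {ι : Type*} {a : D} (R : Coalgebra.Repr k a ι) :
    actT k D (T.toLS.lam * T.toLS.JJ κ + T.toLS.JJ w) a =
      (∑ i ∈ R.index, io k (R.left i * T.l 1 1) * actT k D (T.toLS.JJ κ) (R.right i)) +
        actT k D (T.toLS.JJ w) a := by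
  have h1 : actT k D (T.toLS.lam * T.toLS.JJ κ + T.toLS.JJ w) a =
      (ph k D T.toLS.lam * ph k D (T.toLS.JJ κ)).ofConv a + actT k D (T.toLS.JJ w) a := by
    unfold actT
    rw [map_add, map_mul]
    rfl
  have h2 : ∀ x : D, (ph k D T.toLS.lam).ofConv x = io k (x * T.l 1 1) :=
    fun x => actT_io k D x (T.l 1 1)
  have h3 : (ph k D T.toLS.lam * ph k D (T.toLS.JJ κ)).ofConv a =
      ∑ i ∈ R.index, (ph k D T.toLS.lam).ofConv (R.left i) *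
        (ph k D (T.toLS.JJ κ)).ofConv (R.right i) := by
    simp [LinearMap.convMul_def, ← R.eq]
  rw [h1, h3]
  refine congrArg (· + _) (Finset.sum_congr rfl fun i _ => ?_)
  rw [h2]
  rfl

/-- Splitting: a tensor of weight `≤ i` contributes to `a · (lam * J)` terms `ι b * g` with
`b ∈ Fil (c + 1)`, `g ∈ Wt q (i - c)`. For `t ∈ F2 i`, the element
`mul' (map (x ↦ ι (x λ)) (x ↦ x · J)) t` is in the span of the products `ι b * g`,
`b ∈ Fil (c+1)`, `g ∈ Wt q (i-c)`, `c ≤ i`. -/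
theorem F2_act {q i : ℕ} {κ : TA k E} (hκ : κ ∈ Tn k E q) {t : D ⊗[k] D} (ht : t ∈ T.toLS.F2 i) :
    LinearMap.mul' k (TA k D) (TensorProduct.map
      (TensorAlgebra.ι k ∘ₗ LinearMap.mulRight k (T.l 1 1)) (actT k D (T.toLS.JJ κ)) t) ∈
      Submodule.span k {f | ∃ (c : ℕ) (b : D) (g : TA k D), c ≤ i ∧ b ∈ T.toLS.Fil (c + 1) ∧
        g ∈ T.toLS.Wt q (i - c) ∧ f = io k b * g} := by
  induction ht using Submodule.span_induction with
  | mem t ht =>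
    obtain ⟨a, b, f, g, hab, hf, hg, rfl⟩ := ht
    rw [TensorProduct.map_tmul, LinearMap.mul'_apply]
    have h1 : f * T.l 1 1 ∈ T.toLS.Fil (a + 1) :=
      T.mul_low a 1 f _ hf (T.toLS.l_mem_Fil le_rfl 1)
    have h2 : actT k D (T.toLS.JJ κ) g ∈ T.toLS.Wt q (i - a) :=
      T.toLS.Wt_mono (by omega) (T.act_mem hg (T.toLS.JJ_mem hκ))
    exact Submodule.subset_span ⟨a, f * T.l 1 1, actT k D (T.toLS.JJ κ) g, by omega, h1, h2, rfl⟩
  | zero =>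
    rw [map_zero, map_zero]
    exact Submodule.zero_mem _
  | add x y _ _ hx hy =>
    rw [map_add, map_add]
    exact Submodule.add_mem _ hx hy
  | smul c x _ hx =>
    rw [map_smul, map_smul]
    exact Submodule.smul_mem _ c hx

/-- `NS` is stable: `RR y` raises the degree by `q` and the weight by one. For `f ∈ Wt (d+1) (n-1)`:
`RR_mem`. For `ι a * g` with `a ∈ Fil i`, `1 ≤ i ≤ n - 2`, `g ∈ Wt d (n-i)`:
`RR y (ι a * g) = ι a * RR y g + (a · y) g`; the first term is in `Fil i * Wt (d+q) (n+1-i)`; in the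
second the terms of `a · (lam J)` are `ι b * g'`, `b ∈ Fil (c+1)`, `g' ∈ Wt q (i-c)`, `c ≤ i` (`F2_act`)
so that `g' g ∈ Wt (q+d) (n-c)`, and `1 ≤ c + 1 ≤ n - 1`; and `(a · W) g ∈ Wt (q+1+d) n`. -/
theorem RR_NS {q d n : ℕ} (hn : 1 ≤ n) {κ w : TA k E} (hκ : κ ∈ Tn k E q)
    (hw : w ∈ Tn k E (q + 1)) {f : TA k D} (hf : f ∈ T.NS d n) :
    RR k D (T.toLS.lam * T.toLS.JJ κ + T.toLS.JJ w) f ∈ T.NS (d + q) (n + 1) := by
  have hJκ : T.toLS.JJ κ ∈ T.toLS.Wt q 0 := T.toLS.JJ_mem hκ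
  have hJw : T.toLS.JJ w ∈ T.toLS.Wt (q + 1) 0 := T.toLS.JJ_mem hw
  have hy : T.toLS.lam * T.toLS.JJ κ + T.toLS.JJ w ∈ T.toLS.Wt (q + 1) 1 := by
    refine Submodule.add_mem _ ?_ (T.toLS.Wt_mono (Nat.zero_le 1) hJw)
    have h1 := T.toLS.Wt_mul T.toLS.lam_mem hJκ
    rw [Nat.add_comm 1 q, Nat.add_zero] at h1
    exact h1
  have key : T.NS d n ≤ (T.NS (d + q) (n + 1)).comap
      (RR k D (T.toLS.lam * T.toLS.JJ κ + T.toLS.JJ w)) := by
    refine sup_le ?_ (Submodule.span_le.2 ?_)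
    · intro g hg
      have h1 := T.RR_mem hy hg
      rw [show d + 1 + q = d + q + 1 by omega, show 1 + (n - 1) = n by omega] at h1
      exact T.Wt_le_NS le_rfl h1
    · rintro _ ⟨i, a, g, h1, h2, ha, hg, rfl⟩
      change RR k D (T.toLS.lam * T.toLS.JJ κ + T.toLS.JJ w) (io k a * g) ∈ T.NS (d + q) (n + 1)
      rw [RR_mul, RR_io]
      refine Submodule.add_mem _ ?_ ?_
      · exact T.io_mul_mem_NS h1 (by omega) (by omega) ha (T.RR_mem hy hg)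
      · have R := Coalgebra.Repr.arbitrary k a
        rw [T.act_y κ w R, add_mul]
        refine Submodule.add_mem _ ?_ ?_
        · have h3 : (∑ i ∈ R.index, io k (R.left i * T.l 1 1) *
              actT k D (T.toLS.JJ κ) (R.right i)) =
              LinearMap.mul' k (TA k D) (TensorProduct.map
                (TensorAlgebra.ι k ∘ₗ LinearMap.mulRight k (T.l 1 1)) (actT k D (T.toLS.JJ κ))
                (Coalgebra.comul (R := k) a)) := by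
            rw [← R.eq, map_sum, map_sum]
            rfl
          rw [h3]
          have h4 := T.F2_act hκ (T.comul_Fil ha)
          have h5 : Submodule.span k {f | ∃ (c : ℕ) (b : D) (g : TA k D), c ≤ i ∧
              b ∈ T.toLS.Fil (c + 1) ∧ g ∈ T.toLS.Wt q (i - c) ∧ f = io k b * g} ≤
              (T.NS (d + q) (n + 1)).comap (LinearMap.mulRight k g) := by
            refine Submodule.span_le.2 ?_
            rintro _ ⟨c, b, g', hc, hb, hg', rfl⟩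
            change io k b * g' * g ∈ T.NS (d + q) (n + 1)
            rw [mul_assoc, Nat.add_comm d q]
            exact T.io_mul_mem_NS (Nat.le_add_left 1 c) (by omega) (by omega) hb
              (T.toLS.Wt_mul hg' hg)
          exact h5 h4
        · have h6 := T.toLS.Wt_mul (T.act_mem ha hJw) hg
          rw [show q + 1 + d = d + q + 1 by omega] at h6
          exact T.Wt_le_NS (j := i + 0 + (n - i)) (by omega) h6
  exact key hf

/-- `Psi` kills the negligible elements of weight `N`: on `Wt (d+1) (N-1)` by `Psi_low`; for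
`ι a * g` with `a ∈ Fil i`, `g ∈ Wt d (N-i)`, `1 ≤ i ≤ N-2`: `a = ∑_{j ≤ i} l_j (..)`; for `0 < j`
use `Psi_first` (`j ≤ N - 2`); for `j = 0` the product is in `Wt (d+1) (N-i)`, `N - i < N`. -/
theorem Psi_NS {d : ℕ} {f : TA k D} (hf : f ∈ T.NS d N) : T.toLS.Psi f = 0 := by
  have h2N := T.toLS.two_le
  have key : T.NS d N ≤ LinearMap.ker T.toLS.Psi := by
    refine sup_le ?_ (Submodule.span_le.2 ?_)
    · intro g hg
      exact LinearMap.mem_ker.2 (T.toLS.Psi_low (by omega) hg)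
    · rintro _ ⟨i, a, g, h1, h2, ha, hg, rfl⟩
      have h3 : T.toLS.Fil i ≤ LinearMap.ker (T.toLS.Psi ∘ₗ LinearMap.mulRight k g ∘ₗ
          TensorAlgebra.ι k) := by
        refine Submodule.span_le.2 ?_
        rintro _ ⟨j, g', hj, rfl⟩
        change T.toLS.Psi (T.toLS.L j g' * g) = 0
        rcases Nat.eq_zero_or_pos j with hj0 | hj0
        · rw [hj0]
          exact T.toLS.Psi_low (j := 0 + (N - i)) (by omega)
            (T.toLS.Wt_mul (T.toLS.L_mem_Wt 0 g') hg)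
        · exact T.toLS.Psi_first j hj0 (by omega) g' g
      exact h3 ha
  exact LinearMap.mem_ker.1 (key hf)

private theorem R1B3c_lam (n : ℕ) : T.l 1 1 ^ n ∈ T.toLS.Fil n := by
  induction n with
  | zero => rw [pow_zero]; exact T.one_mem_Fil 0
  | succ n ih =>
    rw [pow_succ]
    exact T.mul_low n 1 _ _ ih (T.toLS.l_mem_Fil le_rfl 1)

private theorem R1B3c_X : (T.l 1 1 ⊗ₜ[k] 1 + 1 ⊗ₜ[k] T.l 1 1 : D ⊗[k] D) ∈ T.toLS.F2 1 :=
  Submodule.add_mem _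
    (T.toLS.tmul_mem_F2 (a := 1) (b := 0) le_rfl (T.toLS.l_mem_Fil le_rfl 1) (T.one_mem_Fil 0))
    (T.toLS.tmul_mem_F2 (a := 0) (b := 1) le_rfl (T.one_mem_Fil 0) (T.toLS.l_mem_Fil le_rfl 1))

private theorem R1B3c_binom (n : ℕ) :
    ∑ i ∈ Finset.range (n + 1), ((n).choose i : k) •
      ((T.l 1 1 ^ i) ⊗ₜ[k] (T.l 1 1 ^ (n - i))) =
      (T.l 1 1 ⊗ₜ[k] 1 + 1 ⊗ₜ[k] T.l 1 1 : D ⊗[k] D) ^ n := by
  have hc : Commute (T.l 1 1 ⊗ₜ[k] 1 : D ⊗[k] D) (1 ⊗ₜ[k] T.l 1 1) := by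
    rw [Commute, SemiconjBy, Algebra.TensorProduct.tmul_mul_tmul,
      Algebra.TensorProduct.tmul_mul_tmul, one_mul, mul_one]
  rw [hc.add_pow]
  refine Finset.sum_congr rfl fun i _ => ?_
  rw [Algebra.TensorProduct.tmul_pow, Algebra.TensorProduct.tmul_pow,
    Algebra.TensorProduct.tmul_mul_tmul, one_pow, one_pow, one_mul, mul_one,
    Nat.cast_smul_eq_nsmul, nsmul_eq_mul']

private theorem R1B3c_pow (n : ℕ) : Coalgebra.comul (R := k) (T.l 1 1 ^ (n + 1)) -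
    (T.l 1 1 ⊗ₜ[k] 1 + 1 ⊗ₜ[k] T.l 1 1 : D ⊗[k] D) ^ (n + 1) ∈ T.toLS.F2 n := by
  induction n with
  | zero =>
    rw [zero_add, pow_one, pow_one]
    exact T.comul_lam
  | succ n ih =>
    have h1 : Coalgebra.comul (R := k) (T.l 1 1 ^ (n + 1 + 1)) -
        (T.l 1 1 ⊗ₜ[k] 1 + 1 ⊗ₜ[k] T.l 1 1 : D ⊗[k] D) ^ (n + 1 + 1) =
        Coalgebra.comul (R := k) (T.l 1 1 ^ (n + 1)) * (Coalgebra.comul (R := k) (T.l 1 1) -
          (T.l 1 1 ⊗ₜ[k] 1 + 1 ⊗ₜ[k] T.l 1 1)) +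
        (Coalgebra.comul (R := k) (T.l 1 1 ^ (n + 1)) -
          (T.l 1 1 ⊗ₜ[k] 1 + 1 ⊗ₜ[k] T.l 1 1 : D ⊗[k] D) ^ (n + 1)) *
          (T.l 1 1 ⊗ₜ[k] 1 + 1 ⊗ₜ[k] T.l 1 1) := by
      rw [pow_succ (T.l 1 1) (n + 1), Bialgebra.comul_mul, pow_succ _ (n + 1), mul_sub, sub_mul]
      abel
    rw [h1]
    have h2 := T.F2_mul (i := n + 1) (j := 0) (T.comul_Fil (T.R1B3c_lam (n + 1))) T.comul_lam
    have h3 := T.F2_mul (i := n) (j := 1) ih T.R1B3c_X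
    exact Submodule.add_mem _ h2 h3

/-- `Δ (λ^n) = ∑ binom(n, i) λ^i ⊗ λ^(n-i)` up to lower weight: `λ^i ∈ Fil i`, induction on `n` from
`comul_lam`, `F2_mul` (`Δ λ^(n+1) = Δ λ^n Δ λ`; `Δ λ^n ∈ F2 n`, `Δ λ - λ ⊗ 1 - 1 ⊗ λ ∈ F2 0`). -/
theorem comul_lam_pow (n : ℕ) : Coalgebra.comul (R := k) (T.l 1 1 ^ (n + 1)) -
    ∑ i ∈ Finset.range (n + 2), ((n + 1).choose i : k) •
      ((T.l 1 1 ^ i) ⊗ₜ[k] (T.l 1 1 ^ (n + 1 - i))) ∈ T.toLS.F2 n := by
  rw [T.R1B3c_binom (n + 1)]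
  exact T.R1B3c_pow n

theorem lam_pow_mem (n : ℕ) : T.l 1 1 ^ n ∈ T.toLS.Fil n := T.R1B3c_lam n

/-- The elements `A_n`: `A_0 = 0`, `A_(n+1) = RR y (J^n) + n (λ · J) J^n + J A_n`. -/
noncomputable def AA (y J : TA k D) : ℕ → TA k D
  | 0 => 0
  | n + 1 => RR k D y (J ^ n) + (n : k) • (actT k D J (T.l 1 1) * J ^ n) + J * AA y J n

private theorem R1B3c_Jpow {q : ℕ} {κ : TA k E} (hκ : κ ∈ Tn k E q) (n : ℕ) :
    T.toLS.JJ κ ^ n ∈ T.toLS.Wt (q * n) 0 := by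
  induction n with
  | zero => rw [pow_zero, mul_zero]; exact T.toLS.one_mem_Wt 0
  | succ n ih =>
    rw [pow_succ, mul_add, mul_one]
    have h := T.toLS.Wt_mul (n := q * n) (m := q) (i := 0) (j := 0) ih (T.toLS.JJ_mem hκ)
    exact h

/-- Weights: `A_n ∈ Wt (q n) 1` (`q n` because `RR y` raises the degree by `q`). -/
theorem AA_mem {q : ℕ} {κ w : TA k E} (hκ : κ ∈ Tn k E q) (hw : w ∈ Tn k E (q + 1)) (n : ℕ) :
    T.AA (T.toLS.lam * T.toLS.JJ κ + T.toLS.JJ w) (T.toLS.JJ κ) n ∈ T.toLS.Wt (q * n) 1 := by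
  have hJ := T.toLS.JJ_mem hκ
  have hy : T.toLS.lam * T.toLS.JJ κ + T.toLS.JJ w ∈ T.toLS.Wt (q + 1) 1 := by
    refine Submodule.add_mem _ ?_ (T.toLS.Wt_mono (Nat.zero_le 1) (T.toLS.JJ_mem hw))
    have h := T.toLS.Wt_mul T.toLS.lam_mem hJ
    rw [Nat.add_comm 1 q] at h
    exact h
  induction n with
  | zero => exact Submodule.zero_mem _
  | succ n ih =>
    have hn := T.R1B3c_Jpow hκ n
    have e : q * (n + 1) = q * n + q := by ring
    rw [AA, e]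
    refine Submodule.add_mem _ (Submodule.add_mem _ ?_ (Submodule.smul_mem _ _ ?_)) ?_
    · have h := T.RR_mem (n := q) (m := q * n) (i := 1) (j := 0) hy hn
      exact h
    · have h0 := T.act_mem (n := q) (i := 1) (j := 0) (T.toLS.l_mem_Fil (le_refl 1) 1) hJ
      have h := T.toLS.Wt_mul (n := q) (m := q * n) (i := 1 + 0) (j := 0) h0 hn
      rw [Nat.add_comm q (q * n)] at h
      exact h
    · have h := T.toLS.Wt_mul (n := q) (m := q * n) (i := 0) (j := 1) hJ ih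
      rw [Nat.add_comm q (q * n), Nat.zero_add] at h
      exact h

/-- `act_y` without a representation of the comultiplication. -/
private theorem act_lam_pow_y (κ w : TA k E) (a : D) :
    actT k D (T.toLS.lam * T.toLS.JJ κ + T.toLS.JJ w) a =
      LinearMap.mul' k (TA k D) (TensorProduct.map
        (TensorAlgebra.ι k ∘ₗ LinearMap.mulRight k (T.l 1 1)) (actT k D (T.toLS.JJ κ))
          (Coalgebra.comul (R := k) a)) + actT k D (T.toLS.JJ w) a := by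
  have R := Coalgebra.Repr.arbitrary k a
  rw [T.act_y κ w R, ← R.eq, map_sum, map_sum]
  rfl

/-- The image of `F2 m`, times `f`, is negligible. -/
private theorem act_lam_pow_F2 {q m : ℕ} {κ : TA k E} (hκ : κ ∈ Tn k E q) {t : D ⊗[k] D}
    (ht : t ∈ T.toLS.F2 m) {d c : ℕ} {f : TA k D} (hf : f ∈ T.toLS.Wt d c) :
    LinearMap.mul' k (TA k D) (TensorProduct.map
      (TensorAlgebra.ι k ∘ₗ LinearMap.mulRight k (T.l 1 1)) (actT k D (T.toLS.JJ κ)) t) * f ∈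
      T.NS (q + d) (m + 2 + c) := by
  have h1 := T.F2_act hκ ht
  refine Submodule.span_induction (p := fun x _ => x * f ∈ T.NS (q + d) (m + 2 + c))
    ?_ ?_ ?_ ?_ h1
  · rintro _ ⟨e, b, g, he, hb, hg, rfl⟩
    have h2 := T.toLS.Wt_mul (T.toLS.io_mem_Fil hb) (T.toLS.Wt_mul hg hf)
    rw [mul_assoc]
    refine T.Wt_le_NS (j := e + 1 + (m - e + c)) (by omega) ?_
    rw [Nat.add_comm (q + d) 1]
    exact h2
  · rw [zero_mul]
    exact zero_mem _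
  · intro x y _ _ hx hy
    rw [add_mul]
    exact add_mem hx hy
  · intro a x _ hx
    rw [smul_mul_assoc]
    exact Submodule.smul_mem _ a hx

/-- The terms with small left factor. -/
private theorem act_lam_pow_term {q m i : ℕ} {κ : TA k E} (hκ : κ ∈ Tn k E q) (hi : i < m)
    {d c : ℕ} {f : TA k D} (hf : f ∈ T.toLS.Wt d c) (s : k) :
    s • (io k (T.l 1 1 ^ (i + 1)) * (actT k D (T.toLS.JJ κ) (T.l 1 1 ^ (m + 1 - i)) * f)) ∈
      T.NS (q + d) (m + 2 + c) := by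
  refine Submodule.smul_mem _ s ?_
  have h1 := T.act_mem (T.lam_pow_mem (m + 1 - i)) (T.toLS.JJ_mem hκ)
  have h2 := T.toLS.Wt_mul h1 hf
  exact T.io_mul_mem_NS (i := i + 1) (j := m + 1 - i + 0 + c) (by omega) (by omega) (by omega)
    (T.lam_pow_mem (i + 1)) h2

/-- The term from `w`. -/
private theorem act_lam_pow_w {q : ℕ} {w : TA k E} (hw : w ∈ Tn k E (q + 1)) (n : ℕ)
    {d c : ℕ} {f : TA k D} (hf : f ∈ T.toLS.Wt d c) :
    actT k D (T.toLS.JJ w) (T.l 1 1 ^ n) * f ∈ T.NS (q + d) (n + 1 + c) := by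
  have h1 := T.act_mem (T.lam_pow_mem n) (T.toLS.JJ_mem hw)
  have h2 := T.toLS.Wt_mul h1 hf
  refine T.Wt_le_NS (j := n + 0 + c) (by omega) ?_
  rw [show q + d + 1 = q + 1 + d by omega]
  exact h2

/-- The first step: `RR y` of `ι (λ^n) J^n`: modulo `NS (q (n+1)) (n+1)`,
`(λ^n · y) J^n = ι (λ^(n+1)) J^(n+1) + n ι (λ^n) (λ · J) J^n` (`act_y`, `comul_lam_pow`; the terms
`binom(n,i) ι (λ^(i+1)) (λ^(n-i) · J) J^n` with `i ≤ n - 2` are in `NS` by `io_mul_mem_NS`, the terms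
from `F2 (n-1)` are in `Wt _ n` by `F2_act`, and `(λ^n · W) J^n ∈ Wt _ n`). For `n ≥ 1`. -/
theorem act_lam_pow {q : ℕ} {κ w : TA k E} (hκ : κ ∈ Tn k E q) (hw : w ∈ Tn k E (q + 1)) (n : ℕ)
    {d : ℕ} {f : TA k D} {c : ℕ} (hc : c ≤ 1) (hf : f ∈ T.toLS.Wt d c) :
    actT k D (T.toLS.lam * T.toLS.JJ κ + T.toLS.JJ w) (T.l 1 1 ^ n) * f -
      (io k (T.l 1 1 ^ (n + 1)) * (T.toLS.JJ κ * f) +
        (n : k) • (io k (T.l 1 1 ^ n) * (actT k D (T.toLS.JJ κ) (T.l 1 1) * f))) ∈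
      T.NS (q + d) (n + 1 + c) := by
  have hW := T.act_lam_pow_w hw n hf
  rcases n with _ | m
  · rw [pow_zero, actT_one] at hW ⊢
    have h1 : (T.toLS.lam * T.toLS.JJ κ + T.toLS.JJ w) * f -
        (io k (T.l 1 1 ^ (0 + 1)) * (T.toLS.JJ κ * f) +
          ((0 : ℕ) : k) • (io k (1 : D) * (actT k D (T.toLS.JJ κ) (T.l 1 1) * f))) =
        T.toLS.JJ w * f := by
      rw [Nat.cast_zero, zero_smul, add_zero, zero_add, pow_one, add_mul, ← mul_assoc]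
      exact add_sub_cancel_left _ _
    rw [h1]
    exact hW
  · have hr := T.comul_lam_pow m
    obtain ⟨r, hr0⟩ : ∃ r, r = Coalgebra.comul (R := k) (T.l 1 1 ^ (m + 1)) -
      ∑ i ∈ Finset.range (m + 2), ((m + 1).choose i : k) •
        ((T.l 1 1 ^ i) ⊗ₜ[k] (T.l 1 1 ^ (m + 1 - i))) := ⟨_, rfl⟩
    rw [← hr0] at hr
    have hc2 : Coalgebra.comul (R := k) (T.l 1 1 ^ (m + 1)) = r +
      ∑ i ∈ Finset.range (m + 2), ((m + 1).choose i : k) •
        ((T.l 1 1 ^ i) ⊗ₜ[k] (T.l 1 1 ^ (m + 1 - i))) := by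
      rw [hr0, sub_add_cancel]
    have hterm : ∀ i, LinearMap.mul' k (TA k D) (TensorProduct.map
        (TensorAlgebra.ι k ∘ₗ LinearMap.mulRight k (T.l 1 1)) (actT k D (T.toLS.JJ κ))
          (((m + 1).choose i : k) • ((T.l 1 1 ^ i) ⊗ₜ[k] (T.l 1 1 ^ (m + 1 - i))))) * f =
        ((m + 1).choose i : k) • (io k (T.l 1 1 ^ (i + 1)) *
          (actT k D (T.toLS.JJ κ) (T.l 1 1 ^ (m + 1 - i)) * f)) := by
      intro i
      rw [map_smul, map_smul, TensorProduct.map_tmul, LinearMap.mul'_apply, smul_mul_assoc,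
        mul_assoc, LinearMap.comp_apply, LinearMap.mulRight_apply, ← pow_succ]
    rw [T.act_lam_pow_y κ w, hc2, map_add, map_add, map_sum, map_sum, add_mul, add_mul,
      Finset.sum_mul, Finset.sum_congr rfl fun i _ => hterm i, Finset.sum_range_succ,
      Finset.sum_range_succ]
    have h1 : ((m + 1).choose (m + 1) : k) • (io k (T.l 1 1 ^ (m + 1 + 1)) *
        (actT k D (T.toLS.JJ κ) (T.l 1 1 ^ (m + 1 - (m + 1))) * f)) =
        io k (T.l 1 1 ^ (m + 1 + 1)) * (T.toLS.JJ κ * f) := by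
      rw [Nat.choose_self, Nat.cast_one, one_smul, Nat.sub_self, pow_zero, actT_one]
    have h2 : ((m + 1).choose m : k) • (io k (T.l 1 1 ^ (m + 1)) *
        (actT k D (T.toLS.JJ κ) (T.l 1 1 ^ (m + 1 - m)) * f)) =
        ((m + 1 : ℕ) : k) • (io k (T.l 1 1 ^ (m + 1)) *
          (actT k D (T.toLS.JJ κ) (T.l 1 1) * f)) := by
      rw [Nat.choose_succ_self_right, Nat.add_sub_cancel_left, pow_one]
    rw [h1, h2]
    have h3 : ∑ i ∈ Finset.range m, ((m + 1).choose i : k) • (io k (T.l 1 1 ^ (i + 1)) *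
        (actT k D (T.toLS.JJ κ) (T.l 1 1 ^ (m + 1 - i)) * f)) ∈ T.NS (q + d) (m + 2 + c) :=
      Submodule.sum_mem _ fun i hi =>
        T.act_lam_pow_term hκ (Finset.mem_range.1 hi) hf _
    have h4 := T.act_lam_pow_F2 hκ hr hf
    have h5 := add_mem (add_mem h4 h3) hW
    refine (congrArg (· ∈ T.NS (q + d) (m + 1 + 1 + c)) ?_).mp h5
    abel

private theorem B3e_y {q : ℕ} {κ w : TA k E} (hκ : κ ∈ Tn k E q) (hw : w ∈ Tn k E (q + 1)) :
    T.toLS.lam * T.toLS.JJ κ + T.toLS.JJ w ∈ T.toLS.Wt (q + 1) 1 := by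
  have h1 := T.toLS.Wt_mul T.toLS.lam_mem (T.toLS.JJ_mem hκ)
  rw [Nat.add_comm 1 q] at h1
  exact Submodule.add_mem _ h1 (T.toLS.Wt_mono (Nat.zero_le 1) (T.toLS.JJ_mem hw))

private theorem B3e_pow {q : ℕ} {κ : TA k E} (hκ : κ ∈ Tn k E q) (n : ℕ) :
    T.toLS.JJ κ ^ n ∈ T.toLS.Wt (q * n) 0 := by
  induction n with
  | zero => rw [pow_zero]; exact T.toLS.one_mem_Wt 0
  | succ n ih =>
    have h1 := T.toLS.Wt_mul ih (T.toLS.JJ_mem hκ)
    rw [pow_succ]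
    exact h1

private theorem B3e_lam : T.l 1 1 ∈ T.toLS.Fil 1 := T.toLS.l_mem_Fil le_rfl 1

private theorem B3e_AA_one (y J : TA k D) : T.AA y J 1 = 0 := by
  have h1 : T.AA y J 1 = RR k D y (J ^ 0) + ((0 : ℕ) : k) • (actT k D J (T.l 1 1) * J ^ 0) +
    J * 0 := rfl
  rw [h1, pow_zero, RR_one, Nat.cast_zero, zero_smul, mul_zero, add_zero, add_zero]

/-- The second summand of the step. -/
private theorem B3e_A {q : ℕ} {κ w : TA k E} (hκ : κ ∈ Tn k E q) (hw : w ∈ Tn k E (q + 1))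
    (n : ℕ) :
    RR k D (T.toLS.lam * T.toLS.JJ κ + T.toLS.JJ w) (io k (T.l 1 1 ^ n) *
        T.AA (T.toLS.lam * T.toLS.JJ κ + T.toLS.JJ w) (T.toLS.JJ κ) (n + 1)) -
      io k (T.l 1 1 ^ (n + 1)) * (T.toLS.JJ κ *
        T.AA (T.toLS.lam * T.toLS.JJ κ + T.toLS.JJ w) (T.toLS.JJ κ) (n + 1)) ∈
      T.NS (q * (n + 1) + q) (n + 2) := by
  have hy := T.B3e_y hκ hw
  have hA := T.AA_mem hκ hw (n + 1)
  have hA1 := T.B3e_AA_one (T.toLS.lam * T.toLS.JJ κ + T.toLS.JJ w) (T.toLS.JJ κ)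
  have h1 := T.act_lam_pow hκ hw n le_rfl hA
  rcases Nat.eq_zero_or_pos n with h0 | h0
  · subst h0
    have h2 : (0 : ℕ) + 1 = 1 := rfl
    rw [h2, hA1, mul_zero, mul_zero, mul_zero, map_zero, sub_zero]
    exact Submodule.zero_mem _
  · generalize T.AA (T.toLS.lam * T.toLS.JJ κ + T.toLS.JJ w) (T.toLS.JJ κ) (n + 1) = A at hA h1 ⊢
    generalize T.toLS.lam * T.toLS.JJ κ + T.toLS.JJ w = y at hy h1 ⊢
    have e1 : q + q * (n + 1) = q * (n + 1) + q := Nat.add_comm _ _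
    rw [e1] at h1
    have h3 : io k (T.l 1 1 ^ n) * RR k D y A ∈ T.NS (q * (n + 1) + q) (n + 2) := by
      refine T.io_mul_mem_NS h0 le_rfl (j := 1 + 1) (by omega) (T.lam_pow_mem n) ?_
      exact T.RR_mem hy hA
    have h4 : io k (T.l 1 1 ^ n) * (actT k D (T.toLS.JJ κ) (T.l 1 1) * A) ∈
        T.NS (q * (n + 1) + q) (n + 2) := by
      refine T.io_mul_mem_NS h0 le_rfl (j := 1 + 0 + 1) (by omega) (T.lam_pow_mem n) ?_
      have h5 := T.toLS.Wt_mul (T.act_mem T.B3e_lam (T.toLS.JJ_mem hκ)) hA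
      rw [e1] at h5
      exact h5
    have h6 : RR k D y (io k (T.l 1 1 ^ n) * A) - io k (T.l 1 1 ^ (n + 1)) * (T.toLS.JJ κ * A) =
        io k (T.l 1 1 ^ n) * RR k D y A + (actT k D y (T.l 1 1 ^ n) * A -
          (io k (T.l 1 1 ^ (n + 1)) * (T.toLS.JJ κ * A) +
            (n : k) • (io k (T.l 1 1 ^ n) * (actT k D (T.toLS.JJ κ) (T.l 1 1) * A)))) +
          (n : k) • (io k (T.l 1 1 ^ n) * (actT k D (T.toLS.JJ κ) (T.l 1 1) * A)) := by
      rw [RR_mul, RR_io]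
      abel
    rw [h6]
    exact Submodule.add_mem _ (Submodule.add_mem _ h3 h1) (Submodule.smul_mem _ _ h4)

/-- The first summand of the step. -/
private theorem B3e_J {q : ℕ} {κ w : TA k E} (hκ : κ ∈ Tn k E q) (hw : w ∈ Tn k E (q + 1))
    (n : ℕ) :
    RR k D (T.toLS.lam * T.toLS.JJ κ + T.toLS.JJ w) (io k (T.l 1 1 ^ (n + 1)) *
        T.toLS.JJ κ ^ (n + 1)) -
      (io k (T.l 1 1 ^ (n + 2)) * T.toLS.JJ κ ^ (n + 2) + io k (T.l 1 1 ^ (n + 1)) *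
        (RR k D (T.toLS.lam * T.toLS.JJ κ + T.toLS.JJ w) (T.toLS.JJ κ ^ (n + 1)) +
          ((n + 1 : ℕ) : k) • (actT k D (T.toLS.JJ κ) (T.l 1 1) * T.toLS.JJ κ ^ (n + 1)))) ∈
      T.NS (q * (n + 1) + q) (n + 2) := by
  have h1 := T.act_lam_pow hκ hw (n + 1) (Nat.zero_le 1) (T.B3e_pow hκ (n + 1))
  have e1 : q + q * (n + 1) = q * (n + 1) + q := Nat.add_comm _ _
  rw [e1] at h1
  generalize T.toLS.lam * T.toLS.JJ κ + T.toLS.JJ w = y at h1 ⊢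
  have h6 : RR k D y (io k (T.l 1 1 ^ (n + 1)) * T.toLS.JJ κ ^ (n + 1)) -
      (io k (T.l 1 1 ^ (n + 2)) * T.toLS.JJ κ ^ (n + 2) + io k (T.l 1 1 ^ (n + 1)) *
        (RR k D y (T.toLS.JJ κ ^ (n + 1)) +
          ((n + 1 : ℕ) : k) • (actT k D (T.toLS.JJ κ) (T.l 1 1) * T.toLS.JJ κ ^ (n + 1)))) =
      actT k D y (T.l 1 1 ^ (n + 1)) * T.toLS.JJ κ ^ (n + 1) -
      (io k (T.l 1 1 ^ (n + 1 + 1)) * (T.toLS.JJ κ * T.toLS.JJ κ ^ (n + 1)) +
        ((n + 1 : ℕ) : k) • (io k (T.l 1 1 ^ (n + 1)) *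
          (actT k D (T.toLS.JJ κ) (T.l 1 1) * T.toLS.JJ κ ^ (n + 1)))) := by
    rw [RR_mul, RR_io, mul_add, mul_smul_comm, ← pow_succ' (T.toLS.JJ κ) (n + 1)]
    abel
  rw [h6]
  exact h1

/-- THE MAIN COMPUTATION, by induction on `n`: modulo `NS (q (n+1)) (n+1)`,
`RR y ^ n y = ι (λ^(n+1)) J^(n+1) + ι (λ^n) A_(n+1)`. `n = 0`: `y = lam J + W`, `W ∈ Wt (q+1) 0`,
`A_1 = 0` (`RR y 1 = 0`). Step: `RR_NS`; `RR y (ι (λ^(n+1)) J^(n+1)) = ι (λ^(n+1)) RR y (J^(n+1)) +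
(λ^(n+1) · y) J^(n+1)` (`act_lam_pow` with `c = 0`), and `RR y (ι (λ^n) A) = ι (λ^n) RR y A +
(λ^n · y) A` where `A ∈ Wt _ 1`: for `n ≥ 1` the first term is in `NS` (`io_mul_mem_NS` with
`i = n`, `RR y A ∈ Wt _ 2`), and the second is `ι (λ^(n+1)) J A` modulo `NS` (`act_lam_pow` with
`c = 1`; the term `n ι (λ^n) (λ · J) A` is in `NS`, first letter of weight `n`). For `n = 0`,
`A_1 = 0`. -/
theorem RR_pow {q : ℕ} {κ w : TA k E} (hκ : κ ∈ Tn k E q) (hw : w ∈ Tn k E (q + 1)) (n : ℕ) :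
    ((RR k D (T.toLS.lam * T.toLS.JJ κ + T.toLS.JJ w)) ^ n)
        (T.toLS.lam * T.toLS.JJ κ + T.toLS.JJ w) -
      (io k (T.l 1 1 ^ (n + 1)) * T.toLS.JJ κ ^ (n + 1) + io k (T.l 1 1 ^ n) *
        T.AA (T.toLS.lam * T.toLS.JJ κ + T.toLS.JJ w) (T.toLS.JJ κ) (n + 1)) ∈
      T.NS (q * (n + 1)) (n + 1) := by
  induction n with
  | zero =>
    have h2 : (0 : ℕ) + 1 = 1 := rfl
    rw [h2, B3e_AA_one, mul_zero, add_zero, pow_one, pow_one, pow_zero, Module.End.one_apply]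
    have h3 : io k (T.l 1 1) = T.toLS.lam := rfl
    rw [h3, add_sub_cancel_left, mul_one]
    exact T.Wt_le_NS le_rfl (T.toLS.JJ_mem hw)
  | succ n ih =>
    have h1 := T.RR_NS (Nat.le_add_left 1 n) hκ hw ih
    have h2 := T.B3e_J hκ hw n
    have h3 := T.B3e_A hκ hw n
    have hAA : T.AA (T.toLS.lam * T.toLS.JJ κ + T.toLS.JJ w) (T.toLS.JJ κ) (n + 1 + 1) =
        RR k D (T.toLS.lam * T.toLS.JJ κ + T.toLS.JJ w) (T.toLS.JJ κ ^ (n + 1)) +
          ((n + 1 : ℕ) : k) • (actT k D (T.toLS.JJ κ) (T.l 1 1) * T.toLS.JJ κ ^ (n + 1)) +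
          T.toLS.JJ κ * T.AA (T.toLS.lam * T.toLS.JJ κ + T.toLS.JJ w) (T.toLS.JJ κ) (n + 1) :=
      rfl
    have hd : q * (n + 1 + 1) = q * (n + 1) + q := rfl
    rw [hAA, hd, pow_succ' (RR k D (T.toLS.lam * T.toLS.JJ κ + T.toLS.JJ w)) n,
      Module.End.mul_apply]
    generalize T.AA (T.toLS.lam * T.toLS.JJ κ + T.toLS.JJ w) (T.toLS.JJ κ) (n + 1) = A at h1 h3 ⊢
    generalize ((RR k D (T.toLS.lam * T.toLS.JJ κ + T.toLS.JJ w)) ^ n)
      (T.toLS.lam * T.toLS.JJ κ + T.toLS.JJ w) = z at h1 ⊢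
    rw [map_sub, map_add] at h1
    generalize T.toLS.lam * T.toLS.JJ κ + T.toLS.JJ w = y at h1 h2 h3 ⊢
    have h4 := Submodule.add_mem _ (Submodule.add_mem _ h1 h2) h3
    have h5 : RR k D y z - (io k (T.l 1 1 ^ (n + 1 + 1)) * T.toLS.JJ κ ^ (n + 1 + 1) +
        io k (T.l 1 1 ^ (n + 1)) * (RR k D y (T.toLS.JJ κ ^ (n + 1)) +
          ((n + 1 : ℕ) : k) • (actT k D (T.toLS.JJ κ) (T.l 1 1) * T.toLS.JJ κ ^ (n + 1)) +
            T.toLS.JJ κ * A)) =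
        (RR k D y z - (RR k D y (io k (T.l 1 1 ^ (n + 1)) * T.toLS.JJ κ ^ (n + 1)) +
          RR k D y (io k (T.l 1 1 ^ n) * A))) +
        (RR k D y (io k (T.l 1 1 ^ (n + 1)) * T.toLS.JJ κ ^ (n + 1)) -
          (io k (T.l 1 1 ^ (n + 2)) * T.toLS.JJ κ ^ (n + 2) + io k (T.l 1 1 ^ (n + 1)) *
            (RR k D y (T.toLS.JJ κ ^ (n + 1)) +
              ((n + 1 : ℕ) : k) • (actT k D (T.toLS.JJ κ) (T.l 1 1) *
                T.toLS.JJ κ ^ (n + 1))))) +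
        (RR k D y (io k (T.l 1 1 ^ n) * A) -
          io k (T.l 1 1 ^ (n + 1)) * (T.toLS.JJ κ * A)) := by
      rw [mul_add (io k (T.l 1 1 ^ (n + 1)))
        (RR k D y (T.toLS.JJ κ ^ (n + 1)) +
          ((n + 1 : ℕ) : k) • (actT k D (T.toLS.JJ κ) (T.l 1 1) * T.toLS.JJ κ ^ (n + 1)))
        (T.toLS.JJ κ * A)]
      abel
    rw [h5]
    exact h4

private theorem Psi_RR_tt (a : D) : T.toLS.tt (io k a) =
    (Coalgebra.counit (R := k) (T.pr (N - 1) a)) • (1 : TA k D) := by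
  have h := T.toLS.l_ext (T.toLS.tt ∘ₗ TensorAlgebra.ι k)
    (LinearMap.toSpanSingleton k (TA k D) 1 ∘ₗ Coalgebra.counit ∘ₗ T.pr (N - 1)) (by
      intro j hj g
      have h1 : (T.toLS.tt ∘ₗ TensorAlgebra.ι k) (T.l j g) = T.toLS.tt (T.toLS.L j g) := rfl
      have h2 : (LinearMap.toSpanSingleton k (TA k D) 1 ∘ₗ Coalgebra.counit ∘ₗ T.pr (N - 1))
        (T.l j g) = (Coalgebra.counit (R := k) (T.pr (N - 1) (T.l j g))) • (1 : TA k D) := rfl
      rw [h1, h2, T.toLS.tt_L]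
      split_ifs with h3
      · subst h3
        rw [T.pr_l _ hj, Algebra.algebraMap_eq_smul_one]
      · rw [T.pr_l_ne _ _ (fun h4 => h3 h4.symm), map_zero, zero_smul])
  exact LinearMap.congr_fun h a

/-- `Psi` of the result: `N = n + 1`; `Psi (ι (λ^N) J^N) = 0`, `Psi (ι (λ^(N-1)) A) = c ss A` with the
scalar `c = ε (pr_(N-1) (λ^(N-1)))`. (`Psi_mul`, `Psi_io`, `Psi_low` for `A ∈ Wt _ 1`, `N ≥ 2`,
`tt (ι a) = ε (pr_(N-1) a)`, `ss_JJ`, `Psi_JJ`.) -/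
theorem Psi_RR {q : ℕ} {κ w : TA k E} (hκ : κ ∈ Tn k E q) (hw : w ∈ Tn k E (q + 1)) (n : ℕ)
    (hN : N = n + 1) : ∃ c : k,
    T.toLS.Psi (((RR k D (T.toLS.lam * T.toLS.JJ κ + T.toLS.JJ w)) ^ n)
        (T.toLS.lam * T.toLS.JJ κ + T.toLS.JJ w)) =
      c • T.toLS.ss
        (T.AA (T.toLS.lam * T.toLS.JJ κ + T.toLS.JJ w) (T.toLS.JJ κ) (n + 1)) := by
  have h1 := T.RR_pow hκ hw n
  have hA := T.AA_mem hκ hw (n + 1)
  generalize T.AA (T.toLS.lam * T.toLS.JJ κ + T.toLS.JJ w) (T.toLS.JJ κ) (n + 1) = A at h1 hA ⊢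
  generalize ((RR k D (T.toLS.lam * T.toLS.JJ κ + T.toLS.JJ w)) ^ n)
    (T.toLS.lam * T.toLS.JJ κ + T.toLS.JJ w) = z at h1 ⊢
  have h2 : T.toLS.Psi (z - (io k (T.l 1 1 ^ (n + 1)) * T.toLS.JJ κ ^ (n + 1) +
      io k (T.l 1 1 ^ n) * A)) = 0 := by
    refine T.Psi_NS (d := q * (n + 1)) ?_
    have e := congrArg (T.NS (q * (n + 1))) hN
    rw [e]
    exact h1
  have h3 : T.toLS.Psi (io k (T.l 1 1 ^ (n + 1)) * T.toLS.JJ κ ^ (n + 1)) = 0 := by
    rw [← map_pow T.toLS.JJ κ (n + 1), T.toLS.Psi_mul, T.toLS.Psi_JJ, T.toLS.ss_JJ, T.toLS.Psi_io, mul_zero, mul_zero,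
      zero_mul, add_zero, add_zero]
  have h4 : T.toLS.Psi A = 0 := T.toLS.Psi_low (by have := T.two_le; omega) hA
  refine ⟨Coalgebra.counit (R := k) (T.pr (N - 1) (T.l 1 1 ^ n)), ?_⟩
  rw [map_sub, map_add, h3, zero_add, sub_eq_zero] at h2
  rw [h2, T.toLS.Psi_mul, h4, T.toLS.Psi_io, mul_zero, zero_mul, zero_add, add_zero,
    T.Psi_RR_tt, smul_mul_assoc, one_mul]

end

end LSD

end Pool.Agent.Helper77.R1
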