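import Pool.Agent.Helper90.R1.Defs
import Pool.Agent.Helper90.FC.Acyc

/-!
# Project R1, part G: principal Hopf ideals of local Hopf algebras

`B`, `C` finite-dimensional Hopf algebras, `B⁺` nilpotent (`AugNil k B`), `π : B → C` surjective with
`ker π = B X`. Then `π` has `RData`: all quotients `B X^j / B X^(j+1)` (as long as `X^j ≠ 0`) are free
of rank one over `C`, and `X` can be changed by a unit so that `X b - b X ∈ B X²`.

`Ix X j = B X^j`, `rho π = (π ⊗ id) Δ : B → C ⊗ B`, `CI X j = C ⊗ B X^j = (C ⊗ B) (1 ⊗ X^j)`.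
-/

set_option linter.unusedSectionVars false
set_option autoImplicit false

open scoped TensorProduct
open Pool.Agent.Helper90.FC Pool.Agent.Helper90.R1

namespace Pool.Agent.Helper77.R1

universe u

section Units

variable {k : Type u} [Field k]

/-- An algebra with an augmentation whose kernel is nilpotent: elements with nonzero augmentation
are units. (`a = c (1 - n)` with `c ≠ 0` a scalar and `n` in the kernel, so `n` nilpotent.) -/
theorem unit_of_aug {A : Type u} [Ring A] [Algebra k A] (ε : A →ₐ[k] k)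
    (h : ∃ N : ℕ, ∀ l : List A, l.length = N → (∀ a ∈ l, ε a = 0) → l.prod = 0) (a : A)
    (ha : ε a ≠ 0) : IsUnit a := by
  obtain ⟨N, hN⟩ := h
  have h1 : ε (1 - (ε a)⁻¹ • a) = 0 := by
    rw [map_sub, map_one, map_smul, smul_eq_mul, inv_mul_cancel₀ ha, sub_self]
  have h2 : IsNilpotent (1 - (ε a)⁻¹ • a) := by
    refine ⟨N, ?_⟩
    rw [← List.prod_replicate]
    refine hN _ (List.length_replicate ..) fun b hb => ?_
    rw [List.eq_of_mem_replicate hb]
    exact h1
  have h3 : IsUnit ((ε a)⁻¹ • a) := by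
    have h4 := h2.isUnit_one_sub
    rwa [sub_sub_cancel] at h4
  have h5 : a = algebraMap k A (ε a) * ((ε a)⁻¹ • a) := by
    rw [← Algebra.smul_def, smul_smul, mul_inv_cancel₀ ha, one_smul]
  rw [h5]
  exact ((Ne.isUnit ha).map (algebraMap k A)).mul h3

theorem unit_of_counit {B : Type u} [Ring B] [Bialgebra k B] (hB : AugNil k B) (b : B)
    (hb : Coalgebra.counit (R := k) b ≠ 0) : IsUnit b :=
  unit_of_aug (Bialgebra.counitAlgHom k B) hB b hb

/-- `AugNil` passes to quotients. -/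
theorem augNil_of_surj {B C : Type u} [Ring B] [Ring C] [Bialgebra k B] [Bialgebra k C]
    (π : B →ₐc[k] C) (hs : Function.Surjective π) (hB : AugNil k B) : AugNil k C := by
  obtain ⟨N, hN⟩ := hB
  refine ⟨N, fun l hl h0 => ?_⟩
  have h1 : (l.map (Function.surjInv hs)).map π = l := by
    rw [List.map_map]
    conv_rhs => rw [← List.map_id l]
    exact List.map_congr_left fun c _ => Function.surjInv_eq hs c
  have h2 : (l.map (Function.surjInv hs)).prod = 0 := by
    refine hN _ (by rw [List.length_map, hl]) fun b hb => ?_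
    obtain ⟨c, hc, rfl⟩ := List.mem_map.1 hb
    have h3 : Coalgebra.counit (R := k) (π (Function.surjInv hs c)) =
        Coalgebra.counit (R := k) (Function.surjInv hs c) :=
      CoalgHomClass.counit_comp_apply π _
    rw [← h3, Function.surjInv_eq hs c]
    exact h0 c hc
  rw [← h1, ← map_list_prod, h2, map_zero]

/-- The augmentation of `C ⊗ B`. -/
noncomputable def aug2 (k : Type u) [Field k] (C B : Type u) [Ring B] [Ring C] [Bialgebra k B]
    [Bialgebra k C] : C ⊗[k] B →ₐ[k] k :=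
  (Algebra.TensorProduct.lmul' k).comp (Algebra.TensorProduct.map (Bialgebra.counitAlgHom k C)
    (Bialgebra.counitAlgHom k B))

private def G2S (k : Type u) [Field k] (A : Type u) [Ring A] [Bialgebra k A] (m : ℕ) : Set A :=
  {x | ∃ l : List A, l.length = m ∧ (∀ a ∈ l, Coalgebra.counit (R := k) a = 0) ∧
    ∃ y, x = y * l.prod}

private theorem G2S_mul {A : Type u} [Ring A] [Bialgebra k A] {m : ℕ} {x : A}
    (hx : x ∈ G2S k A m) (y : A) : y * x ∈ G2S k A m := by
  obtain ⟨l, h1, h2, z, rfl⟩ := hx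
  exact ⟨l, h1, h2, y * z, by rw [mul_assoc]⟩

private theorem G2S_succ {A : Type u} [Ring A] [Bialgebra k A] {m : ℕ} {x : A}
    (hx : x ∈ G2S k A m) {y : A} (hy : Coalgebra.counit (R := k) y = 0) :
    y * x ∈ G2S k A (m + 1) := by
  obtain ⟨l, h1, h2, z, rfl⟩ := hx
  refine ⟨(y * z) :: l, by rw [List.length_cons, h1], ?_, 1, ?_⟩
  · intro a ha
    rcases List.mem_cons.1 ha with rfl | ha
    · rw [Bialgebra.counit_mul, hy, zero_mul]
    · exact h2 a ha
  · rw [one_mul, List.prod_cons, mul_assoc]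

private theorem G2S_zero {A : Type u} [Ring A] [Bialgebra k A] (x : A) : x ∈ G2S k A 0 :=
  ⟨[], rfl, fun a ha => absurd ha List.not_mem_nil, x, by rw [List.prod_nil, mul_one]⟩

private theorem G2S_big {A : Type u} [Ring A] [Bialgebra k A] {N : ℕ}
    (hN : ∀ l : List A, l.length = N → (∀ a ∈ l, Coalgebra.counit (R := k) a = 0) → l.prod = 0)
    {m : ℕ} (h : N ≤ m) {x : A} (hx : x ∈ G2S k A m) : x = 0 := by
  obtain ⟨l, h1, h2, z, rfl⟩ := hx
  have h3 : (l.take N).prod = 0 := by
    apply hN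
    · rw [List.length_take, h1, Nat.min_eq_left h]
    · intro a ha
      exact h2 a (List.mem_of_mem_take ha)
  have h4 : l.prod = 0 := by
    rw [← List.take_append_drop N l, List.prod_append, h3, zero_mul]
  rw [h4, mul_zero]

private def G2V (k : Type u) [Field k] (C B : Type u) [Ring B] [Ring C] [Bialgebra k B]
    [Bialgebra k C] (n : ℕ) : Submodule k (C ⊗[k] B) :=
  Submodule.span k {t | ∃ a b : ℕ, a + b = n ∧ ∃ c ∈ G2S k C a, ∃ d ∈ G2S k B b, c ⊗ₜ[k] d = t}

private theorem G2V_left {C B : Type u} [Ring B] [Ring C] [Bialgebra k B] [Bialgebra k C] {n : ℕ}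
    {c : C} {d : B} (hcd : Coalgebra.counit (R := k) c = 0 ∨ Coalgebra.counit (R := k) d = 0)
    {x : C ⊗[k] B} (hx : x ∈ G2V k C B n) : (c ⊗ₜ[k] d) * x ∈ G2V k C B (n + 1) := by
  unfold G2V at hx
  induction hx using Submodule.span_induction with
  | mem x hx =>
    obtain ⟨a, b, hab, c', hc', d', hd', rfl⟩ := hx
    rw [Algebra.TensorProduct.tmul_mul_tmul]
    rcases hcd with h | h
    · exact Submodule.subset_span ⟨a + 1, b, by omega, _, G2S_succ hc' h, _, G2S_mul hd' d, rfl⟩
    · exact Submodule.subset_span ⟨a, b + 1, by omega, _, G2S_mul hc' c, _, G2S_succ hd' h, rfl⟩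
  | zero =>
    rw [mul_zero]
    exact zero_mem _
  | add x y _ _ hx hy =>
    rw [mul_add]
    exact add_mem hx hy
  | smul a x _ hx =>
    rw [mul_smul_comm]
    exact Submodule.smul_mem _ a hx

private theorem G2T {C B : Type u} [Ring B] [Ring C] [Bialgebra k B] [Bialgebra k C]
    (t : C ⊗[k] B) : t - aug2 k C B t • (1 : C ⊗[k] B) ∈ Submodule.span k
      {s : C ⊗[k] B | ∃ (c : C) (d : B), (Coalgebra.counit (R := k) c = 0 ∨
        Coalgebra.counit (R := k) d = 0) ∧ c ⊗ₜ[k] d = s} := by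
  induction t using TensorProduct.induction_on with
  | zero =>
    rw [map_zero, zero_smul, sub_zero]
    exact zero_mem _
  | tmul c d =>
    have h1 : aug2 k C B (c ⊗ₜ[k] d) = Coalgebra.counit (R := k) c * Coalgebra.counit (R := k) d := by
      unfold aug2
      rw [AlgHom.comp_apply, Algebra.TensorProduct.map_tmul, Algebra.TensorProduct.lmul'_apply_tmul]
      rfl
    have h2 : c ⊗ₜ[k] d - aug2 k C B (c ⊗ₜ[k] d) • (1 : C ⊗[k] B) =
        (c - Coalgebra.counit (R := k) c • (1 : C)) ⊗ₜ[k] d +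
        (Coalgebra.counit (R := k) c • (1 : C)) ⊗ₜ[k] (d - Coalgebra.counit (R := k) d • (1 : B)) := by
      rw [h1, TensorProduct.sub_tmul, TensorProduct.tmul_sub, mul_smul,
        Algebra.TensorProduct.one_def, TensorProduct.smul_tmul', TensorProduct.tmul_smul,
        TensorProduct.smul_tmul']
      rw [smul_comm]
      abel
    rw [h2]
    refine add_mem (Submodule.subset_span ⟨_, _, Or.inl ?_, rfl⟩)
      (Submodule.subset_span ⟨_, _, Or.inr ?_, rfl⟩)
    · rw [map_sub, map_smul, Bialgebra.counit_one, smul_eq_mul, mul_one, sub_self]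
    · rw [map_sub, map_smul, Bialgebra.counit_one, smul_eq_mul, mul_one, sub_self]
  | add x y hx hy =>
    have h : x + y - aug2 k C B (x + y) • (1 : C ⊗[k] B) =
        (x - aug2 k C B x • (1 : C ⊗[k] B)) + (y - aug2 k C B y • (1 : C ⊗[k] B)) := by
      rw [map_add, add_smul]
      abel
    rw [h]
    exact add_mem hx hy

/-- The kernel of the augmentation of `C ⊗ B` is nilpotent: it is spanned by the `c ⊗ b` with
`ε c = 0` or `ε b = 0` (`t = ∑ c ⊗ b`, subtract `ε c ⊗ ε b`); a product of `N_C + N_B` such tensors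
has at least `N_C` factors of the first kind or `N_B` factors of the second kind. In the first case
the product of the left components is a product of `N_C` elements of `C⁺`, namely of
`(product of the components in between) * c`. (Alternatively: both `C⁺ ⊗ B` and `C ⊗ B⁺` are
nilpotent two-sided ideals, and a sum of two nilpotent ideals is nilpotent.) -/
theorem augNil2 {C B : Type u} [Ring B] [Ring C] [Bialgebra k B] [Bialgebra k C]
    (hC : AugNil k C) (hB : AugNil k B) : ∃ N : ℕ, ∀ l : List (C ⊗[k] B), l.length = N →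
      (∀ a ∈ l, aug2 k C B a = 0) → l.prod = 0 := by
  obtain ⟨NC, hNC⟩ := hC
  obtain ⟨NB, hNB⟩ := hB
  have key : ∀ l : List (C ⊗[k] B), (∀ a ∈ l, aug2 k C B a = 0) →
      l.prod ∈ G2V k C B l.length := by
    intro l
    induction l with
    | nil =>
      intro _
      exact Submodule.subset_span ⟨0, 0, rfl, 1, G2S_zero 1, 1, G2S_zero 1, rfl⟩
    | cons t l ih =>
      intro hl
      have h1 := ih fun a ha => hl a (List.mem_cons_of_mem _ ha)
      have h2 := G2T (k := k) (C := C) (B := B) t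
      rw [hl t List.mem_cons_self, zero_smul, sub_zero] at h2
      rw [List.prod_cons, List.length_cons]
      clear hl
      induction h2 using Submodule.span_induction with
      | mem x hx =>
        obtain ⟨c, d, hcd, rfl⟩ := hx
        exact G2V_left hcd h1
      | zero =>
        rw [zero_mul]
        exact zero_mem _
      | add x y _ _ hx hy =>
        rw [add_mul]
        exact add_mem hx hy
      | smul a x _ hx =>
        rw [smul_mul_assoc]
        exact Submodule.smul_mem _ a hx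
  refine ⟨NC + NB, fun l hl h0 => ?_⟩
  have h1 := key l h0
  have h2 : G2V k C B l.length = ⊥ := by
    unfold G2V
    rw [Submodule.span_eq_bot]
    rintro t ⟨a, b, hab, c, hc, d, hd, rfl⟩
    rcases le_or_gt NC a with h | h
    · rw [G2S_big hNC h hc, TensorProduct.zero_tmul]
    · rw [G2S_big hNB (by omega) hd, TensorProduct.tmul_zero]
  rw [h2] at h1
  exact (Submodule.mem_bot k).1 h1

end Units

section

variable {k : Type u} [Field k] {B C : Type u} [Ring B] [Ring C] [HopfAlgebra k B]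
variable [HopfAlgebra k C]

/-- The left ideal `B X^j`. -/
noncomputable def Ix (k : Type u) [Field k] {B : Type u} [Ring B] [HopfAlgebra k B] (X : B)
    (j : ℕ) : Submodule k B := LinearMap.range (LinearMap.mulRight k (X ^ j))

/-- `(π ⊗ id) Δ`. -/
noncomputable def rho (π : B →ₐc[k] C) : B →ₐ[k] C ⊗[k] B :=
  (Algebra.TensorProduct.map (π : B →ₐ[k] C) (AlgHom.id k B)).comp (Bialgebra.comulAlgHom k B)

/-- `C ⊗ B X^j`. -/
noncomputable def CI (k : Type u) [Field k] {B : Type u} [Ring B] [HopfAlgebra k B] (C : Type u)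
    [Ring C] [HopfAlgebra k C] (X : B) (j : ℕ) : Submodule k (C ⊗[k] B) :=
  LinearMap.range (LinearMap.mulRight k ((1 : C) ⊗ₜ[k] (X ^ j)))

variable (π : B →ₐc[k] C) (hs : Function.Surjective π) (X : B)
  (hk : ∀ b : B, π b = 0 ↔ ∃ b' : B, b = b' * X)

include hk in
private theorem r1g3_pow (j : ℕ) (b : B) : ∃ b' : B, X ^ j * b = b' * X ^ j := by
  induction j generalizing b with
  | zero => exact ⟨b, by rw [pow_zero, one_mul, mul_one]⟩
  | succ j ih =>
    have h1 : π X = 0 := (hk X).2 ⟨1, (one_mul X).symm⟩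
    obtain ⟨b', hb'⟩ := (hk (X * b)).1 (by rw [map_mul, h1, zero_mul])
    obtain ⟨b'', hb''⟩ := ih b'
    exact ⟨b'', by rw [pow_succ, mul_assoc, hb', ← mul_assoc, hb'', mul_assoc]⟩

include hk in
/-- `X^j b ∈ B X^j` (`X b ∈ ker π`, induction). -/
theorem Ix_right (j : ℕ) {a : B} (ha : a ∈ Ix k X j) (b : B) : a * b ∈ Ix k X j := by
  obtain ⟨a', rfl⟩ := ha
  obtain ⟨b', hb'⟩ := r1g3_pow π X hk j b
  refine ⟨a' * b', ?_⟩
  rw [LinearMap.mulRight_apply, LinearMap.mulRight_apply, mul_assoc, mul_assoc, hb']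

include hk in
theorem Ix_mul {i j : ℕ} {a b : B} (ha : a ∈ Ix k X i) (hb : b ∈ Ix k X j) :
    a * b ∈ Ix k X (i + j) := by
  obtain ⟨a', rfl⟩ := ha
  obtain ⟨b', rfl⟩ := hb
  obtain ⟨b'', hb''⟩ := r1g3_pow π X hk i b'
  refine ⟨a' * b'', ?_⟩
  rw [LinearMap.mulRight_apply, LinearMap.mulRight_apply, LinearMap.mulRight_apply, pow_add,
    mul_assoc, mul_assoc, ← mul_assoc b'', ← hb'', mul_assoc]

theorem Ix_anti {i j : ℕ} (h : i ≤ j) : Ix k X j ≤ Ix k X i := by
  rintro _ ⟨a, rfl⟩
  refine ⟨a * X ^ (j - i), ?_⟩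
  rw [LinearMap.mulRight_apply, LinearMap.mulRight_apply, mul_assoc, ← pow_add,
    Nat.sub_add_cancel h]

/-- `C ⊗ B X^j` is spanned by pure tensors. -/
theorem tmul_mem_CI (c : C) {j : ℕ} {b : B} (hb : b ∈ Ix k X j) :
    c ⊗ₜ[k] b ∈ CI k C X j := by
  obtain ⟨b', rfl⟩ := hb
  refine ⟨c ⊗ₜ[k] b', ?_⟩
  rw [LinearMap.mulRight_apply, LinearMap.mulRight_apply, Algebra.TensorProduct.tmul_mul_tmul,
    mul_one]

theorem CI_induction {j : ℕ} {P : C ⊗[k] B → Prop} (h0 : P 0)
    (h1 : ∀ c b, b ∈ Ix k X j → P (c ⊗ₜ[k] b)) (h2 : ∀ s t, P s → P t → P (s + t))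
    {t : C ⊗[k] B} (ht : t ∈ CI k C X j) : P t := by
  obtain ⟨s, rfl⟩ := ht
  rw [LinearMap.mulRight_apply]
  induction s using TensorProduct.induction_on with
  | zero => rw [zero_mul]; exact h0
  | tmul c b =>
    rw [Algebra.TensorProduct.tmul_mul_tmul, mul_one]
    exact h1 c _ ⟨b, rfl⟩
  | add x y hx hy => rw [add_mul]; exact h2 _ _ hx hy

include hk in
theorem CI_mul {i j : ℕ} {s t : C ⊗[k] B} (hs : s ∈ CI k C X i) (ht : t ∈ CI k C X j) :
    s * t ∈ CI k C X (i + j) := by
  refine CI_induction (C := C) X (P := fun s => s * t ∈ CI k C X (i + j)) ?_ ?_ ?_ hs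
  · rw [zero_mul]; exact Submodule.zero_mem _
  · intro c b hb
    refine CI_induction (C := C) X (P := fun t => c ⊗ₜ[k] b * t ∈ CI k C X (i + j)) ?_ ?_ ?_ ht
    · rw [mul_zero]; exact Submodule.zero_mem _
    · intro c' b' hb'
      rw [Algebra.TensorProduct.tmul_mul_tmul]
      exact tmul_mem_CI X _ (Ix_mul π X hk hb hb')
    · intro x y hx hy
      rw [mul_add]; exact Submodule.add_mem _ hx hy
  · intro x y hx hy
    rw [add_mul]; exact Submodule.add_mem _ hx hy

theorem CI_anti {i j : ℕ} (h : i ≤ j) : CI k C X j ≤ CI k C X i := by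
  intro t ht
  refine CI_induction (C := C) X (P := fun t => t ∈ CI k C X i) (Submodule.zero_mem _) ?_
    (fun x y hx hy => Submodule.add_mem _ hx hy) ht
  intro c b hb
  exact tmul_mem_CI X c (Ix_anti X h hb)

/-- The kernel of `id ⊗ π` is `C ⊗ B X`. (Over a field; choose a section of `π`.) -/
theorem CI_one (hs : Function.Surjective π) (hk : ∀ b : B, π b = 0 ↔ ∃ b' : B, b = b' * X)
    (t : C ⊗[k] B) : t ∈ CI k C X 1 ↔
      Algebra.TensorProduct.map (AlgHom.id k C) (π : B →ₐ[k] C) t = 0 := by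
  have hex : Function.Exact (LinearMap.mulRight k X)
      ((π : B →ₐ[k] C) : B →ₗ[k] C) := by
    intro b
    constructor
    · intro h
      obtain ⟨b', hb'⟩ := (hk b).1 h
      exact ⟨b', hb'.symm⟩
    · rintro ⟨b', rfl⟩
      exact (hk _).2 ⟨b', rfl⟩
  have hex2 := lTensor_exact C hex hs
  have h1 : (Algebra.TensorProduct.map (AlgHom.id k C) (π : B →ₐ[k] C)) t
      = LinearMap.lTensor C ((π : B →ₐ[k] C) : B →ₗ[k] C) t := rfl
  have h2 : LinearMap.lTensor C (LinearMap.mulRight k X) =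
      LinearMap.mulRight k ((1 : C) ⊗ₜ[k] (X ^ 1)) := by
    refine TensorProduct.ext' fun c b => ?_
    rw [LinearMap.lTensor_tmul, LinearMap.mulRight_apply, LinearMap.mulRight_apply,
      Algebra.TensorProduct.tmul_mul_tmul, mul_one, pow_one]
  rw [h1, hex2 t, h2]
  exact Iff.rfl

/-- `rho X ∈ C ⊗ B X`: `(id ⊗ π) rho = Δ π`. Then `rho (b X^j) ∈ C ⊗ B X^j` by `CI_mul`. -/
theorem rho_mem (hs : Function.Surjective π) (hk : ∀ b : B, π b = 0 ↔ ∃ b' : B, b = b' * X)
    {j : ℕ} {b : B} (hb : b ∈ Ix k X j) : rho π b ∈ CI k C X j := by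
  have hX0 : π X = 0 := (hk X).2 ⟨1, (one_mul X).symm⟩
  have key : ∀ t : B ⊗[k] B, Algebra.TensorProduct.map (AlgHom.id k C) (π : B →ₐ[k] C)
      (Algebra.TensorProduct.map (π : B →ₐ[k] C) (AlgHom.id k B) t)
      = TensorProduct.map ((π : B →ₐ[k] C) : B →ₗ[k] C) ((π : B →ₐ[k] C) : B →ₗ[k] C) t := by
    intro t
    induction t using TensorProduct.induction_on with
    | zero => simp only [map_zero]
    | tmul x y => rfl
    | add x y hx hy => rw [map_add, map_add, map_add, hx, hy]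
  have h1 : rho π X ∈ CI k C X 1 := by
    rw [CI_one π X hs hk]
    have e : Algebra.TensorProduct.map (AlgHom.id k C) (π : B →ₐ[k] C) (rho π X)
        = TensorProduct.map ((π : B →ₐ[k] C) : B →ₗ[k] C) ((π : B →ₐ[k] C) : B →ₗ[k] C)
          (Coalgebra.comul (R := k) X) := key _
    rw [e]
    have e2 := CoalgHomClass.map_comp_comul_apply (R := k) π X
    exact e2.trans (by rw [hX0, map_zero])
  have h0 : ∀ t : C ⊗[k] B, t ∈ CI k C X 0 := fun t => ⟨t, by
    rw [LinearMap.mulRight_apply, pow_zero, ← Algebra.TensorProduct.one_def, mul_one]⟩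
  have hp : ∀ n : ℕ, (rho π X) ^ n ∈ CI k C X n := by
    intro n
    induction n with
    | zero => exact h0 _
    | succ n ih =>
      rw [pow_succ]
      exact CI_mul π X hk ih h1
  obtain ⟨b', rfl⟩ := hb
  rw [LinearMap.mulRight_apply, map_mul, map_pow]
  have := CI_mul π X hk (h0 (rho π b')) (hp j)
  rwa [zero_add] at this

/-- Counit axioms: `(id ⊗ ε) rho = π`, `(ε ⊗ id) rho = id`. -/
theorem rid_rho (b : B) : TensorProduct.rid k C
    (LinearMap.lTensor C (Coalgebra.counit (R := k) (A := B)) (rho π b)) = π b := by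
  have R := Coalgebra.Repr.arbitrary k b
  have h1 : rho π b = ∑ i ∈ R.index, π (R.left i) ⊗ₜ[k] R.right i := by
    change Algebra.TensorProduct.map (π : B →ₐ[k] C) (AlgHom.id k B)
      (Coalgebra.comul (R := k) b) = _
    rw [← R.eq, map_sum]
    rfl
  rw [h1, map_sum, map_sum]
  have h2 : ∑ i ∈ R.index, Coalgebra.counit (R := k) (R.right i) • R.left i = b := by
    have h := Coalgebra.sum_tmul_counit_eq R
    have h2 := congrArg (TensorProduct.rid k B) h
    simpa only [map_sum, TensorProduct.rid_tmul, one_smul] using h2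
  conv_rhs => rw [← h2, map_sum]
  refine Finset.sum_congr rfl fun i _ => ?_
  rw [LinearMap.lTensor_tmul, TensorProduct.rid_tmul, map_smul]

theorem lid_rho (b : B) : TensorProduct.lid k B
    (LinearMap.rTensor B (Coalgebra.counit (R := k) (A := C)) (rho π b)) = b := by
  have R := Coalgebra.Repr.arbitrary k b
  have h1 : rho π b = ∑ i ∈ R.index, π (R.left i) ⊗ₜ[k] R.right i := by
    change Algebra.TensorProduct.map (π : B →ₐ[k] C) (AlgHom.id k B)
      (Coalgebra.comul (R := k) b) = _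
    rw [← R.eq, map_sum]
    rfl
  rw [h1, map_sum, map_sum]
  have h2 : ∑ i ∈ R.index, Coalgebra.counit (R := k) (R.left i) • R.right i = b := by
    have h := Coalgebra.sum_counit_tmul_eq R
    have h2 := congrArg (TensorProduct.lid k B) h
    simpa only [map_sum, TensorProduct.lid_tmul, one_smul] using h2
  conv_rhs => rw [← h2]
  refine Finset.sum_congr rfl fun i _ => ?_
  rw [LinearMap.rTensor_tmul, TensorProduct.lid_tmul, CoalgHomClass.counit_comp_apply]

end

section

variable {k : Type u} [Field k] {B C : Type u} [Ring B] [Ring C] [HopfAlgebra k B]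
variable [HopfAlgebra k C] [Module.Finite k B] [Module.Finite k C]
variable (hB : AugNil k B) (π : B →ₐc[k] C) (hs : Function.Surjective π) (X : B)
  (hk : ∀ b : B, π b = 0 ↔ ∃ b' : B, b = b' * X)

include hB hk in
/-- `X` is nilpotent (`ε X = ε (π X) = 0`). -/
theorem X_nilp : ∃ n, X ^ n = 0 := by
  obtain ⟨N, hN⟩ := hB
  have h0 : π X = 0 := (hk X).2 ⟨1, (one_mul X).symm⟩
  have h1 : Coalgebra.counit (R := k) X = 0 := by
    rw [← CoalgHomClass.counit_comp_apply π X, h0, map_zero]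
  refine ⟨N, ?_⟩
  have h2 := hN (List.replicate N X) List.length_replicate
    (fun a ha => by rw [List.eq_of_mem_replicate ha]; exact h1)
  rwa [List.prod_replicate] at h2

include hB hk in
/-- If `X^j ∈ B X^(j+1)` then `X^j = 0` (`(1 - c X) X^j = 0` and `1 - c X` is a unit). -/
theorem pow_zero_of {j : ℕ} (h : X ^ j ∈ Ix k X (j + 1)) : X ^ j = 0 := by
  obtain ⟨c, hc⟩ := h
  rw [LinearMap.mulRight_apply] at hc
  have h0 : π X = 0 := (hk X).2 ⟨1, (one_mul X).symm⟩
  have h1 : Coalgebra.counit (R := k) X = 0 := by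
    rw [← CoalgHomClass.counit_comp_apply π X, h0, map_zero]
  have hu : IsUnit (1 - c * X) := by
    apply unit_of_counit hB
    rw [map_sub, Bialgebra.counit_one, Bialgebra.counit_mul, h1, mul_zero, sub_zero]
    exact one_ne_zero
  have h2 : (1 - c * X) * X ^ j = 0 := by
    rw [sub_mul, one_mul, mul_assoc, ← pow_succ', hc, sub_self]
  exact (hu.mul_right_eq_zero).1 h2

include hB hs hk in
/-- `rho (X^j) = w (1 ⊗ X^j)` with a unit `w` of `C ⊗ B` if `X^j ≠ 0`: `w` exists by `rho_mem`; by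
`lid_rho` `X^j = v X^j` with `v = (ε ⊗ id) w`, so `ε v = 1` (otherwise `1 - v` is a unit), and
`aug2 w = ε v = 1`; `unit_of_aug`, `augNil2`. -/
theorem exists_w {j : ℕ} (h : X ^ j ≠ 0) : ∃ w : C ⊗[k] B, IsUnit w ∧ aug2 k C B w = 1 ∧
    rho π (X ^ j) = w * ((1 : C) ⊗ₜ[k] (X ^ j)) := by
  have hX : X ^ j ∈ Ix k X j := ⟨1, one_mul _⟩
  obtain ⟨w, hw⟩ := rho_mem π X hs hk hX
  have hw' : w * ((1 : C) ⊗ₜ[k] (X ^ j)) = rho π (X ^ j) := hw
  obtain ⟨e, he⟩ : ∃ e : C ⊗[k] B →ₐ[k] B, ∀ (c : C) (b : B),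
      e (c ⊗ₜ[k] b) = Coalgebra.counit (R := k) c • b := by
    refine ⟨(Algebra.TensorProduct.lid k B : k ⊗[k] B →ₐ[k] B).comp
      (Algebra.TensorProduct.map (Bialgebra.counitAlgHom k C) (AlgHom.id k B)), fun c b => ?_⟩
    rfl
  have hel : ∀ t : C ⊗[k] B, e t = TensorProduct.lid k B
      (LinearMap.rTensor B (Coalgebra.counit (R := k) (A := C)) t) := by
    intro t
    induction t using TensorProduct.induction_on with
    | zero => rw [map_zero, map_zero, map_zero]
    | tmul c b =>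
      rw [he, LinearMap.rTensor_tmul, TensorProduct.lid_tmul]
    | add s t h1 h2 => rw [map_add, map_add, map_add, h1, h2]
  have hea : ∀ t : C ⊗[k] B, Coalgebra.counit (R := k) (e t) = aug2 k C B t := by
    intro t
    induction t using TensorProduct.induction_on with
    | zero => rw [map_zero, map_zero, map_zero]
    | tmul c b =>
      rw [he, map_smul]
      rfl
    | add s t h1 h2 => rw [map_add, map_add, map_add, h1, h2]
  have h1 : e w * X ^ j = X ^ j := by
    have h2 := lid_rho π (X ^ j)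
    rw [← hel, ← hw', map_mul, he, Bialgebra.counit_one, one_smul] at h2
    exact h2
  have h3 : Coalgebra.counit (R := k) (e w) = 1 := by
    by_contra h4
    have h5 : IsUnit (1 - e w) := by
      apply unit_of_counit hB
      rw [map_sub, Bialgebra.counit_one]
      intro h6
      exact h4 (sub_eq_zero.1 h6).symm
    apply h
    have h7 : (1 - e w) * X ^ j = 0 := by rw [sub_mul, one_mul, h1, sub_self]
    exact (h5.mul_right_eq_zero).1 h7
  have h8 : aug2 k C B w = 1 := by rw [← hea, h3]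
  refine ⟨w, ?_, h8, hw'.symm⟩
  apply unit_of_aug (aug2 k C B) (augNil2 (augNil_of_surj π hs hB) hB)
  rw [h8]
  exact one_ne_zero

omit [Module.Finite k B] [Module.Finite k C] in
/-- A linear map which kills `{b : b X^j ∈ B X^(j+1)}`: `id ⊗ f` kills the `t` with
`t (1 ⊗ X^j) ∈ CI (j+1)`. -/
private theorem R1G7_fac {M : Type u} [AddCommGroup M] [Module k M] (f : B →ₗ[k] M) (j : ℕ)
    (hf : ∀ b : B, b * X ^ j ∈ Ix k X (j + 1) → f b = 0) {t : C ⊗[k] B}
    (ht : t * ((1 : C) ⊗ₜ[k] (X ^ j)) ∈ CI k C X (j + 1)) : LinearMap.lTensor C f t = 0 := by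
  have hg : ∃ h : (B ⧸ Ix k X (j + 1)) →ₗ[k] M,
      f = h ∘ₗ ((Ix k X (j + 1)).mkQ ∘ₗ LinearMap.mulRight k (X ^ j)) := by
    obtain ⟨g, hg⟩ : ∃ g : B →ₗ[k] B ⧸ Ix k X (j + 1),
        g = (Ix k X (j + 1)).mkQ ∘ₗ LinearMap.mulRight k (X ^ j) := ⟨_, rfl⟩
    have h1 : LinearMap.ker g ≤ LinearMap.ker f := by
      intro b hb
      rw [LinearMap.mem_ker] at hb ⊢
      apply hf
      rw [hg, LinearMap.comp_apply, LinearMap.mulRight_apply, Submodule.mkQ_apply,
        Submodule.Quotient.mk_eq_zero] at hb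
      exact hb
    obtain ⟨r, hr⟩ := ((LinearMap.ker g).liftQ g le_rfl).exists_leftInverse_of_injective
      (Submodule.ker_liftQ_eq_bot _ _ _ le_rfl)
    refine ⟨((LinearMap.ker g).liftQ f h1) ∘ₗ r, ?_⟩
    rw [← hg]
    ext b
    have h2 : r (g b) = (LinearMap.ker g).mkQ b := by
      have h3 := LinearMap.congr_fun hr ((LinearMap.ker g).mkQ b)
      rw [LinearMap.comp_apply, Submodule.mkQ_apply, Submodule.liftQ_apply,
        LinearMap.id_apply] at h3
      rw [h3, Submodule.mkQ_apply]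
    rw [LinearMap.comp_apply, LinearMap.comp_apply, h2, Submodule.mkQ_apply,
      Submodule.liftQ_apply]
  obtain ⟨h, hh⟩ := hg
  have h3 : ∀ s : C ⊗[k] B, LinearMap.lTensor C (LinearMap.mulRight k (X ^ j)) s =
      s * ((1 : C) ⊗ₜ[k] (X ^ j)) := by
    intro s
    induction s using TensorProduct.induction_on with
    | zero => rw [map_zero, zero_mul]
    | tmul c b =>
      rw [LinearMap.lTensor_tmul, LinearMap.mulRight_apply, Algebra.TensorProduct.tmul_mul_tmul,
        mul_one]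
    | add s t h1 h2 => rw [map_add, add_mul, h1, h2]
  have h4 : ∀ s ∈ CI k C X (j + 1), LinearMap.lTensor C ((Ix k X (j + 1)).mkQ) s = 0 := by
    intro s hs
    refine CI_induction (C := C) X
      (P := fun s => LinearMap.lTensor C ((Ix k X (j + 1)).mkQ) s = 0) (map_zero _) ?_
      (fun x y hx hy => by rw [map_add, hx, hy, add_zero]) hs
    intro c b hb
    rw [LinearMap.lTensor_tmul, Submodule.mkQ_apply, (Submodule.Quotient.mk_eq_zero _).2 hb,
      TensorProduct.tmul_zero]
  rw [hh, LinearMap.lTensor_comp, LinearMap.lTensor_comp, LinearMap.comp_apply,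
    LinearMap.comp_apply, h3, h4 _ ht, map_zero]

include hB hs hk in
/-- FREENESS. Let `A = {a : a X^j ∈ B X^(j+1)}`, a left ideal containing `B X`. If some `a ∈ A` has
`ε a ≠ 0` it is a unit, so `X^j ∈ B X^(j+1)` and `X^j = 0` (`pow_zero_of`). Otherwise: for `b ∈ A`,
`rho (b X^j) = rho b * w * (1 ⊗ X^j) ∈ CI (j+1)`, so `rho b * w ∈ C ⊗ A` (the set of `t` with
`t * (1 ⊗ X^j) ∈ CI (j+1)` is `C ⊗ A`, the kernel of a map `id ⊗ (B → B / B X^(j+1))`), and
`π b = (id ⊗ ε) (rho b) = (id ⊗ ε) (rho b * w) * (id ⊗ ε) (w⁻¹) = 0` since `id ⊗ ε` is a homomorphism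
which kills `C ⊗ A`. -/
theorem free_of {j : ℕ} (h : X ^ j ≠ 0) {b : B} (hb : b * X ^ j ∈ Ix k X (j + 1)) : π b = 0 := by
  have hcou : ∀ a : B, a * X ^ j ∈ Ix k X (j + 1) → Coalgebra.counit (R := k) a = 0 := by
    intro a ha
    by_contra h1
    obtain ⟨u, hu⟩ := unit_of_counit hB a h1
    apply h
    apply pow_zero_of hB π X hk
    obtain ⟨c, hc⟩ := ha
    rw [LinearMap.mulRight_apply] at hc
    refine ⟨((u⁻¹ : Bˣ) : B) * c, ?_⟩
    rw [LinearMap.mulRight_apply, mul_assoc, hc, ← hu, ← mul_assoc, Units.inv_mul, one_mul]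
  obtain ⟨w, hw, -, hwX⟩ := exists_w hB π hs X hk h
  have h1 : (rho π b * w) * ((1 : C) ⊗ₜ[k] (X ^ j)) ∈ CI k C X (j + 1) := by
    have h2 := rho_mem π X hs hk hb
    rw [map_mul, hwX, ← mul_assoc] at h2
    exact h2
  have h2 := R1G7_fac X (Coalgebra.counit (R := k) (A := B)) j hcou h1
  obtain ⟨e, he⟩ : ∃ e : C ⊗[k] B →ₐ[k] C, ∀ (c : C) (b : B),
      e (c ⊗ₜ[k] b) = Coalgebra.counit (R := k) b • c := by
    refine ⟨(Algebra.TensorProduct.rid k k C : C ⊗[k] k →ₐ[k] C).comp
      (Algebra.TensorProduct.map (AlgHom.id k C) (Bialgebra.counitAlgHom k B)), fun c b => ?_⟩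
    rfl
  have hel : ∀ t : C ⊗[k] B, e t = TensorProduct.rid k C
      (LinearMap.lTensor C (Coalgebra.counit (R := k) (A := B)) t) := by
    intro t
    induction t using TensorProduct.induction_on with
    | zero => rw [map_zero, map_zero, map_zero]
    | tmul c b =>
      rw [he, LinearMap.lTensor_tmul, TensorProduct.rid_tmul]
    | add s t h1 h2 => rw [map_add, map_add, map_add, h1, h2]
  have h3 : e (rho π b) * e w = 0 := by
    rw [← map_mul, hel, h2, map_zero]
  have h4 : IsUnit (e w) := hw.map e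
  have h5 : e (rho π b) = 0 := (h4.mul_left_eq_zero).1 h3
  rw [← rid_rho π b, ← hel, h5]

include hB hs hk in
/-- The same with coefficients in `C`: for `t ∈ C ⊗ B`, `t (1 ⊗ X^j) ∈ CI (j+1)` implies
`(id ⊗ π) t = 0`. -/
theorem free_of_tmul {j : ℕ} (h : X ^ j ≠ 0) {t : C ⊗[k] B}
    (ht : t * ((1 : C) ⊗ₜ[k] (X ^ j)) ∈ CI k C X (j + 1)) :
    Algebra.TensorProduct.map (AlgHom.id k C) (π : B →ₐ[k] C) t = 0 := by
  have h1 : LinearMap.lTensor C ((π : B →ₐ[k] C).toLinearMap) t = 0 :=
    R1G7_fac X ((π : B →ₐ[k] C).toLinearMap) j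
      (fun b hb => free_of hB π hs X hk h hb) ht
  rw [← h1]
  generalize t = s
  induction s using TensorProduct.induction_on with
  | zero => rw [map_zero, map_zero]
  | tmul c b =>
    rw [Algebra.TensorProduct.map_tmul, LinearMap.lTensor_tmul]
    rfl
  | add s t h1 h2 => rw [map_add, map_add, h1, h2]

theorem dim_eq_sec (π : B →ₐc[k] C) (hs : Function.Surjective π) :
    ∃ s : C →ₗ[k] B, ∀ c, π (s c) = c := by
  obtain ⟨s, h⟩ := ((π : B →ₐ[k] C).toLinearMap).exists_rightInverse_of_surjective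
    (LinearMap.range_eq_top.2 hs)
  exact ⟨s, fun c => LinearMap.congr_fun h c⟩

/-- `x ↦ ∑ s(x_j) X^j` -/
noncomputable def dim_eq_map (s : C →ₗ[k] B) (X : B) (N : ℕ) : (Fin N → C) →ₗ[k] B :=
  ∑ j : Fin N, (LinearMap.mulRight k (X ^ (j : ℕ))).comp (s.comp (LinearMap.proj j))

theorem dim_eq_map_apply (s : C →ₗ[k] B) (X : B) (N : ℕ) (x : Fin N → C) :
    dim_eq_map s X N x = ∑ j : Fin N, s (x j) * X ^ (j : ℕ) := by
  simp [dim_eq_map, LinearMap.sum_apply]

include hB hs hk in
theorem dim_eq_inj {N : ℕ} (h1 : ∀ j, j < N → X ^ j ≠ 0) (s : C →ₗ[k] B)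
    (hsec : ∀ c, π (s c) = c) (x : Fin N → C)
    (hx : ∑ j : Fin N, s (x j) * X ^ (j : ℕ) = 0) (n : ℕ) : ∀ hn : n < N, x ⟨n, hn⟩ = 0 := by
  induction n using Nat.strong_induction_on with
  | _ n ih =>
    intro hn
    have h2 : s (x ⟨n, hn⟩) * X ^ n ∈ Ix k X (n + 1) := by
      have h3 : s (x ⟨n, hn⟩) * X ^ n =
          -∑ j ∈ Finset.univ.erase ⟨n, hn⟩, s (x j) * X ^ (j : ℕ) := by
        rw [eq_neg_iff_add_eq_zero]
        have h4 := Finset.add_sum_erase Finset.univ (fun j : Fin N => s (x j) * X ^ (j : ℕ))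
          (Finset.mem_univ ⟨n, hn⟩)
        rw [hx] at h4
        exact h4
      rw [h3]
      refine neg_mem (sum_mem (fun j hj => ?_))
      rcases lt_trichotomy (j : ℕ) n with h | h | h
      · have h5 : x j = 0 := ih j h j.2
        rw [h5, map_zero, zero_mul]
        exact zero_mem _
      · exact absurd (Fin.ext h) (Finset.ne_of_mem_erase hj)
      · exact Ix_anti X (Nat.succ_le_of_lt h) ⟨s (x j), rfl⟩
    have h4 := free_of hB π hs X hk (h1 n hn) h2
    rwa [hsec] at h4

include hk in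
theorem dim_eq_surj {N : ℕ} (h0 : X ^ N = 0) (s : C →ₗ[k] B)
    (hsec : ∀ c, π (s c) = c) (m : ℕ) : m ≤ N → ∀ b : B,
      b * X ^ (N - m) ∈ LinearMap.range (dim_eq_map s X N) := by
  induction m with
  | zero =>
    intro _ b
    rw [Nat.sub_zero, h0, mul_zero]
    exact zero_mem _
  | succ m ih =>
    intro hm b
    obtain ⟨j, hj⟩ : ∃ j, j = N - (m + 1) := ⟨_, rfl⟩
    have hjN : j < N := by omega
    have hj1 : N - m = j + 1 := by omega
    rw [← hj]
    obtain ⟨b', hb'⟩ := (hk (b - s (π b))).1 (by rw [map_sub, hsec, sub_self])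
    have h1 : b * X ^ j = s (π b) * X ^ j + b' * X ^ (N - m) := by
      rw [hj1, pow_succ', ← mul_assoc, ← hb', sub_mul]
      abel
    rw [h1]
    refine add_mem ?_ (ih (by omega) b')
    refine ⟨Pi.single ⟨j, hjN⟩ (π b), ?_⟩
    rw [dim_eq_map_apply, Finset.sum_eq_single ⟨j, hjN⟩]
    · rw [Pi.single_eq_same]
    · intro i _ hi
      rw [Pi.single_eq_of_ne hi, map_zero, zero_mul]
    · intro h
      exact absurd (Finset.mem_univ _) h

include hB hs hk in
/-- The dimension, for the nilpotency index `N`: with a section `s` of `π` the map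
`(x_j)_{j<N} ↦ ∑ s(x_j) X^j` is bijective. -/
theorem dim_eq {N : ℕ} (h0 : X ^ N = 0) (h1 : ∀ j, j < N → X ^ j ≠ 0) :
    Module.finrank k B = N * Module.finrank k C := by
  obtain ⟨s, hsec⟩ := dim_eq_sec π hs
  have hinj : Function.Injective (dim_eq_map s X N) := by
    rw [injective_iff_map_eq_zero]
    intro x hx
    rw [dim_eq_map_apply] at hx
    funext j
    exact dim_eq_inj hB π hs X hk h1 s hsec x hx j j.2
  have hsurj : Function.Surjective (dim_eq_map s X N) := by
    intro b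
    have h2 := dim_eq_surj π X hk h0 s hsec N le_rfl b
    rw [Nat.sub_self, pow_zero, mul_one] at h2
    exact h2
  rw [← (LinearEquiv.ofBijective (dim_eq_map s X N) ⟨hinj, hsurj⟩).finrank_eq,
    Module.finrank_pi_fintype, Finset.sum_const, Finset.card_univ, Fintype.card_fin,
    smul_eq_mul]

/-- `id ⊗ ε` on `A ⊗ B`. -/
private noncomputable def exists_X0_Phi (k : Type u) [Field k] (A B : Type u) [Ring A] [Algebra k A]
    [Ring B] [HopfAlgebra k B] : A ⊗[k] B →ₐ[k] A :=
  (Algebra.TensorProduct.rid k k A).toAlgHom.comp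
    (Algebra.TensorProduct.map (AlgHom.id k A) (Bialgebra.counitAlgHom k B))

private theorem exists_X0_Phi_tmul {A : Type u} [Ring A] [Algebra k A] (a : A) (b : B) :
    exists_X0_Phi k A B (a ⊗ₜ[k] b) = Coalgebra.counit (R := k) b • a := by
  simp [exists_X0_Phi]

private theorem exists_X0_Phi_eq (π : B →ₐc[k] C) (b : B) : exists_X0_Phi k C B (rho π b) = π b := by
  rw [← rid_rho π b]
  generalize rho π b = t
  induction t using TensorProduct.induction_on with
  | zero => simp
  | tmul c b => simp [exists_X0_Phi_tmul]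
  | add s t hs ht => rw [map_add, hs, ht, map_add, map_add]

include hB hs hk in
/-- Freeness for `j = 1` with coefficients in an algebra `A`. -/
private theorem exists_X0_free (h : X ≠ 0) {A : Type u} [Ring A] [Algebra k A] {t : A ⊗[k] B}
    (ht : t * ((1 : A) ⊗ₜ[k] X) = 0) : exists_X0_Phi k A B t = 0 := by
  have h1 : ∀ t : A ⊗[k] B, t * ((1 : A) ⊗ₜ[k] X) =
      (LinearMap.mulRight k X).lTensor A t := by
    intro t
    induction t using TensorProduct.induction_on with
    | zero => simp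
    | tmul c b => simp
    | add s t hs ht => rw [add_mul, hs, ht, map_add]
  have h3 : Function.Exact (LinearMap.ker (LinearMap.mulRight k X)).subtype
      (LinearMap.mulRight k X) := LinearMap.exact_subtype_ker_map _
  have key : ∀ t' : A ⊗[k] LinearMap.ker (LinearMap.mulRight k X),
      exists_X0_Phi k A B ((LinearMap.ker (LinearMap.mulRight k X)).subtype.lTensor A t') = 0 := by
    intro t'
    induction t' using TensorProduct.induction_on with
    | zero => simp
    | tmul a b =>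
      rw [LinearMap.lTensor_tmul, exists_X0_Phi_tmul]
      have h4 : (b : B) * X ^ 1 ∈ Ix k X (1 + 1) := by
        have h5 : (b : B) * X = 0 := b.2
        rw [pow_one, h5]
        exact zero_mem _
      have h6 := free_of hB π hs X hk (j := 1) (by rwa [pow_one]) h4
      have h7 : Coalgebra.counit (R := k) (b : B) = 0 := by
        rw [← CoalgHomClass.counit_comp_apply π (b : B), h6, map_zero]
      rw [Submodule.subtype_apply, h7, zero_smul]
    | add s t hs' ht' => rw [map_add, map_add, hs', ht', add_zero]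
  obtain ⟨t', rfl⟩ := (Module.Flat.lTensor_exact A h3 t).1 (by rw [← h1, ht])
  exact key t'

/-- `Δ ⊗ id` on `C ⊗ B`. -/
private noncomputable def exists_X0_al (k : Type u) [Field k] (C B : Type u) [Ring C] [HopfAlgebra k C]
    [Ring B] [HopfAlgebra k B] : C ⊗[k] B →ₐ[k] (C ⊗[k] C) ⊗[k] B :=
  Algebra.TensorProduct.map (Bialgebra.comulAlgHom k C) (AlgHom.id k B)

/-- `t ↦ 1 ⊗ t`. -/
private noncomputable def exists_X0_ga (k : Type u) [Field k] (C B : Type u) [Ring C] [HopfAlgebra k C]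
    [Ring B] [HopfAlgebra k B] : C ⊗[k] B →ₐ[k] (C ⊗[k] C) ⊗[k] B :=
  (Algebra.TensorProduct.assoc k k k C C B).symm.toAlgHom.comp
    (Algebra.TensorProduct.includeRight (R := k) (A := C) (B := C ⊗[k] B))

/-- `id ⊗ rho`. -/
private noncomputable def exists_X0_be (π : B →ₐc[k] C) : C ⊗[k] B →ₐ[k] (C ⊗[k] C) ⊗[k] B :=
  (Algebra.TensorProduct.assoc k k k C C B).symm.toAlgHom.comp
    (Algebra.TensorProduct.map (AlgHom.id k C) (rho π))

private theorem exists_X0_coassoc (π : B →ₐc[k] C) (b : B) :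
    exists_X0_al k C B (rho π b) = exists_X0_be π (rho π b) := by
  have h1 : ∀ t : B ⊗[k] B, exists_X0_al k C B
      (Algebra.TensorProduct.map (π : B →ₐ[k] C) (AlgHom.id k B) t) =
      Algebra.TensorProduct.map (Algebra.TensorProduct.map (π : B →ₐ[k] C) (π : B →ₐ[k] C))
        (AlgHom.id k B) ((Coalgebra.comul (R := k) (A := B)).rTensor B t) := by
    intro t
    induction t using TensorProduct.induction_on with
    | zero => simp
    | tmul x y =>
      have h2 := CoalgHomClass.map_comp_comul_apply π x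
      simp only [exists_X0_al, Algebra.TensorProduct.map_tmul, LinearMap.rTensor_tmul]
      congr 1
      exact h2.symm
    | add s t hs ht => simp only [map_add, hs, ht]
  have h3 : ∀ (x : B) (t : B ⊗[k] B), (Algebra.TensorProduct.assoc k k k C C B).symm
      (π x ⊗ₜ[k] (Algebra.TensorProduct.map (π : B →ₐ[k] C) (AlgHom.id k B) t)) =
      Algebra.TensorProduct.map (Algebra.TensorProduct.map (π : B →ₐ[k] C) (π : B →ₐ[k] C))
        (AlgHom.id k B) ((TensorProduct.assoc k B B B).symm (x ⊗ₜ[k] t)) := by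
    intro x t
    induction t using TensorProduct.induction_on with
    | zero => simp
    | tmul y z => simp
    | add s t hs ht => simp only [map_add, hs, ht, TensorProduct.tmul_add]
  have h4 : ∀ t : B ⊗[k] B, exists_X0_be π
      (Algebra.TensorProduct.map (π : B →ₐ[k] C) (AlgHom.id k B) t) =
      Algebra.TensorProduct.map (Algebra.TensorProduct.map (π : B →ₐ[k] C) (π : B →ₐ[k] C))
        (AlgHom.id k B) ((TensorProduct.assoc k B B B).symm
          ((Coalgebra.comul (R := k) (A := B)).lTensor B t)) := by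
    intro t
    induction t using TensorProduct.induction_on with
    | zero => simp
    | tmul x y =>
      rw [LinearMap.lTensor_tmul, ← h3]
      simp [exists_X0_be, rho]
    | add s t hs ht => simp only [map_add, hs, ht]
  have h5 : rho π b = Algebra.TensorProduct.map (π : B →ₐ[k] C) (AlgHom.id k B)
      (Coalgebra.comul (R := k) b) := rfl
  rw [h5, h1, h4, Coalgebra.coassoc_symm_apply]

private theorem exists_X0_Phi_al (w : C ⊗[k] B) : exists_X0_Phi k (C ⊗[k] C) B (exists_X0_al k C B w) =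
    Coalgebra.comul (R := k) (exists_X0_Phi k C B w) := by
  induction w using TensorProduct.induction_on with
  | zero => simp
  | tmul c b => simp [exists_X0_Phi_tmul, exists_X0_al]
  | add s t hs ht => simp only [map_add, hs, ht]

private theorem exists_X0_Phi_ga (w : C ⊗[k] B) : exists_X0_Phi k (C ⊗[k] C) B (exists_X0_ga k C B w) =
    (1 : C) ⊗ₜ[k] (exists_X0_Phi k C B w) := by
  induction w using TensorProduct.induction_on with
  | zero => simp
  | tmul c b => simp [exists_X0_Phi_tmul, exists_X0_ga]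
  | add s t hs ht => simp only [map_add, hs, ht, TensorProduct.tmul_add]

private theorem exists_X0_Phi_be (π : B →ₐc[k] C) (w : C ⊗[k] B) :
    exists_X0_Phi k (C ⊗[k] C) B (exists_X0_be π w) =
    Algebra.TensorProduct.map (AlgHom.id k C) (π : B →ₐ[k] C) w := by
  have h : ∀ (c : C) (t : C ⊗[k] B), exists_X0_Phi k (C ⊗[k] C) B
      ((Algebra.TensorProduct.assoc k k k C C B).symm (c ⊗ₜ[k] t)) =
      c ⊗ₜ[k] (exists_X0_Phi k C B t) := by
    intro c t
    induction t using TensorProduct.induction_on with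
    | zero => simp
    | tmul c b => simp [exists_X0_Phi_tmul]
    | add s t hs ht => simp only [map_add, hs, ht, TensorProduct.tmul_add]
  induction w using TensorProduct.induction_on with
  | zero => simp
  | tmul c b =>
    have h1 : exists_X0_be π (c ⊗ₜ[k] b) =
        (Algebra.TensorProduct.assoc k k k C C B).symm (c ⊗ₜ[k] (rho π b)) := by
      simp [exists_X0_be]
    rw [h1, h, exists_X0_Phi_eq]
    simp
  | add s t hs ht => simp only [map_add, hs, ht]

include hB hs hk in
private theorem exists_X0_key (h : X ≠ 0) (w : C ⊗[k] B) (hw : rho π X = w * ((1 : C) ⊗ₜ[k] X)) :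
    Coalgebra.comul (R := k) (exists_X0_Phi k C B w) =
      Algebra.TensorProduct.map (AlgHom.id k C) (π : B →ₐ[k] C) w *
        ((1 : C) ⊗ₜ[k] (exists_X0_Phi k C B w)) := by
  have ha1 : exists_X0_al k C B ((1 : C) ⊗ₜ[k] X) = (1 : C ⊗[k] C) ⊗ₜ[k] X := by
    simp [exists_X0_al]
  have hg1 : exists_X0_ga k C B ((1 : C) ⊗ₜ[k] X) = (1 : C ⊗[k] C) ⊗ₜ[k] X := by
    simp [exists_X0_ga, Algebra.TensorProduct.one_def]
  have hb1 : exists_X0_be π ((1 : C) ⊗ₜ[k] X) = exists_X0_ga k C B (rho π X) := by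
    simp [exists_X0_be, exists_X0_ga]
  have hc := exists_X0_coassoc π X
  have h0 : (exists_X0_al k C B w - exists_X0_be π w * exists_X0_ga k C B w) * ((1 : C ⊗[k] C) ⊗ₜ[k] X) = 0 := by
    rw [sub_mul, mul_assoc, sub_eq_zero]
    calc exists_X0_al k C B w * ((1 : C ⊗[k] C) ⊗ₜ[k] X) = exists_X0_al k C B (rho π X) := by
          rw [hw, map_mul, ha1]
      _ = exists_X0_be π (rho π X) := hc
      _ = exists_X0_be π w * exists_X0_ga k C B (rho π X) := by
          conv_lhs => rw [hw]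
          rw [map_mul, hb1]
      _ = exists_X0_be π w * (exists_X0_ga k C B w * ((1 : C ⊗[k] C) ⊗ₜ[k] X)) := by
          rw [hw, map_mul, hg1]
  have h1 := exists_X0_free hB π hs X hk h h0
  rwa [map_sub, map_mul, exists_X0_Phi_al, exists_X0_Phi_be, exists_X0_Phi_ga, sub_eq_zero] at h1

private theorem exists_X0_counit (w : C ⊗[k] B) :
    Coalgebra.counit (R := k) (exists_X0_Phi k C B w) = aug2 k C B w := by
  induction w using TensorProduct.induction_on with
  | zero => simp
  | tmul c b => simp [exists_X0_Phi_tmul, aug2, mul_comm]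
  | add s t hs ht => simp only [map_add, hs, ht]

private theorem exists_X0_pi_rho (π : B →ₐc[k] C) (n : B) :
    Algebra.TensorProduct.map (AlgHom.id k C) (π : B →ₐ[k] C) (rho π n) =
      Coalgebra.comul (R := k) (π n) := by
  have h5 : ∀ t : B ⊗[k] B, Algebra.TensorProduct.map (AlgHom.id k C) (π : B →ₐ[k] C)
      (Algebra.TensorProduct.map (π : B →ₐ[k] C) (AlgHom.id k B) t) =
      TensorProduct.map (π : B →ₗ[k] C) (π : B →ₗ[k] C) t := by
    intro t
    induction t using TensorProduct.induction_on with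
    | zero => simp
    | tmul x y => simp
    | add s t hs ht => simp only [map_add, hs, ht]
  have h6 : rho π n = Algebra.TensorProduct.map (π : B →ₐ[k] C) (AlgHom.id k B)
    (Coalgebra.comul (R := k) n) := rfl
  rw [h6, h5]
  exact CoalgHomClass.map_comp_comul_apply π n

private theorem exists_X0_inv (ν ν' : C) (h1 : ν * ν' = 1) (h2 : ν' * ν = 1) (wb : C ⊗[k] C)
    (h : Coalgebra.comul (R := k) ν = wb * ((1 : C) ⊗ₜ[k] ν)) :
    Coalgebra.comul (R := k) ν' * wb = (1 : C) ⊗ₜ[k] ν' := by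
  have h6 : Coalgebra.comul (R := k) ν' * Coalgebra.comul (R := k) ν = 1 := by
    rw [← Bialgebra.comul_mul, h2, Bialgebra.comul_one]
  rw [h, ← mul_assoc] at h6
  have h7 : ((1 : C) ⊗ₜ[k] ν) * ((1 : C) ⊗ₜ[k] ν') = 1 := by
    rw [Algebra.TensorProduct.tmul_mul_tmul, h1, one_mul, Algebra.TensorProduct.one_def]
  calc Coalgebra.comul (R := k) ν' * wb
      = Coalgebra.comul (R := k) ν' * wb * (((1 : C) ⊗ₜ[k] ν) * ((1 : C) ⊗ₜ[k] ν')) := by
        rw [h7, mul_one]
    _ = (1 : C) ⊗ₜ[k] ν' := by rw [← mul_assoc, h6, one_mul]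

include hB hs hk in
/-- THE UNIT `ν`. For `X ≠ 0`, `rho X = w (1 ⊗ X)`, `w̄ = (id ⊗ π) w ∈ C ⊗ C`, `ν = (id ⊗ ε) w̄`,
`ε ν = 1`. From `(Δ ⊗ id) rho = (id ⊗ rho) rho` applied to `X` and freeness (in `C ⊗ C ⊗ B`):
`(Δ ⊗ id) w̄ = (id ⊗ Δ) w̄ * (1 ⊗ w̄)`, and applying `id ⊗ id ⊗ ε`, `Δ ν = w̄ (1 ⊗ ν)`. With `n` a lift
to `B` of `ν⁻¹` and `X₀ = n X` one has `rho X₀ - 1 ⊗ X₀ ∈ CI 2`. -/
theorem exists_X0 (h : X ≠ 0) : ∃ n : B, IsUnit n ∧
    rho π (n * X) - (1 : C) ⊗ₜ[k] (n * X) ∈ CI k C X 2 := by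
  obtain ⟨w, -, hw1, hw⟩ := exists_w hB π hs X hk (j := 1) (by rwa [pow_one])
  rw [pow_one] at hw
  have h1 := exists_X0_key hB π hs X hk h w hw
  have hε := exists_X0_counit w
  rw [hw1] at hε
  have hC : AugNil k C := augNil_of_surj π hs hB
  obtain ⟨u, hu⟩ := unit_of_counit hC (exists_X0_Phi k C B w) (by rw [hε]; exact one_ne_zero)
  have hu1 : exists_X0_Phi k C B w * (↑u⁻¹ : C) = 1 := by rw [← hu, Units.mul_inv]
  have hu2 : (↑u⁻¹ : C) * exists_X0_Phi k C B w = 1 := by rw [← hu, Units.inv_mul]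
  obtain ⟨n, hn⟩ := hs (↑u⁻¹ : C)
  have hn1 : Coalgebra.counit (R := k) n = 1 := by
    have h2 := congrArg (Coalgebra.counit (R := k)) hu1
    rw [Bialgebra.counit_mul, hε, one_mul, Bialgebra.counit_one] at h2
    rw [← CoalgHomClass.counit_comp_apply π n, hn, h2]
  refine ⟨n, unit_of_counit hB n (by rw [hn1]; exact one_ne_zero), ?_⟩
  have h3 : rho π (n * X) - (1 : C) ⊗ₜ[k] (n * X) =
      (rho π n * w - (1 : C) ⊗ₜ[k] n) * ((1 : C) ⊗ₜ[k] X) := by
    rw [map_mul, hw, sub_mul, mul_assoc, Algebra.TensorProduct.tmul_mul_tmul, one_mul]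
  have h5 : rho π n * w - (1 : C) ⊗ₜ[k] n ∈ CI k C X 1 := by
    rw [CI_one π X hs hk, map_sub, map_mul, exists_X0_pi_rho, hn,
      exists_X0_inv _ _ hu1 hu2 _ h1, sub_eq_zero, ← hn]
    simp
  have h6 : ((1 : C) ⊗ₜ[k] X) ∈ CI k C X 1 :=
    ⟨1, by rw [LinearMap.mulRight_apply, one_mul, pow_one]⟩
  have h7 := CI_mul π X hk h5 h6
  rw [one_add_one_eq_two] at h7
  rw [h3]
  exact h7

private theorem R1G10_zero {k : Type u} [Field k] {B C : Type u} [Ring B] [Ring C]
    [HopfAlgebra k B] [HopfAlgebra k C] (X : B) (t : C ⊗[k] B) : t ∈ CI k C X 0 := by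
  refine ⟨t, ?_⟩
  rw [LinearMap.mulRight_apply, pow_zero, ← Algebra.TensorProduct.one_def, mul_one]

private theorem R1G10_lift {k : Type u} [Field k] {B C : Type u} [Ring B] [Ring C]
    [HopfAlgebra k B] [HopfAlgebra k C] (π : B →ₐc[k] C) (X : B) (φ : B → B)
    (hφ : ∀ b, X * b = φ b * X) (f : B →ₗ[k] C) (hf : ∀ b, f b = π (φ b)) (t : C ⊗[k] B) :
    ∃ t' : C ⊗[k] B, ((1 : C) ⊗ₜ[k] X) * t = t' * ((1 : C) ⊗ₜ[k] X) ∧
      Algebra.TensorProduct.map (AlgHom.id k C) (π : B →ₐ[k] C) t' =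
        LinearMap.lTensor C f t := by
  induction t using TensorProduct.induction_on with
  | zero => exact ⟨0, by rw [mul_zero, zero_mul], by rw [map_zero, map_zero]⟩
  | tmul c b =>
    refine ⟨c ⊗ₜ[k] φ b, ?_, ?_⟩
    · rw [Algebra.TensorProduct.tmul_mul_tmul, Algebra.TensorProduct.tmul_mul_tmul, one_mul,
        mul_one, hφ b]
    · rw [Algebra.TensorProduct.map_tmul, LinearMap.lTensor_tmul, hf b]
      rfl
  | add s t hs ht =>
    obtain ⟨s', h1, h2⟩ := hs
    obtain ⟨t', h3, h4⟩ := ht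
    exact ⟨s' + t', by rw [mul_add, add_mul, h1, h3], by rw [map_add, map_add, h2, h4]⟩

private theorem R1G10_char {k : Type u} [Field k] {B : Type u} [Ring B] [HopfAlgebra k B]
    (hB : AugNil k B) (χ : B →ₐ[k] k) (b : B) : χ b = Coalgebra.counit (R := k) b := by
  obtain ⟨N, hN⟩ := hB
  have h1 : Coalgebra.counit (R := k) (b - algebraMap k B (Coalgebra.counit (R := k) b)) = 0 := by
    rw [map_sub, Bialgebra.counit_algebraMap, sub_self]
  have h2 : (b - algebraMap k B (Coalgebra.counit (R := k) b)) ^ N = 0 := by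
    have h3 := hN (List.replicate N (b - algebraMap k B (Coalgebra.counit (R := k) b)))
      List.length_replicate (fun a ha => by
        rw [List.eq_of_mem_replicate ha]
        exact h1)
    rwa [List.prod_replicate] at h3
  have h4 : χ (b - algebraMap k B (Coalgebra.counit (R := k) b)) ^ N = 0 := by
    rw [← map_pow, h2, map_zero]
  have h5 := (pow_eq_zero_iff (n := N) (by
    intro h
    rw [h, pow_zero] at h4
    exact one_ne_zero h4)).1 h4
  rw [map_sub, AlgHom.commutes, sub_eq_zero] at h5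
  exact h5

private theorem R1G10_rho {k : Type u} [Field k] {B C : Type u} [Ring B] [Ring C]
    [HopfAlgebra k B] [HopfAlgebra k C] (π : B →ₐc[k] C) (b : B) :
    Algebra.TensorProduct.map (AlgHom.id k C) (π : B →ₐ[k] C) (rho π b) =
      Coalgebra.comul (R := k) (π b) := by
  have h1 := CoalgHomClass.map_comp_comul_apply π b
  rw [← h1]
  unfold rho
  rw [AlgHom.comp_apply]
  change Algebra.TensorProduct.map (AlgHom.id k C) (π : B →ₐ[k] C)
    (Algebra.TensorProduct.map (π : B →ₐ[k] C) (AlgHom.id k B) (Coalgebra.comul (R := k) b)) = _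
  generalize Coalgebra.comul (R := k) b = t
  induction t using TensorProduct.induction_on with
  | zero => simp only [map_zero]
  | tmul c d => rfl
  | add s t hs ht => rw [map_add, map_add, map_add, hs, ht]

include hB hs hk in
/-- THE CHARACTER. Let `rho X - 1 ⊗ X ∈ CI 2`. For `b : B` choose `φ b` with `X b - φ(b) X ∈ B X²`,
`φ b ∈ B` unique modulo `B X` (freeness); `f = π ∘ φ : B → C` is an algebra homomorphism. Apply `rho`
to `X b = φ(b) X` modulo `CI 2`: `(1 ⊗ X) rho b = rho (φ b) (1 ⊗ X)`, and `(1 ⊗ X) (c ⊗ b') =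
(c ⊗ φ b') (1 ⊗ X)` modulo `CI 2`, so by freeness `(id ⊗ f) (rho b) = Δ (f b)`. Applying `id ⊗ ε`:
`f b = (id ⊗ χ) (rho b)` with the character `χ = ε ∘ f : B → k`; `χ = ε` because `χ` kills the
nilpotent `B⁺`. So `f b = π b` by `rid_rho`, which is the claim. -/
theorem cen_of (h : X ≠ 0) (hX : rho π X - (1 : C) ⊗ₜ[k] X ∈ CI k C X 2) (b : B) :
    ∃ b' : B, X * b - b * X = b' * X ^ 2 := by
  have hX0 : π X = 0 := (hk X).2 ⟨1, (one_mul X).symm⟩
  have hex : ∀ b : B, ∃ a : B, X * b = a * X := fun b =>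
    (hk (X * b)).1 (by rw [map_mul, hX0, zero_mul])
  choose φ hφ using hex
  have hp1 : X ^ 1 ≠ 0 := by rwa [pow_one]
  -- uniqueness modulo `B X`
  have huniq : ∀ a a' : B, a * X = a' * X → π a = π a' := by
    intro a a' haa
    have h1 : (a - a') * X ^ 1 ∈ Ix k X (1 + 1) := by
      rw [pow_one, sub_mul, haa, sub_self]
      exact Submodule.zero_mem _
    have h2 := free_of hB π hs X hk hp1 h1
    rwa [map_sub, sub_eq_zero] at h2
  -- the homomorphism `f`
  let f₀ : B →ₗ[k] C :=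
    { toFun := fun b => π (φ b)
      map_add' := fun b b' => by
        rw [← map_add]
        exact huniq _ _ (by rw [← hφ, add_mul, ← hφ, ← hφ, mul_add])
      map_smul' := fun c b => by
        rw [RingHom.id_apply, ← map_smul]
        exact huniq _ _ (by rw [← hφ, smul_mul_assoc, ← hφ, mul_smul_comm]) }
  have hf₀ : ∀ b, f₀ b = π (φ b) := fun _ => rfl
  let f : B →ₐ[k] C := AlgHom.ofLinearMap f₀
    (by
      rw [hf₀, ← map_one π]
      exact huniq _ _ (by rw [← hφ, mul_one, one_mul]))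
    (fun b b' => by
      rw [hf₀, hf₀, hf₀, ← map_mul]
      exact huniq _ _ (by rw [← hφ, mul_assoc, ← hφ, ← mul_assoc, ← mul_assoc, ← hφ]))
  -- `(id ⊗ f) (rho b) = Δ (f b)`
  have key : LinearMap.lTensor C f₀ (rho π b) = Coalgebra.comul (R := k) (f₀ b) := by
    obtain ⟨t', h1, h2⟩ := R1G10_lift π X φ hφ f₀ hf₀ (rho π b)
    have h3 : (t' - rho π (φ b)) * ((1 : C) ⊗ₜ[k] (X ^ 1)) ∈ CI k C X (1 + 1) := by
      have h4 : (t' - rho π (φ b)) * ((1 : C) ⊗ₜ[k] (X ^ 1)) =
          rho π (φ b) * (rho π X - (1 : C) ⊗ₜ[k] X) -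
            (rho π X - (1 : C) ⊗ₜ[k] X) * rho π b := by
        have h5 : rho π X * rho π b = rho π (φ b) * rho π X := by
          rw [← map_mul, hφ b, map_mul]
        rw [pow_one, sub_mul, ← h1, mul_sub, sub_mul, h5]
        abel
      rw [h4]
      refine Submodule.sub_mem _ ?_ ?_
      · have h6 := CI_mul π X hk (R1G10_zero X (rho π (φ b))) hX
        rwa [Nat.zero_add] at h6
      · have h6 := CI_mul π X hk hX (R1G10_zero X (rho π b))
        exact h6
    have h7 := free_of_tmul hB π hs X hk hp1 h3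
    rw [map_sub, sub_eq_zero, h2, R1G10_rho] at h7
    exact h7
  -- the character
  have hχ : (Coalgebra.counit (R := k) (A := C)) ∘ₗ f₀ = Coalgebra.counit (R := k) (A := B) := by
    ext x
    exact R1G10_char hB ((Bialgebra.counitAlgHom k C).comp f) x
  have h8 : f₀ b = π b := by
    have h9 := congrArg (fun t => TensorProduct.rid k C
      (LinearMap.lTensor C (Coalgebra.counit (R := k) (A := C)) t)) key
    change TensorProduct.rid k C (LinearMap.lTensor C (Coalgebra.counit (R := k) (A := C))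
      (LinearMap.lTensor C f₀ (rho π b))) = TensorProduct.rid k C
      (LinearMap.lTensor C (Coalgebra.counit (R := k) (A := C)) (Coalgebra.comul (R := k) (f₀ b)))
      at h9
    rw [← LinearMap.comp_apply, ← LinearMap.lTensor_comp, hχ, rid_rho,
      Coalgebra.lTensor_counit_comul, TensorProduct.rid_tmul, one_smul] at h9
    exact h9.symm
  obtain ⟨c, hc⟩ := (hk (φ b - b)).1 (by rw [map_sub, ← hf₀, h8, sub_self])
  refine ⟨c, ?_⟩
  rw [hφ b, ← sub_mul, hc, pow_two, mul_assoc]

end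

private theorem R1G11_CI {k : Type u} [Field k] {B C : Type u} [Ring B] [Ring C]
    [HopfAlgebra k B] [HopfAlgebra k C] (X Y : B) (c : B) (h : X ^ 2 = c * Y ^ 2) :
    CI k C X 2 ≤ CI k C Y 2 := by
  rintro _ ⟨t, rfl⟩
  refine ⟨t * ((1 : C) ⊗ₜ[k] c), ?_⟩
  rw [LinearMap.mulRight_apply, LinearMap.mulRight_apply, mul_assoc,
    Algebra.TensorProduct.tmul_mul_tmul, mul_one, h]

private theorem R1G11_zero {k : Type u} [Field k] {B C : Type u} [Ring B] [Ring C]
    [HopfAlgebra k B] [HopfAlgebra k C] (π : B →ₐc[k] C) (hs : Function.Surjective π)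
    (hk : ∀ b : B, π b = 0 ↔ ∃ b' : B, b = b' * 0) :
    Module.finrank k B = 1 * Module.finrank k C := by
  have hi : Function.Injective (π : B →ₐ[k] C).toLinearMap := by
    rw [injective_iff_map_eq_zero]
    intro b hb
    obtain ⟨b', hb'⟩ := (hk b).1 hb
    rw [hb', mul_zero]
  rw [one_mul]
  exact (LinearEquiv.ofBijective (π : B →ₐ[k] C).toLinearMap ⟨hi, hs⟩).finrank_eq

/-- Principal Hopf ideals of local Hopf algebras: `RData` exists. (`N` = nilpotency index; if `X = 0`
then `N = 1` and `π` is bijective. Replace `X` by `n X` of `exists_X0`: it generates the same left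
ideal, its nilpotency index is the same since `B (n X)^j = B X^j`.) -/
theorem exists_rdata_local {k : Type u} [Field k] {B C : Type u} [Ring B] [Ring C]
    [HopfAlgebra k B] [HopfAlgebra k C] [Module.Finite k B] [Module.Finite k C]
    (hB : AugNil k B) (π : B →ₐc[k] C) (hs : Function.Surjective π) (X : B)
    (hk : ∀ b : B, π b = 0 ↔ ∃ b' : B, b = b' * X) : ∃ N, Nonempty (RData N π) := by
  by_cases h : X = 0
  · subst h
    exact ⟨1, ⟨⟨0, hs, hk, pow_one 0, R1G11_zero π hs hk,
      fun b => ⟨0, by rw [zero_mul, mul_zero, zero_mul, sub_self]⟩⟩⟩⟩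
  obtain ⟨n, hn, h2⟩ := exists_X0 hB π hs X hk h
  obtain ⟨m, hm1⟩ : ∃ m : B, m * n = 1 := hn.exists_left_inv
  obtain ⟨Y, hY⟩ : ∃ Y : B, Y = n * X := ⟨_, rfl⟩
  rw [← hY] at h2
  have hX : X = m * Y := by rw [hY, ← mul_assoc, hm1, one_mul]
  have hkY : ∀ b : B, π b = 0 ↔ ∃ b' : B, b = b' * Y := by
    intro b
    rw [hk b]
    constructor
    · rintro ⟨b', rfl⟩
      exact ⟨b' * m, by rw [mul_assoc, ← hX]⟩
    · rintro ⟨b', rfl⟩
      exact ⟨b' * n, by rw [mul_assoc, ← hY]⟩
  have hY0 : Y ≠ 0 := by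
    intro h3
    apply h
    rw [hX, h3, mul_zero]
  have hπY : π Y = 0 := (hkY Y).2 ⟨1, (one_mul Y).symm⟩
  obtain ⟨c, hc⟩ := (hkY (Y * m)).1 (by rw [map_mul, hπY, zero_mul])
  have h3 : X ^ 2 = (m * c) * Y ^ 2 := by
    rw [pow_two, pow_two, hX, mul_assoc, ← mul_assoc Y m Y, hc, mul_assoc, mul_assoc]
  have h4 := R1G11_CI (C := C) X Y (m * c) h3 h2
  obtain ⟨N, hN0, hN1⟩ : ∃ N, Y ^ N = 0 ∧ ∀ j, j < N → Y ^ j ≠ 0 := by
    classical
    exact ⟨Nat.find (X_nilp hB π Y hkY), Nat.find_spec (X_nilp hB π Y hkY),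
      fun j hj => Nat.find_min (X_nilp hB π Y hkY) hj⟩
  exact ⟨N, ⟨⟨Y, hs, hkY, hN0, dim_eq hB π hs Y hkY hN0 hN1,
    fun b => cen_of hB π hs Y hkY hY0 h4 b⟩⟩⟩

end Pool.Agent.Helper77.R1
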