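import Pool.Agent.Helper77.R1.WtB

/-!
# Project R1, part B1: the filtration of `D` and the differential

`T : LSD k E D N`: a letter structure such that `l_0` is a homomorphism of bialgebras, the
comultiplication of `D` is the graded one up to terms of lower weight, and the multiplication respects
the filtration `Fil j = ∑_{i ≤ j} l_i(E)`.
-/

set_option linter.unusedSectionVars false
set_option autoImplicit false

open scoped TensorProduct
open Pool.Agent.Helper90.FC

namespace Pool.Agent.Helper77.R1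

universe u

namespace LS

section

variable {k : Type u} [Field k] {E D : Type u} [Ring E] [Bialgebra k E] [Ring D] [Bialgebra k D]
variable {N : ℕ} (S : LS k E D N)

/-- The filtration by weight. -/
noncomputable def Fil (j : ℕ) : Submodule k D :=
  Submodule.span k {f | ∃ (i : ℕ) (g : E), i ≤ j ∧ S.l i g = f}

/-- The filtration of the tensor square. -/
noncomputable def F2 (j : ℕ) : Submodule k (D ⊗[k] D) :=
  Submodule.span k {t | ∃ (a b : ℕ) (f g : D), a + b ≤ j ∧ f ∈ S.Fil a ∧ g ∈ S.Fil b ∧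
    f ⊗ₜ[k] g = t}

theorem l_mem_Fil {i j : ℕ} (h : i ≤ j) (g : E) : S.l i g ∈ S.Fil j :=
  Submodule.subset_span ⟨i, g, h, rfl⟩

theorem Fil_mono {i j : ℕ} (h : i ≤ j) : S.Fil i ≤ S.Fil j := by
  refine Submodule.span_mono ?_
  rintro _ ⟨a, g, ha, rfl⟩
  exact ⟨a, g, ha.trans h, rfl⟩

/-- (`S.span`) -/
theorem Fil_top (j : ℕ) (h : N ≤ j + 1) (f : D) : f ∈ S.Fil j := by
  rw [← S.span f]
  refine Submodule.sum_mem _ fun i hi => S.l_mem_Fil ?_ _
  have := Finset.mem_range.1 hi
  omega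

theorem tmul_mem_F2 {a b j : ℕ} (h : a + b ≤ j) {f g : D} (hf : f ∈ S.Fil a) (hg : g ∈ S.Fil b) :
    f ⊗ₜ[k] g ∈ S.F2 j :=
  Submodule.subset_span ⟨a, b, f, g, h, hf, hg, rfl⟩

theorem F2_mono {i j : ℕ} (h : i ≤ j) : S.F2 i ≤ S.F2 j := by
  refine Submodule.span_mono ?_
  rintro _ ⟨a, b, f, g, hab, hf, hg, rfl⟩
  exact ⟨a, b, f, g, hab.trans h, hf, hg, rfl⟩

/-- `f ∈ Fil j` gives a letter of weight at most `j`. -/
theorem io_mem_Fil {j : ℕ} {f : D} (hf : f ∈ S.Fil j) : io k f ∈ S.Wt 1 j := by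
  have h1 : S.Fil j ≤ (S.Wt 1 j).comap (TensorAlgebra.ι k : D →ₗ[k] TA k D) := by
    refine Submodule.span_le.2 ?_
    rintro _ ⟨i, g, hi, rfl⟩
    exact S.Wt_mono hi (S.L_mem_Wt i g)
  exact h1 hf

/-- Tensors of weight at most `j` give elements of `Wt 2 j`. -/
theorem F2_Wt {j : ℕ} {t : D ⊗[k] D} (ht : t ∈ S.F2 j) :
    LinearMap.mul' k (TA k D) (TensorProduct.map (TensorAlgebra.ι k) (TensorAlgebra.ι k) t) ∈
      S.Wt 2 j := by
  have h1 : S.F2 j ≤ (S.Wt 2 j).comap (LinearMap.mul' k (TA k D) ∘ₗ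
      TensorProduct.map (TensorAlgebra.ι k) (TensorAlgebra.ι k)) := by
    refine Submodule.span_le.2 ?_
    rintro _ ⟨a, b, f, g, hab, hf, hg, rfl⟩
    change LinearMap.mul' k (TA k D)
      (TensorProduct.map (TensorAlgebra.ι k) (TensorAlgebra.ι k) (f ⊗ₜ[k] g)) ∈ S.Wt 2 j
    rw [TensorProduct.map_tmul, LinearMap.mul'_apply]
    have h2 : io k f * io k g ∈ S.Wt (1 + 1) (a + b) :=
      S.Wt_mul (S.io_mem_Fil hf) (S.io_mem_Fil hg)
    have h3 : io k f * io k g ∈ S.Wt 2 (a + b) := h2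
    exact S.Wt_mono hab h3
  exact h1 ht

/-- (Induction `TensorAlgebra.induction` on `w`.) -/
theorem ss_JJ (w : TA k E) : S.ss (S.JJ w) = 0 := by
  induction w using TensorAlgebra.induction with
  | algebraMap r =>
    rw [AlgHom.commutes, Algebra.algebraMap_eq_smul_one, map_smul,
      tw_one S.bars S.bar S.ss S.ss_mul, smul_zero]
  | ι g =>
    have h1 : S.JJ (TensorAlgebra.ι k g) = S.L 0 g := S.JJ_io g
    rw [h1, ss_L, if_neg (by omega)]
  | mul x y hx hy => rw [map_mul, ss_mul, hx, hy, mul_zero, zero_mul, add_zero]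
  | add x y hx hy => rw [map_add, map_add, hx, hy, add_zero]

theorem tt_JJ (w : TA k E) : S.tt (S.JJ w) = 0 := by
  induction w using TensorAlgebra.induction with
  | algebraMap r =>
    rw [AlgHom.commutes, Algebra.algebraMap_eq_smul_one, map_smul,
      tw_one S.bar S.bars S.tt S.tt_mul, smul_zero]
  | ι g =>
    have h1 : S.JJ (TensorAlgebra.ι k g) = S.L 0 g := S.JJ_io g
    rw [h1, tt_L, if_neg (by have := S.two_le; omega)]
  | mul x y hx hy => rw [map_mul, tt_mul, hx, hy, mul_zero, zero_mul, add_zero]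
  | add x y hx hy => rw [map_add, map_add, hx, hy, add_zero]

theorem Psi_JJ (w : TA k E) : S.Psi (S.JJ w) = 0 := by
  induction w using TensorAlgebra.induction with
  | algebraMap r =>
    have h1 : S.Psi 1 = 0 := by
      have h2 := S.Psi_mul 1 1
      rw [mul_one, tw_one S.bar S.bars S.tt S.tt_mul, zero_mul, map_one S.bar, one_mul, mul_one,
        add_zero] at h2
      exact left_eq_add.mp h2
    rw [AlgHom.commutes, Algebra.algebraMap_eq_smul_one, map_smul, h1, smul_zero]
  | ι g =>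
    have h1 : S.JJ (TensorAlgebra.ι k g) = io k (S.l 0 g) := S.JJ_io g
    rw [h1, Psi_io]
  | mul x y hx hy =>
    rw [map_mul, Psi_mul, hx, hy, tt_JJ, mul_zero, zero_mul, zero_mul, add_zero, add_zero]
  | add x y hx hy => rw [map_add, map_add, hx, hy, add_zero]

/-- The graded part of the comultiplication. -/
noncomputable def com0 (j : ℕ) (g : E) : D ⊗[k] D :=
  ∑ a ∈ Finset.range (j + 1), TensorProduct.map (S.l a) (S.l (j - a)) (Coalgebra.comul (R := k) g)

theorem com0_mem (j : ℕ) (g : E) : S.com0 j g ∈ S.F2 j := by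
  refine Submodule.sum_mem _ fun a ha => ?_
  have ha' := Finset.mem_range.1 ha
  generalize Coalgebra.comul (R := k) g = t
  induction t using TensorProduct.induction_on with
  | zero => rw [map_zero]; exact Submodule.zero_mem _
  | tmul x y =>
    rw [TensorProduct.map_tmul]
    exact S.tmul_mem_F2 (by omega) (S.l_mem_Fil le_rfl x) (S.l_mem_Fil le_rfl y)
  | add x y hx hy => rw [map_add]; exact Submodule.add_mem _ hx hy

end

end LS

/-- The letter structure with its compatibilities. -/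
structure LSD (k : Type u) [Field k] (E D : Type u) [Ring E] [Bialgebra k E] [Ring D]
    [Bialgebra k D] (N : ℕ) extends LS k E D N where
  φ : E →ₐc[k] D
  l_zero : ∀ g, l 0 g = φ g
  comul_low : ∀ j, j + 1 < N → ∀ g,
    Coalgebra.comul (R := k) (l (j + 1) g) - toLS.com0 (j + 1) g ∈ toLS.F2 j
  mul_low : ∀ a b f g, f ∈ toLS.Fil a → g ∈ toLS.Fil b → f * g ∈ toLS.Fil (a + b)

namespace LSD

section

variable {k : Type u} [Field k] {E D : Type u} [Ring E] [Bialgebra k E] [Ring D] [Bialgebra k D]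
variable {N : ℕ} (T : LSD k E D N)

theorem l_zero_one : T.l 0 1 = 1 := by
  rw [T.l_zero, map_one]

theorem e_eq : T.toLS.e = io k (1 : D) := by
  rw [LS.e, LS.L_eq, T.l_zero_one]

theorem one_mem_Fil (j : ℕ) : (1 : D) ∈ T.toLS.Fil j := by
  rw [← T.l_zero_one]
  exact T.toLS.l_mem_Fil (Nat.zero_le j) 1

/-- (`comul (φ g) = (φ ⊗ φ) (comul g)`) -/
theorem comul_zero (g : E) : Coalgebra.comul (R := k) (T.l 0 g) = T.toLS.com0 0 g := by
  have h0 : T.l 0 = (T.φ : E →ₗ[k] D) := LinearMap.ext T.l_zero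
  have h1 : T.toLS.com0 0 g = TensorProduct.map (T.l 0) (T.l 0) (Coalgebra.comul (R := k) g) := by
    unfold LS.com0
    rw [zero_add, Finset.sum_range_one]
  rw [h1, h0]
  exact (CoalgHomClass.map_comp_comul_apply T.φ g).symm

/-- (`comul_low`, `comul_zero`, `com0_mem`; for `j ≥ N` the letter is zero.) -/
theorem comul_Fil {j : ℕ} {f : D} (hf : f ∈ T.toLS.Fil j) :
    Coalgebra.comul (R := k) f ∈ T.toLS.F2 j := by
  unfold LS.Fil at hf
  induction hf using Submodule.span_induction with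
  | mem f hf =>
    obtain ⟨i, g, hi, rfl⟩ := hf
    rcases i with _ | i
    · rw [T.comul_zero]
      exact T.toLS.F2_mono (Nat.zero_le j) (T.toLS.com0_mem 0 g)
    · by_cases hN : i + 1 < N
      · have h1 := T.toLS.F2_mono (show i ≤ j by omega) (T.comul_low i hN g)
        have h2 := T.toLS.F2_mono hi (T.toLS.com0_mem (i + 1) g)
        have h3 := add_mem h1 h2
        rwa [sub_add_cancel] at h3
      · have h1 : T.l (i + 1) = 0 := T.l_ge (i + 1) (by omega)
        rw [h1, LinearMap.zero_apply, map_zero]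
        exact zero_mem _
  | zero =>
    rw [map_zero]
    exact zero_mem _
  | add x y _ _ hx hy =>
    rw [map_add]
    exact add_mem hx hy
  | smul a x _ hx =>
    rw [map_smul]
    exact Submodule.smul_mem _ a hx

theorem F2_mul {i j : ℕ} {s t : D ⊗[k] D} (hs : s ∈ T.toLS.F2 i) (ht : t ∈ T.toLS.F2 j) :
    s * t ∈ T.toLS.F2 (i + j) := by
  unfold LS.F2 at hs
  induction hs using Submodule.span_induction with
  | mem x hx =>
    obtain ⟨a, b, f, g, hab, hf, hg, rfl⟩ := hx
    unfold LS.F2 at ht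
    induction ht using Submodule.span_induction with
    | mem y hy =>
      obtain ⟨a', b', f', g', hab', hf', hg', rfl⟩ := hy
      rw [Algebra.TensorProduct.tmul_mul_tmul]
      exact T.toLS.tmul_mem_F2 (by omega) (T.mul_low a a' f f' hf hf')
        (T.mul_low b b' g g' hg hg')
    | zero =>
      rw [mul_zero]
      exact zero_mem _
    | add x y _ _ hx hy =>
      rw [mul_add]
      exact add_mem hx hy
    | smul c x _ hx =>
      rw [mul_smul_comm]
      exact Submodule.smul_mem _ c hx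
  | zero =>
    rw [zero_mul]
    exact zero_mem _
  | add x y _ _ hx hy =>
    rw [add_mul]
    exact add_mem hx hy
  | smul c x _ hx =>
    rw [smul_mul_assoc]
    exact Submodule.smul_mem _ c hx

/-- `l 0` is a homomorphism, so `JJ` is a homomorphism of differential algebras (`mapT_dd`). -/
theorem JJ_eq (w : TA k E) : T.toLS.JJ w = mapT (T.φ : E →ₗ[k] D) w := by
  have h : T.toLS.l 0 = (T.φ : E →ₗ[k] D) := by
    ext g
    rw [T.l_zero]
    rfl
  unfold LS.JJ
  rw [h]

theorem dd_JJ (w : TA k E) : dd k D (T.toLS.JJ w) = T.toLS.JJ (dd k E w) := by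
  rw [JJ_eq, JJ_eq, mapT_dd]

theorem RR_JJ (y w : TA k E) :
    RR k D (T.toLS.JJ y) (T.toLS.JJ w) = T.toLS.JJ (RR k E y w) := by
  rw [JJ_eq, JJ_eq, JJ_eq, mapT_RR]

theorem dd_io_eq (a : D) : dd k D (io k a) =
    T.toLS.e * io k a + io k a * T.toLS.e - DelT k D a := by
  rw [dd_io, T.e_eq]

private theorem R1B1c_conv (a b : ℕ) (g : E) : (T.toLS.Lc a * T.toLS.Lc b).ofConv g =
    LinearMap.mul' k (TA k D) (TensorProduct.map (TensorAlgebra.ι k) (TensorAlgebra.ι k)
      (TensorProduct.map (T.toLS.l a) (T.toLS.l b) (Coalgebra.comul (R := k) g))) := by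
  have h1 : (T.toLS.Lc a * T.toLS.Lc b).ofConv g = LinearMap.mul' k (TA k D)
      (TensorProduct.map (T.toLS.Lt a) (T.toLS.Lt b) (Coalgebra.comul (R := k) g)) := rfl
  rw [h1]
  unfold LS.Lt
  rw [TensorProduct.map_comp]
  rfl

/-- The graded differential of a letter: `d0c` evaluated at `g`. -/
theorem d0_L_eq (j : ℕ) (hj : j < N) (g : E) : T.toLS.d0 (T.toLS.L j g) =
    T.toLS.e * T.toLS.L j g + T.toLS.L j g * T.toLS.e -
      LinearMap.mul' k (TA k D) (TensorProduct.map (TensorAlgebra.ι k) (TensorAlgebra.ι k)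
        (T.toLS.com0 j g)) := by
  have h1 : T.toLS.d0 (T.toLS.L j g) = (T.toLS.d0c j).ofConv g := by
    have := congrArg (fun φ : Rc k E D => φ.ofConv g) (T.toLS.d0_Lc j hj)
    exact this
  have h2 : (T.toLS.d0c j).ofConv g = T.toLS.e * T.toLS.L j g + T.toLS.L j g * T.toLS.e -
      ∑ a ∈ Finset.range (j + 1), (T.toLS.Lc a * T.toLS.Lc (j - a)).ofConv g := by
    unfold LS.d0c
    rw [kc_mul_eq, mul_kc_eq, WithConv.ofConv_sub, WithConv.ofConv_add, WithConv.ofConv_sum,
      LinearMap.sub_apply, LinearMap.add_apply, LinearMap.sum_apply, post_apply, post_apply]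
    rfl
  rw [h1, h2]
  congr 1
  unfold LS.com0
  rw [map_sum, map_sum]
  exact Finset.sum_congr rfl fun a _ => R1B1c_conv T a (j - a) g

/-- The lower part of the differential. -/
noncomputable def de : TA k D →ₗ[k] TA k D := dd k D - T.toLS.d0

theorem de_apply (f : TA k D) : T.de f = dd k D f - T.toLS.d0 f := rfl

theorem de_mul (f g : TA k D) : T.de (f * g) = sg k D f * T.de g + T.de f * g := by
  rw [de_apply, de_apply, de_apply, dd_mul, LS.d0_mul]
  noncomm_ring

theorem de_L_zero (g : E) : T.de (T.toLS.L 0 g) = 0 := by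
  have hN : 0 < N := by have := T.two_le; omega
  rw [de_apply, T.d0_L_eq 0 hN g, LS.L_eq, T.dd_io_eq, ← T.comul_zero g]
  exact sub_self _

theorem de_L_succ (j : ℕ) (g : E) : T.de (T.toLS.L (j + 1) g) ∈ T.toLS.Wt 2 j := by
  rcases lt_or_ge (j + 1) N with hj | hj
  · have h1 := T.toLS.F2_Wt (T.comul_low j hj g)
    rw [map_sub, map_sub] at h1
    rw [de_apply, T.d0_L_eq (j + 1) hj g, LS.L_eq, T.dd_io_eq]
    have h2 : ∀ a b c : TA k D, (a - b) - (a - c) = -(b - c) := fun a b c => by abel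
    rw [h2]
    exact Submodule.neg_mem _ h1
  · rw [T.toLS.L_ge (j + 1) hj, map_zero]
    exact Submodule.zero_mem _

private theorem R1B1c_one : T.de 1 = 0 :=
  tw_one (sg k D) (AlgHom.id k (TA k D)) T.de T.de_mul

private theorem R1B1c_wd_zero (w : List (ℕ × E)) (h : LS.wt w = 0) :
    T.de (T.toLS.wd w) = 0 := by
  induction w with
  | nil => rw [LS.wd_nil, R1B1c_one]
  | cons x w ih =>
    rw [LS.wt_cons] at h
    have h1 : x.1 = 0 := by omega
    rw [LS.wd_cons, de_mul, ih (by omega), h1, de_L_zero, mul_zero, zero_mul, add_zero]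

private theorem R1B1c_wd_mem (w : List (ℕ × E)) :
    T.de (T.toLS.wd w) ∈ T.toLS.Wt (w.length + 1) (LS.wt w - 1) := by
  induction w with
  | nil => rw [LS.wd_nil, R1B1c_one]; exact Submodule.zero_mem _
  | cons x w ih =>
    have hs : sg k D (T.toLS.L x.1 x.2) = -T.toLS.L x.1 x.2 := sg_io k D _
    rw [LS.wd_cons, de_mul, hs, neg_mul, LS.wt_cons, List.length_cons]
    refine Submodule.add_mem _ (Submodule.neg_mem _ ?_) ?_
    · by_cases h0 : LS.wt w = 0
      · rw [R1B1c_wd_zero T w h0, mul_zero]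
        exact Submodule.zero_mem _
      · have h1 := T.toLS.Wt_mul (T.toLS.L_mem_Wt x.1 x.2) ih
        rw [show 1 + (w.length + 1) = w.length + 1 + 1 by omega,
          show x.1 + (LS.wt w - 1) = x.1 + LS.wt w - 1 by omega] at h1
        exact h1
    · by_cases h0 : x.1 = 0
      · rw [h0, de_L_zero, zero_mul]
        exact Submodule.zero_mem _
      · obtain ⟨j, hj⟩ := Nat.exists_eq_succ_of_ne_zero h0
        have h1 : T.de (T.toLS.L x.1 x.2) ∈ T.toLS.Wt 2 (x.1 - 1) := by
          rw [hj]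
          exact T.de_L_succ j x.2
        have h2 := T.toLS.Wt_mul h1 (T.toLS.wd_mem w rfl le_rfl)
        rw [show 2 + w.length = w.length + 1 + 1 by omega,
          show x.1 - 1 + LS.wt w = x.1 + LS.wt w - 1 by omega] at h2
        exact h2

/-- (Induction on the list.) -/
theorem de_zero {n : ℕ} {f : TA k D} (hf : f ∈ T.toLS.Wt n 0) : T.de f = 0 := by
  have h1 := T.toLS.Wt_map T.de ⊥ (fun w _ hw => by
    rw [Submodule.mem_bot]
    exact R1B1c_wd_zero T w (Nat.le_zero.1 hw)) hf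
  exact (Submodule.mem_bot k).1 h1

/-- (Induction on the list: a word of weight `≤ j + 1` is sent to words of weight `≤ j`.) -/
theorem de_mem {n j : ℕ} {f : TA k D} (hf : f ∈ T.toLS.Wt n (j + 1)) :
    T.de f ∈ T.toLS.Wt (n + 1) j := by
  refine T.toLS.Wt_map T.de (T.toLS.Wt (n + 1) j) (fun w hn hj => ?_) hf
  rw [← hn]
  exact T.toLS.Wt_mono (by omega) (R1B1c_wd_mem T w)

theorem dd_mem {n j : ℕ} {f : TA k D} (hf : f ∈ T.toLS.Wt n j) :
    dd k D f ∈ T.toLS.Wt (n + 1) j := by
  have h1 : dd k D f = T.toLS.d0 f + T.de f := by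
    rw [de_apply]
    abel
  rw [h1]
  refine Submodule.add_mem _ (T.toLS.d0_mem hf) ?_
  cases j with
  | zero =>
    rw [T.de_zero hf]
    exact Submodule.zero_mem _
  | succ j => exact T.toLS.Wt_mono (Nat.le_succ j) (T.de_mem hf)

theorem d0_JJ (w : TA k E) : T.toLS.d0 (T.toLS.JJ w) = dd k D (T.toLS.JJ w) := by
  have h1 : T.toLS.d0 ∘ₗ T.toLS.JJ.toLinearMap = dd k D ∘ₗ T.toLS.JJ.toLinearMap := by
    refine twDer_ext ((sg k D).comp T.toLS.JJ) T.toLS.JJ _ _ ?_ ?_ ?_
    · intro x y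
      simp only [LinearMap.comp_apply, AlgHom.toLinearMap_apply, AlgHom.comp_apply]
      rw [map_mul, LS.d0_mul]
    · intro x y
      simp only [LinearMap.comp_apply, AlgHom.toLinearMap_apply, AlgHom.comp_apply]
      rw [map_mul, dd_mul]
    · intro a
      have h2 := T.de_L_zero a
      rw [de_apply, sub_eq_zero] at h2
      have h3 : T.toLS.JJ (TensorAlgebra.ι k a) = T.toLS.L 0 a := T.toLS.JJ_io a
      simp only [LinearMap.comp_apply, AlgHom.toLinearMap_apply]
      rw [h3, h2]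
  exact LinearMap.congr_fun h1 w

private theorem B1d_word (w : List (ℕ × E)) : ∀ (i : ℕ) (a : D), a ∈ T.toLS.Fil i →
    actT k D (T.toLS.wd w) a ∈ T.toLS.Wt w.length (i + LS.wt w) := by
  induction w with
  | nil =>
    intro i a _
    have h1 : actT k D (T.toLS.wd []) a = Coalgebra.counit (R := k) a • (1 : TA k D) := by
      rw [LS.wd_nil, ← Algebra.algebraMap_eq_smul_one]
      simp only [actT, map_one]
      rfl
    rw [h1]
    exact Submodule.smul_mem _ _ (T.toLS.one_mem_Wt _)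
  | cons x w ih =>
    intro i a ha
    have h1 : actT k D (T.toLS.wd (x :: w)) a = LinearMap.mul' k (TA k D)
        (TensorProduct.map (actT k D (io k (T.l x.1 x.2))) (actT k D (T.toLS.wd w))
          (Coalgebra.comul (R := k) a)) := by
      rw [LS.wd_cons, LS.L_eq]
      simp only [actT, map_mul]
      rfl
    rw [h1]
    have h2 : T.toLS.F2 i ≤ (T.toLS.Wt (x :: w).length (i + LS.wt (x :: w))).comap
        (LinearMap.mul' k (TA k D) ∘ₗ
          TensorProduct.map (actT k D (io k (T.l x.1 x.2))) (actT k D (T.toLS.wd w))) := by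
      refine Submodule.span_le.2 ?_
      rintro _ ⟨c, b, f, g, hcb, hf, hg, rfl⟩
      change LinearMap.mul' k (TA k D) (TensorProduct.map (actT k D (io k (T.l x.1 x.2)))
        (actT k D (T.toLS.wd w)) (f ⊗ₜ[k] g)) ∈ T.toLS.Wt (x :: w).length (i + LS.wt (x :: w))
      rw [TensorProduct.map_tmul, LinearMap.mul'_apply, actT_io]
      have h3 := T.toLS.io_mem_Fil (T.mul_low c x.1 f (T.l x.1 x.2) hf
        (T.toLS.l_mem_Fil le_rfl x.2))
      have h4 := T.toLS.Wt_mul h3 (ih b g hg)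
      have h5 : 1 + w.length = (x :: w).length := by
        rw [List.length_cons, Nat.add_comm]
      rw [h5] at h4
      refine T.toLS.Wt_mono ?_ h4
      rw [LS.wt_cons]
      omega
    exact h2 (T.comul_Fil ha)

/-- The action of `D` on `T(D)` and weights: `a · (f g) = ∑ (a₁ · f) (a₂ · g)`, induction on the list;
letters: `a · ι b = ι (a b)` and `mul_low`. -/
theorem act_mem {n i j : ℕ} {a : D} (ha : a ∈ T.toLS.Fil i) {f : TA k D}
    (hf : f ∈ T.toLS.Wt n j) : actT k D f a ∈ T.toLS.Wt n (i + j) := by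
  let O : TA k D →ₗ[k] TA k D :=
    { toFun := fun f => actT k D f a
      map_add' := fun x y => by simp [actT]
      map_smul' := fun c x => by simp [actT] }
  refine T.toLS.Wt_map O (T.toLS.Wt n (i + j)) (fun w hn hw => ?_) hf
  change actT k D (T.toLS.wd w) a ∈ T.toLS.Wt n (i + j)
  have h1 := B1d_word T w i a ha
  rw [hn] at h1
  exact T.toLS.Wt_mono (Nat.add_le_add_left hw i) h1

private theorem B1d_RR {n i : ℕ} {y : TA k D} (hy : y ∈ T.toLS.Wt (n + 1) i)
    (w : List (ℕ × E)) :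
    RR k D y (T.toLS.wd w) ∈ T.toLS.Wt (w.length + n) (i + LS.wt w) := by
  induction w with
  | nil =>
    rw [LS.wd_nil, RR_one]
    exact Submodule.zero_mem _
  | cons x w ih =>
    rw [LS.wd_cons, RR_mul, LS.L_eq, RR_io]
    refine Submodule.add_mem _ ?_ ?_
    · have h1 := T.toLS.Wt_mul (T.toLS.io_mem_Fil (T.toLS.l_mem_Fil (le_refl x.1) x.2)) ih
      have h2 : 1 + (w.length + n) = (x :: w).length + n := by
        rw [List.length_cons]
        omega
      rw [h2] at h1
      refine T.toLS.Wt_mono ?_ h1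
      rw [LS.wt_cons]
      omega
    · have h1 := T.toLS.Wt_mul (T.act_mem (T.toLS.l_mem_Fil (le_refl x.1) x.2) hy)
        (T.toLS.wd_mem w rfl (le_refl (LS.wt w)))
      have h2 : n + 1 + w.length = (x :: w).length + n := by
        rw [List.length_cons]
        omega
      rw [h2] at h1
      refine T.toLS.Wt_mono ?_ h1
      rw [LS.wt_cons]
      omega

/-- The derivation `RR y` and weights. -/
theorem RR_mem {n m i j : ℕ} {y : TA k D} (hy : y ∈ T.toLS.Wt (n + 1) i) {f : TA k D}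
    (hf : f ∈ T.toLS.Wt m j) : RR k D y f ∈ T.toLS.Wt (m + n) (i + j) := by
  refine T.toLS.Wt_map (RR k D y) (T.toLS.Wt (m + n) (i + j)) (fun w hn hw => ?_) hf
  have h1 := B1d_RR T hy w
  rw [hn] at h1
  exact T.toLS.Wt_mono (Nat.add_le_add_left hw i) h1

private theorem B1e_com0 : T.toLS.com0 1 1 = T.l 1 1 ⊗ₜ[k] 1 + 1 ⊗ₜ[k] T.l 1 1 := by
  have h1 : Coalgebra.comul (R := k) (1 : E) = 1 ⊗ₜ[k] 1 := by
    rw [Bialgebra.comul_one]
    rfl
  rw [LS.com0, Finset.sum_range_succ, Finset.sum_range_succ, Finset.sum_range_zero, zero_add, h1,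
    TensorProduct.map_tmul, TensorProduct.map_tmul, Nat.sub_self, Nat.sub_zero, T.l_zero_one,
    add_comm]

/-- `Δ λ = λ ⊗ 1 + 1 ⊗ λ + (weight 0)`. -/
theorem comul_lam : Coalgebra.comul (R := k) (T.l 1 1) -
    (T.l 1 1 ⊗ₜ[k] 1 + 1 ⊗ₜ[k] T.l 1 1) ∈ T.toLS.F2 0 := by
  have h1 := T.comul_low 0 (by have := T.two_le; omega) 1
  rw [zero_add, B1e_com0] at h1
  exact h1

private theorem B1e_DelT (a : D) : DelT k D a =
    LinearMap.mul' k (TA k D) (TensorProduct.map (TensorAlgebra.ι k) (TensorAlgebra.ι k)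
      (Coalgebra.comul (R := k) a)) := rfl

private theorem B1e_dd : -dd k D T.toLS.lam ∈ T.toLS.Wt 2 0 := by
  have h1 := T.toLS.F2_Wt T.comul_lam
  have h2 : dd k D T.toLS.lam = T.toLS.e * io k (T.l 1 1) + io k (T.l 1 1) * T.toLS.e -
      DelT k D (T.l 1 1) := T.dd_io_eq (T.l 1 1)
  have h3 : -dd k D T.toLS.lam = LinearMap.mul' k (TA k D)
      (TensorProduct.map (TensorAlgebra.ι k) (TensorAlgebra.ι k)
        (Coalgebra.comul (R := k) (T.l 1 1) - (T.l 1 1 ⊗ₜ[k] 1 + 1 ⊗ₜ[k] T.l 1 1))) := by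
    rw [h2, B1e_DelT, map_sub, map_sub, map_add, map_add, TensorProduct.map_tmul,
      TensorProduct.map_tmul, LinearMap.mul'_apply, LinearMap.mul'_apply, e_eq]
    simp only [io]
    abel
  rw [h3]
  exact h1

/-- `dd λ` comes from `E`. -/
theorem dd_lam : ∃ om ∈ Tn k E 2, dd k D T.toLS.lam = T.toLS.JJ om := by
  obtain ⟨w, hw, hJ⟩ := T.toLS.exists_JJ (f := dd k D T.toLS.lam)
    ((Submodule.neg_mem_iff _).1 T.B1e_dd)
  exact ⟨w, hw, hJ.symm⟩

/-- Elements `lam * JJ κ + JJ w` which are cocycles. (Apply `dd`: the result is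
`JJ (om κ + dd w) - lam JJ (dd κ) = 0`; `ss` of it is `- JJ (dd κ)`.) -/
theorem V_dd {om : TA k E} (hom : dd k D T.toLS.lam = T.toLS.JJ om) {κ w : TA k E}
    (h : dd k D (T.toLS.lam * T.toLS.JJ κ + T.toLS.JJ w) = 0) :
    dd k E κ = 0 ∧ om * κ + dd k E w = 0 := by
  have h1 : -T.toLS.lam * T.toLS.JJ (dd k E κ) + T.toLS.JJ (om * κ + dd k E w) = 0 := by
    rw [map_add, dd_mul, T.toLS.sg_lam, dd_JJ, dd_JJ, hom] at h
    rw [map_add, map_mul, ← add_assoc]
    exact h
  have h2 : dd k E κ = 0 := by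
    have h3 := congrArg T.toLS.ss h1
    rw [map_add, T.toLS.ss_JJ, add_zero, neg_mul, map_neg, T.toLS.ss_mul, T.toLS.ss_JJ, mul_zero,
      zero_add, T.toLS.ss_lam, one_mul, T.toLS.bar_JJ, map_zero, neg_eq_zero] at h3
    exact T.toLS.JJ_inj (h3.trans (map_zero _).symm)
  refine ⟨h2, ?_⟩
  rw [h2, map_zero, mul_zero, zero_add] at h1
  exact T.toLS.JJ_inj (h1.trans (map_zero _).symm)

end

end LSD

end Pool.Agent.Helper77.R1
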