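import Pool.Agent.Helper77.R1.Conv

/-!
# Project R1, part A1: the letter structure and the operators

See `Conv.lean`. `S : LS k E D p`: `D = ⊕_{j<p} l_j(E)`. With `e = L_0(1)`, `σ = sg`:

* `d0 (f g) = σ f · d0 g + d0 f · g`, `d0 L_j = e L_j + L_j e - ∑_{a+b=j} L_a * L_b`
* `bar`: algebra homomorphism, `bar L_0 = L_0`, `bar L_j = 0` for `j > 0`
* `ss (f g) = bar(σ f) ss g + ss f · bar g`, `ss L_1 = 1` (the counit), `ss L_j = 0` for `j ≠ 1`
* `tt (f g) = bar f · tt g + tt f · bar(σ g)`, `tt L_(p-1) = 1`, `tt L_j = 0` for `j ≠ p-1`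
* `QQ (f g) = f · QQ g + QQ f · bar g`, `QQ L_j = L_(j+1)`
* `Xi (f g) = bar(σ f) Xi g + Xi f · bar g`, `Xi L_0 = ∑_{0<a<p} L_a * L_(p-a)`, `Xi L_j = 0`, `j > 0`
* `Ms (f g) = σ f · Ms g + Ms f · bar g`, `Ms L_(p-1) = ∑_{0<a<p} L_a * L_(p-a)`, `Ms L_j = 0` else
* `Mb (f g) = bar f · Mb g + Mb f · bar(σ g)`, the same values on letters as `Ms`
* second order (zero on letters): `Psi (f g) = bar f Psi g + tt f ss g + Psi f bar g`,
  `Om (f g) = bar(σ f) Om g + Xi f tt g + Om f bar(σ g)`,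
  `KK (f g) = σ f KK g + QQ(σ f) ss g + KK f bar g`,
  `KM (f g) = f KM g + Ms(σ f) ss g + KM f bar g`,
  `Lb (f g) = bar f Lb g + Mb f ss g + Lb f bar g`
* third order: `NN (f g) = bar(σ f) NN g + Xi f Psi g + Om f ss g + NN f bar g`
* `HH = KK - NN`, `lam = L_1(1)`, `xi = ∑_{0<a<p} L_a(1) L_(p-a)(1)`.
-/

set_option linter.unusedSectionVars false
set_option autoImplicit false

open scoped TensorProduct
open Pool.Agent.Helper90.FC

namespace Pool.Agent.Helper77.R1

universe u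

/-- The letter structure. -/
structure LS (k : Type u) [Field k] (E D : Type u) [Ring E] [Bialgebra k E] [Ring D]
    [Bialgebra k D] (p : ℕ) where
  two_le : 2 ≤ p
  l : ℕ → E →ₗ[k] D
  pr : ℕ → D →ₗ[k] E
  pr_l : ∀ j, j < p → ∀ g, pr j (l j g) = g
  pr_l_ne : ∀ i j, i ≠ j → ∀ g, pr i (l j g) = 0
  l_ge : ∀ j, p ≤ j → l j = 0
  span : ∀ f, ∑ j ∈ Finset.range p, l j (pr j f) = f

namespace LS

section

variable {k : Type u} [Field k] {E D : Type u} [Ring E] [Bialgebra k E] [Ring D] [Bialgebra k D]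
variable {p : ℕ} (S : LS k E D p)

/-- The linear map `E → T` of letters of weight `j`. -/
noncomputable def Lt (j : ℕ) : E →ₗ[k] TA k D := TensorAlgebra.ι k ∘ₗ S.l j

/-- The letter. -/
noncomputable abbrev L (j : ℕ) (g : E) : TA k D := S.Lt j g

theorem L_eq (j : ℕ) (g : E) : S.L j g = io k (S.l j g) := rfl

theorem L_ge (j : ℕ) (h : p ≤ j) (g : E) : S.L j g = 0 := by
  simp [L, Lt, S.l_ge j h]

/-- The letters of weight `j`, as an element of the convolution ring. -/
noncomputable def Lc (j : ℕ) : Rc k E D := WithConv.toConv (S.Lt j)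

theorem Lc_apply (j : ℕ) (g : E) : (S.Lc j).ofConv g = S.L j g := rfl

theorem Lc_ge (j : ℕ) (h : p ≤ j) : S.Lc j = 0 := by
  apply Rc_ext
  intro g
  rw [Lc_apply, S.L_ge j h]
  rfl

/-- The map `D → T` with the given values on the letters. -/
noncomputable def lett (φ : ℕ → E →ₗ[k] TA k D) : D →ₗ[k] TA k D :=
  ∑ j ∈ Finset.range p, φ j ∘ₗ S.pr j

theorem lett_l (φ : ℕ → E →ₗ[k] TA k D) (j : ℕ) (hj : j < p) (g : E) :
    S.lett φ (S.l j g) = φ j g := by
  unfold lett
  rw [LinearMap.sum_apply, Finset.sum_eq_single j]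
  · rw [LinearMap.comp_apply, S.pr_l j hj]
  · intro i _ hi
    rw [LinearMap.comp_apply, S.pr_l_ne i j hi, map_zero]
  · intro h
    exact absurd (Finset.mem_range.2 hj) h

/-- Linear maps on `D` agree if they agree on the letters. -/
theorem l_ext {M : Type u} [AddCommGroup M] [Module k M] (φ ψ : D →ₗ[k] M)
    (h : ∀ j, j < p → ∀ g, φ (S.l j g) = ψ (S.l j g)) : φ = ψ := by
  ext f
  rw [← S.span f, map_sum, map_sum]
  exact Finset.sum_congr rfl fun j hj => h j (Finset.mem_range.1 hj) _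

/-- Two operators agree on the generators of `T` if they agree on letters, in the form of the
convolution ring. -/
theorem io_ext (O O' : TA k D →ₗ[k] TA k D)
    (h : ∀ j, j < p → post O (S.Lc j) = post O' (S.Lc j)) (a : D) :
    O (io k a) = O' (io k a) := by
  have h1 := S.l_ext (O ∘ₗ TensorAlgebra.ι k) (O' ∘ₗ TensorAlgebra.ι k) (by
    intro j hj g
    have h2 := h j hj
    exact congrArg (fun φ : Rc k E D => φ.ofConv g) h2)
  exact LinearMap.congr_fun h1 a

/-- The unit letter. -/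
noncomputable def e : TA k D := S.L 0 1

/-- The letter `λ`. -/
noncomputable def lam : TA k D := S.L 1 1

/-- The element `ξ`. -/
noncomputable def xi : TA k D := ∑ a ∈ Finset.Ico 1 p, S.L a 1 * S.L (p - a) 1

/-- `∑_{0<a<p} L_a * L_(p-a)` in the convolution ring. -/
noncomputable def xc : Rc k E D := ∑ a ∈ Finset.Ico 1 p, S.Lc a * S.Lc (p - a)

/-- The values of `d0` on letters. -/
noncomputable def d0c (j : ℕ) : Rc k E D :=
  kc S.e * S.Lc j + S.Lc j * kc S.e - ∑ a ∈ Finset.range (j + 1), S.Lc a * S.Lc (j - a)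

/-- The homomorphism `bar`. -/
noncomputable def bar : TA k D →ₐ[k] TA k D := TensorAlgebra.lift k (S.Lt 0 ∘ₗ S.pr 0)

/-- The homomorphism `bar ∘ σ`. -/
noncomputable def bars : TA k D →ₐ[k] TA k D := S.bar.comp (sg k D)

theorem bars_apply (f : TA k D) : S.bars f = S.bar (sg k D f) := rfl

/-- The graded differential. -/
noncomputable def d0 : TA k D →ₗ[k] TA k D :=
  (exists_twDer (sg k D) (AlgHom.id k (TA k D)) (S.lett fun j => (S.d0c j).ofConv)).choose

theorem d0_mul (f g : TA k D) : S.d0 (f * g) = sg k D f * S.d0 g + S.d0 f * g :=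
  (exists_twDer (sg k D) (AlgHom.id k (TA k D)) (S.lett fun j => (S.d0c j).ofConv)).choose_spec.2
    f g

theorem d0_Lc (j : ℕ) (hj : j < p) : post S.d0 (S.Lc j) = S.d0c j := by
  apply Rc_ext
  intro g
  exact ((exists_twDer (sg k D) (AlgHom.id k (TA k D))
    (S.lett fun j => (S.d0c j).ofConv)).choose_spec.1 _).trans (S.lett_l _ j hj g)

/-- The operator `s`. -/
noncomputable def ss : TA k D →ₗ[k] TA k D :=
  (exists_twDer S.bars S.bar (S.lett fun j => if j = 1 then (1 : Rc k E D).ofConv else 0)).choose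

theorem ss_mul (f g : TA k D) : S.ss (f * g) = S.bars f * S.ss g + S.ss f * S.bar g :=
  (exists_twDer S.bars S.bar
    (S.lett fun j => if j = 1 then (1 : Rc k E D).ofConv else 0)).choose_spec.2 f g

theorem ss_Lc (j : ℕ) : post S.ss (S.Lc j) = if j = 1 then 1 else 0 := by
  apply Rc_ext
  intro g
  rcases lt_or_ge j p with hj | hj
  · refine ((exists_twDer S.bars S.bar
      (S.lett fun j => if j = 1 then (1 : Rc k E D).ofConv else 0)).choose_spec.1 _).trans
      ((S.lett_l _ j hj g).trans ?_)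
    split_ifs <;> rfl
  · rw [post_apply, Lc_apply, S.L_ge j hj, map_zero, if_neg (by have := S.two_le; omega)]
    rfl

/-- The operator `t`. -/
noncomputable def tt : TA k D →ₗ[k] TA k D :=
  (exists_twDer S.bar S.bars
    (S.lett fun j => if j = p - 1 then (1 : Rc k E D).ofConv else 0)).choose

theorem tt_mul (f g : TA k D) : S.tt (f * g) = S.bar f * S.tt g + S.tt f * S.bars g :=
  (exists_twDer S.bar S.bars
    (S.lett fun j => if j = p - 1 then (1 : Rc k E D).ofConv else 0)).choose_spec.2 f g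

theorem tt_Lc (j : ℕ) : post S.tt (S.Lc j) = if j = p - 1 then 1 else 0 := by
  apply Rc_ext
  intro g
  rcases lt_or_ge j p with hj | hj
  · refine ((exists_twDer S.bar S.bars
      (S.lett fun j => if j = p - 1 then (1 : Rc k E D).ofConv else 0)).choose_spec.1 _).trans
      ((S.lett_l _ j hj g).trans ?_)
    split_ifs <;> rfl
  · rw [post_apply, Lc_apply, S.L_ge j hj, map_zero, if_neg (by have := S.two_le; omega)]
    rfl

/-- The operator `Q`. -/
noncomputable def QQ : TA k D →ₗ[k] TA k D :=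
  (exists_twDer (AlgHom.id k (TA k D)) S.bar (S.lett fun j => S.Lt (j + 1))).choose

theorem QQ_mul (f g : TA k D) : S.QQ (f * g) = f * S.QQ g + S.QQ f * S.bar g :=
  (exists_twDer (AlgHom.id k (TA k D)) S.bar (S.lett fun j => S.Lt (j + 1))).choose_spec.2 f g

theorem QQ_Lc (j : ℕ) : post S.QQ (S.Lc j) = S.Lc (j + 1) := by
  apply Rc_ext
  intro g
  rcases lt_or_ge j p with hj | hj
  · exact ((exists_twDer (AlgHom.id k (TA k D)) S.bar
      (S.lett fun j => S.Lt (j + 1))).choose_spec.1 _).trans (S.lett_l _ j hj g)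
  · rw [post_apply, Lc_apply, S.L_ge j hj, map_zero, Lc_apply, S.L_ge _ (by omega)]

/-- The operator `Ξ`. -/
noncomputable def Xi : TA k D →ₗ[k] TA k D :=
  (exists_twDer S.bars S.bar (S.lett fun j => if j = 0 then S.xc.ofConv else 0)).choose

theorem Xi_mul (f g : TA k D) : S.Xi (f * g) = S.bars f * S.Xi g + S.Xi f * S.bar g :=
  (exists_twDer S.bars S.bar (S.lett fun j => if j = 0 then S.xc.ofConv else 0)).choose_spec.2 f g

theorem Xi_Lc (j : ℕ) : post S.Xi (S.Lc j) = if j = 0 then S.xc else 0 := by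
  apply Rc_ext
  intro g
  rcases lt_or_ge j p with hj | hj
  · refine ((exists_twDer S.bars S.bar
      (S.lett fun j => if j = 0 then S.xc.ofConv else 0)).choose_spec.1 _).trans
      ((S.lett_l _ j hj g).trans ?_)
    split_ifs <;> rfl
  · rw [post_apply, Lc_apply, S.L_ge j hj, map_zero, if_neg (by have := S.two_le; omega)]
    rfl

/-- The operator `M*`. -/
noncomputable def Ms : TA k D →ₗ[k] TA k D :=
  (exists_twDer (sg k D) S.bar (S.lett fun j => if j = p - 1 then S.xc.ofConv else 0)).choose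

theorem Ms_mul (f g : TA k D) : S.Ms (f * g) = sg k D f * S.Ms g + S.Ms f * S.bar g :=
  (exists_twDer (sg k D) S.bar
    (S.lett fun j => if j = p - 1 then S.xc.ofConv else 0)).choose_spec.2 f g

theorem Ms_Lc (j : ℕ) : post S.Ms (S.Lc j) = if j = p - 1 then S.xc else 0 := by
  apply Rc_ext
  intro g
  rcases lt_or_ge j p with hj | hj
  · refine ((exists_twDer (sg k D) S.bar
      (S.lett fun j => if j = p - 1 then S.xc.ofConv else 0)).choose_spec.1 _).trans
      ((S.lett_l _ j hj g).trans ?_)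
    split_ifs <;> rfl
  · rw [post_apply, Lc_apply, S.L_ge j hj, map_zero, if_neg (by have := S.two_le; omega)]
    rfl

/-- The operator `M̄`. -/
noncomputable def Mb : TA k D →ₗ[k] TA k D :=
  (exists_twDer S.bar S.bars (S.lett fun j => if j = p - 1 then S.xc.ofConv else 0)).choose

theorem Mb_mul (f g : TA k D) : S.Mb (f * g) = S.bar f * S.Mb g + S.Mb f * S.bars g :=
  (exists_twDer S.bar S.bars
    (S.lett fun j => if j = p - 1 then S.xc.ofConv else 0)).choose_spec.2 f g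

theorem Mb_Lc (j : ℕ) : post S.Mb (S.Lc j) = if j = p - 1 then S.xc else 0 := by
  apply Rc_ext
  intro g
  rcases lt_or_ge j p with hj | hj
  · refine ((exists_twDer S.bar S.bars
      (S.lett fun j => if j = p - 1 then S.xc.ofConv else 0)).choose_spec.1 _).trans
      ((S.lett_l _ j hj g).trans ?_)
    split_ifs <;> rfl
  · rw [post_apply, Lc_apply, S.L_ge j hj, map_zero, if_neg (by have := S.two_le; omega)]
    rfl

/-- The operator `Ψ`. -/
noncomputable def Psi : TA k D →ₗ[k] TA k D :=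
  (exists_tw2 S.bar S.bars S.bar S.tt S.ss S.tt_mul S.ss_mul).choose

theorem Psi_mul (f g : TA k D) :
    S.Psi (f * g) = S.bar f * S.Psi g + S.tt f * S.ss g + S.Psi f * S.bar g :=
  (exists_tw2 S.bar S.bars S.bar S.tt S.ss S.tt_mul S.ss_mul).choose_spec.2 f g

theorem Psi_io (a : D) : S.Psi (io k a) = 0 :=
  (exists_tw2 S.bar S.bars S.bar S.tt S.ss S.tt_mul S.ss_mul).choose_spec.1 a

/-- The operator `Ω`. -/
noncomputable def Om : TA k D →ₗ[k] TA k D :=
  (exists_tw2 S.bars S.bar S.bars S.Xi S.tt S.Xi_mul S.tt_mul).choose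

theorem Om_mul (f g : TA k D) :
    S.Om (f * g) = S.bars f * S.Om g + S.Xi f * S.tt g + S.Om f * S.bars g :=
  (exists_tw2 S.bars S.bar S.bars S.Xi S.tt S.Xi_mul S.tt_mul).choose_spec.2 f g

theorem Om_io (a : D) : S.Om (io k a) = 0 :=
  (exists_tw2 S.bars S.bar S.bars S.Xi S.tt S.Xi_mul S.tt_mul).choose_spec.1 a

/-- `Q ∘ σ` -/
noncomputable def Qs : TA k D →ₗ[k] TA k D := S.QQ ∘ₗ (sg k D).toLinearMap

theorem Qs_apply (f : TA k D) : S.Qs f = S.QQ (sg k D f) := rfl

theorem Qs_mul (f g : TA k D) : S.Qs (f * g) = sg k D f * S.Qs g + S.Qs f * S.bars g := by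
  rw [Qs_apply, map_mul, QQ_mul]
  rfl

/-- `M* ∘ σ` -/
noncomputable def Mss : TA k D →ₗ[k] TA k D := S.Ms ∘ₗ (sg k D).toLinearMap

theorem Mss_apply (f : TA k D) : S.Mss f = S.Ms (sg k D f) := rfl

theorem Mss_mul (f g : TA k D) :
    S.Mss (f * g) = AlgHom.id k (TA k D) f * S.Mss g + S.Mss f * S.bars g := by
  rw [Mss_apply, map_mul, Ms_mul, sg_sg]
  rfl

/-- The operator `K`. -/
noncomputable def KK : TA k D →ₗ[k] TA k D :=
  (exists_tw2 (sg k D) S.bars S.bar S.Qs S.ss S.Qs_mul S.ss_mul).choose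

theorem KK_mul (f g : TA k D) :
    S.KK (f * g) = sg k D f * S.KK g + S.Qs f * S.ss g + S.KK f * S.bar g :=
  (exists_tw2 (sg k D) S.bars S.bar S.Qs S.ss S.Qs_mul S.ss_mul).choose_spec.2 f g

theorem KK_io (a : D) : S.KK (io k a) = 0 :=
  (exists_tw2 (sg k D) S.bars S.bar S.Qs S.ss S.Qs_mul S.ss_mul).choose_spec.1 a

/-- The operator `K_M`. -/
noncomputable def KM : TA k D →ₗ[k] TA k D :=
  (exists_tw2 (AlgHom.id k (TA k D)) S.bars S.bar S.Mss S.ss S.Mss_mul S.ss_mul).choose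

theorem KM_mul (f g : TA k D) :
    S.KM (f * g) = f * S.KM g + S.Mss f * S.ss g + S.KM f * S.bar g :=
  (exists_tw2 (AlgHom.id k (TA k D)) S.bars S.bar S.Mss S.ss S.Mss_mul S.ss_mul).choose_spec.2 f g

theorem KM_io (a : D) : S.KM (io k a) = 0 :=
  (exists_tw2 (AlgHom.id k (TA k D)) S.bars S.bar S.Mss S.ss S.Mss_mul S.ss_mul).choose_spec.1 a

/-- The operator `L̄`. -/
noncomputable def Lb : TA k D →ₗ[k] TA k D :=
  (exists_tw2 S.bar S.bars S.bar S.Mb S.ss S.Mb_mul S.ss_mul).choose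

theorem Lb_mul (f g : TA k D) :
    S.Lb (f * g) = S.bar f * S.Lb g + S.Mb f * S.ss g + S.Lb f * S.bar g :=
  (exists_tw2 S.bar S.bars S.bar S.Mb S.ss S.Mb_mul S.ss_mul).choose_spec.2 f g

theorem Lb_io (a : D) : S.Lb (io k a) = 0 :=
  (exists_tw2 S.bar S.bars S.bar S.Mb S.ss S.Mb_mul S.ss_mul).choose_spec.1 a

/-- The operator `N`. -/
noncomputable def NN : TA k D →ₗ[k] TA k D :=
  (exists_tw3 S.bars S.bar S.bars S.bar S.Xi S.tt S.ss S.Om S.Psi S.Xi_mul S.tt_mul S.ss_mul
    S.Om_mul S.Psi_mul).choose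

theorem NN_mul (f g : TA k D) :
    S.NN (f * g) = S.bars f * S.NN g + S.Xi f * S.Psi g + S.Om f * S.ss g + S.NN f * S.bar g :=
  (exists_tw3 S.bars S.bar S.bars S.bar S.Xi S.tt S.ss S.Om S.Psi S.Xi_mul S.tt_mul S.ss_mul
    S.Om_mul S.Psi_mul).choose_spec.2 f g

theorem NN_io (a : D) : S.NN (io k a) = 0 :=
  (exists_tw3 S.bars S.bar S.bars S.bar S.Xi S.tt S.ss S.Om S.Psi S.Xi_mul S.tt_mul S.ss_mul
    S.Om_mul S.Psi_mul).choose_spec.1 a

/-- The homotopy. -/
noncomputable def HH : TA k D →ₗ[k] TA k D := S.KK - S.NN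

theorem HH_apply (f : TA k D) : S.HH f = S.KK f - S.NN f := rfl

end

end LS

end Pool.Agent.Helper77.R1
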