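import Pool.Agent.Helper77.R1.FromR

/-!
# Project R1, part G2: the number `N` of `RData N π` is a power of `p`
-/

set_option linter.unusedSectionVars false
set_option autoImplicit false

open scoped TensorProduct
open Pool.Agent.Helper90.FC Pool.Agent.Helper90.R1

namespace Pool.Agent.Helper77.R1

universe u

/-- If `p` divides all `binom(N, i)`, `0 < i < N`, then `N` is a power of `p`. (Let `N = p^a m` with
`p ∤ m`; if `m > 1` then `p ∤ binom(p^a m, p^a)`, e.g. by Lucas (`Choose.lucas_theorem_nat`) or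
`Nat.Prime.multiplicity_choose`/`Nat.factorization_choose`, or by `(1 + x)^N = (1 + x^(p^a))^m` in
`ZMod p`.) -/
theorem pow_of_choose (p : ℕ) [Fact p.Prime] (N : ℕ) (h1 : 1 ≤ N)
    (h : ∀ i, 0 < i → i < N → p ∣ N.choose i) : ∃ s, N = p ^ s := by
  have hp : p.Prime := Fact.out
  obtain ⟨a, m, hm, hN⟩ := Nat.exists_eq_pow_mul_and_not_dvd (by omega : N ≠ 0) p hp.ne_one
  refine ⟨a, ?_⟩
  by_contra hne
  have hq : 0 < p ^ a := pow_pos hp.pos a
  have hm0 : m ≠ 0 := fun h0 => hm (by rw [h0]; exact dvd_zero p)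
  have hm1 : m ≠ 1 := fun h0 => hne (by rw [hN, h0, mul_one])
  have hlt : p ^ a < N := by
    rw [hN]
    have h2 : 2 ≤ m := by omega
    nlinarith
  have h3 := h (p ^ a) hq hlt
  have h4 : ((N.choose (p ^ a) : ℕ) : ZMod p) = (m : ZMod p) := by
    have e1 : (1 + Polynomial.X : Polynomial (ZMod p)) ^ N =
        Polynomial.expand (ZMod p) (p ^ a) ((1 + Polynomial.X) ^ m) := by
      rw [map_pow, map_add, map_one, Polynomial.expand_X, hN, pow_mul, add_pow_char_pow, one_pow]
    have e2 := congrArg (fun f => Polynomial.coeff f (p ^ a)) e1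
    rw [Polynomial.coeff_one_add_X_pow] at e2
    rw [e2]
    have e3 := Polynomial.coeff_expand_mul hq ((1 + Polynomial.X : Polynomial (ZMod p)) ^ m) 1
    rw [one_mul] at e3
    rw [e3, Polynomial.coeff_one_add_X_pow, Nat.choose_one_right]
  rw [(ZMod.natCast_eq_zero_iff _ _).2 h3] at h4
  exact hm ((ZMod.natCast_eq_zero_iff _ _).1 h4.symm)

section

variable {k : Type u} [Field k] {B C : Type u} [Ring B] [Ring C] [HopfAlgebra k B]
variable [HopfAlgebra k C] [Module.Finite k B] [Module.Finite k C] {N : ℕ} {π : B →ₐc[k] C}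
variable {R : RData N π} (K : Coef R)

/-- The value at `X^j` of the coefficient functional `ε ∘ c_i`. -/
noncomputable def lf (i : ℕ) : B →ₗ[k] k := Coalgebra.counit (R := k) ∘ₗ K.c i

private theorem G13_lead {a : ℕ} {u : B} (hu : u ∈ Ip R a) :
    u - K.s (K.c a u) * R.X ^ a ∈ Ip R (a + 1) := by
  rw [mem_Ip_iff K]
  intro i hi
  rw [map_sub]
  rcases lt_or_ge a N with h | h
  · rw [K.c_s a i h]
    split_ifs with h1
    · rw [h1, sub_self]
    · rw [(mem_Ip_iff K a u).1 hu i (by omega), sub_zero]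
  · have h0 : R.X ^ a = 0 := by
      rw [← Nat.sub_add_cancel h, pow_add, R.nilp, mul_zero]
    rw [h0, mul_zero, map_zero, Ip_ge R h hu, map_zero, sub_zero]

/-- `lf i (u u') = lf a u * lf c u'` if `u ∈ B X^a`, `u' ∈ B X^c`, `a + c = i`, and `0` if `i < a + c`
(leading coefficients, `c_mul`). -/
theorem lf_mul (hN : 2 ≤ N) {a c i : ℕ} (hi : i < N) {u v : B} (hu : u ∈ Ip R a)
    (hv : v ∈ Ip R c) (h : i ≤ a + c) :
    lf K i (u * v) = if i = a + c then lf K a u * lf K c v else 0 := by
  have h1 := G13_lead K hu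
  have h2 := G13_lead K hv
  have hx : K.s (K.c a u) * R.X ^ a ∈ Ip R a := (mem_Ip R).2 ⟨_, rfl⟩
  have h3 : u * v = (K.s (K.c a u) * R.X ^ a) * (K.s (K.c c v) * R.X ^ c) +
      ((u - K.s (K.c a u) * R.X ^ a) * v +
        (K.s (K.c a u) * R.X ^ a) * (v - K.s (K.c c v) * R.X ^ c)) := by
    rw [sub_mul, mul_sub]
    abel
  have h4 : (u - K.s (K.c a u) * R.X ^ a) * v ∈ Ip R (a + c + 1) :=
    Ip_mono R (by omega) (Ip_mul R h1 hv)
  have h5 : (K.s (K.c a u) * R.X ^ a) * (v - K.s (K.c c v) * R.X ^ c) ∈ Ip R (a + c + 1) :=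
    Ip_mono R (by omega) (Ip_mul R hx h2)
  have h6 := (mem_Ip_iff K (a + c + 1) _).1 (Submodule.add_mem _ h4 h5) i (by omega)
  unfold lf
  rw [LinearMap.comp_apply, LinearMap.comp_apply, LinearMap.comp_apply, h3, map_add, h6, add_zero,
    c_mul K hN _ _ a c i h hi]
  split_ifs with h7
  · rw [Bialgebra.counit_mul]
  · rw [map_zero]

private theorem G13_lt {a i : ℕ} {u : B} (hu : u ∈ Ip R a) (hi : i < a) : lf K i u = 0 := by
  unfold lf
  rw [LinearMap.comp_apply, (mem_Ip_iff K a u).1 hu i hi, map_zero]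

/-- The functional `lf i ⊗ lf j`. -/
private noncomputable def G13_L (i j : ℕ) : B ⊗[k] B →ₗ[k] k :=
  LinearMap.mul' k k ∘ₗ TensorProduct.map (lf K i) (lf K j)

private theorem G13_L_tmul (i j : ℕ) (u v : B) : G13_L K i j (u ⊗ₜ[k] v) = lf K i u * lf K j v := by
  unfold G13_L
  rw [LinearMap.comp_apply, TensorProduct.map_tmul, LinearMap.mul'_apply]

private theorem G13_pure (hN : 2 ≤ N) {m i j a c a' c' : ℕ} (hm : a + c = m)
    (hm' : a' + c' = 1) (hij : i + j = m + 1) (hi : i < N) (hj : j < N) {u v u' v' : B}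
    (hu : u ∈ Ip R a) (hv : v ∈ Ip R c) (hu' : u' ∈ Ip R a') (hv' : v' ∈ Ip R c') :
    G13_L K i j ((u ⊗ₜ[k] v) * (u' ⊗ₜ[k] v')) =
      (if i = 0 then 0 else G13_L K (i - 1) j (u ⊗ₜ[k] v) * G13_L K 1 0 (u' ⊗ₜ[k] v')) +
      (if j = 0 then 0 else G13_L K i (j - 1) (u ⊗ₜ[k] v) * G13_L K 0 1 (u' ⊗ₜ[k] v')) := by
  rw [Algebra.TensorProduct.tmul_mul_tmul]
  simp only [G13_L_tmul]
  have hcase : (a' = 1 ∧ c' = 0) ∨ (a' = 0 ∧ c' = 1) := by omega
  rcases hcase with ⟨ha, hc⟩ | ⟨ha, hc⟩
  · subst ha hc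
    rw [G13_lt K hu' (show 0 < 1 by omega)]
    simp only [zero_mul, mul_zero, ite_self, add_zero]
    rcases lt_trichotomy i (a + 1) with h | h | h
    · have e1 : lf K i (u * u') = 0 := by
        rw [lf_mul K hN hi hu hu' h.le, if_neg h.ne]
      rw [e1, zero_mul]
      by_cases h0 : i = 0
      · rw [if_pos h0]
      · rw [if_neg h0, G13_lt K hu (show i - 1 < a by omega), zero_mul, zero_mul]
    · have e1 : lf K i (u * u') = lf K a u * lf K 1 u' := by
        rw [lf_mul K hN hi hu hu' h.le, if_pos h]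
      have e2 : lf K j (v * v') = lf K c v * lf K 0 v' := by
        rw [lf_mul K hN hj hv hv' (by omega), if_pos (by omega)]
      have e3 : i - 1 = a := by omega
      have e4 : j = c := by omega
      rw [e1, e2, if_neg (by omega), e3, e4]
      ring
    · have e1 : lf K j (v * v') = 0 := by
        rw [lf_mul K hN hj hv hv' (by omega), if_neg (by omega)]
      rw [e1, mul_zero, if_neg (by omega), G13_lt K hv (show j < c by omega), mul_zero, zero_mul]
  · subst ha hc
    rw [G13_lt K hv' (show 0 < 1 by omega)]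
    simp only [zero_mul, mul_zero, ite_self, zero_add]
    rcases lt_trichotomy j (c + 1) with h | h | h
    · have e1 : lf K j (v * v') = 0 := by
        rw [lf_mul K hN hj hv hv' h.le, if_neg h.ne]
      rw [e1, mul_zero]
      by_cases h0 : j = 0
      · rw [if_pos h0]
      · rw [if_neg h0, G13_lt K hv (show j - 1 < c by omega), mul_zero, zero_mul]
    · have e1 : lf K j (v * v') = lf K c v * lf K 1 v' := by
        rw [lf_mul K hN hj hv hv' h.le, if_pos h]
      have e2 : lf K i (u * u') = lf K a u * lf K 0 u' := by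
        rw [lf_mul K hN hi hu hu' (by omega), if_pos (by omega)]
      have e3 : j - 1 = c := by omega
      have e4 : i = a := by omega
      rw [e1, e2, if_neg (by omega), e3, e4]
      ring
    · have e1 : lf K i (u * u') = 0 := by
        rw [lf_mul K hN hi hu hu' (by omega), if_neg (by omega)]
      rw [e1, zero_mul, if_neg (by omega), G13_lt K hu (show i < a by omega), zero_mul, zero_mul]

private theorem G13_split {m : ℕ} {a c : ℕ} (h : m ≤ a + c) :
    ∃ a0 c0, a0 ≤ a ∧ c0 ≤ c ∧ a0 + c0 = m := by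
  rcases le_or_gt m a with h1 | h1
  · exact ⟨m, 0, h1, Nat.zero_le _, by omega⟩
  · exact ⟨a, m - a, le_rfl, by omega, by omega⟩

private theorem G13_step (hN : 2 ≤ N) {m i j : ℕ} (hij : i + j = m + 1) (hi : i < N) (hj : j < N)
    {t w : B ⊗[k] B} (ht : t ∈ J2 R m) (hw : w ∈ J2 R 1) :
    G13_L K i j (t * w) =
      (if i = 0 then 0 else G13_L K (i - 1) j t * G13_L K 1 0 w) +
      (if j = 0 then 0 else G13_L K i (j - 1) t * G13_L K 0 1 w) := by
  refine Submodule.span_induction (p := fun t _ => G13_L K i j (t * w) =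
      (if i = 0 then 0 else G13_L K (i - 1) j t * G13_L K 1 0 w) +
      (if j = 0 then 0 else G13_L K i (j - 1) t * G13_L K 0 1 w)) ?_ ?_ ?_ ?_ ht
  · rintro _ ⟨a, c, u, v, hac, hu, hv, rfl⟩
    obtain ⟨a0, c0, ha0, hc0, hs⟩ := G13_split hac
    have hu0 := Ip_mono R ha0 hu
    have hv0 := Ip_mono R hc0 hv
    refine Submodule.span_induction (p := fun w _ => G13_L K i j ((u ⊗ₜ[k] v) * w) =
      (if i = 0 then 0 else G13_L K (i - 1) j (u ⊗ₜ[k] v) * G13_L K 1 0 w) +
      (if j = 0 then 0 else G13_L K i (j - 1) (u ⊗ₜ[k] v) * G13_L K 0 1 w)) ?_ ?_ ?_ ?_ hw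
    · rintro _ ⟨a', c', u', v', hac', hu', hv', rfl⟩
      obtain ⟨a1, c1, ha1, hc1, hs1⟩ := G13_split hac'
      exact G13_pure K hN hs hs1 hij hi hj hu0 hv0 (Ip_mono R ha1 hu') (Ip_mono R hc1 hv')
    · simp only [mul_zero, map_zero, ite_self, add_zero]
    · intro x y _ _ hx hy
      rw [mul_add, map_add, hx, hy]
      simp only [map_add]
      split_ifs <;> ring
    · intro r x _ hx
      rw [mul_smul_comm, map_smul, hx]
      simp only [map_smul, smul_eq_mul]
      split_ifs <;> ring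
  · simp only [zero_mul, map_zero, ite_self, add_zero]
  · intro x y _ _ hx hy
    rw [add_mul, map_add, hx, hy]
    simp only [map_add]
    split_ifs <;> ring
  · intro r x _ hx
    rw [smul_mul_assoc, map_smul, hx]
    simp only [map_smul, smul_eq_mul]
    split_ifs <;> ring

private theorem G13_lf_zero (hN : 2 ≤ N) : lf K 0 = Coalgebra.counit (R := k) (A := B) := by
  refine LinearMap.ext fun b => ?_
  unfold lf
  rw [LinearMap.comp_apply, c_zero K hN]
  exact LinearMap.congr_fun (CoalgHomClass.counit_comp (R := k) π) b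

private theorem G13_lf_one (hN : 2 ≤ N) : lf K 1 R.X = 1 := by
  unfold lf
  rw [LinearMap.comp_apply]
  have h1 : R.X = K.s 1 * R.X ^ 1 := by rw [K.s_one, one_mul, pow_one]
  have h2 : K.c 1 R.X = 1 := by
    conv_lhs => rw [h1]
    rw [K.c_s 1 1 (by omega), if_pos rfl]
  rw [h2, Bialgebra.counit_one]

private theorem G13_X10 (hN : 2 ≤ N) : G13_L K 1 0 (Coalgebra.comul (R := k) R.X) = 1 := by
  have h : ∀ t : B ⊗[k] B, G13_L K 1 0 t =
      lf K 1 (TensorProduct.rid k B (TensorProduct.map LinearMap.id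
        (Coalgebra.counit (R := k) (A := B)) t)) := by
    intro t
    induction t with
    | zero => simp only [map_zero]
    | tmul u v =>
      rw [G13_L_tmul, G13_lf_zero K hN, TensorProduct.map_tmul, TensorProduct.rid_tmul,
        map_smul, LinearMap.id_apply, smul_eq_mul, mul_comm]
    | add x y hx hy => simp only [map_add, hx, hy]
  rw [h]
  have h2 : TensorProduct.map LinearMap.id (Coalgebra.counit (R := k) (A := B))
      (Coalgebra.comul (R := k) R.X) = R.X ⊗ₜ[k] (1 : k) :=
    Coalgebra.lTensor_counit_comul (R := k) R.X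
  rw [h2, TensorProduct.rid_tmul, one_smul, G13_lf_one K hN]

private theorem G13_X01 (hN : 2 ≤ N) : G13_L K 0 1 (Coalgebra.comul (R := k) R.X) = 1 := by
  have h : ∀ t : B ⊗[k] B, G13_L K 0 1 t =
      lf K 1 (TensorProduct.lid k B (TensorProduct.map
        (Coalgebra.counit (R := k) (A := B)) LinearMap.id t)) := by
    intro t
    induction t with
    | zero => simp only [map_zero]
    | tmul u v =>
      rw [G13_L_tmul, G13_lf_zero K hN, TensorProduct.map_tmul, TensorProduct.lid_tmul,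
        map_smul, LinearMap.id_apply, smul_eq_mul]
    | add x y hx hy => simp only [map_add, hx, hy]
  rw [h]
  have h2 : TensorProduct.map (Coalgebra.counit (R := k) (A := B)) LinearMap.id
      (Coalgebra.comul (R := k) R.X) = (1 : k) ⊗ₜ[k] R.X :=
    Coalgebra.rTensor_counit_comul (R := k) R.X
  rw [h2, TensorProduct.lid_tmul, one_smul, G13_lf_one K hN]

/-- `(lf i ⊗ lf j) (Δ (X^(i+j))) = binom(i+j, i)` for `i, j < N`: induction on `m = i + j`, for all
`i`, `j`: `Δ X^m ∈ J2 m` (`comul_Ip`), `Δ X ∈ J2 1`, and for `t ∈ J2 m`, `w ∈ J2 1`, `i + j = m + 1`,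
`(lf i ⊗ lf j) (t w) = (lf (i-1) ⊗ lf j) t * (lf 1 ⊗ lf 0) w + (lf i ⊗ lf (j-1)) t * (lf 0 ⊗ lf 1) w`
(terms with `i = 0` or `j = 0` are absent), `lf 0 = ε` (`c_zero`), `(lf 1 ⊗ ε) (Δ X) = lf 1 X = 1`. -/
theorem lf_comul (hN : 2 ≤ N) (i j : ℕ) (hi : i < N) (hj : j < N) :
    LinearMap.mul' k k (TensorProduct.map (lf K i) (lf K j)
      (Coalgebra.comul (R := k) (R.X ^ (i + j)))) = ((i + j).choose i : k) := by
  have key : ∀ m i j, i + j = m → i < N → j < N →
      G13_L K i j (Coalgebra.comul (R := k) (R.X ^ m)) = (m.choose i : k) := by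
    intro m
    induction m with
    | zero =>
      intro i j h _ _
      obtain ⟨rfl, rfl⟩ : i = 0 ∧ j = 0 := by omega
      rw [pow_zero, Bialgebra.comul_one, Algebra.TensorProduct.one_def, G13_L_tmul,
        G13_lf_zero K hN, Bialgebra.counit_one, mul_one, Nat.choose_self, Nat.cast_one]
    | succ m ih =>
      intro i j h h1 h2
      have hXm : R.X ^ m ∈ Ip R m := (mem_Ip R).2 ⟨1, one_mul _⟩
      have hX1 : R.X ∈ Ip R 1 := (mem_Ip R).2 ⟨1, by rw [one_mul, pow_one]⟩
      rw [pow_succ, Bialgebra.comul_mul,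
        G13_step K hN h h1 h2 (comul_Ip K m hXm) (comul_Ip K 1 hX1), G13_X10 K hN, G13_X01 K hN]
      rcases Nat.eq_zero_or_pos i with hi0 | hi0
      · subst hi0
        rw [if_pos rfl, if_neg (by omega), ih 0 (j - 1) (by omega) h1 (by omega),
          Nat.choose_zero_right, Nat.choose_zero_right]
        simp only [Nat.cast_one, mul_one, zero_add]
      · rcases Nat.eq_zero_or_pos j with hj0 | hj0
        · subst hj0
          have hm : i = m + 1 := by omega
          subst hm
          rw [if_neg (by omega), if_pos rfl, ih (m + 1 - 1) 0 (by omega) (by omega) h2,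
            Nat.add_sub_cancel, Nat.choose_self, Nat.choose_self]
          simp only [Nat.cast_one, mul_one, add_zero]
        · obtain ⟨i, rfl⟩ : ∃ i', i = i' + 1 := ⟨i - 1, by omega⟩
          rw [if_neg (by omega), if_neg (by omega), ih (i + 1 - 1) j (by omega) (by omega) h2,
            ih (i + 1) (j - 1) (by omega) h1 (by omega), Nat.add_sub_cancel,
            Nat.choose_succ_succ, Nat.cast_add, mul_one, mul_one]
  exact key (i + j) i j rfl hi hj

/-- `X ^ N = 0`, so `binom(N, i) = 0` in `k` for `0 < i < N`; `pow_of_choose`. For `N = 1` take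
`s = 0`; `N = 0` is impossible since `B` is not zero. -/
theorem rdata_pow (p : ℕ) [Fact p.Prime] [CharP k p] (R : RData N π) : ∃ s, N = p ^ s := by
  have key : ∀ (n : ℕ) (x : B), n = 0 → x ^ n = 0 → False := by
    rintro n x rfl hx
    rw [pow_zero] at hx
    have h2 := congrArg (Coalgebra.counit (R := k) (A := B)) hx
    rw [Bialgebra.counit_one, map_zero] at h2
    exact one_ne_zero h2
  have h0 : N ≠ 0 := fun h => key N R.X h R.nilp
  by_cases h1 : N = 1
  · exact ⟨0, by rw [h1, pow_zero]⟩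
  have h2 : 2 ≤ N := by omega
  obtain ⟨K⟩ := exists_coef R
  refine pow_of_choose p N (by omega) fun i hi hiN => ?_
  have h3 := lf_comul K h2 i (N - i) hiN (by omega)
  rw [Nat.add_sub_cancel' hiN.le, R.nilp, map_zero, map_zero, map_zero] at h3
  exact (CharP.cast_eq_zero_iff k p _).1 h3.symm

end

end Pool.Agent.Helper77.R1
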