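import Pool.Agent.Helper77.R1.Ops

/-!
# Project R1, part A2: values on letters and signs
-/

set_option linter.unusedSectionVars false
set_option autoImplicit false

open scoped TensorProduct
open Pool.Agent.Helper90.FC

namespace Pool.Agent.Helper77.R1

universe u

namespace LS

section

variable {k : Type u} [Field k] {E D : Type u} [Ring E] [Bialgebra k E] [Ring D] [Bialgebra k D]
variable {p : ℕ} (S : LS k E D p)

theorem bar_Lc (j : ℕ) : post S.bar.toLinearMap (S.Lc j) = if j = 0 then S.Lc 0 else 0 := by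
  apply Rc_ext
  intro g
  rw [post_apply, Lc_apply]
  change S.bar (TensorAlgebra.ι k (S.l j g)) = _
  unfold bar
  rw [TensorAlgebra.lift_ι_apply, LinearMap.comp_apply]
  split_ifs with h
  · subst h
    rw [S.pr_l 0 (by have := S.two_le; omega)]
    rfl
  · rw [S.pr_l_ne 0 j (Ne.symm h), map_zero]
    rfl

theorem sg_Lc (j : ℕ) : post (sg k D).toLinearMap (S.Lc j) = -S.Lc j := by
  apply Rc_ext
  intro g
  exact sg_io (k := k) (H := D) (S.l j g)

theorem bars_Lc (j : ℕ) : post S.bars.toLinearMap (S.Lc j) = if j = 0 then -S.Lc 0 else 0 := by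
  apply Rc_ext
  intro g
  have h1 := congrArg (fun φ : Rc k E D => φ.ofConv g) (S.bar_Lc j)
  have h2 : S.bars (S.L j g) = -S.bar (S.L j g) := by
    rw [bars_apply]
    have h3 : sg k D (S.L j g) = -S.L j g := sg_io (k := k) (H := D) (S.l j g)
    rw [h3, map_neg]
  change S.bars (S.L j g) = _
  rw [h2]
  change S.bar (S.L j g) = _ at h1
  rw [h1]
  split_ifs
  · rfl
  · exact neg_zero

theorem bar_L (j : ℕ) (g : E) : S.bar (S.L j g) = if j = 0 then S.L 0 g else 0 := by
  have h1 := congrArg (fun φ : Rc k E D => φ.ofConv g) (S.bar_Lc j)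
  change S.bar (S.L j g) = _ at h1
  rw [h1]
  split_ifs <;> rfl

theorem bars_L (j : ℕ) (g : E) : S.bars (S.L j g) = if j = 0 then -S.L 0 g else 0 := by
  have h1 := congrArg (fun φ : Rc k E D => φ.ofConv g) (S.bars_Lc j)
  change S.bars (S.L j g) = _ at h1
  rw [h1]
  split_ifs <;> rfl

theorem bar_bar (f : TA k D) : S.bar (S.bar f) = S.bar f := by
  have h : S.bar.comp S.bar = S.bar := by
    apply TensorAlgebra.hom_ext
    apply LinearMap.ext
    intro a
    have h1 : S.bar (TensorAlgebra.ι k a) = S.L 0 (S.pr 0 a) := by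
      unfold bar
      rw [TensorAlgebra.lift_ι_apply]
      rfl
    change S.bar (S.bar (TensorAlgebra.ι k a)) = S.bar (TensorAlgebra.ι k a)
    rw [h1, S.bar_L, if_pos rfl]
  exact DFunLike.congr_fun h f

theorem bar_e : S.bar S.e = S.e := by
  unfold e
  rw [S.bar_L, if_pos rfl]

theorem bars_e : S.bars S.e = -S.e := by
  unfold e
  rw [S.bars_L, if_pos rfl]

theorem sg_e : sg k D S.e = -S.e := sg_io (k := k) (H := D) (S.l 0 1)

theorem ss_e : S.ss S.e = 0 := by
  have h1 := congrArg (fun φ : Rc k E D => φ.ofConv 1) (S.ss_Lc 0)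
  change S.ss (S.L 0 1) = _ at h1
  unfold e
  rw [h1, if_neg (by norm_num)]
  rfl

theorem tt_e : S.tt S.e = 0 := by
  have h1 := congrArg (fun φ : Rc k E D => φ.ofConv 1) (S.tt_Lc 0)
  change S.tt (S.L 0 1) = _ at h1
  unfold e
  rw [h1, if_neg (by have := S.two_le; omega)]
  rfl

theorem QQ_e : S.QQ S.e = S.lam := by
  have h1 := congrArg (fun φ : Rc k E D => φ.ofConv 1) (S.QQ_Lc 0)
  change S.QQ (S.L 0 1) = _ at h1
  exact h1

private theorem A2a_conv_one (φ ψ : Rc k E D) :
    (φ * ψ).ofConv 1 = φ.ofConv 1 * ψ.ofConv 1 := by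
  change (φ * ψ) 1 = _
  rw [LinearMap.convMul_apply, Bialgebra.comul_one, Algebra.TensorProduct.one_def,
    TensorProduct.map_tmul, LinearMap.mul'_apply]

/-- `Δ 1 = 1 ⊗ 1` -/
theorem Xi_e : S.Xi S.e = S.xi := by
  have h1 := congrArg (fun φ : Rc k E D => φ.ofConv 1) (S.Xi_Lc 0)
  change S.Xi (S.L 0 1) = _ at h1
  unfold e
  rw [h1, if_pos rfl]
  unfold xc xi
  rw [WithConv.ofConv_sum, LinearMap.sum_apply]
  refine Finset.sum_congr rfl fun a _ => ?_
  exact A2a_conv_one _ _

theorem Ms_e : S.Ms S.e = 0 := by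
  have h1 := congrArg (fun φ : Rc k E D => φ.ofConv 1) (S.Ms_Lc 0)
  change S.Ms (S.L 0 1) = _ at h1
  unfold e
  rw [h1, if_neg (by have := S.two_le; omega)]
  rfl

theorem Mb_e : S.Mb S.e = 0 := by
  have h1 := congrArg (fun φ : Rc k E D => φ.ofConv 1) (S.Mb_Lc 0)
  change S.Mb (S.L 0 1) = _ at h1
  unfold e
  rw [h1, if_neg (by have := S.two_le; omega)]
  rfl

theorem sg_lam : sg k D S.lam = -S.lam := sg_io (k := k) (H := D) (S.l 1 1)

theorem sg_xi : sg k D S.xi = S.xi := by
  unfold xi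
  rw [map_sum]
  refine Finset.sum_congr rfl fun a _ => ?_
  have h : ∀ j, sg k D (S.L j 1) = -S.L j 1 := fun j => sg_io (k := k) (H := D) (S.l j 1)
  rw [map_mul, h, h, neg_mul_neg]

theorem bar_lam : S.bar S.lam = 0 := by
  unfold lam
  rw [S.bar_L, if_neg (by norm_num)]

theorem bar_xi : S.bar S.xi = 0 := by
  unfold xi
  rw [map_sum]
  refine Finset.sum_eq_zero fun a ha => ?_
  rw [Finset.mem_Ico] at ha
  rw [map_mul, S.bar_L, if_neg (by omega), zero_mul]

theorem ss_lam : S.ss S.lam = 1 := by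
  have h1 := congrArg (fun φ : Rc k E D => φ.ofConv 1) (S.ss_Lc 1)
  change S.ss (S.L 1 1) = _ at h1
  unfold lam
  rw [h1, if_pos rfl]
  change (1 : Rc k E D) 1 = 1
  rw [LinearMap.convOne_apply, Bialgebra.counit_one, map_one]

/-- The convolution ring: `xc` is mapped to itself by `σ` and to `0` by `bar`. -/
theorem sg_xc : post (sg k D).toLinearMap S.xc = S.xc := by
  unfold xc
  rw [map_sum]
  refine Finset.sum_congr rfl fun a _ => ?_
  rw [post_mul_hom, S.sg_Lc, S.sg_Lc]
  exact neg_mul_neg (S.Lc a) (S.Lc (p - a))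

theorem bar_xc : post S.bar.toLinearMap S.xc = 0 := by
  unfold xc
  rw [map_sum]
  refine Finset.sum_eq_zero fun a ha => ?_
  rw [Finset.mem_Ico] at ha
  rw [post_mul_hom, S.bar_Lc a, if_neg (by omega), zero_mul]

/-- (Both sides are homomorphisms which agree on the generators `ι (l_j g)`.) -/
theorem sg_bar (f : TA k D) : sg k D (S.bar f) = S.bar (sg k D f) := by
  have h : (sg k D).comp S.bar = S.bar.comp (sg k D) := by
    apply TensorAlgebra.hom_ext
    refine LinearMap.ext fun d => ?_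
    have h2 : S.bar (io k d) = io k (S.l 0 (S.pr 0 d)) := TensorAlgebra.lift_ι_apply _ _
    change sg k D (S.bar (io k d)) = S.bar (sg k D (io k d))
    rw [sg_io, map_neg, h2, sg_io]
  exact congrArg (fun g : TA k D →ₐ[k] TA k D => g f) h

theorem bar_bars (f : TA k D) : S.bar (S.bars f) = S.bars f := by
  rw [bars_apply, bar_bar]

theorem bars_sg (f : TA k D) : S.bars (sg k D f) = S.bar f := by
  rw [bars_apply, sg_sg]

theorem sg_bars (f : TA k D) : sg k D (S.bars f) = S.bar f := by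
  rw [bars_apply, sg_bar, sg_sg]

theorem ss_one : S.ss 1 = 0 := tw_one S.bars S.bar S.ss S.ss_mul

theorem tt_one : S.tt 1 = 0 := tw_one S.bar S.bars S.tt S.tt_mul

theorem QQ_one : S.QQ 1 = 0 := tw_one (AlgHom.id k (TA k D)) S.bar S.QQ S.QQ_mul

theorem Xi_one : S.Xi 1 = 0 := tw_one S.bars S.bar S.Xi S.Xi_mul

theorem Ms_one : S.Ms 1 = 0 := tw_one (sg k D) S.bar S.Ms S.Ms_mul

theorem Mb_one : S.Mb 1 = 0 := tw_one S.bar S.bars S.Mb S.Mb_mul

theorem d0_one : S.d0 1 = 0 := tw_one (sg k D) (AlgHom.id k (TA k D)) S.d0 S.d0_mul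

/-- (Product rule for `1 = 1 * 1` and `tt 1 = 0`.) -/
theorem Psi_one : S.Psi 1 = 0 := by
  have h := S.Psi_mul 1 1
  rw [mul_one, map_one S.bar, one_mul, mul_one, tt_one, zero_mul, add_zero] at h
  exact left_eq_add.mp h

theorem Om_one : S.Om 1 = 0 := by
  have h := S.Om_mul 1 1
  rw [mul_one, map_one S.bars, one_mul, mul_one, Xi_one, zero_mul, add_zero] at h
  exact left_eq_add.mp h

theorem KK_one : S.KK 1 = 0 := by
  have h := S.KK_mul 1 1
  rw [mul_one, map_one (sg k D), map_one S.bar, one_mul, mul_one, ss_one, mul_zero, add_zero] at h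
  exact left_eq_add.mp h

theorem KM_one : S.KM 1 = 0 := by
  have h := S.KM_mul 1 1
  rw [mul_one, map_one S.bar, one_mul, mul_one, ss_one, mul_zero, add_zero] at h
  exact left_eq_add.mp h

theorem Lb_one : S.Lb 1 = 0 := by
  have h := S.Lb_mul 1 1
  rw [mul_one, map_one S.bar, one_mul, mul_one, ss_one, mul_zero, add_zero] at h
  exact left_eq_add.mp h

theorem NN_one : S.NN 1 = 0 := by
  have h := S.NN_mul 1 1
  rw [mul_one, map_one S.bars, map_one S.bar, one_mul, mul_one, ss_one, mul_zero, add_zero,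
    Xi_one, zero_mul, add_zero] at h
  exact left_eq_add.mp h

private lemma A2c_ind (O : TA k D →ₗ[k] TA k D) (h1 : O 1 = 0) (c : k)
    (hL : ∀ j, j < p → post (sg k D).toLinearMap (post O (S.Lc j)) = (-c) • post O (S.Lc j))
    (hm : ∀ f g, sg k D (O f) = c • O (sg k D f) → sg k D (O g) = c • O (sg k D g) →
      sg k D (O (f * g)) = c • O (sg k D (f * g))) (f : TA k D) :
    sg k D (O f) = c • O (sg k D f) := by
  induction f using TensorAlgebra.induction with
  | algebraMap r =>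
    rw [AlgHom.commutes, Algebra.algebraMap_eq_smul_one, map_smul, h1, smul_zero, smul_zero,
      map_zero]
  | ι a =>
    have h2 := S.io_ext ((sg k D).toLinearMap ∘ₗ O) ((-c) • O) (fun j hj => hL j hj) a
    have h3 : sg k D (TensorAlgebra.ι k a) = -io k a := sg_io k D a
    rw [h3, map_neg, smul_neg]
    change (sg k D).toLinearMap (O (io k a)) = _
    refine h2.trans ?_
    rw [LinearMap.smul_apply, neg_smul]
  | mul f g hf hg => exact hm f g hf hg
  | add f g hf hg => rw [map_add, map_add, hf, hg, map_add, map_add, smul_add]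

private lemma A2c_one : post (E := E) (sg k D).toLinearMap 1 = 1 := by
  rw [← kc_one, post_kc]
  congr 1
  exact map_one (sg k D)

private lemma A2c_d0c (j : ℕ) : post (sg k D).toLinearMap (S.d0c j) = S.d0c j := by
  have hk : post (E := E) (sg k D).toLinearMap (kc S.e) = -kc S.e := by
    rw [post_kc, ← kc_neg]
    congr 1
    exact S.sg_e
  have e1 : post (sg k D).toLinearMap (kc S.e * S.Lc j) = kc S.e * S.Lc j := by
    rw [post_mul_hom, hk, S.sg_Lc]
    exact neg_mul_neg (kc S.e) (S.Lc j)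
  have e2 : post (sg k D).toLinearMap (S.Lc j * kc S.e) = S.Lc j * kc S.e := by
    rw [post_mul_hom, hk, S.sg_Lc]
    exact neg_mul_neg (S.Lc j) (kc S.e)
  have e3 : post (sg k D).toLinearMap (∑ a ∈ Finset.range (j + 1), S.Lc a * S.Lc (j - a)) =
      ∑ a ∈ Finset.range (j + 1), S.Lc a * S.Lc (j - a) := by
    rw [map_sum]
    refine Finset.sum_congr rfl fun a _ => ?_
    rw [post_mul_hom, S.sg_Lc, S.sg_Lc]
    exact neg_mul_neg (S.Lc a) (S.Lc (j - a))
  unfold d0c
  rw [map_sub, map_add, e1, e2, e3]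

/-- (Induction `TensorAlgebra.induction`: product rule, values on generators by `io_ext`.) -/
theorem sg_d0 (f : TA k D) : sg k D (S.d0 f) = -S.d0 (sg k D f) := by
  have h := S.A2c_ind S.d0 S.d0_one (-1) (fun j hj => by
    rw [neg_neg, one_smul, S.d0_Lc j hj, S.A2c_d0c]) (fun f g hf hg => by
    rw [neg_smul, one_smul] at hf hg ⊢
    rw [S.d0_mul, map_add, map_mul, map_mul, hf, hg, map_mul, S.d0_mul]
    simp only [mul_neg, neg_mul, neg_add]) f
  rwa [neg_smul, one_smul] at h

theorem sg_ss (f : TA k D) : sg k D (S.ss f) = -S.ss (sg k D f) := by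
  have h := S.A2c_ind S.ss S.ss_one (-1) (fun j _ => by
    rw [neg_neg, one_smul, S.ss_Lc j]
    split_ifs
    · exact A2c_one
    · exact map_zero _) (fun f g hf hg => by
    rw [neg_smul, one_smul] at hf hg ⊢
    rw [S.ss_mul, map_add, map_mul, map_mul, hf, hg, map_mul, S.ss_mul, S.sg_bars, S.sg_bar,
      S.bars_sg]
    simp only [mul_neg, neg_mul, neg_add]) f
  rwa [neg_smul, one_smul] at h

theorem sg_tt (f : TA k D) : sg k D (S.tt f) = -S.tt (sg k D f) := by
  have h := S.A2c_ind S.tt S.tt_one (-1) (fun j _ => by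
    rw [neg_neg, one_smul, S.tt_Lc j]
    split_ifs
    · exact A2c_one
    · exact map_zero _) (fun f g hf hg => by
    rw [neg_smul, one_smul] at hf hg ⊢
    rw [S.tt_mul, map_add, map_mul, map_mul, hf, hg, map_mul, S.tt_mul, S.sg_bars, S.sg_bar,
      S.bars_sg]
    simp only [mul_neg, neg_mul, neg_add]) f
  rwa [neg_smul, one_smul] at h

theorem sg_QQ (f : TA k D) : sg k D (S.QQ f) = S.QQ (sg k D f) := by
  have h := S.A2c_ind S.QQ S.QQ_one 1 (fun j _ => by
    rw [neg_smul, one_smul, S.QQ_Lc j, S.sg_Lc]) (fun f g hf hg => by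
    rw [one_smul] at hf hg ⊢
    rw [S.QQ_mul, map_add, map_mul, map_mul, hf, hg, map_mul, S.QQ_mul, S.sg_bar]) f
  rwa [one_smul] at h

theorem sg_Xi (f : TA k D) : sg k D (S.Xi f) = -S.Xi (sg k D f) := by
  have h := S.A2c_ind S.Xi S.Xi_one (-1) (fun j _ => by
    rw [neg_neg, one_smul, S.Xi_Lc j]
    split_ifs
    · exact S.sg_xc
    · exact map_zero _) (fun f g hf hg => by
    rw [neg_smul, one_smul] at hf hg ⊢
    rw [S.Xi_mul, map_add, map_mul, map_mul, hf, hg, map_mul, S.Xi_mul, S.sg_bars, S.sg_bar,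
      S.bars_sg]
    simp only [mul_neg, neg_mul, neg_add]) f
  rwa [neg_smul, one_smul] at h

theorem sg_Ms (f : TA k D) : sg k D (S.Ms f) = -S.Ms (sg k D f) := by
  have h := S.A2c_ind S.Ms S.Ms_one (-1) (fun j _ => by
    rw [neg_neg, one_smul, S.Ms_Lc j]
    split_ifs
    · exact S.sg_xc
    · exact map_zero _) (fun f g hf hg => by
    rw [neg_smul, one_smul] at hf hg ⊢
    rw [S.Ms_mul, map_add, map_mul, map_mul, hf, hg, map_mul, S.Ms_mul, S.sg_bar]
    simp only [mul_neg, neg_mul, neg_add]) f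
  rwa [neg_smul, one_smul] at h

theorem sg_Mb (f : TA k D) : sg k D (S.Mb f) = -S.Mb (sg k D f) := by
  have h := S.A2c_ind S.Mb S.Mb_one (-1) (fun j _ => by
    rw [neg_neg, one_smul, S.Mb_Lc j]
    split_ifs
    · exact S.sg_xc
    · exact map_zero _) (fun f g hf hg => by
    rw [neg_smul, one_smul] at hf hg ⊢
    rw [S.Mb_mul, map_add, map_mul, map_mul, hf, hg, map_mul, S.Mb_mul, S.sg_bars, S.sg_bar,
      S.bars_sg]
    simp only [mul_neg, neg_mul, neg_add]) f
  rwa [neg_smul, one_smul] at h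

private lemma A2d_ind (O : TA k D →ₗ[k] TA k D) (h1 : O 1 = 0) (hio : ∀ a, O (io k a) = 0)
    (c : k) (hm : ∀ f g, sg k D (O f) = c • O (sg k D f) → sg k D (O g) = c • O (sg k D g) →
      sg k D (O (f * g)) = c • O (sg k D (f * g))) (f : TA k D) :
    sg k D (O f) = c • O (sg k D f) := by
  induction f using TensorAlgebra.induction with
  | algebraMap r =>
    rw [AlgHom.commutes, Algebra.algebraMap_eq_smul_one, map_smul, h1, smul_zero, smul_zero,
      map_zero]
  | ι a =>
    have h2 : O (sg k D (TensorAlgebra.ι k a)) = 0 := by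
      have h3 := sg_io k D a
      rw [show sg k D (TensorAlgebra.ι k a) = -io k a from h3, map_neg, hio, neg_zero]
    rw [h2, show O (TensorAlgebra.ι k a) = 0 from hio a, map_zero, smul_zero]
  | mul f g hf hg => exact hm f g hf hg
  | add f g hf hg => rw [map_add, map_add, hf, hg, map_add, map_add, smul_add]

theorem sg_Psi (f : TA k D) : sg k D (S.Psi f) = S.Psi (sg k D f) := by
  have h := A2d_ind S.Psi S.Psi_one S.Psi_io 1 (fun f g hf hg => by
    rw [one_smul] at hf hg ⊢
    rw [S.Psi_mul, map_add, map_add, map_mul, map_mul, map_mul, hf, hg, S.sg_bar, S.sg_bar,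
      S.sg_tt, S.sg_ss, neg_mul_neg, map_mul, S.Psi_mul]) f
  rwa [one_smul] at h

theorem sg_Om (f : TA k D) : sg k D (S.Om f) = S.Om (sg k D f) := by
  have h := A2d_ind S.Om S.Om_one S.Om_io 1 (fun f g hf hg => by
    rw [one_smul] at hf hg ⊢
    rw [S.Om_mul, map_add, map_add, map_mul, map_mul, map_mul, hf, hg, S.sg_bars, S.sg_bars,
      S.sg_Xi, S.sg_tt, neg_mul_neg, map_mul, S.Om_mul, S.bars_sg, S.bars_sg]) f
  rwa [one_smul] at h

theorem sg_KK (f : TA k D) : sg k D (S.KK f) = -S.KK (sg k D f) := by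
  have h := A2d_ind S.KK S.KK_one S.KK_io (-1) (fun f g hf hg => by
    rw [neg_smul, one_smul] at hf hg ⊢
    rw [S.KK_mul, map_add, map_add, map_mul, map_mul, map_mul, hf, hg, S.Qs_apply, S.sg_QQ,
      S.sg_ss, S.sg_bar, map_mul, S.KK_mul, S.Qs_apply]
    simp only [mul_neg, neg_mul, neg_add_rev]
    abel) f
  rwa [neg_smul, one_smul] at h

theorem sg_KM (f : TA k D) : sg k D (S.KM f) = S.KM (sg k D f) := by
  have h := A2d_ind S.KM S.KM_one S.KM_io 1 (fun f g hf hg => by
    rw [one_smul] at hf hg ⊢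
    rw [S.KM_mul, map_add, map_add, map_mul, map_mul, map_mul, hf, hg, S.Mss_apply, S.sg_Ms,
      S.sg_ss, S.sg_bar, neg_mul_neg, map_mul, S.KM_mul, S.Mss_apply]) f
  rwa [one_smul] at h

theorem sg_Lb (f : TA k D) : sg k D (S.Lb f) = S.Lb (sg k D f) := by
  have h := A2d_ind S.Lb S.Lb_one S.Lb_io 1 (fun f g hf hg => by
    rw [one_smul] at hf hg ⊢
    rw [S.Lb_mul, map_add, map_add, map_mul, map_mul, map_mul, hf, hg, S.sg_bar, S.sg_bar,
      S.sg_Mb, S.sg_ss, neg_mul_neg, map_mul, S.Lb_mul]) f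
  rwa [one_smul] at h

theorem sg_NN (f : TA k D) : sg k D (S.NN f) = -S.NN (sg k D f) := by
  have h := A2d_ind S.NN S.NN_one S.NN_io (-1) (fun f g hf hg => by
    rw [neg_smul, one_smul] at hf hg ⊢
    rw [S.NN_mul, map_add, map_add, map_add, map_mul, map_mul, map_mul, map_mul, hf, hg,
      S.sg_bars, S.sg_Xi, S.sg_Psi, S.sg_Om, S.sg_ss, S.sg_bar, map_mul, S.NN_mul, S.bars_sg]
    simp only [mul_neg, neg_mul, neg_add_rev]
    abel) f
  rwa [neg_smul, one_smul] at h

end

end LS

end Pool.Agent.Helper77.R1
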