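import Pool.Agent.Helper77.R1.Wts

/-!
# Project R1, part A8: weights and the first order operators

All statements by induction on the list `w`, from `wd_cons`, the product rules and the values on
letters.
-/

set_option linter.unusedSectionVars false
set_option autoImplicit false

open scoped TensorProduct
open Pool.Agent.Helper90.FC

namespace Pool.Agent.Helper77.R1

universe u

namespace LS

section

variable {k : Type u} [Field k] {E D : Type u} [Ring E] [Bialgebra k E] [Ring D] [Bialgebra k D]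
variable {p : ℕ} (S : LS k E D p)

private theorem R1A8a_xc (a b : ℕ) (t : E ⊗[k] E) :
    LinearMap.mul' k (TA k D) (TensorProduct.map (S.Lt a) (S.Lt b) t) ∈ S.Wt 2 (a + b) := by
  induction t using TensorProduct.induction_on with
  | zero => simp only [map_zero, Submodule.zero_mem]
  | tmul x y =>
    have h := S.Wt_mul (S.L_mem_Wt a x) (S.L_mem_Wt b y)
    simpa only [TensorProduct.map_tmul, LinearMap.mul'_apply] using h
  | add x y hx hy => simpa only [map_add] using Submodule.add_mem _ hx hy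

theorem ss_L (j : ℕ) (g : E) : S.ss (S.L j g) =
    if j = 1 then algebraMap k (TA k D) (Coalgebra.counit (R := k) g) else 0 := by
  have h := congrArg (fun φ : Rc k E D => φ.ofConv g) (S.ss_Lc j)
  refine Eq.trans h ?_
  split_ifs with hj
  · rfl
  · rfl

theorem tt_L (j : ℕ) (g : E) : S.tt (S.L j g) =
    if j = p - 1 then algebraMap k (TA k D) (Coalgebra.counit (R := k) g) else 0 := by
  have h := congrArg (fun φ : Rc k E D => φ.ofConv g) (S.tt_Lc j)
  refine Eq.trans h ?_
  split_ifs with hj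
  · rfl
  · rfl

theorem QQ_L (j : ℕ) (g : E) : S.QQ (S.L j g) = S.L (j + 1) g :=
  congrArg (fun φ : Rc k E D => φ.ofConv g) (S.QQ_Lc j)

theorem lam_mem : S.lam ∈ S.Wt 1 1 := S.L_mem_Wt 1 1

theorem xi_mem : S.xi ∈ S.Wt 2 p := by
  unfold xi
  refine Submodule.sum_mem _ fun a ha => ?_
  rw [Finset.mem_Ico] at ha
  have h := S.Wt_mul (S.L_mem_Wt a 1) (S.L_mem_Wt (p - a) 1)
  have e : a + (p - a) = p := by omega
  rwa [e] at h

/-- (`Δ g = ∑ g₁ ⊗ g₂`, sums of `L_a(g₁) L_(p-a)(g₂)`.) -/
theorem xc_mem (g : E) : S.xc.ofConv g ∈ S.Wt 2 p := by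
  unfold xc
  rw [WithConv.ofConv_sum, LinearMap.sum_apply]
  refine Submodule.sum_mem _ fun a ha => ?_
  rw [Finset.mem_Ico] at ha
  have h3 := S.R1A8a_xc a (p - a) (Coalgebra.comul (R := k) g)
  have e : a + (p - a) = p := by omega
  rw [e] at h3
  rw [LinearMap.convMul_apply]
  exact h3

theorem ss_wd (w : List (ℕ × E)) (h : wt w ≠ 1) : S.ss (S.wd w) = 0 := by
  induction w with
  | nil => rw [wd_nil]; exact S.ss_one
  | cons x w ih =>
    rw [wt_cons] at h
    rw [wd_cons, ss_mul, ss_L, bars_L]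
    rcases Nat.eq_zero_or_pos x.1 with h0 | h0
    · rw [h0, if_pos rfl, if_neg (by omega), zero_mul, add_zero, ih (by omega), mul_zero]
    · rw [if_neg (by omega), zero_mul, zero_add]
      split_ifs with h1
      · rw [S.bar_wd w (by omega), mul_zero]
      · rw [zero_mul]

/-- (`bars (L x) * ss (wd w) + ss (L x) * bar (wd w)`: products of words of weight `0`.) -/
theorem ss_wd_mem (w : List (ℕ × E)) : S.ss (S.wd w) ∈ S.Wt (w.length - 1) 0 := by
  induction w with
  | nil => rw [wd_nil, S.ss_one]; exact Submodule.zero_mem _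
  | cons x w ih =>
    rw [wd_cons, ss_mul, ss_L, bars_L, List.length_cons, Nat.add_sub_cancel]
    refine Submodule.add_mem _ ?_ ?_
    · split_ifs
      · rw [neg_mul]
        refine Submodule.neg_mem _ ?_
        rcases w with _ | ⟨y, w⟩
        · rw [wd_nil, S.ss_one, mul_zero]; exact Submodule.zero_mem _
        · have h1 := S.Wt_mul (S.L_mem_Wt 0 x.2) ih
          rw [List.length_cons, Nat.add_sub_cancel, add_comm 1 w.length] at h1
          exact h1
      · rw [zero_mul]; exact Submodule.zero_mem _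
    · split_ifs
      · rw [← Algebra.smul_def]
        exact Submodule.smul_mem _ _ (S.bar_mem (S.wd_mem w rfl (le_refl _)))
      · rw [zero_mul]; exact Submodule.zero_mem _

theorem ss_mem {n j : ℕ} {f : TA k D} (hf : f ∈ S.Wt (n + 1) j) : S.ss f ∈ S.Wt n 0 :=
  S.Wt_map S.ss _ (fun w hw _ => by
    have h := S.ss_wd_mem w
    rwa [hw, Nat.add_sub_cancel] at h) hf

theorem ss_zero {n : ℕ} {f : TA k D} (hf : f ∈ S.Wt n 0) : S.ss f = 0 :=
  (Submodule.mem_bot k).1 (S.Wt_map S.ss ⊥ (fun w _ hw => by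
    rw [Submodule.mem_bot]
    exact S.ss_wd w (by omega)) hf)

theorem tt_wd (w : List (ℕ × E)) (h : wt w ≠ p - 1) : S.tt (S.wd w) = 0 := by
  have hp := S.two_le
  induction w with
  | nil => rw [wd_nil]; exact S.tt_one
  | cons x w ih =>
    rw [wt_cons] at h
    rw [wd_cons, tt_mul, tt_L, bar_L]
    rcases Nat.eq_zero_or_pos x.1 with h0 | h0
    · rw [h0, if_pos rfl, if_neg (by omega), zero_mul, add_zero, ih (by omega), mul_zero]
    · rw [if_neg (by omega), zero_mul, zero_add]
      split_ifs with h1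
      · rw [S.bars_wd w (by omega), mul_zero]
      · rw [zero_mul]

theorem tt_wd_mem (w : List (ℕ × E)) : S.tt (S.wd w) ∈ S.Wt (w.length - 1) 0 := by
  induction w with
  | nil => rw [wd_nil, S.tt_one]; exact Submodule.zero_mem _
  | cons x w ih =>
    rw [wd_cons, tt_mul, tt_L, bar_L, List.length_cons, Nat.add_sub_cancel]
    refine Submodule.add_mem _ ?_ ?_
    · split_ifs
      · rcases w with _ | ⟨y, w⟩
        · rw [wd_nil, S.tt_one, mul_zero]; exact Submodule.zero_mem _
        · have h1 := S.Wt_mul (S.L_mem_Wt 0 x.2) ih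
          rw [List.length_cons, Nat.add_sub_cancel, add_comm 1 w.length] at h1
          exact h1
      · rw [zero_mul]; exact Submodule.zero_mem _
    · split_ifs
      · rw [← Algebra.smul_def]
        exact Submodule.smul_mem _ _ (S.bars_mem (S.wd_mem w rfl (le_refl _)))
      · rw [zero_mul]; exact Submodule.zero_mem _

theorem tt_mem {n j : ℕ} {f : TA k D} (hf : f ∈ S.Wt (n + 1) j) : S.tt f ∈ S.Wt n 0 :=
  S.Wt_map S.tt _ (fun w hw _ => by
    have h := S.tt_wd_mem w
    rwa [hw, Nat.add_sub_cancel] at h) hf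

private theorem Qs_wd_mem_sgL (j : ℕ) (g : E) : sg k D (S.L j g) = -S.L j g := sg_io k D _

private theorem Qs_wd_mem_wd (w : List (ℕ × E)) : S.wd w ∈ S.Wt w.length (wt w) :=
  S.wd_mem w rfl le_rfl

theorem Qs_wd_mem (w : List (ℕ × E)) : S.Qs (S.wd w) ∈ S.Wt w.length (wt w + 1) := by
  induction w with
  | nil =>
    have h1 : S.QQ 1 = 0 := tw_one (AlgHom.id k (TA k D)) S.bar S.QQ S.QQ_mul
    rw [S.wd_nil, S.Qs_apply, map_one, h1]
    exact Submodule.zero_mem _
  | cons x w ih =>
    rw [S.wd_cons, S.Qs_mul, S.Qs_apply (S.L x.1 x.2), Qs_wd_mem_sgL, map_neg]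
    have hQ : S.QQ (S.L x.1 x.2) = S.L (x.1 + 1) x.2 := by
      have := congrArg (fun φ : Rc k E D => φ.ofConv x.2) (S.QQ_Lc x.1)
      exact this
    rw [hQ, wt_cons, List.length_cons]
    refine Submodule.add_mem _ ?_ ?_
    · rw [neg_mul]
      refine Submodule.neg_mem _ ?_
      have := S.Wt_mul (S.L_mem_Wt x.1 x.2) ih
      rw [Nat.add_comm 1, ← Nat.add_assoc] at this
      exact this
    · rw [neg_mul]
      refine Submodule.neg_mem _ ?_
      have := S.Wt_mul (S.L_mem_Wt (x.1 + 1) x.2) (S.bars_mem (Qs_wd_mem_wd S w))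
      rw [Nat.add_comm 1] at this
      exact S.Wt_mono (by omega) this

private theorem Xi_wd_L (j : ℕ) (g : E) :
    S.Xi (S.L j g) = if j = 0 then S.xc.ofConv g else 0 := by
  have := congrArg (fun φ : Rc k E D => φ.ofConv g) (S.Xi_Lc j)
  refine Eq.trans this ?_
  split_ifs <;> rfl

theorem Xi_wd (w : List (ℕ × E)) (h : wt w ≠ 0) : S.Xi (S.wd w) = 0 := by
  induction w with
  | nil => exact absurd wt_nil h
  | cons x w ih =>
    rw [S.wd_cons, S.Xi_mul, Xi_wd_L]
    by_cases hx : x.1 = 0
    · have hw : wt w ≠ 0 := by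
        rw [wt_cons, hx, zero_add] at h
        exact h
      rw [ih hw, mul_zero, S.bar_wd w hw, mul_zero, add_zero]
    · rw [if_neg hx, zero_mul, add_zero, S.bars_L, if_neg hx, zero_mul]

theorem Xi_wd_mem (w : List (ℕ × E)) : S.Xi (S.wd w) ∈ S.Wt (w.length + 1) p := by
  induction w with
  | nil =>
    have h1 : S.Xi 1 = 0 := tw_one S.bars S.bar S.Xi S.Xi_mul
    rw [S.wd_nil, h1]
    exact Submodule.zero_mem _
  | cons x w ih =>
    rw [S.wd_cons, S.Xi_mul, Xi_wd_L, List.length_cons]
    refine Submodule.add_mem _ ?_ ?_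
    · have := S.Wt_mul (S.bars_mem (S.L_mem_Wt x.1 x.2)) ih
      rw [Nat.add_comm 1, Nat.zero_add] at this
      exact this
    · split_ifs
      · have := S.Wt_mul (S.xc_mem x.2) (S.bar_mem (Qs_wd_mem_wd S w))
        rw [Nat.add_comm 2, Nat.add_zero] at this
        exact this
      · rw [zero_mul]
        exact Submodule.zero_mem _

/-- membership for products in the convolution ring -/
private theorem d0_L_mem_conv {n m i j : ℕ} (φ ψ : Rc k E D) (hφ : ∀ g, φ.ofConv g ∈ S.Wt n i)
    (hψ : ∀ g, ψ.ofConv g ∈ S.Wt m j) (g : E) : (φ * ψ).ofConv g ∈ S.Wt (n + m) (i + j) := by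
  have h1 : (φ * ψ).ofConv g = LinearMap.mul' k (TA k D)
      (TensorProduct.map φ.ofConv ψ.ofConv (Coalgebra.comul (R := k) g)) := rfl
  rw [h1]
  induction Coalgebra.comul (R := k) g using TensorProduct.induction_on with
  | zero => simp only [map_zero, Submodule.zero_mem]
  | tmul a b =>
    have h := S.Wt_mul (hφ a) (hψ b)
    simpa only [TensorProduct.map_tmul, LinearMap.mul'_apply] using h
  | add a b ha hb => simpa only [map_add] using Submodule.add_mem _ ha hb

/-- (Letters: `d0c j` is a sum of words with two letters of total weight `j`.) -/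
theorem d0_L_mem (j : ℕ) (g : E) : S.d0 (S.L j g) ∈ S.Wt 2 j := by
  rcases lt_or_ge j p with hj | hj
  · have h1 : S.d0 (S.L j g) = (S.d0c j).ofConv g := by
      have := congrArg (fun φ : Rc k E D => φ.ofConv g) (S.d0_Lc j hj)
      exact this
    have h2 : (S.d0c j).ofConv g = S.e * S.L j g + S.L j g * S.e -
        ∑ a ∈ Finset.range (j + 1), (S.Lc a * S.Lc (j - a)).ofConv g := by
      unfold d0c
      rw [kc_mul_eq, mul_kc_eq, WithConv.ofConv_sub, WithConv.ofConv_add, WithConv.ofConv_sum,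
        LinearMap.sub_apply, LinearMap.add_apply, LinearMap.sum_apply, post_apply, post_apply]
      rfl
    have he : S.e ∈ S.Wt 1 0 := S.L_mem_Wt 0 1
    rw [h1, h2]
    refine Submodule.sub_mem _ (Submodule.add_mem _ ?_ ?_) (Submodule.sum_mem _ fun a ha => ?_)
    · have := S.Wt_mul he (S.L_mem_Wt j g)
      rw [Nat.zero_add] at this
      exact this
    · have := S.Wt_mul (S.L_mem_Wt j g) he
      rw [Nat.add_zero] at this
      exact this
    · have := d0_L_mem_conv S (S.Lc a) (S.Lc (j - a)) (S.L_mem_Wt a) (S.L_mem_Wt (j - a)) g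
      rw [Nat.add_sub_cancel' (Nat.lt_succ_iff.1 (Finset.mem_range.1 ha))] at this
      exact this
  · rw [S.L_ge j hj, map_zero]
    exact Submodule.zero_mem _

theorem d0_wd_mem (w : List (ℕ × E)) : S.d0 (S.wd w) ∈ S.Wt (w.length + 1) (wt w) := by
  induction w with
  | nil =>
    have h1 : S.d0 1 = 0 := tw_one (sg k D) (AlgHom.id k (TA k D)) S.d0 S.d0_mul
    rw [S.wd_nil, h1]
    exact Submodule.zero_mem _
  | cons x w ih =>
    rw [S.wd_cons, S.d0_mul, Qs_wd_mem_sgL, wt_cons, List.length_cons, neg_mul]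
    refine Submodule.add_mem _ (Submodule.neg_mem _ ?_) ?_
    · have := S.Wt_mul (S.L_mem_Wt x.1 x.2) ih
      rw [Nat.add_comm 1] at this
      exact this
    · have := S.Wt_mul (S.d0_L_mem x.1 x.2) (Qs_wd_mem_wd S w)
      rw [Nat.add_comm 2] at this
      exact this

theorem d0_mem {n j : ℕ} {f : TA k D} (hf : f ∈ S.Wt n j) : S.d0 f ∈ S.Wt (n + 1) j := by
  refine S.Wt_map S.d0 (S.Wt (n + 1) j) (fun w hn hj => ?_) hf
  rw [← hn]
  exact S.Wt_mono hj (S.d0_wd_mem w)

end

end LS

end Pool.Agent.Helper77.R1
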