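import Pool.Agent.Helper77.R1.WtA
import Pool.Agent.Helper77.R1.IdD

/-!
# Project R1, part A9: weights of the higher operators and the homotopy formula
-/

set_option linter.unusedSectionVars false
set_option autoImplicit false

open scoped TensorProduct
open Pool.Agent.Helper90.FC

namespace Pool.Agent.Helper77.R1

universe u

namespace LS

section

variable {k : Type u} [Field k] {E D : Type u} [Ring E] [Bialgebra k E] [Ring D] [Bialgebra k D]
variable {p : ℕ} (S : LS k E D p)

/-- Induction on `w`: `Psi (L w') = bar L Psi w' + tt L ss w'`. The weight of `L` is `0` in the first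
term, `p - 1` in the second term and then `w'` has weight `1`. -/
theorem Psi_wd (w : List (ℕ × E)) (h : wt w ≠ p) : S.Psi (S.wd w) = 0 := by
  induction w with
  | nil => rw [wd_nil, Psi_one]
  | cons x w ih =>
    rw [wt_cons] at h
    rw [wd_cons, Psi_mul, L_eq, Psi_io, ← L_eq, zero_mul, add_zero, bar_L, tt_L]
    have h2 := S.two_le
    by_cases h0 : x.1 = 0
    · rw [if_pos h0, ih (by omega), mul_zero, zero_add]
      by_cases h1 : x.1 = p - 1
      · omega
      · rw [if_neg h1, zero_mul]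
    · rw [if_neg h0, zero_mul, zero_add]
      by_cases h1 : x.1 = p - 1
      · rw [S.ss_wd w (by omega), mul_zero]
      · rw [if_neg h1, zero_mul]

theorem Psi_wd_mem (w : List (ℕ × E)) : S.Psi (S.wd w) ∈ S.Wt (w.length - 2) 0 := by
  induction w with
  | nil => rw [wd_nil, Psi_one]; exact Submodule.zero_mem _
  | cons x w ih =>
    rw [wd_cons, Psi_mul, L_eq, Psi_io, ← L_eq, zero_mul, add_zero]
    have hb : S.bar (S.L x.1 x.2) * S.Psi (S.wd w) ∈ S.Wt ((x :: w).length - 2) 0 := by
      match w, ih with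
      | [], _ => rw [wd_nil, Psi_one, mul_zero]; exact Submodule.zero_mem _
      | [y], _ =>
        have h1 : S.Psi (S.wd [y]) = 0 := by
          rw [wd_cons, wd_nil, mul_one, L_eq, Psi_io]
        rw [h1, mul_zero]; exact Submodule.zero_mem _
      | y :: z :: w, ih =>
        have h1 : S.bar (S.L x.1 x.2) ∈ S.Wt 1 0 := S.bar_mem (S.L_mem_Wt x.1 x.2)
        have h2 := S.Wt_mul h1 ih
        have h3 : 1 + ((y :: z :: w).length - 2) = (x :: y :: z :: w).length - 2 := by
          simp only [List.length_cons]; omega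
        rw [h3] at h2
        exact h2
    have ht : S.tt (S.L x.1 x.2) * S.ss (S.wd w) ∈ S.Wt ((x :: w).length - 2) 0 := by
      have h1 : S.tt (S.L x.1 x.2) ∈ S.Wt 0 0 := S.tt_mem (S.L_mem_Wt x.1 x.2)
      have h2 := S.Wt_mul h1 (S.ss_wd_mem w)
      have h3 : 0 + (w.length - 1) = (x :: w).length - 2 := by
        simp only [List.length_cons]; omega
      rw [h3] at h2
      exact h2
    exact Submodule.add_mem _ hb ht

theorem Psi_mem {n j : ℕ} {f : TA k D} (hf : f ∈ S.Wt (n + 2) j) : S.Psi f ∈ S.Wt n 0 := by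
  refine S.Wt_map S.Psi (S.Wt n 0) (fun w hn _ => ?_) hf
  have h1 := S.Psi_wd_mem w
  rw [hn] at h1
  exact h1

theorem Psi_low {n j : ℕ} (hj : j < p) {f : TA k D} (hf : f ∈ S.Wt n j) : S.Psi f = 0 := by
  have h1 := S.Wt_map S.Psi ⊥ (fun w _ hw => by
    rw [Submodule.mem_bot]
    exact S.Psi_wd w (by omega)) hf
  exact (Submodule.mem_bot k).1 h1

/-- Words whose first letter has weight strictly between `0` and `p - 1` are killed by `Psi`. -/
theorem Psi_first (a : ℕ) (ha : 0 < a) (ha' : a < p - 1) (g : E) (f : TA k D) :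
    S.Psi (S.L a g * f) = 0 := by
  rw [Psi_mul, L_eq, Psi_io, ← L_eq, zero_mul, add_zero, bar_L, tt_L, if_neg (by omega),
    if_neg (by omega), zero_mul, zero_mul, add_zero]

/-- Induction on `w`: `Om (L w') = bars L Om w' + Xi L tt w'`. -/
theorem Om_wd (w : List (ℕ × E)) (h : wt w ≠ p - 1) : S.Om (S.wd w) = 0 := by
  induction w with
  | nil => rw [wd_nil, Om_one]
  | cons x w ih =>
    rw [wt_cons] at h
    rw [wd_cons, Om_mul, L_eq, Om_io, ← L_eq, zero_mul, add_zero, bars_L]
    by_cases h0 : x.1 = 0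
    · rw [ih (by omega), S.tt_wd w (by omega), mul_zero, mul_zero, add_zero]
    · have h1 := S.Xi_wd [x] (by rw [wt_cons, wt_nil]; omega)
      rw [wd_cons, wd_nil, mul_one] at h1
      rw [if_neg h0, h1, zero_mul, zero_mul, add_zero]

theorem Om_wd_mem (w : List (ℕ × E)) : S.Om (S.wd w) ∈ S.Wt w.length p := by
  induction w with
  | nil => rw [wd_nil, Om_one]; exact Submodule.zero_mem _
  | cons x w ih =>
    rw [wd_cons, Om_mul, L_eq, Om_io, ← L_eq, zero_mul, add_zero]
    have h1 : S.bars (S.L x.1 x.2) ∈ S.Wt 1 0 := S.bars_mem (S.L_mem_Wt x.1 x.2)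
    have h2 := S.Wt_mul h1 ih
    rw [zero_add, show 1 + w.length = (x :: w).length by
      simp only [List.length_cons]; omega] at h2
    refine Submodule.add_mem _ h2 ?_
    match w with
    | [] => rw [wd_nil, tt_one, mul_zero]; exact Submodule.zero_mem _
    | y :: w =>
      have h3 := S.Xi_wd_mem [x]
      rw [wd_cons, wd_nil, mul_one] at h3
      have h4 := S.Wt_mul h3 (S.tt_wd_mem (y :: w))
      have h5 : [x].length + 1 + ((y :: w).length - 1) = (x :: y :: w).length := by
        simp only [List.length_cons, List.length_nil]; omega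
      rw [h5, add_zero] at h4
      exact h4

theorem r1a9b_NN_cons (x : ℕ × E) (w : List (ℕ × E)) : S.NN (S.wd (x :: w)) =
    S.bars (S.L x.1 x.2) * S.NN (S.wd w) + S.Xi (S.L x.1 x.2) * S.Psi (S.wd w) := by
  rw [wd_cons, NN_mul, S.L_eq, Om_io, NN_io, zero_mul, zero_mul, add_zero, add_zero]

theorem r1a9b_Xi_L (j : ℕ) (g : E) : S.Xi (S.L j g) = if j = 0 then S.xc.ofConv g else 0 := by
  have h := congrArg (fun φ : Rc k E D => φ.ofConv g) (S.Xi_Lc j)
  simp only [post_apply, Lc_apply] at h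
  rw [h]
  split_ifs <;> rfl

theorem r1a9b_KK_cons (x : ℕ × E) (w : List (ℕ × E)) : S.KK (S.wd (x :: w)) =
    -S.L x.1 x.2 * S.KK (S.wd w) - S.L (x.1 + 1) x.2 * S.ss (S.wd w) := by
  have hs : sg k D (S.L x.1 x.2) = -S.L x.1 x.2 := by
    have h := congrArg (fun φ : Rc k E D => φ.ofConv x.2) (S.sg_Lc x.1)
    exact h
  rw [wd_cons, KK_mul, Qs_apply, hs, map_neg, QQ_L, S.L_eq x.1, KK_io, zero_mul, add_zero, neg_mul,
    neg_mul, sub_eq_add_neg]

/-- Induction on `w`: `NN (L w') = bars L NN w' + Xi L Psi w'`. -/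
theorem NN_wd (w : List (ℕ × E)) (h : wt w ≠ p) : S.NN (S.wd w) = 0 := by
  induction w with
  | nil => rw [wd_nil, NN_one]
  | cons x w ih =>
    rw [r1a9b_NN_cons, bars_L, r1a9b_Xi_L]
    rw [wt_cons] at h
    split_ifs with h0
    · rw [h0, zero_add] at h
      rw [ih h, S.Psi_wd w h, mul_zero, mul_zero, add_zero]
    · rw [zero_mul, zero_mul, add_zero]

theorem NN_wd_mem (w : List (ℕ × E)) : S.NN (S.wd w) ∈ S.Wt (w.length - 1) p := by
  induction w with
  | nil => rw [wd_nil, NN_one]; exact Submodule.zero_mem _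
  | cons x w ih =>
    rw [r1a9b_NN_cons, bars_L, r1a9b_Xi_L, List.length_cons, Nat.add_sub_cancel]
    split_ifs with h0
    · refine Submodule.add_mem _ ?_ ?_
      · rcases w with _ | ⟨y, w⟩
        · rw [wd_nil, NN_one, mul_zero]
          exact Submodule.zero_mem _
        · have h1 := S.Wt_mul (Submodule.neg_mem _ (S.L_mem_Wt 0 x.2)) ih
          rw [List.length_cons, Nat.add_sub_cancel, zero_add, Nat.add_comm 1] at h1
          exact h1
      · rcases w with _ | ⟨y, _ | ⟨z, w⟩⟩
        · rw [wd_nil, Psi_one, mul_zero]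
          exact Submodule.zero_mem _
        · rw [wd_cons, wd_nil, mul_one, S.L_eq, Psi_io, mul_zero]
          exact Submodule.zero_mem _
        · have h1 := S.Wt_mul (S.xc_mem x.2) (S.Psi_wd_mem (y :: z :: w))
          have h2 : 2 + ((y :: z :: w).length - 2) = (y :: z :: w).length := by
            simp only [List.length_cons]
            omega
          rw [h2, add_zero] at h1
          exact h1
    · rw [zero_mul, zero_mul, add_zero]
      exact Submodule.zero_mem _

/-- Induction on `w`: `KK (L w') = σ L KK w' + Qs L ss w'`; the last term is zero unless `w'` has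
weight `1`, and then it is in the span of the words of weight `wt L + 1`. -/
theorem KK_wd_mem (w : List (ℕ × E)) : S.KK (S.wd w) ∈ S.Wt (w.length - 1) (wt w) := by
  induction w with
  | nil => rw [wd_nil, KK_one]; exact Submodule.zero_mem _
  | cons x w ih =>
    rw [r1a9b_KK_cons, List.length_cons, Nat.add_sub_cancel, wt_cons]
    rcases w with _ | ⟨y, w⟩
    · rw [wd_nil, KK_one, ss_one, mul_zero, mul_zero, sub_zero]
      exact Submodule.zero_mem _
    · refine Submodule.sub_mem _ ?_ ?_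
      · have h1 := S.Wt_mul (Submodule.neg_mem _ (S.L_mem_Wt x.1 x.2)) ih
        rw [List.length_cons, Nat.add_sub_cancel, Nat.add_comm 1] at h1
        exact h1
      · by_cases h0 : wt (y :: w) = 1
        · have h1 := S.Wt_mul (S.L_mem_Wt (x.1 + 1) x.2) (S.ss_wd_mem (y :: w))
          rw [List.length_cons, Nat.add_sub_cancel, Nat.add_comm 1, add_zero] at h1
          rw [h0]
          exact h1
        · rw [S.ss_wd _ h0, mul_zero]
          exact Submodule.zero_mem _

theorem KK_wd_zero (w : List (ℕ × E)) (h : wt w = 0) : S.KK (S.wd w) = 0 := by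
  induction w with
  | nil => rw [wd_nil, KK_one]
  | cons x w ih =>
    rw [wt_cons] at h
    rw [r1a9b_KK_cons, ih (by omega), S.ss_wd w (by omega), mul_zero, mul_zero, sub_zero]

theorem HH_mem {n j : ℕ} {f : TA k D} (hf : f ∈ S.Wt (n + 1) j) : S.HH f ∈ S.Wt n j := by
  refine S.Wt_map S.HH (S.Wt n j) (fun w hn hj => ?_) hf
  rw [HH_apply]
  refine Submodule.sub_mem _ ?_ ?_
  · have h1 := S.KK_wd_mem w
    rw [hn, Nat.add_sub_cancel] at h1
    exact S.Wt_mono hj h1
  · by_cases h0 : wt w = p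
    · have h1 := S.NN_wd_mem w
      rw [hn, Nat.add_sub_cancel] at h1
      exact S.Wt_mono (h0 ▸ hj) h1
    · rw [S.NN_wd w h0]
      exact Submodule.zero_mem _

theorem HH_one : S.HH 1 = 0 := by
  rw [HH_apply, KK_one, NN_one, sub_zero]

theorem HH_zero {n : ℕ} {f : TA k D} (hf : f ∈ S.Wt n 0) : S.HH f = 0 := by
  have h1 := S.Wt_map S.HH ⊥ (fun w hn hj => by
    have h2 : wt w = 0 := Nat.le_zero.1 hj
    have h3 := S.two_le
    rw [Submodule.mem_bot, HH_apply, S.KK_wd_zero w h2, S.NN_wd w (by omega), sub_zero]) hf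
  exact (Submodule.mem_bot k).1 h1

theorem r1a9c_Mss_L (j : ℕ) (g : E) :
    S.Mss (S.L j g) = if j = p - 1 then -S.xc.ofConv g else 0 := by
  have hs : sg k D (S.L j g) = -S.L j g := congrArg (fun φ : Rc k E D => φ.ofConv g) (S.sg_Lc j)
  have h := congrArg (fun φ : Rc k E D => φ.ofConv g) (S.Ms_Lc j)
  simp only [post_apply, Lc_apply] at h
  rw [Mss_apply, hs, map_neg, h]
  split_ifs
  · rfl
  · exact neg_zero

theorem r1a9c_Mb_L (j : ℕ) (g : E) :
    S.Mb (S.L j g) = if j = p - 1 then S.xc.ofConv g else 0 := by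
  have h := congrArg (fun φ : Rc k E D => φ.ofConv g) (S.Mb_Lc j)
  simp only [post_apply, Lc_apply] at h
  rw [h]
  split_ifs <;> rfl

theorem r1a9c_KM_cons (x : ℕ × E) (w : List (ℕ × E)) : S.KM (S.wd (x :: w)) =
    S.L x.1 x.2 * S.KM (S.wd w) + S.Mss (S.L x.1 x.2) * S.ss (S.wd w) := by
  rw [wd_cons, KM_mul, S.L_eq x.1, KM_io, zero_mul, add_zero]

theorem r1a9c_Lb_cons (x : ℕ × E) (w : List (ℕ × E)) : S.Lb (S.wd (x :: w)) =
    S.bar (S.L x.1 x.2) * S.Lb (S.wd w) + S.Mb (S.L x.1 x.2) * S.ss (S.wd w) := by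
  rw [wd_cons, Lb_mul, S.L_eq x.1, Lb_io, zero_mul, add_zero]

/-- Induction on `w`: `KM (L w') = L KM w' + Mss L ss w'`, `Mss L = -[wt L = p - 1] xc`. -/
theorem KM_wd_zero (w : List (ℕ × E)) (h : wt w < p) : S.KM (S.wd w) = 0 := by
  induction w with
  | nil => rw [wd_nil, KM_one]
  | cons x w ih =>
    rw [wt_cons] at h
    rw [r1a9c_KM_cons, ih (by omega), mul_zero, zero_add, r1a9c_Mss_L]
    split_ifs with h0
    · rw [S.ss_wd w (by omega), mul_zero]
    · rw [zero_mul]

/-- Induction on `w`: `Lb (L w') = bar L Lb w' + Mb L ss w'`; if `wt L > 0` then `KM w' = 0` by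
`KM_wd_zero` and `bar L = 0`. -/
theorem KM_Lb_wd (w : List (ℕ × E)) (h : wt w ≤ p) : S.KM (S.wd w) = -S.Lb (S.wd w) := by
  induction w with
  | nil => rw [wd_nil, KM_one, Lb_one, neg_zero]
  | cons x w ih =>
    rw [wt_cons] at h
    rw [r1a9c_KM_cons, r1a9c_Lb_cons, bar_L, r1a9c_Mss_L, r1a9c_Mb_L]
    have h2 := S.two_le
    by_cases h0 : x.1 = 0
    · rw [if_pos h0, if_neg (by omega), if_neg (by omega), zero_mul, add_zero, add_zero,
        ih (by omega), h0, mul_neg]
    · rw [if_neg h0, S.KM_wd_zero w (by omega), mul_zero, zero_mul, zero_add, zero_add]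
      split_ifs
      · rw [neg_mul]
      · rw [zero_mul, neg_zero]

/-- THE HOMOTOPY FORMULA: from `KK_d0`, `NN_d0` and `KM_Lb_wd`. -/
theorem star {n : ℕ} {f : TA k D} (hf : f ∈ S.Wt n p) :
    f = S.bar f + S.lam * S.ss f + S.xi * S.Psi f + S.d0 (S.HH f) + S.HH (S.d0 f) := by
  have h1 : S.KM f = (-S.Lb) f := S.Wt_eq S.KM (-S.Lb)
    (fun w _ hj => by rw [LinearMap.neg_apply, S.KM_Lb_wd w hj]) hf
  rw [LinearMap.neg_apply] at h1
  have h2 := S.KK_d0 f
  have h3 := S.NN_d0 f
  rw [h1] at h2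
  rw [HH_apply, HH_apply, map_sub]
  have h4 : S.d0 (S.KK f) - S.d0 (S.NN f) + (S.KK (S.d0 f) - S.NN (S.d0 f)) =
      (f - S.bar f - S.lam * S.ss f + -S.Lb f) - (S.xi * S.Psi f - S.Lb f) := by
    rw [← h2, ← h3]
    abel
  rw [add_assoc, h4]
  abel

end

end LS

end Pool.Agent.Helper77.R1
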