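import Pool.Agent.Helper77.R1.Signs

/-!
# Project R1, part A7: weights

`wd w = L_{a_1}(g_1) ⋯ L_{a_n}(g_n)` for a list `w = [(a_1, g_1), …, (a_n, g_n)]`; `Wt n j` is the
span of the words with `n` letters of total weight at most `j`.
-/

set_option linter.unusedSectionVars false
set_option autoImplicit false

open scoped TensorProduct
open Pool.Agent.Helper90.FC

namespace Pool.Agent.Helper77.R1

universe u

namespace LS

section

variable {k : Type u} [Field k] {E D : Type u} [Ring E] [Bialgebra k E] [Ring D] [Bialgebra k D]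
variable {p : ℕ} (S : LS k E D p)

/-- The word of a list. -/
noncomputable def wd (w : List (ℕ × E)) : TA k D := (w.map fun x => S.L x.1 x.2).prod

/-- The weight of a list. -/
def wt {E : Type u} (w : List (ℕ × E)) : ℕ := (w.map Prod.fst).sum

theorem wd_nil : S.wd [] = 1 := rfl

theorem wd_cons (x : ℕ × E) (w : List (ℕ × E)) : S.wd (x :: w) = S.L x.1 x.2 * S.wd w := by
  simp [wd]

theorem wd_append (w w' : List (ℕ × E)) : S.wd (w ++ w') = S.wd w * S.wd w' := by
  simp [wd]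

theorem wt_nil : wt ([] : List (ℕ × E)) = 0 := rfl

theorem wt_cons (x : ℕ × E) (w : List (ℕ × E)) : wt (x :: w) = x.1 + wt w := by
  simp [wt]

theorem wt_append (w w' : List (ℕ × E)) : wt (w ++ w') = wt w + wt w' := by
  simp [wt]

/-- The span of the words with `n` letters of total weight at most `j`. -/
noncomputable def Wt (n j : ℕ) : Submodule k (TA k D) :=
  Submodule.span k {f | ∃ w : List (ℕ × E), w.length = n ∧ wt w ≤ j ∧ S.wd w = f}

theorem wd_mem (w : List (ℕ × E)) {n j : ℕ} (hn : w.length = n) (hj : wt w ≤ j) :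
    S.wd w ∈ S.Wt n j :=
  Submodule.subset_span ⟨w, hn, hj, rfl⟩

/-- Induction principle: a linear map which sends all words of `Wt n j` into `M` sends `Wt n j`
into `M`. -/
theorem Wt_map {N : Type u} [AddCommGroup N] [Module k N] (O : TA k D →ₗ[k] N)
    (M : Submodule k N) {n j : ℕ}
    (h : ∀ w : List (ℕ × E), w.length = n → wt w ≤ j → O (S.wd w) ∈ M) {f : TA k D}
    (hf : f ∈ S.Wt n j) : O f ∈ M := by
  have h1 : S.Wt n j ≤ M.comap O := by
    refine Submodule.span_le.2 ?_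
    rintro _ ⟨w, hn, hj, rfl⟩
    exact h w hn hj
  exact h1 hf

/-- Two linear maps which agree on the words agree on `Wt n j`. -/
theorem Wt_eq {N : Type u} [AddCommGroup N] [Module k N] (O O' : TA k D →ₗ[k] N) {n j : ℕ}
    (h : ∀ w : List (ℕ × E), w.length = n → wt w ≤ j → O (S.wd w) = O' (S.wd w)) {f : TA k D}
    (hf : f ∈ S.Wt n j) : O f = O' f := by
  have h1 := S.Wt_map (O - O') ⊥ (fun w hn hj => by
    rw [Submodule.mem_bot, LinearMap.sub_apply, h w hn hj, sub_self]) hf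
  rw [Submodule.mem_bot, LinearMap.sub_apply, sub_eq_zero] at h1
  exact h1

theorem Wt_mono {n i j : ℕ} (h : i ≤ j) : S.Wt n i ≤ S.Wt n j := by
  refine Submodule.span_mono ?_
  rintro _ ⟨w, hn, hj, rfl⟩
  exact ⟨w, hn, hj.trans h, rfl⟩

theorem one_mem_Wt (j : ℕ) : (1 : TA k D) ∈ S.Wt 0 j :=
  S.wd_mem [] rfl (Nat.zero_le j)

theorem Wt_zero_left (j : ℕ) {f : TA k D} (hf : f ∈ S.Wt 0 j) : ∃ c : k, f = c • 1 := by
  have h1 : S.Wt 0 j ≤ Submodule.span k {(1 : TA k D)} := by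
    refine Submodule.span_le.2 ?_
    rintro _ ⟨w, hn, -, rfl⟩
    rw [List.length_eq_zero_iff.1 hn]
    exact Submodule.mem_span_singleton_self _
  obtain ⟨c, hc⟩ := Submodule.mem_span_singleton.1 (h1 hf)
  exact ⟨c, hc.symm⟩

theorem L_mem_Wt (j : ℕ) (g : E) : S.L j g ∈ S.Wt 1 j := by
  have h1 := S.wd_mem [(j, g)] (n := 1) (j := j) rfl (by simp [wt])
  rwa [wd_cons, wd_nil, mul_one] at h1

/-- (`S.span`, `S.pr`.) -/
theorem io_mem_Wt (a : D) : io k a ∈ S.Wt 1 (p - 1) := by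
  have h1 : io k a = ∑ j ∈ Finset.range p, S.L j (S.pr j a) := by
    conv_lhs => rw [← S.span a]
    rw [io, map_sum]
    rfl
  rw [h1]
  refine Submodule.sum_mem _ fun j hj => ?_
  have h2 := Finset.mem_range.1 hj
  exact S.Wt_mono (by omega) (S.L_mem_Wt j _)

theorem Wt_mul {n m i j : ℕ} {f g : TA k D} (hf : f ∈ S.Wt n i) (hg : g ∈ S.Wt m j) :
    f * g ∈ S.Wt (n + m) (i + j) := by
  refine S.Wt_map (LinearMap.mulRight k g) _ (fun w hn hi => ?_) hf
  refine S.Wt_map (LinearMap.mulLeft k (S.wd w)) _ (fun w' hn' hj' => ?_) hg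
  rw [LinearMap.mulLeft_apply, ← wd_append]
  refine S.wd_mem _ ?_ ?_
  · rw [List.length_append, hn, hn']
  · rw [wt_append]
    exact Nat.add_le_add hi hj'

private theorem R1A7a_wd (w : List (ℕ × E)) : S.wd w ∈ Tn k D w.length := by
  induction w with
  | nil =>
    rw [wd_nil, List.length_nil, Tn, pow_zero]
    exact Submodule.one_le.1 le_rfl
  | cons x w ih =>
    rw [wd_cons, List.length_cons, Tn, pow_succ']
    exact Submodule.mul_mem_mul ⟨_, rfl⟩ ih

theorem Wt_le_Tn (n j : ℕ) : S.Wt n j ≤ Tn k D n := by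
  refine Submodule.span_le.2 ?_
  rintro _ ⟨w, hn, -, rfl⟩
  rw [← hn]
  exact S.R1A7a_wd w

theorem Tn_le_Wt (n : ℕ) : Tn k D n ≤ S.Wt n (n * (p - 1)) := by
  induction n with
  | zero =>
    rw [Tn, pow_zero, Submodule.one_le]
    exact S.one_mem_Wt _
  | succ n ih =>
    rw [Tn, pow_succ', Submodule.mul_le]
    rintro _ ⟨a, rfl⟩ y hy
    have h1 := S.Wt_mul (S.io_mem_Wt a) (ih hy)
    have h2 : p - 1 + n * (p - 1) = (n + 1) * (p - 1) := by ring
    rw [h2, add_comm 1 n] at h1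
    exact h1

/-- `σ` is a scalar on `Wt n j` (`sg_Tn`). -/
theorem sg_Wt {n j : ℕ} {f : TA k D} (hf : f ∈ S.Wt n j) : sg k D f = ((-1 : k) ^ n) • f :=
  sg_Tn k D n f (S.Wt_le_Tn n j hf)

end

section

variable {k : Type u} [Field k] {E D : Type u} [Ring E] [Bialgebra k E] [Ring D] [Bialgebra k D]
variable {p : ℕ} (S : LS k E D p)

/-- The embedding `T(E) → T(D)` given by the letters of weight `0`. -/
noncomputable def JJ : TA k E →ₐ[k] TA k D := mapT (S.l 0)

/-- The projection `T(D) → T(E)`. -/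
noncomputable def BB : TA k D →ₐ[k] TA k E := mapT (S.pr 0)

theorem JJ_io (g : E) : S.JJ (io k g) = S.L 0 g := mapT_ι (S.l 0) g

theorem BB_L (j : ℕ) (g : E) : S.BB (S.L j g) = if j = 0 then io k g else 0 := by
  have h1 : S.BB (S.L j g) = io k (S.pr 0 (S.l j g)) := mapT_ι (S.pr 0) (S.l j g)
  rw [h1]
  split_ifs with h
  · subst h
    rw [S.pr_l 0 (by have := S.two_le; omega)]
  · rw [S.pr_l_ne 0 j (Ne.symm h)]
    exact map_zero _

theorem JJ_BB (f : TA k D) : S.JJ (S.BB f) = S.bar f := by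
  have h1 : S.JJ.comp S.BB = S.bar := by
    apply TensorAlgebra.hom_ext
    ext a
    simp [JJ, BB, bar, mapT, Lt]
  exact AlgHom.congr_fun h1 f

theorem BB_JJ (w : TA k E) : S.BB (S.JJ w) = w := by
  have h1 : S.BB.comp S.JJ = AlgHom.id k (TA k E) := by
    apply TensorAlgebra.hom_ext
    ext a
    have h2 := S.pr_l 0 (by have := S.two_le; omega) a
    simp [JJ, BB, mapT, h2]
  exact AlgHom.congr_fun h1 w

theorem JJ_inj : Function.Injective S.JJ := fun a b h => by
  rw [← S.BB_JJ a, ← S.BB_JJ b, h]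

theorem bar_JJ (w : TA k E) : S.bar (S.JJ w) = S.JJ w := by
  rw [← JJ_BB, BB_JJ]

theorem sg_JJ (w : TA k E) : sg k D (S.JJ w) = S.JJ (sg k E w) := by
  have h1 : (sg k D).comp S.JJ = S.JJ.comp (sg k E) := by
    apply TensorAlgebra.hom_ext
    ext a
    simp [JJ, mapT, sg]
  exact AlgHom.congr_fun h1 w

theorem BB_Tn (n : ℕ) {f : TA k D} (hf : f ∈ Tn k D n) : S.BB f ∈ Tn k E n :=
  mapT_pow _ n f hf

theorem JJ_Tn (n : ℕ) {w : TA k E} (hw : w ∈ Tn k E n) : S.JJ w ∈ Tn k D n :=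
  mapT_pow _ n w hw

private theorem R1A7b_zero {w : TA k E} (hw : w ∈ Tn k E 0) : S.JJ w ∈ S.Wt 0 0 := by
  have h1 : w ∈ (1 : Submodule k (TA k E)) := by
    have h2 : w ∈ LinearMap.range (TensorAlgebra.ι k (M := E)) ^ 0 := hw
    rwa [pow_zero] at h2
  obtain ⟨c, rfl⟩ := Submodule.mem_one.1 h1
  have h3 : S.JJ (algebraMap k (TA k E) c) = c • (1 : TA k D) := by
    rw [AlgHom.commutes, Algebra.algebraMap_eq_smul_one]
  rw [h3]
  exact Submodule.smul_mem _ _ (S.one_mem_Wt 0)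

private theorem R1A7b_mul (n : ℕ) (a : E) (v : TA k E) (hv : S.JJ v ∈ S.Wt n 0) :
    S.JJ (io k a * v) ∈ S.Wt (n + 1) 0 := by
  have h3 : S.JJ (io k a * v) = S.L 0 a * S.JJ v := by
    rw [map_mul, S.JJ_io a]
  have h4 := S.Wt_mul (S.L_mem_Wt 0 a) hv
  have h5 : 1 + n = n + 1 := Nat.add_comm 1 n
  have h6 : 0 + 0 = 0 := rfl
  rw [h5, h6] at h4
  rw [h3]
  exact h4

private theorem R1A7b_succ (n : ℕ) (ih : ∀ v : TA k E, v ∈ Tn k E n → S.JJ v ∈ S.Wt n 0)
    {w : TA k E} (hw : w ∈ Tn k E (n + 1)) : S.JJ w ∈ S.Wt (n + 1) 0 := by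
  have h1 : w ∈ LinearMap.range (TensorAlgebra.ι k (M := E)) *
      LinearMap.range (TensorAlgebra.ι k (M := E)) ^ n := by
    have h2 : w ∈ LinearMap.range (TensorAlgebra.ι k (M := E)) ^ (n + 1) := hw
    rwa [pow_succ'] at h2
  refine Submodule.mul_induction_on h1 ?_ ?_
  · rintro _ ⟨a, rfl⟩ v hv
    exact R1A7b_mul S n a v (ih v hv)
  · intro x y hx hy
    rw [map_add]
    exact Submodule.add_mem _ hx hy

/-- (`w` is a sum of products `ι g_1 ⋯ ι g_n`; `Submodule.pow_induction_on_left'` or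
`Submodule.span_induction`.) -/
theorem JJ_mem {n : ℕ} {w : TA k E} (hw : w ∈ Tn k E n) : S.JJ w ∈ S.Wt n 0 := by
  induction n generalizing w with
  | zero => exact R1A7b_zero S hw
  | succ n ih => exact R1A7b_succ S n (fun v hv => ih hv) hw

theorem bar_wd (w : List (ℕ × E)) (h : wt w ≠ 0) : S.bar (S.wd w) = 0 := by
  induction w with
  | nil => exact absurd wt_nil h
  | cons x w ih =>
    rw [wd_cons, map_mul, S.bar_L]
    by_cases h1 : x.1 = 0
    · rw [ih (by rw [wt_cons, h1, zero_add] at h; exact h), mul_zero]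
    · rw [if_neg h1, zero_mul]

theorem bar_wd' (w : List (ℕ × E)) (h : wt w = 0) : S.bar (S.wd w) = S.wd w := by
  induction w with
  | nil => exact map_one _
  | cons x w ih =>
    rw [wt_cons] at h
    have h1 : x.1 = 0 := by omega
    rw [wd_cons, map_mul, S.bar_L, if_pos h1, ih (by omega), h1]

theorem bars_wd (w : List (ℕ × E)) (h : wt w ≠ 0) : S.bars (S.wd w) = 0 := by
  induction w with
  | nil => exact absurd wt_nil h
  | cons x w ih =>
    rw [wd_cons, map_mul, S.bars_L]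
    by_cases h1 : x.1 = 0
    · rw [ih (by rw [wt_cons, h1, zero_add] at h; exact h), mul_zero]
    · rw [if_neg h1, zero_mul]

theorem bar_mem {n j : ℕ} {f : TA k D} (hf : f ∈ S.Wt n j) : S.bar f ∈ S.Wt n 0 := by
  refine S.Wt_map S.bar.toLinearMap (S.Wt n 0) (fun w hn _ => ?_) hf
  change S.bar (S.wd w) ∈ S.Wt n 0
  by_cases h : wt w = 0
  · rw [S.bar_wd' w h]
    exact S.wd_mem w hn h.le
  · rw [S.bar_wd w h]
    exact Submodule.zero_mem _

theorem bars_mem {n j : ℕ} {f : TA k D} (hf : f ∈ S.Wt n j) : S.bars f ∈ S.Wt n 0 := by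
  rw [bars_apply, S.sg_Wt hf, map_smul]
  exact Submodule.smul_mem _ _ (S.bar_mem hf)

theorem bar_zero {n : ℕ} {f : TA k D} (hf : f ∈ S.Wt n 0) : S.bar f = f := by
  refine S.Wt_eq S.bar.toLinearMap LinearMap.id (fun w _ h => ?_) hf
  change S.bar (S.wd w) = S.wd w
  exact S.bar_wd' w (Nat.le_zero.1 h)

theorem exists_JJ {n : ℕ} {f : TA k D} (hf : f ∈ S.Wt n 0) : ∃ w ∈ Tn k E n, S.JJ w = f :=
  ⟨S.BB f, S.BB_Tn n (S.Wt_le_Tn n 0 hf), by rw [JJ_BB, S.bar_zero hf]⟩

end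

end LS

end Pool.Agent.Helper77.R1
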